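import Mathlib
import Pool.Agent.H33.GG.Def

/-! Galois action on the components of Hilbert schemes of space curves, file M1 -/

section S_HF0

/-! # HF0: dimensions of the graded parts -/

open MvPolynomial Module

namespace Pool.H33.G

variable {F : Type} [Field F]

instance Fm_finite (n : ℕ) : FiniteDimensional F (Fm F n) :=
  Module.Finite.iff_fg.2 (homogeneousSubmodule_fg (Fin 4) F n)

instance part_finite (I : Ideal (A4 F)) (n : ℕ) : FiniteDimensional F (part I n) :=
  Submodule.finiteDimensional_of_le (inf_le_right : part I n ≤ Fm F n)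

theorem mem_part {I : Ideal (A4 F)} {n : ℕ} {f : A4 F} : f ∈ part I n ↔ f ∈ I ∧ f ∈ Fm F n :=
  Iff.rfl

theorem hf_nonneg (I : Ideal (A4 F)) (n : ℕ) : 0 ≤ hf I n := by
  unfold hf
  have h : finrank F (part I n) ≤ finrank F (Fm F n) :=
    Submodule.finrank_mono (inf_le_right : part I n ≤ Fm F n)
  omega

theorem part_mono {I J : Ideal (A4 F)} (h : I ≤ J) (n : ℕ) : part I n ≤ part J n :=
  fun _ hf => ⟨h hf.1, hf.2⟩

theorem hf_anti_part {I J : Ideal (A4 F)} {n : ℕ} (h : part I n ≤ part J n) : hf J n ≤ hf I n := by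
  unfold hf
  have h : finrank F (part I n) ≤ finrank F (part J n) := Submodule.finrank_mono h
  omega

theorem hf_anti {I J : Ideal (A4 F)} (h : I ≤ J) (n : ℕ) : hf J n ≤ hf I n :=
  hf_anti_part (part_mono h n)

theorem part_eq_of_hf_eq {I J : Ideal (A4 F)} {n : ℕ} (h : part I n ≤ part J n)
    (h2 : hf I n = hf J n) : part I n = part J n := by
  apply Submodule.eq_of_le_of_finrank_eq h
  unfold hf at h2
  omega

theorem hf_top (n : ℕ) : hf (⊤ : Ideal (A4 F)) n = 0 := by
  have h : part (⊤ : Ideal (A4 F)) n = Fm F n := by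
    apply le_antisymm inf_le_right
    intro f hf
    exact ⟨trivial, hf⟩
  unfold hf
  rw [h, sub_self]

end Pool.H33.G

end S_HF0

section S_HF1

/-! # HF1: homogeneous ideals (relate `HI` to `Ideal.IsHomogeneous (homogeneousSubmodule (Fin 4) F)` if convenient) -/

open MvPolynomial Module

namespace Pool.H33.G

variable {F : Type} [Field F]

attribute [local instance] MvPolynomial.gradedAlgebra

theorem HF1_dec (f : A4 F) (n : ℕ) :
    (DirectSum.decompose (homogeneousSubmodule (Fin 4) F) f n : A4 F) = homogeneousComponent n f :=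
  decomposition.decompose'_apply f n

theorem HF1_iff {I : Ideal (A4 F)} : HI I ↔ I.IsHomogeneous (homogeneousSubmodule (Fin 4) F) := by
  constructor
  · intro h i f hf
    rw [HF1_dec]
    exact h f hf i
  · intro h f hf n
    have := h n hf
    rwa [HF1_dec] at this

theorem HF1_mul_right {n m : ℕ} {f g : A4 F} (hg : g ∈ Fm F m) :
    homogeneousComponent (n + m) (f * g) = homogeneousComponent n f * g := by
  rw [← HF1_dec, ← HF1_dec]
  exact DirectSum.coe_decompose_mul_add_of_right_mem _ hg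

/-- a homogeneous ideal is determined by its parts -/
theorem le_of_part_le {I J : Ideal (A4 F)} (hI : HI I) (h : ∀ n, part I n ≤ part J n) : I ≤ J := by
  intro f hf
  rw [← sum_homogeneousComponent f]
  apply Ideal.sum_mem
  intro n _
  exact (h n ⟨hI f hf n, homogeneousComponent_mem n f⟩).1

theorem HI_top : HI (⊤ : Ideal (A4 F)) := fun _ _ _ => trivial

theorem HI_bot : HI (⊥ : Ideal (A4 F)) := by
  intro f hf n
  rw [Ideal.mem_bot] at hf
  rw [hf, map_zero]
  exact Ideal.zero_mem _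

theorem HI_span {s : Set (A4 F)} (h : ∀ f ∈ s, ∃ n, f ∈ Fm F n) : HI (Ideal.span s) := by
  rw [HF1_iff]
  exact Ideal.homogeneous_span _ s h

theorem HI_inf {I J : Ideal (A4 F)} (hI : HI I) (hJ : HI J) : HI (I ⊓ J) :=
  fun f hf n => ⟨hI f hf.1 n, hJ f hf.2 n⟩

theorem HI_iInf {α : Sort*} {I : α → Ideal (A4 F)} (hI : ∀ a, HI (I a)) : HI (⨅ a, I a) := by
  intro f hf n
  rw [Submodule.mem_iInf] at hf ⊢
  exact fun a => hI a f (hf a) n

theorem HI_finset_inf {α : Type*} {s : Finset α} {I : α → Ideal (A4 F)} (hI : ∀ a ∈ s, HI (I a)) :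
    HI (s.inf I) := by
  intro f hf n
  rw [Submodule.mem_finsetInf] at hf ⊢
  exact fun a ha => hI a ha f (hf a ha) n

theorem HI_sup {I J : Ideal (A4 F)} (hI : HI I) (hJ : HI J) : HI (I ⊔ J) := by
  rw [HF1_iff] at *
  exact hI.sup hJ

theorem HI_mul {I J : Ideal (A4 F)} (hI : HI I) (hJ : HI J) : HI (I * J) := by
  rw [HF1_iff] at *
  exact hI.mul hJ

theorem HI_pow {I : Ideal (A4 F)} (hI : HI I) (n : ℕ) : HI (I ^ n) := by
  induction n with
  | zero => rw [pow_zero, Ideal.one_eq_top]; exact HI_top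
  | succ n ih => rw [pow_succ]; exact HI_mul ih hI

theorem HI_cln {I J : Ideal (A4 F)} (hI : HI I) (hJ : HI J) : HI (cln I J) := by
  intro f hf n
  show ∀ g ∈ J, homogeneousComponent n f * g ∈ I
  intro g hg
  rw [← sum_homogeneousComponent g, Finset.mul_sum]
  apply Ideal.sum_mem
  intro m _
  rw [← HF1_mul_right (homogeneousComponent_mem m g)]
  apply hI
  exact hf _ (hJ g hg m)

/-- homogeneous ideals are generated by finitely many homogeneous elements -/
theorem HI_fg {I : Ideal (A4 F)} (hI : HI I) :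
    ∃ s : Finset (A4 F), (∀ f ∈ s, ∃ n, f ∈ Fm F n) ∧ Ideal.span (s : Set (A4 F)) = I := by
  classical
  obtain ⟨t, ht⟩ : I.FG := IsNoetherian.noetherian I
  refine ⟨t.biUnion fun f => (Finset.range (f.totalDegree + 1)).image
    fun n => homogeneousComponent n f, ?_, ?_⟩
  · intro f hf
    obtain ⟨g, _, hg⟩ := Finset.mem_biUnion.1 hf
    obtain ⟨n, _, rfl⟩ := Finset.mem_image.1 hg
    exact ⟨n, homogeneousComponent_mem n g⟩
  · apply le_antisymm
    · rw [Ideal.span_le]
      intro f hf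
      obtain ⟨g, hgt, hg⟩ := Finset.mem_biUnion.1 (Finset.mem_coe.1 hf)
      obtain ⟨n, _, rfl⟩ := Finset.mem_image.1 hg
      apply hI
      rw [← ht]
      exact Ideal.subset_span hgt
    · conv_lhs => rw [← ht]
      apply Submodule.span_le.2
      intro f hf
      show f ∈ Ideal.span _
      rw [← sum_homogeneousComponent f]
      apply Ideal.sum_mem
      intro n hn
      apply Ideal.subset_span
      exact Finset.mem_coe.2 (Finset.mem_biUnion.2 ⟨f, hf, Finset.mem_image.2 ⟨n, hn, rfl⟩⟩)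

/-- primality can be tested on homogeneous elements -/
theorem HI_isPrime {I : Ideal (A4 F)} (hI : HI I) (hne : I ≠ ⊤)
    (h : ∀ a b : ℕ, ∀ f ∈ Fm F a, ∀ g ∈ Fm F b, f * g ∈ I → f ∈ I ∨ g ∈ I) : I.IsPrime := by
  apply (HF1_iff.1 hI).isPrime_of_homogeneous_mem_or_mem hne
  rintro f g ⟨a, ha⟩ ⟨b, hb⟩ hfg
  exact h a b f ha g hb hfg

end Pool.H33.G

end S_HF1

section S_HF2

/-! # HF2: exact sequences for Hilbert functions

`hf_inf_add_sup`: `part (I ⊔ J) n = part I n ⊔ part J n` for homogeneous ideals (take homogeneous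
components), `part (I ⊓ J) n = part I n ⊓ part J n`, `Submodule.finrank_sup_add_finrank_inf_eq`.
`hf_colon`: multiplication by `f` maps `part ⊤ n` onto `part (span {f}) (n+a)` (homogeneous components) and the
preimage of `I` is `part (cln I (span {f})) n`; for `f ≠ 0` it is injective; for `f = 0` the colon ideal is `⊤`.
`part_gen`: `HI_fg`; for `n ≥ r ≥ deg g_i` every form of degree `n - deg g_i` is a sum of products of forms of
degrees `n - r` and `r - deg g_i`. -/

open MvPolynomial Module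

namespace Pool.H33.G

variable {F : Type} [Field F]

theorem HF2_hc_self {n : ℕ} {x : A4 F} (hx : x ∈ Fm F n) : homogeneousComponent n x = x := by
  rw [homogeneousComponent_of_mem hx, if_pos rfl]

theorem HF2_hc_mem (n : ℕ) (x : A4 F) : homogeneousComponent n x ∈ Fm F n :=
  homogeneousComponent_mem n x

theorem HF2_mul_mem {m n : ℕ} {x y : A4 F} (hx : x ∈ Fm F m) (hy : y ∈ Fm F n) :
    x * y ∈ Fm F (m + n) :=
  IsHomogeneous.mul hx hy

/-- homogeneous components of a product with a form -/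
theorem HF2_hc_mul {a : ℕ} {f : A4 F} (hf' : f ∈ Fm F a) (n : ℕ) (c : A4 F) :
    homogeneousComponent (n + a) (c * f) = homogeneousComponent n c * f := by
  conv_lhs => rw [← sum_homogeneousComponent c]
  rw [Finset.sum_mul, map_sum]
  have h1 : ∀ i ∈ Finset.range (c.totalDegree + 1),
      homogeneousComponent (n + a) (homogeneousComponent i c * f) =
        if n = i then homogeneousComponent n c * f else 0 := by
    intro i _
    rw [homogeneousComponent_of_mem (HF2_mul_mem (HF2_hc_mem i c) hf')]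
    by_cases h : n = i
    · subst h; simp
    · rw [if_neg (by omega), if_neg h]
  rw [Finset.sum_congr rfl h1, Finset.sum_ite_eq]
  split_ifs with h2
  · rfl
  · rw [homogeneousComponent_eq_zero, zero_mul]
    rw [Finset.mem_range] at h2
    omega

theorem HF2_hc_mul_lt {a : ℕ} {f : A4 F} (hf' : f ∈ Fm F a) {n : ℕ} (hn : n < a) (c : A4 F) :
    homogeneousComponent n (c * f) = 0 := by
  conv_lhs => rw [← sum_homogeneousComponent c]
  rw [Finset.sum_mul, map_sum]
  refine Finset.sum_eq_zero fun i _ => ?_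
  rw [homogeneousComponent_of_mem (HF2_mul_mem (HF2_hc_mem i c) hf'), if_neg (by omega)]

theorem HF2_part_inf (I J : Ideal (A4 F)) (n : ℕ) : part (I ⊓ J) n = part I n ⊓ part J n := by
  ext x
  rw [Submodule.mem_inf, mem_part, mem_part, mem_part, Ideal.mem_inf]
  tauto

theorem HF2_part_sup {I J : Ideal (A4 F)} (hI : HI I) (hJ : HI J) (n : ℕ) :
    part (I ⊔ J) n = part I n ⊔ part J n := by
  apply le_antisymm
  · intro x hx
    rw [mem_part] at hx
    obtain ⟨hx1, hx2⟩ := hx
    obtain ⟨y, hy, z, hz, hyz⟩ := Submodule.mem_sup.1 hx1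
    rw [Submodule.mem_sup]
    refine ⟨homogeneousComponent n y, ?_, homogeneousComponent n z, ?_, ?_⟩
    · rw [mem_part]; exact ⟨hI y hy n, HF2_hc_mem n y⟩
    · rw [mem_part]; exact ⟨hJ z hz n, HF2_hc_mem n z⟩
    · rw [← map_add, hyz, HF2_hc_self hx2]
  · exact sup_le (part_mono le_sup_left n) (part_mono le_sup_right n)

theorem hf_inf_add_sup {I J : Ideal (A4 F)} (hI : HI I) (hJ : HI J) (n : ℕ) :
    hf (I ⊓ J) n + hf (I ⊔ J) n = hf I n + hf J n := by
  have h := Submodule.finrank_sup_add_finrank_inf_eq (part I n) (part J n)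
  unfold hf
  rw [HF2_part_sup hI hJ, HF2_part_inf]
  omega

theorem hf_inf_le {I J : Ideal (A4 F)} (hI : HI I) (hJ : HI J) (n : ℕ) :
    hf (I ⊓ J) n ≤ hf I n + hf J n := by
  have h := hf_inf_add_sup hI hJ n
  have h2 := hf_nonneg (I ⊔ J) n
  omega

theorem hf_finset_inf_le {α : Type*} {s : Finset α} {I : α → Ideal (A4 F)}
    (hI : ∀ a ∈ s, HI (I a)) (n : ℕ) : hf (s.inf I) n ≤ ∑ a ∈ s, hf (I a) n := by
  classical
  induction s using Finset.induction_on with
  | empty => rw [Finset.inf_empty, hf_top]; simp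
  | insert a s ha ih =>
    rw [Finset.inf_insert, Finset.sum_insert ha]
    have h1 : HI (I a) := hI a (Finset.mem_insert_self a s)
    have h2 : ∀ b ∈ s, HI (I b) := fun b hb => hI b (Finset.mem_insert_of_mem hb)
    have h3 := hf_inf_le h1 (HI_finset_inf h2) n
    have h4 := ih h2
    omega

theorem HF2_HI_span {a : ℕ} {f : A4 F} (hf' : f ∈ Fm F a) : HI (Ideal.span {f}) := by
  apply HI_span
  intro g hg
  rw [Set.mem_singleton_iff] at hg
  subst hg
  exact ⟨a, hf'⟩

/-- multiplication by `f` as a linear map -/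
noncomputable def HF2_mulL (f : A4 F) : A4 F →ₗ[F] A4 F := LinearMap.mulRight F f

theorem HF2_mulL_apply (f c : A4 F) : HF2_mulL f c = c * f := rfl

theorem HF2_mulL_inj {f : A4 F} (hf0 : f ≠ 0) : Function.Injective (HF2_mulL f) := by
  intro x y hxy
  rw [HF2_mulL_apply, HF2_mulL_apply] at hxy
  exact mul_right_cancel₀ hf0 hxy

theorem HF2_finrank_map {f : A4 F} (hf0 : f ≠ 0) (V : Submodule F (A4 F)) :
    finrank F (V.map (HF2_mulL f)) = finrank F V :=
  ((V.equivMapOfInjective (HF2_mulL f) (HF2_mulL_inj hf0)).finrank_eq).symm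

theorem HF2_mem_cln {I : Ideal (A4 F)} {f x : A4 F} :
    x ∈ cln I (Ideal.span {f}) ↔ x * f ∈ I := by
  constructor
  · intro h
    exact h f (Ideal.mem_span_singleton_self f)
  · intro h g hg
    obtain ⟨c, rfl⟩ := Ideal.mem_span_singleton'.1 hg
    have : x * (c * f) = c * (x * f) := by ring
    rw [this]
    exact I.mul_mem_left c h

theorem HF2_part_span {a : ℕ} {f : A4 F} (hf' : f ∈ Fm F a) (n : ℕ) :
    part (Ideal.span {f}) (n + a) = (Fm F n).map (HF2_mulL f) := by
  ext x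
  rw [mem_part, Submodule.mem_map]
  constructor
  · rintro ⟨h1, h2⟩
    obtain ⟨c, rfl⟩ := Ideal.mem_span_singleton'.1 h1
    refine ⟨homogeneousComponent n c, HF2_hc_mem n c, ?_⟩
    rw [HF2_mulL_apply, ← HF2_hc_mul hf', HF2_hc_self h2]
  · rintro ⟨c, hc, rfl⟩
    rw [HF2_mulL_apply]
    exact ⟨Ideal.mem_span_singleton'.2 ⟨c, rfl⟩, HF2_mul_mem hc hf'⟩

theorem HF2_part_inf_span {I : Ideal (A4 F)} {a : ℕ} {f : A4 F} (hf' : f ∈ Fm F a) (n : ℕ) :
    part (I ⊓ Ideal.span {f}) (n + a) = (part (cln I (Ideal.span {f})) n).map (HF2_mulL f) := by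
  ext x
  rw [mem_part, Submodule.mem_map]
  constructor
  · rintro ⟨h1, h2⟩
    obtain ⟨h3, h4⟩ := Ideal.mem_inf.1 h1
    obtain ⟨c, rfl⟩ := Ideal.mem_span_singleton'.1 h4
    have h5 : homogeneousComponent n c * f = c * f := by
      rw [← HF2_hc_mul hf', HF2_hc_self h2]
    refine ⟨homogeneousComponent n c, ?_, ?_⟩
    · rw [mem_part, HF2_mem_cln, h5]
      exact ⟨h3, HF2_hc_mem n c⟩
    · rw [HF2_mulL_apply, h5]
  · rintro ⟨c, hc, rfl⟩
    rw [mem_part, HF2_mem_cln] at hc
    rw [HF2_mulL_apply]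
    exact ⟨Ideal.mem_inf.2 ⟨hc.1, Ideal.mem_span_singleton'.2 ⟨c, rfl⟩⟩, HF2_mul_mem hc.2 hf'⟩

/-- exact sequence for multiplication by a form -/
theorem hf_colon {I : Ideal (A4 F)} (hI : HI I) {a : ℕ} {f : A4 F} (hf' : f ∈ Fm F a) (n : ℕ) :
    hf I (n + a) = hf (I ⊔ Ideal.span {f}) (n + a) + hf (cln I (Ideal.span {f})) n := by
  by_cases hf0 : f = 0
  · have h1 : Ideal.span {f} = (⊥ : Ideal (A4 F)) := by
      rw [hf0]; exact Ideal.span_singleton_eq_bot.2 rfl
    have h2 : cln I (Ideal.span {f}) = ⊤ := by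
      rw [Ideal.eq_top_iff_one, HF2_mem_cln, hf0, mul_zero]
      exact I.zero_mem
    rw [h2, h1, hf_top, sup_bot_eq, add_zero]
  · have h := hf_inf_add_sup hI (HF2_HI_span hf') (n + a)
    have h1 : hf (I ⊓ Ideal.span {f}) (n + a) =
        (finrank F (Fm F (n + a)) : ℤ) - finrank F (part (cln I (Ideal.span {f})) n) := by
      unfold hf
      rw [HF2_part_inf_span hf', HF2_finrank_map hf0]
    have h2 : hf (Ideal.span {f}) (n + a) =
        (finrank F (Fm F (n + a)) : ℤ) - finrank F (Fm F n) := by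
      unfold hf
      rw [HF2_part_span hf', HF2_finrank_map hf0]
    have h3 : hf (cln I (Ideal.span {f})) n =
        (finrank F (Fm F n) : ℤ) - finrank F (part (cln I (Ideal.span {f})) n) := rfl
    omega

theorem hf_colon_lt {I : Ideal (A4 F)} (hI : HI I) {a : ℕ} {f : A4 F} (hf' : f ∈ Fm F a) {n : ℕ}
    (hn : n < a) : hf I n = hf (I ⊔ Ideal.span {f}) n := by
  have h1 : part (Ideal.span {f}) n = ⊥ := by
    rw [eq_bot_iff]
    intro x hx
    rw [mem_part] at hx
    obtain ⟨h1, h2⟩ := hx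
    obtain ⟨c, rfl⟩ := Ideal.mem_span_singleton'.1 h1
    rw [Submodule.mem_bot, ← HF2_hc_self h2, HF2_hc_mul_lt hf' hn]
  unfold hf
  rw [HF2_part_sup hI (HF2_HI_span hf'), h1, sup_bot_eq]

/-- a form of degree at least `k` is in the ideal generated by the products with forms of
degree `k` -/
theorem HF2_form_mul_mem {K : Ideal (A4 F)} {k m : ℕ} (hkm : k ≤ m) {g : A4 F}
    (hK : ∀ c ∈ Fm F k, c * g ∈ K) {c : A4 F} (hc : c ∈ Fm F m) : c * g ∈ K := by
  rw [c.as_sum, Finset.sum_mul]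
  refine K.sum_mem fun d hd => ?_
  have hd1 : d.degree = m := by
    by_contra hne
    have := IsHomogeneous.coeff_eq_zero hc hne
    exact (MvPolynomial.mem_support_iff.1 hd) this
  obtain ⟨e, hed, he⟩ := Finsupp.exists_le_degree_eq d k (by omega)
  have h1 : monomial d (coeff d c) = monomial (d - e) (coeff d c) * monomial e (1 : F) := by
    rw [monomial_mul, mul_one, tsub_add_cancel_of_le hed]
  rw [h1, mul_assoc]
  exact K.mul_mem_left _ (hK _ (isHomogeneous_monomial 1 he))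

/-- the parts of a homogeneous ideal are eventually generated by any of them -/
theorem part_gen {I : Ideal (A4 F)} (hI : HI I) :
    ∃ r1 : ℕ, ∀ r ≥ r1, ∀ n ≥ r, part (Ideal.span (part I r : Set (A4 F))) n = part I n := by
  classical
  obtain ⟨s, hs, hsI⟩ := HI_fg hI
  choose! dg hdg using hs
  refine ⟨s.sup dg, fun r hr n hn => ?_⟩
  have hle : Ideal.span (part I r : Set (A4 F)) ≤ I := by
    rw [Ideal.span_le]
    intro x hx
    exact (mem_part.1 hx).1
  apply le_antisymm (part_mono hle n)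
  intro x hx
  rw [mem_part] at hx ⊢
  refine ⟨?_, hx.2⟩
  have hx1 : x ∈ Ideal.span (s : Set (A4 F)) := by rw [hsI]; exact hx.1
  obtain ⟨c, hc⟩ := Submodule.mem_span_finset'.1 hx1
  have hx2 : x = homogeneousComponent n x := (HF2_hc_self hx.2).symm
  rw [hx2, ← hc, map_sum]
  refine Ideal.sum_mem _ fun g _ => ?_
  have hg1 : dg g ≤ r := le_trans (Finset.le_sup g.2) hr
  have hn2 : n = (n - dg g) + dg g := by omega
  rw [smul_eq_mul, hn2, HF2_hc_mul (hdg g g.2)]
  refine HF2_form_mul_mem (k := r - dg g) (m := n - dg g) (by omega) ?_ (HF2_hc_mem _ _)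
  intro e he
  refine Ideal.subset_span ?_
  show e * g ∈ part I r
  rw [mem_part]
  refine ⟨I.mul_mem_left _ ?_, ?_⟩
  · rw [← hsI]; exact Ideal.subset_span g.2
  · have h3 := HF2_mul_mem he (hdg g g.2)
    have h4 : r - dg g + dg g = r := by omega
    rwa [h4] at h3

end Pool.H33.G

end S_HF2

section S_HP

/-! # HP: existence of Hilbert polynomials, the predicate `Lin`

`hilbert_poly`: Noetherian induction on homogeneous ideals `I` (all strictly larger homogeneous ideals
have a Hilbert polynomial).  If `I = ⊤`: `hf = 0`.  If `I` is not prime: by `HI_isPrime` there are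
forms `f, g ∉ I` with `f * g ∈ I`; then `I < I ⊔ (f)`, `I < cln I (f)` and `hf_colon`.
If `I` is prime and contains all `X i`: `part I n = Fm F n` for `n ≥ 1`, so `hf I n = 0`.
If `I` is prime and `X i ∉ I`: `cln I (X i) = I`, so `hf I (n+1) - hf I n = hf (I ⊔ (X i)) (n+1)` is
eventually a polynomial, hence so is `hf I n` (sum a polynomial: e.g. by induction on the degree, or
`Polynomial.exists..`/ via binomial basis). -/

open MvPolynomial Module

namespace Pool.H33.G

variable {F : Type} [Field F]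

/-- the sums of the values of a polynomial are the values of a polynomial -/
theorem HP_sum_poly (P : Polynomial ℚ) :
    ∃ Q : Polynomial ℚ, ∀ n : ℕ, ∑ k ∈ Finset.range n, P.eval (k : ℚ) = Q.eval (n : ℚ) := by
  induction P using Polynomial.induction_on' with
  | add P1 P2 h1 h2 =>
    obtain ⟨Q1, h1⟩ := h1
    obtain ⟨Q2, h2⟩ := h2
    refine ⟨Q1 + Q2, fun n => ?_⟩
    simp only [Polynomial.eval_add, Finset.sum_add_distrib]
    rw [h1, h2]
  | monomial p a =>
    refine ⟨∑ i ∈ Finset.range (p + 1), Polynomial.C (a * (bernoulli i * ((p + 1).choose i) / (p + 1)))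
      * Polynomial.X ^ (p + 1 - i), fun n => ?_⟩
    simp only [Polynomial.eval_monomial, Polynomial.eval_finsetSum, Polynomial.eval_mul,
      Polynomial.eval_C, Polynomial.eval_pow, Polynomial.eval_X]
    rw [← Finset.mul_sum, sum_range_pow, Finset.mul_sum]
    refine Finset.sum_congr rfl fun i _ => ?_
    ring

/-- if the differences of `g` are eventually polynomial, so is `g` -/
theorem HP_antidiff {g : ℕ → ℤ} (h : ∃ (P : Polynomial ℚ) (n0 : ℕ), ∀ n ≥ n0,
    ((g (n + 1) : ℤ) : ℚ) - g n = P.eval (n : ℚ)) :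
    ∃ (Q : Polynomial ℚ) (n0 : ℕ), ∀ n ≥ n0, ((g n : ℤ) : ℚ) = Q.eval (n : ℚ) := by
  obtain ⟨P, n0, hP⟩ := h
  obtain ⟨Q, hQ⟩ := HP_sum_poly P
  refine ⟨Q + Polynomial.C (((g n0 : ℤ) : ℚ) - Q.eval (n0 : ℚ)), n0, fun n hn => ?_⟩
  induction n, hn using Nat.le_induction with
  | base => simp
  | succ n hn ih =>
    have h1 := hP n hn
    have h2 : Q.eval ((n + 1 : ℕ) : ℚ) = Q.eval (n : ℚ) + P.eval (n : ℚ) := by
      rw [← hQ, ← hQ, Finset.sum_range_succ]
    rw [Polynomial.eval_add, Polynomial.eval_C] at ih ⊢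
    rw [h2]
    linarith

theorem HP_part_eq_of_X {I : Ideal (A4 F)} (h : ∀ i, (X i : A4 F) ∈ I) {n : ℕ} (hn : 1 ≤ n) :
    part I n = Fm F n := by
  apply le_antisymm
  · intro x hx
    exact (mem_part.1 hx).2
  · intro x hx
    rw [mem_part]
    refine ⟨?_, hx⟩
    rw [x.as_sum]
    refine I.sum_mem fun d hd => ?_
    have hd1 : d.degree = n := by
      by_contra hne
      have := IsHomogeneous.coeff_eq_zero hx hne
      exact (MvPolynomial.mem_support_iff.1 hd) this
    obtain ⟨e, hed, he⟩ := Finsupp.exists_le_degree_eq d 1 (by omega)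
    have h1 : monomial d (coeff d x) = monomial (d - e) (coeff d x) * monomial e (1 : F) := by
      rw [monomial_mul, mul_one, tsub_add_cancel_of_le hed]
    rw [h1]
    refine I.mul_mem_left _ ?_
    have he0 : e ≠ 0 := by
      rintro rfl
      simp at he
    obtain ⟨i, hi⟩ := Finsupp.ne_iff.1 he0
    have hi1 : Finsupp.single i 1 ≤ e := by
      rw [Finsupp.single_le_iff]
      exact Nat.one_le_iff_ne_zero.2 hi
    have h2 : (monomial e (1 : F) : A4 F) = monomial (e - Finsupp.single i 1) 1 * X i := by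
      rw [X, monomial_mul, mul_one, tsub_add_cancel_of_le hi1]
    rw [h2]
    exact I.mul_mem_left _ (h i)

theorem HP_X_mem (i : Fin 4) : (X i : A4 F) ∈ Fm F 1 := isHomogeneous_X F i

theorem hilbert_poly {I : Ideal (A4 F)} (hI : HI I) :
    ∃ (Q : Polynomial ℚ) (n0 : ℕ), ∀ n ≥ n0, ((hf I n : ℤ) : ℚ) = Q.eval (n : ℚ) := by
  revert hI
  induction I using WellFoundedGT.induction with
  | _ I ih =>
  intro hI
  by_cases htop : I = ⊤
  · subst htop
    exact ⟨0, 0, fun n _ => by rw [hf_top]; simp⟩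
  by_cases hp : I.IsPrime
  · by_cases hX : ∀ i, (X i : A4 F) ∈ I
    · refine ⟨0, 1, fun n hn => ?_⟩
      unfold hf
      rw [HP_part_eq_of_X hX hn]
      simp
    · push Not at hX
      obtain ⟨i, hi⟩ := hX
      have hsp : HI (Ideal.span {(X i : A4 F)}) := HF2_HI_span (HP_X_mem i)
      have hlt : I < I ⊔ Ideal.span {(X i : A4 F)} := by
        refine lt_of_le_of_ne le_sup_left fun he => hi ?_
        rw [he]
        exact Ideal.mem_sup_right (Ideal.mem_span_singleton_self _)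
      obtain ⟨Q, n0, hQ⟩ := ih _ hlt (HI_sup hI hsp)
      have hcln : cln I (Ideal.span {(X i : A4 F)}) = I := by
        ext x
        rw [HF2_mem_cln]
        constructor
        · intro h
          rcases hp.mem_or_mem h with h | h
          · exact h
          · exact absurd h hi
        · intro h
          exact I.mul_mem_right _ h
      apply HP_antidiff
      refine ⟨Q.comp (Polynomial.X + 1), n0, fun n hn => ?_⟩
      have h1 := hf_colon hI (HP_X_mem i) n
      rw [hcln] at h1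
      have h2 := hQ (n + 1) (by omega)
      rw [Polynomial.eval_comp, Polynomial.eval_add, Polynomial.eval_X, Polynomial.eval_one, h1]
      push_cast at h2 ⊢
      rw [← h2]
      ring
  · have hex : ∃ a b : ℕ, ∃ f ∈ Fm F a, ∃ g ∈ Fm F b, f * g ∈ I ∧ f ∉ I ∧ g ∉ I := by
      by_contra hno
      apply hp
      refine HI_isPrime hI htop fun a b f hf' g hg hfg => ?_
      by_contra hcon
      push Not at hcon
      exact hno ⟨a, b, f, hf', g, hg, hfg, hcon.1, hcon.2⟩
    obtain ⟨a, b, f, hf', g, hg, hfg, hfI, hgI⟩ := hex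
    have hsp : HI (Ideal.span {f}) := HF2_HI_span hf'
    have hlt1 : I < I ⊔ Ideal.span {f} := by
      refine lt_of_le_of_ne le_sup_left fun he => hfI ?_
      rw [he]
      exact Ideal.mem_sup_right (Ideal.mem_span_singleton_self _)
    have hlt2 : I < cln I (Ideal.span {f}) := by
      refine lt_of_le_of_ne ?_ fun he => hgI ?_
      · intro x hx
        rw [HF2_mem_cln]
        exact I.mul_mem_right _ hx
      · rw [he, HF2_mem_cln, mul_comm]
        exact hfg
    obtain ⟨Q1, n1, hQ1⟩ := ih _ hlt1 (HI_sup hI hsp)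
    obtain ⟨Q2, n2, hQ2⟩ := ih _ hlt2 (HI_cln hI hsp)
    refine ⟨Q1 + Q2.comp (Polynomial.X - Polynomial.C (a : ℚ)), n1 + n2 + a, fun n hn => ?_⟩
    obtain ⟨m, rfl⟩ : ∃ m, n = m + a := ⟨n - a, by omega⟩
    rw [hf_colon hI hf' m, Int.cast_add, hQ1 (m + a) (by omega), hQ2 m (by omega),
      Polynomial.eval_add, Polynomial.eval_comp, Polynomial.eval_sub, Polynomial.eval_X,
      Polynomial.eval_C]
    push_cast
    rw [add_sub_cancel_right]

/-- a polynomial with `|Q n| ≤ c (n+1)` for large `n` has degree at most one -/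
theorem HP_degree_le {Q : Polynomial ℚ} {c : ℚ} {n0 : ℕ}
    (h : ∀ n : ℕ, n0 ≤ n → |Q.eval (n : ℚ)| ≤ c * (n + 1)) : Q.natDegree ≤ 1 := by
  by_contra hcon
  push Not at hcon
  have hd : (Polynomial.X + 1 : Polynomial ℚ).degree < Q.degree := by
    have h1 : (Polynomial.X + 1 : Polynomial ℚ).degree = 1 := by
      have := Polynomial.degree_X_add_C (1 : ℚ)
      simpa using this
    rw [h1]
    by_contra hle
    push Not at hle
    have h2 : Q.natDegree ≤ 1 := Polynomial.natDegree_le_of_degree_le hle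
    omega
  have hne : (Polynomial.X + 1 : Polynomial ℚ) ≠ 0 := by
    intro h0
    have := congrArg (Polynomial.eval (0 : ℚ)) h0
    simp at this
  have ht := Polynomial.abs_div_tendsto_atTop_atTop_of_degree_gt Q (Polynomial.X + 1) hd hne
  have ht2 := ht.comp (tendsto_natCast_atTop_atTop (R := ℚ))
  have ht3 := (ht2.eventually_gt_atTop c).and (Filter.eventually_ge_atTop n0)
  obtain ⟨n, hn1, hn2⟩ := ht3.exists
  simp only [Function.comp_apply, Polynomial.eval_add, Polynomial.eval_X, Polynomial.eval_one] at hn1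
  have h1 := h n hn2
  have hpos : (0 : ℚ) < (n : ℚ) + 1 := by positivity
  rw [abs_div, abs_of_pos hpos, lt_div_iff₀ hpos] at hn1
  linarith

/-- an (integer valued) polynomial with `0 ≤ Q n ≤ c (n+1)` is linear -/
theorem exists_Lin {I : Ideal (A4 F)} (hI : HI I) {c : ℤ} (h : ∀ n : ℕ, hf I n ≤ c * (n + 1)) :
    ∃ e c', Lin I e c' := by
  obtain ⟨Q, n0, hQ⟩ := hilbert_poly hI
  have hdeg : Q.natDegree ≤ 1 := by
    apply HP_degree_le (c := (c : ℚ)) (n0 := n0)
    intro n hn
    rw [← hQ n hn, abs_of_nonneg (by exact_mod_cast hf_nonneg I n)]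
    exact_mod_cast h n
  obtain ⟨a, b, hab⟩ : ∃ a b : ℚ, Q = Polynomial.C a * Polynomial.X + Polynomial.C b :=
    ⟨_, _, Polynomial.eq_X_add_C_of_natDegree_le_one hdeg⟩
  have hev : ∀ n ≥ n0, ((hf I n : ℤ) : ℚ) = a * n + b := by
    intro n hn
    rw [hQ n hn, hab]
    simp
  set A : ℤ := hf I (n0 + 1) - hf I n0 with hA
  set B : ℤ := hf I n0 - A * n0 with hB
  have ha : (A : ℚ) = a := by
    rw [hA]
    push_cast
    rw [hev n0 le_rfl, hev (n0 + 1) (by omega)]
    push_cast
    ring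
  have hb : (B : ℚ) = b := by
    rw [hB]
    push_cast
    rw [hev n0 le_rfl, ha]
    ring
  have hev2 : ∀ n ≥ n0, hf I n = A * n + B := by
    intro n hn
    have h1 := hev n hn
    rw [← ha, ← hb] at h1
    exact_mod_cast h1
  have hA0 : 0 ≤ A := by
    by_contra hneg
    push Not at hneg
    have h1 := hev2 (n0 + B.toNat + 1) (by omega)
    have h2 := hf_nonneg I (n0 + B.toNat + 1)
    have h3 : B ≤ B.toNat := Int.self_le_toNat B
    push_cast at h1
    nlinarith [Int.natCast_nonneg n0, Int.natCast_nonneg B.toNat]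
  refine ⟨A.toNat, B, n0, fun n hn => ?_⟩
  rw [hev2 n hn, Int.toNat_of_nonneg hA0]

theorem Lin_unique {I : Ideal (A4 F)} {e e' : ℕ} {c c' : ℤ} (h : Lin I e c) (h' : Lin I e' c') :
    e = e' ∧ c = c' := by
  obtain ⟨n0, h⟩ := h
  obtain ⟨n1, h'⟩ := h'
  have h1 := h (n0 + n1) (by omega)
  have h2 := h' (n0 + n1) (by omega)
  have h3 := h (n0 + n1 + 1) (by omega)
  have h4 := h' (n0 + n1 + 1) (by omega)
  rw [h1] at h2
  rw [h3] at h4
  push_cast at h2 h4
  have h5 : (e : ℤ) = e' := by linarith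
  refine ⟨by exact_mod_cast h5, ?_⟩
  rw [h5] at h2
  linarith

theorem Lin_bound {I : Ideal (A4 F)} {e : ℕ} {c : ℤ} (h : Lin I e c) :
    ∃ c' : ℤ, ∀ n : ℕ, |hf I n - e * n| ≤ c' := by
  obtain ⟨n0, h⟩ := h
  refine ⟨|c| + ∑ m ∈ Finset.range n0, |hf I m - e * m|, fun n => ?_⟩
  have hs : 0 ≤ ∑ m ∈ Finset.range n0, |hf I m - e * m| :=
    Finset.sum_nonneg fun m _ => abs_nonneg _
  by_cases hn : n0 ≤ n
  · rw [h n hn]
    have : (e : ℤ) * n + c - e * n = c := by ring
    rw [this]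
    linarith
  · have h1 : |hf I n - e * n| ≤ ∑ m ∈ Finset.range n0, |hf I m - e * m| :=
      Finset.single_le_sum (f := fun m : ℕ => |hf I m - e * m|) (fun m _ => abs_nonneg _)
        (Finset.mem_range.2 (by omega))
    have h2 := abs_nonneg c
    linarith

/-- comparison of slopes -/
theorem HP_slope {A B e e' : ℤ} {n0 : ℕ} (h : ∀ n : ℕ, n0 ≤ n → e * n + A ≤ e' * n + B) :
    e ≤ e' := by
  by_contra hcon
  push Not at hcon
  have h1 := h (n0 + (B - A).toNat + 1) (by omega)
  have h2 : B - A ≤ (B - A).toNat := Int.self_le_toNat _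
  push_cast at h1
  nlinarith [Int.natCast_nonneg n0, Int.natCast_nonneg (B - A).toNat]

theorem HP_Lin_le {I : Ideal (A4 F)} {e : ℕ} {c : ℤ} (h : Lin I e c) {e' : ℕ} {c' : ℤ}
    (h' : ∃ n0 : ℕ, ∀ n ≥ n0, hf I n ≤ e' * n + c') : e ≤ e' := by
  obtain ⟨n0, h⟩ := h
  obtain ⟨n1, h'⟩ := h'
  have := HP_slope (A := c) (B := c') (e := e) (e' := e') (n0 := n0 + n1) fun n hn => by
    rw [← h n (by omega)]
    exact h' n (by omega)
  exact_mod_cast this

theorem exists_Lin_of_le {I J : Ideal (A4 F)} (hJ : HI J) (hIJ : I ≤ J) {e : ℕ} {c : ℤ}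
    (h : Lin I e c) : ∃ e' c', e' ≤ e ∧ Lin J e' c' := by
  obtain ⟨c1, hc1⟩ := Lin_bound h
  have hb : ∀ n : ℕ, hf J n ≤ e * n + c1 := by
    intro n
    have h1 := hf_anti hIJ n
    have h2 := (abs_le.1 (hc1 n)).2
    linarith
  have hc0 : 0 ≤ c1 := le_trans (abs_nonneg _) (hc1 0)
  obtain ⟨e', c', hL⟩ := exists_Lin hJ (c := e + c1) fun n => by
    have h1 := hb n
    have h2 : (0 : ℤ) ≤ n := Int.natCast_nonneg n
    have h3 : (0 : ℤ) ≤ e := Int.natCast_nonneg e
    nlinarith
  exact ⟨e', c', HP_Lin_le hL ⟨0, fun n _ => hb n⟩, hL⟩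

theorem Lin_Bdd_iff {I : Ideal (A4 F)} {e : ℕ} {c : ℤ} (h : Lin I e c) : Bdd I ↔ e = 0 := by
  constructor
  · rintro ⟨C, hC⟩
    have := HP_Lin_le h (e' := 0) (c' := C) ⟨0, fun n _ => by
      have := hC n
      push_cast
      linarith⟩
    omega
  · intro he
    subst he
    obtain ⟨c', hc'⟩ := Lin_bound h
    refine ⟨c', fun n => ?_⟩
    have := (abs_le.1 (hc' n)).2
    push_cast at this
    linarith

/-- comparison of slopes -/
theorem Lin_le {I : Ideal (A4 F)} {e : ℕ} {c : ℤ} (h : Lin I e c) {e' : ℕ} {c' : ℤ}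
    (h' : ∃ n0 : ℕ, ∀ n ≥ n0, hf I n ≤ e' * n + c') : e ≤ e' :=
  HP_Lin_le h h'

theorem Lin_ge {I : Ideal (A4 F)} {e : ℕ} {c : ℤ} (h : Lin I e c) {e' : ℕ} {c' : ℤ}
    (h' : ∃ n0 : ℕ, ∀ n ≥ n0, (e' : ℤ) * n + c' ≤ hf I n) : e' ≤ e := by
  obtain ⟨n0, h⟩ := h
  obtain ⟨n1, h'⟩ := h'
  have := HP_slope (A := c') (B := c) (e := e') (e' := e) (n0 := n0 + n1) fun n hn => by
    rw [← h n (by omega)]
    exact h' n (by omega)
  exact_mod_cast this

end Pool.H33.G

end S_HP

section S_BD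

/-! # BD: ideals with bounded Hilbert function; primes with unbounded Hilbert function

* `exists_prime`: take `p` maximal among homogeneous ideals `⊇ I` with unbounded Hilbert function
  (Noetherian); if `f g ∈ p`, `f, g ∉ p` forms then `p ⊔ (f)` and `cln p (f) ∋ g` are bounded, so `p`
  is bounded by `hf_colon`, `hf_colon_lt`.
* `Bdd_of_lt_prime`: take a form `f ∈ J \ p`; `cln p (f) = p`, so
  `hf (p ⊔ (f)) (n + a) = hf p (n + a) - hf p n` is bounded.
* `mod_bound`: `J` is generated by finitely many forms `f_1 .. f_m` (`HI_fg`) and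
  `dim (part (I ⊔ J) n) - dim (part I n) ≤ Σ_i hf A (n - deg f_i)`; e.g. by induction on the number
  of generators with `hf_colon` for `I ⊔ (f_1, .., f_i)` and `A ≤ cln (I ⊔ ..) (f_i)`. -/

open MvPolynomial Module

namespace Pool.H33.G

variable {F : Type} [Field F]

theorem Bdd_mono {I J : Ideal (A4 F)} (h : I ≤ J) (hI : Bdd I) : Bdd J := by
  obtain ⟨c, hc⟩ := hI
  exact ⟨c, fun n => (hf_anti h n).trans (hc n)⟩

theorem BD_HI_single {a : ℕ} {f : A4 F} (hf' : f ∈ Fm F a) : HI (Ideal.span {f}) :=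
  HI_span (fun g hg => by
    rw [Set.mem_singleton_iff] at hg
    subst hg
    exact ⟨a, hf'⟩)

theorem BD_le_cln_self (I J : Ideal (A4 F)) : I ≤ cln I J := by
  intro f hf' g _
  exact I.mul_mem_right g hf'

theorem BD_mem_cln_single {I : Ideal (A4 F)} {f g : A4 F} :
    g ∈ cln I (Ideal.span {f}) ↔ g * f ∈ I := by
  constructor
  · intro h
    exact h f (Ideal.mem_span_singleton_self f)
  · intro h x hx
    obtain ⟨y, rfl⟩ := Ideal.mem_span_singleton'.1 hx
    have : g * (y * f) = y * (g * f) := by ring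
    rw [this]
    exact I.mul_mem_left y h

theorem BD_of_colon {I : Ideal (A4 F)} (hI : HI I) {a : ℕ} {f : A4 F} (hf' : f ∈ Fm F a)
    (h1 : Bdd (I ⊔ Ideal.span {f})) (h2 : Bdd (cln I (Ideal.span {f}))) : Bdd I := by
  obtain ⟨c1, h1⟩ := h1
  obtain ⟨c2, h2⟩ := h2
  refine ⟨c1 + c2, fun n => ?_⟩
  rcases lt_or_ge n a with hn | hn
  · rw [hf_colon_lt hI hf' hn]
    have := h1 n
    have h3 := (hf_nonneg (cln I (Ideal.span {f})) n).trans (h2 n)
    linarith
  · obtain ⟨m, rfl⟩ := Nat.exists_eq_add_of_le' hn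
    rw [hf_colon hI hf' m]
    exact add_le_add (h1 _) (h2 _)

theorem BD_top : Bdd (⊤ : Ideal (A4 F)) := ⟨0, fun n => by rw [hf_top]⟩

theorem exists_prime {I : Ideal (A4 F)} (hI : HI I) (h : ¬ Bdd I) : ∃ p, UP I p := by
  obtain ⟨p, ⟨hpI, hle, hpb⟩, hmax⟩ := set_has_maximal_iff_noetherian.2
    (inferInstance : IsNoetherian (A4 F) (A4 F)) {J : Ideal (A4 F) | HI J ∧ I ≤ J ∧ ¬ Bdd J}
    ⟨I, hI, le_refl I, h⟩
  have hmax' : ∀ J : Ideal (A4 F), HI J → p < J → Bdd J := by
    intro J hJ hlt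
    by_contra hb
    exact hmax J ⟨hJ, hle.trans hlt.le, hb⟩ hlt
  refine ⟨p, ?_, hpI, hle, hpb⟩
  refine HI_isPrime hpI ?_ ?_
  · rintro rfl
    exact hpb BD_top
  · intro a b f hfa g hgb hfg
    by_contra hcon
    push Not at hcon
    obtain ⟨hfp, hgp⟩ := hcon
    apply hpb
    refine BD_of_colon hpI hfa ?_ ?_
    · refine hmax' _ (HI_sup hpI (BD_HI_single hfa)) ?_
      refine lt_of_le_of_ne le_sup_left ?_
      intro heq
      apply hfp
      rw [heq]
      exact (le_sup_right : Ideal.span {f} ≤ p ⊔ Ideal.span {f}) (Ideal.mem_span_singleton_self f)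
    · refine hmax' _ (HI_cln hpI (BD_HI_single hfa)) ?_
      refine lt_of_le_of_ne (BD_le_cln_self _ _) ?_
      intro heq
      apply hgp
      rw [heq, BD_mem_cln_single, mul_comm]
      exact hfg

theorem BD_exists_form {p J : Ideal (A4 F)} (hJ : HI J) (h : ¬ J ≤ p) :
    ∃ (a : ℕ) (f : A4 F), f ∈ Fm F a ∧ f ∈ J ∧ f ∉ p := by
  by_contra hcon
  push Not at hcon
  apply h
  refine le_of_part_le hJ (fun n f hf' => ?_)
  rw [mem_part] at hf' ⊢
  exact ⟨hcon n f hf'.2 hf'.1, hf'.2⟩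

theorem BD_cln_prime {p : Ideal (A4 F)} (hp : p.IsPrime) {f : A4 F} (hf' : f ∉ p) :
    cln p (Ideal.span {f}) = p := by
  refine le_antisymm ?_ (BD_le_cln_self _ _)
  intro g hg
  rw [BD_mem_cln_single] at hg
  exact (hp.mem_or_mem hg).resolve_right hf'

theorem Bdd_of_lt_prime {p J : Ideal (A4 F)} (hp : p.IsPrime) (hpI : HI p) (hJ : HI J) (hlt : p < J)
    {e : ℕ} {c : ℤ} (hL : Lin p e c) : Bdd J := by
  obtain ⟨a, f, hfa, hfJ, hfp⟩ := BD_exists_form hJ (not_le_of_gt hlt)
  have hle : p ⊔ Ideal.span {f} ≤ J := by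
    refine sup_le hlt.le ?_
    rw [Ideal.span_singleton_le_iff_mem]
    exact hfJ
  refine Bdd_mono hle ?_
  obtain ⟨c', hc'⟩ := Lin_bound hL
  have hc0 : 0 ≤ c' := (abs_nonneg _).trans (hc' 0)
  have he : (0 : ℤ) ≤ (e : ℤ) := Int.natCast_nonneg e
  refine ⟨(e : ℤ) * a + 2 * c', fun n => ?_⟩
  rcases lt_or_ge n a with hn | hn
  · rw [← hf_colon_lt hpI hfa hn]
    have h1 := (abs_le.1 (hc' n)).2
    have h2 : (e : ℤ) * n ≤ (e : ℤ) * a := by
      have : (n : ℤ) ≤ (a : ℤ) := by exact_mod_cast hn.le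
      exact mul_le_mul_of_nonneg_left this he
    linarith
  · obtain ⟨m, rfl⟩ := Nat.exists_eq_add_of_le' hn
    have h1 := hf_colon hpI hfa m
    rw [BD_cln_prime hp hfp] at h1
    have h2 := (abs_le.1 (hc' (m + a))).2
    have h3 := (abs_le.1 (hc' m)).1
    push_cast at h2
    have h4 : hf (p ⊔ Ideal.span {f}) (m + a) = hf p (m + a) - hf p m := by linarith
    rw [h4]
    nlinarith

theorem UP_eq {I p p' : Ideal (A4 F)} {e : ℕ} {c : ℤ} (hL : Lin I e c) (hp : UP I p)
    (hp' : UP I p') (h : p ≤ p') : p = p' := by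
  by_contra hne
  have hlt : p < p' := lt_of_le_of_ne h hne
  obtain ⟨e', c', _, hL'⟩ := exists_Lin_of_le hp.2.1 hp.2.2.1 hL
  exact hp'.2.2.2 (Bdd_of_lt_prime hp.1 hp.2.1 hp'.2.1 hlt hL')

theorem BD_mod_finset {I A : Ideal (A4 F)} (hI : HI I) (hA' : Bdd A) (s : Finset (A4 F)) :
    (∀ f ∈ s, ∃ n, f ∈ Fm F n) → (∀ f ∈ s, ∀ a ∈ A, a * f ∈ I) →
    ∃ c : ℤ, ∀ n, hf I n ≤ hf (I ⊔ Ideal.span (s : Set (A4 F))) n + c := by
  classical
  induction s using Finset.induction_on with
  | empty =>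
    intro _ _
    refine ⟨0, fun n => ?_⟩
    simp
  | insert f s hfs ih =>
    intro h1 h2
    obtain ⟨c, hc⟩ := ih (fun g hg => h1 g (Finset.mem_insert_of_mem hg))
      (fun g hg => h2 g (Finset.mem_insert_of_mem hg))
    obtain ⟨cA, hcA⟩ := hA'
    obtain ⟨a, hfa⟩ := h1 f (Finset.mem_insert_self f s)
    set I' := I ⊔ Ideal.span (s : Set (A4 F)) with hI'
    have hI'H : HI I' := HI_sup hI
      (HI_span (fun g hg => h1 g (Finset.mem_insert_of_mem (Finset.mem_coe.1 hg))))
    have heq : I ⊔ Ideal.span ((insert f s : Finset (A4 F)) : Set (A4 F)) =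
        I' ⊔ Ideal.span {f} := by
      rw [Finset.coe_insert, Set.insert_eq, Ideal.span_union, hI', sup_assoc]
      congr 1
      exact sup_comm _ _
    have hAle : A ≤ cln I' (Ideal.span {f}) := by
      intro x hx
      rw [BD_mem_cln_single]
      exact (le_sup_left : I ≤ I') (h2 f (Finset.mem_insert_self f s) x hx)
    have hcA0 : 0 ≤ cA := (hf_nonneg A 0).trans (hcA 0)
    refine ⟨c + cA, fun n => ?_⟩
    rw [heq]
    have h3 := hc n
    rcases lt_or_ge n a with hn | hn
    · rw [← hf_colon_lt hI'H hfa hn]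
      linarith
    · obtain ⟨m, rfl⟩ := Nat.exists_eq_add_of_le' hn
      have h4 := hf_colon hI'H hfa m
      have h5 := (hf_anti hAle m).trans (hcA m)
      linarith

theorem mod_bound {I J A : Ideal (A4 F)} (hI : HI I) (hJ : HI J) (hA : HI A) (hA' : Bdd A)
    (h : A * J ≤ I) : ∃ c : ℤ, ∀ n, hf I n ≤ hf (I ⊔ J) n + c := by
  obtain ⟨s, hs, hsJ⟩ := HI_fg hJ
  have h2 : ∀ f ∈ s, ∀ a ∈ A, a * f ∈ I := by
    intro f hf' a ha
    refine h (Ideal.mul_mem_mul ha ?_)
    rw [← hsJ]
    exact Ideal.subset_span hf'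
  obtain ⟨c, hc⟩ := BD_mod_finset hI hA' s hs h2
  refine ⟨c, fun n => ?_⟩
  rw [← hsJ]
  exact hc n

theorem BD_mem_of_vars {p : Ideal (A4 F)} (h : ∀ i, (X i : A4 F) ∈ p) {n : ℕ} (hn : 1 ≤ n)
    {f : A4 F} (hf' : f ∈ Fm F n) : f ∈ p := by
  rw [mem_homogeneousSubmodule] at hf'
  rw [f.as_sum]
  refine p.sum_mem (fun m hm => ?_)
  have hdeg : m.degree = n := by
    have := hf' (mem_support_iff.1 hm)
    rwa [Finsupp.degree_eq_weight_one]
  have hm0 : m ≠ 0 := by
    rintro rfl
    rw [map_zero] at hdeg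
    omega
  obtain ⟨i, hi⟩ := Finsupp.ne_iff.1 hm0
  have hi' : Finsupp.single i 1 ≤ m := by
    rw [Finsupp.single_le_iff]
    exact Nat.one_le_iff_ne_zero.2 hi
  have heq : monomial m (coeff m f) = monomial (m - Finsupp.single i 1) (coeff m f) * X i := by
    rw [X, monomial_mul, mul_one, tsub_add_cancel_of_le hi']
  rw [heq]
  exact p.mul_mem_left _ (h i)

/-- a prime with unbounded Hilbert function does not contain all linear forms -/
theorem exists_linear_not_mem {p : Ideal (A4 F)} (hp : p.IsPrime) (hpI : HI p) (h : ¬ Bdd p) :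
    ∃ x ∈ Fm F 1, x ∉ p := by
  by_contra hcon
  push Not at hcon
  apply h
  have hX : ∀ i, (X i : A4 F) ∈ p := fun i => hcon _ (by
    rw [mem_homogeneousSubmodule]
    exact isHomogeneous_X F i)
  refine ⟨max 0 (hf p 0), fun n => ?_⟩
  rcases Nat.eq_zero_or_pos n with rfl | hn
  · exact le_max_right _ _
  · refine le_trans ?_ (le_max_left _ _)
    rw [← hf_top (F := F) n]
    refine hf_anti_part (fun f hf' => ?_)
    rw [mem_part] at hf' ⊢
    exact ⟨BD_mem_of_vars hX hn hf'.2, hf'.2⟩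

theorem Lle_of_le {I J : Ideal (A4 F)} (h : I ≤ J) : Lle I J :=
  ⟨0, fun n _ => part_mono h n⟩

theorem Lle_trans {I J L : Ideal (A4 F)} (h : Lle I J) (h' : Lle J L) : Lle I L := by
  obtain ⟨n0, h⟩ := h
  obtain ⟨n1, h'⟩ := h'
  exact ⟨max n0 n1, fun n hn => (h n (le_trans (le_max_left _ _) hn)).trans
    (h' n (le_trans (le_max_right _ _) hn))⟩

theorem BD_pow_mul_mem {x f : A4 F} (hx : x ∈ Fm F 1) {n : ℕ} (hf' : f ∈ Fm F n) (N : ℕ) :
    x ^ N * f ∈ Fm F (N + n) := by
  rw [mem_homogeneousSubmodule] at *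
  have := (hx.pow N).mul hf'
  rwa [one_mul] at this

/-- if `I` is contained in `J` in large degrees then multiplying by a large power of any linear
form moves `I` into `J` -/
theorem Lle_mul_pow {I J : Ideal (A4 F)} (hI : HI I) (h : Lle I J) :
    ∃ N : ℕ, ∀ x ∈ Fm F 1, ∀ f ∈ I, x ^ N * f ∈ J := by
  obtain ⟨n0, h⟩ := h
  refine ⟨n0, fun x hx f hf' => ?_⟩
  rw [← sum_homogeneousComponent f, Finset.mul_sum]
  refine J.sum_mem (fun m _ => ?_)
  have h1 : x ^ n0 * homogeneousComponent m f ∈ part J (n0 + m) := by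
    refine h _ (Nat.le_add_right _ _) ?_
    rw [mem_part]
    exact ⟨I.mul_mem_left _ (hI f hf' m), BD_pow_mul_mem hx (homogeneousComponent_mem m f) n0⟩
  exact (mem_part.1 h1).1

theorem Lle_prime {I J p : Ideal (A4 F)} (hI : HI I) (hp : p.IsPrime) (hpI : HI p) (hb : ¬ Bdd p)
    (h : Lle I J) (hJ : J ≤ p) : I ≤ p := by
  obtain ⟨x, hx, hxp⟩ := exists_linear_not_mem hp hpI hb
  obtain ⟨N, hN⟩ := Lle_mul_pow hI h
  intro f hf'
  have h1 := hJ (hN x hx f hf')
  exact (hp.mem_or_mem h1).resolve_left (fun h2 => hxp (hp.mem_of_pow_mem _ h2))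

theorem hf_le_of_Lle {I J : Ideal (A4 F)} (h : Lle I J) :
    ∃ n0 : ℕ, ∀ n ≥ n0, hf J n ≤ hf I n := by
  obtain ⟨n0, h⟩ := h
  exact ⟨n0, fun n hn => hf_anti_part (h n hn)⟩

end Pool.H33.G

end S_BD
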