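import Mathlib
import Pool.Agent.H33.GG.M1

/-! Galois action on the components of Hilbert schemes of space curves, file M2 -/

section S_BZ

/-! # BZ: integral curves over an algebraically closed field: `hf p n ≤ e n + 1`

Let `p` be a homogeneous prime with `hf p n = e n + c` for large `n`, `e ≥ 1`.
(1) `V(p)` (nonzero points of `K^4` up to scalars where all forms of `p` vanish) is infinite: otherwise
the (affine) Nullstellensatz gives `p = ` vanishing ideal of finitely many lines through the origin, and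
evaluation at `N` representatives shows `hf p n ≤ N` for all `n`, contradiction.
(2) for a form `f ∉ p` of degree `n`: `hf (p ⊔ (f)) (m + n) = hf p (m+n) - hf p m = e n` for large `m`
(`hf_colon`, `cln p (f) = p`), while `N` pairwise non-proportional common zeros of `p` and `f` impose `N`
independent conditions on forms of large degree, so `N ≤ e n`.
(3) choose `e n + 1` pairwise non-proportional points of `V(p)`; evaluation of forms of degree `n` has
kernel `part p n`; so `hf p n ≤ e n + 1`. -/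

open MvPolynomial Module

namespace Pool.H33.G

section BZaux

variable {K : Type} [Field K]

/-- evaluation of forms of degree `n` at finitely many points -/
noncomputable def BZev {N : ℕ} (v : Fin N → Fin 4 → K) (n : ℕ) : Fm K n →ₗ[K] (Fin N → K) :=
  LinearMap.pi fun i => (aeval (R := K) (v i)).toLinearMap.comp (Fm K n).subtype

theorem BZev_apply {N : ℕ} (v : Fin N → Fin 4 → K) (n : ℕ) (f : Fm K n) (i : Fin N) :
    BZev v n f i = aeval (v i) (f : A4 K) := rfl

theorem BZ_upper {I : Ideal (A4 K)} {N n : ℕ} (v : Fin N → Fin 4 → K)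
    (h : ∀ f ∈ Fm K n, (∀ i, aeval (v i) f = 0) → f ∈ I) : hf I n ≤ N := by
  have h1 := LinearMap.finrank_range_add_finrank_ker (BZev v n)
  have h2 : finrank K (LinearMap.range (BZev v n)) ≤ N := by
    refine (Submodule.finrank_le _).trans ?_
    simp
  have h3 : finrank K (LinearMap.ker (BZev v n)) ≤ finrank K (part I n) := by
    have h4 : (LinearMap.ker (BZev v n)).map (Fm K n).subtype ≤ part I n := by
      rintro f ⟨⟨g, hg⟩, hgk, rfl⟩
      rw [mem_part]
      refine ⟨h g hg fun i => ?_, hg⟩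
      have := LinearMap.mem_ker.1 hgk
      exact congrFun this i
    have h5 := Submodule.finrank_mono h4
    rwa [LinearEquiv.finrank_eq (Submodule.equivMapOfInjective _ (Submodule.injective_subtype _) _).symm] at h5
  unfold hf
  omega

theorem BZ_lower {I : Ideal (A4 K)} {N n : ℕ} (v : Fin N → Fin 4 → K)
    (hI : ∀ f ∈ I, ∀ i, aeval (v i) f = 0) (hs : Function.Surjective (BZev v n)) : (N : ℤ) ≤ hf I n := by
  have h1 := LinearMap.finrank_range_add_finrank_ker (BZev v n)
  have h2 : finrank K (LinearMap.range (BZev v n)) = N := by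
    rw [LinearMap.range_eq_top.2 hs, finrank_top]
    simp
  have h3 : finrank K (part I n) ≤ finrank K (LinearMap.ker (BZev v n)) := by
    have h4 : part I n ≤ (LinearMap.ker (BZev v n)).map (Fm K n).subtype := by
      intro f hf'
      rw [mem_part] at hf'
      refine ⟨⟨f, hf'.2⟩, ?_, rfl⟩
      rw [SetLike.mem_coe, LinearMap.mem_ker]
      funext i
      exact hI f hf'.1 i
    have h5 := Submodule.finrank_mono h4
    rwa [LinearEquiv.finrank_eq (Submodule.equivMapOfInjective _ (Submodule.injective_subtype _) _).symm] at h5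
  unfold hf
  omega

/-- a linear functional as a linear form -/
theorem BZ_form (φ : (Fin 4 → K) →ₗ[K] K) :
    ∃ l ∈ Fm K 1, ∀ x : Fin 4 → K, aeval x l = φ x := by
  refine ⟨∑ a, C (φ (Pi.single a 1)) * X a, ?_, fun x => ?_⟩
  · exact Submodule.sum_mem _ fun a _ => isHomogeneous_C_mul_X _ _
  · have hx : x = ∑ a, x a • (Pi.single a 1 : Fin 4 → K) := by
      funext b
      simp [Finset.sum_apply, Pi.single_apply]
    conv_rhs => rw [hx]
    rw [map_sum, map_sum]
    refine Finset.sum_congr rfl fun a _ => ?_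
    simp [mul_comm]

theorem BZ_surj {N n : ℕ} (v : Fin N → Fin 4 → K) (h0 : ∀ i, v i ≠ 0)
    (h1 : ∀ i j, i ≠ j → v i ∉ Submodule.span K {v j}) (hn : N ≤ n + 1) :
    Function.Surjective (BZev v n) := by
  classical
  rw [← LinearMap.range_eq_top, eq_top_iff]
  intro y _
  have hy : y = ∑ i, y i • (Pi.single i 1 : Fin N → K) := by
    funext b
    simp [Finset.sum_apply, Pi.single_apply]
  rw [hy]
  refine Submodule.sum_mem _ fun i _ => Submodule.smul_mem _ _ ?_
  -- linear forms
  have hl : ∀ j, ∃ l ∈ Fm K 1, aeval (v i) l ≠ 0 ∧ (j ≠ i → aeval (v j) l = 0) := by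
    intro j
    by_cases hj : j = i
    · obtain ⟨φ, hφ, -⟩ := Submodule.exists_le_ker_of_notMem (p := (⊥ : Submodule K (Fin 4 → K)))
        (v := v i) (by simpa using h0 i)
      obtain ⟨l, hl, hl'⟩ := BZ_form φ
      exact ⟨l, hl, by rw [hl']; exact hφ, fun h => absurd hj h⟩
    · obtain ⟨φ, hφ, hφ'⟩ := Submodule.exists_le_ker_of_notMem (h1 i j (Ne.symm hj))
      obtain ⟨l, hl, hl'⟩ := BZ_form φ
      refine ⟨l, hl, by rw [hl']; exact hφ, fun _ => ?_⟩
      rw [hl']
      exact hφ' (Submodule.mem_span_singleton_self _)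
  choose l hl1 hl2 hl3 using hl
  set g : A4 K := (∏ j ∈ Finset.univ.erase i, l j) * l i ^ (n - (N - 1)) with hg
  have hcard : (Finset.univ.erase i).card = N - 1 := by simp
  have hgF : g ∈ Fm K n := by
    have e1 : (∏ j ∈ Finset.univ.erase i, l j).IsHomogeneous (∑ j ∈ Finset.univ.erase i, 1) :=
      IsHomogeneous.prod _ _ _ fun j _ => hl1 j
    have e2 : (l i ^ (n - (N - 1))).IsHomogeneous (1 * (n - (N - 1))) := IsHomogeneous.pow (hl1 i) _
    have e3 := e1.mul e2
    have e4 : (∑ j ∈ Finset.univ.erase i, 1) + 1 * (n - (N - 1)) = n := by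
      rw [Finset.sum_const, hcard]
      simp only [smul_eq_mul, mul_one, one_mul]
      have := i.pos
      omega
    rw [e4] at e3
    exact e3
  have hgi : aeval (v i) g ≠ 0 := by
    rw [hg, map_mul, map_prod, map_pow]
    exact mul_ne_zero (Finset.prod_ne_zero_iff.2 fun j _ => hl2 j) (pow_ne_zero _ (hl2 i))
  have hgj : ∀ j, j ≠ i → aeval (v j) g = 0 := by
    intro j hj
    rw [hg, map_mul, map_prod]
    rw [Finset.prod_eq_zero (i := j) (by simp [hj]) (hl3 j hj), zero_mul]
  refine ⟨(aeval (v i) g)⁻¹ • ⟨g, hgF⟩, ?_⟩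
  funext j
  rw [map_smul]
  simp only [Pi.smul_apply, BZev_apply, smul_eq_mul]
  by_cases hj : j = i
  · rw [hj, inv_mul_cancel₀ hgi, Pi.single_eq_same]
  · simp [hgj j hj, hj]

theorem BZ_smul {f : A4 K} {n : ℕ} (hf' : f ∈ Fm K n) (c : K) (x : Fin 4 → K) :
    aeval (c • x) f = c ^ n * aeval x f := by
  rw [aeval_def, aeval_def, eval₂_eq', eval₂_eq', Finset.mul_sum]
  refine Finset.sum_congr rfl fun d hd => ?_
  have hd' : d.degree = n := by
    have := (mem_homogeneousSubmodule n f).1 hf' (mem_support_iff.1 hd)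
    rw [← this, Finsupp.weight_apply, Finsupp.degree_apply]
    simp [Finsupp.sum]
  have : ∏ a, (c • x) a ^ d a = c ^ n * ∏ a, x a ^ d a := by
    simp only [Pi.smul_apply, smul_eq_mul, mul_pow, Finset.prod_mul_distrib]
    rw [Finset.prod_pow_eq_pow_sum]
    congr 2
    rw [← hd', Finsupp.degree_eq_sum]
  rw [this]
  ring

end BZaux

variable {K : Type} [Field K] [IsAlgClosed K]

theorem BZ_points {p : Ideal (A4 K)} (hp : p.IsPrime) {e : ℕ} {c : ℤ}
    (hL : Lin p e c) (he : 1 ≤ e) (N : ℕ) :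
    ∃ v : Fin N → Fin 4 → K, (∀ i, v i ≠ 0) ∧ (∀ i j, i ≠ j → v i ∉ Submodule.span K {v j}) ∧
      ∀ i, v i ∈ zeroLocus K p := by
  induction N with
  | zero => exact ⟨fun i => i.elim0, fun i => i.elim0, fun i => i.elim0, fun i => i.elim0⟩
  | succ N ih =>
    obtain ⟨v, h0, h1, h2⟩ := ih
    have key : ∃ x ∈ zeroLocus K p, x ≠ 0 ∧ ∀ i, x ∉ Submodule.span K {v i} := by
      by_contra hcon
      push Not at hcon
      have hup : ∀ n, 1 ≤ n → hf p n ≤ N := by
        intro n hn
        refine BZ_upper v fun f hf' hfv => ?_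
        have : f ∈ vanishingIdeal K (zeroLocus K p) := by
          rw [mem_vanishingIdeal_iff]
          intro x hx
          by_cases hx0 : x = 0
          · have := BZ_smul hf' (0 : K) 0
            rw [zero_smul, zero_pow (by omega), zero_mul] at this
            rw [hx0]
            exact this
          · obtain ⟨i, hi⟩ := hcon x hx hx0
            obtain ⟨a, rfl⟩ := Submodule.mem_span_singleton.1 hi
            rw [BZ_smul hf', hfv i, mul_zero]
        rw [vanishingIdeal_zeroLocus_eq_radical, hp.isRadical.radical] at this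
        exact this
      obtain ⟨n0, hn0⟩ := hL
      have a1 := hn0 (n0 + 1 + (N + 1 + c.natAbs)) (by omega)
      have a2 := hup (n0 + 1 + (N + 1 + c.natAbs)) (by omega)
      rw [a1] at a2
      have a3 : ((n0 + 1 + (N + 1 + c.natAbs) : ℕ) : ℤ) ≤
          (e : ℤ) * ((n0 + 1 + (N + 1 + c.natAbs) : ℕ) : ℤ) := by
        have : (1 : ℤ) ≤ e := by exact_mod_cast he
        nlinarith [Nat.cast_nonneg (α := ℤ) (n0 + 1 + (N + 1 + c.natAbs))]
      have a4 : -(c.natAbs : ℤ) ≤ c := by omega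
      push_cast at a2 a3
      have a5 : (c.natAbs : ℤ) = |c| := by simp
      omega
    obtain ⟨x, hx, hx0, hxv⟩ := key
    refine ⟨Fin.cons x v, ?_, ?_, ?_⟩
    · intro i
      refine Fin.cases ?_ (fun i => ?_) i
      · simpa using hx0
      · simpa using h0 i
    · intro i j
      refine Fin.cases ?_ (fun i => ?_) i
      · refine Fin.cases ?_ (fun j => ?_) j
        · intro h; exact absurd rfl h
        · intro _; simpa using hxv j
      · refine Fin.cases ?_ (fun j => ?_) j
        · intro _ hmem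
          simp only [Fin.cons_succ, Fin.cons_zero] at hmem
          obtain ⟨a, ha⟩ := Submodule.mem_span_singleton.1 hmem
          have ha0 : a ≠ 0 := by
            rintro rfl
            rw [zero_smul] at ha
            exact h0 i ha.symm
          apply hxv i
          rw [Submodule.mem_span_singleton]
          exact ⟨a⁻¹, by rw [← ha, smul_smul, inv_mul_cancel₀ ha0, one_smul]⟩
        · intro hij
          simp only [Fin.cons_succ]
          exact h1 i j fun h => hij (by rw [h])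
    · intro i
      refine Fin.cases ?_ (fun i => ?_) i
      · simpa using hx
      · simpa using h2 i

theorem hf_prime_le {p : Ideal (A4 K)} (hp : p.IsPrime) (hpI : HI p) {e : ℕ} {c : ℤ}
    (hL : Lin p e c) (he : 1 ≤ e) (n : ℕ) : hf p n ≤ e * n + 1 := by
  obtain ⟨v, h0, h1, h2⟩ := BZ_points hp hL he (e * n + 1)
  have := BZ_upper (I := p) (n := n) v ?_
  · push_cast at this
    exact this
  intro f hf' hfv
  by_contra hfp
  have hc : cln p (Ideal.span {f}) = p := by
    apply le_antisymm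
    · intro g hg
      have := hg f (Ideal.mem_span_singleton_self f)
      exact (hp.mem_or_mem this).resolve_right hfp
    · intro g hg q _
      exact p.mul_mem_right _ hg
  obtain ⟨n0, hn0⟩ := hL
  have e1 := hf_colon hpI hf' (n0 + e * n + 1)
  rw [hc, hn0 _ (by omega), hn0 _ (by omega)] at e1
  have e2 := BZ_lower (I := p ⊔ Ideal.span {f}) (n := n0 + e * n + 1 + n) v ?_
    (BZ_surj v h0 h1 (by omega))
  · push_cast at e1 e2
    have : (e : ℤ) * (n0 + e * n + 1 + n) + c = (e : ℤ) * (n0 + e * n + 1) + c + e * n := by ring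
    rw [this] at e1
    linarith
  · intro g hg i
    have hle : p ⊔ Ideal.span {f} ≤ RingHom.ker (aeval (R := K) (v i)) := by
      refine sup_le (fun q hq => ?_) ?_
      · rw [RingHom.mem_ker]
        exact (mem_zeroLocus_iff.1 (h2 i)) q hq
      · rw [Ideal.span_singleton_le_iff_mem, RingHom.mem_ker]
        exact hfv i
    exact RingHom.mem_ker.1 (hle hg)

end Pool.H33.G

end S_BZ

section S_PRI

/-! # PRI: the primary component `qp I p` at a prime with unbounded Hilbert function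

* `mem_qp`, `HI_qp` (for homogeneous `p`; McCoy's theorem on zero divisors of polynomial rings applied to
  the generating polynomials `Σ_n f_n T^n` of the homogeneous components).
* `pow_le_qp`: for a form `f ∈ p` the chain `cln I (f^k)` stabilises at `b = cln I (f^N)`.
  If `b ≤ p` then `f` is a nonzerodivisor mod `b` and
  `b ⊔ (f) ≤ p`, but `hf (b ⊔ (f))` is bounded (`hf b` is eventually linear, `cln b (f) = b`),
  contradiction.  So some `g ∈ b \ p`, `g f^N ∈ I`, i.e. `f^N ∈ qp`.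
* `pri_exists_ann`: there is a form `g ∈ p \ qp` with `cln qp (g) = p`.
* `slope_qp`: `hf qp n = hf p n + (dim p_n - dim qp_n)` and `p ⊇ qp ⊔ (g)` with
  `hf qp (n+a) = hf (qp ⊔ (g)) (n+a) + hf p n ≥ hf p (n + a) + hf p n`.
* `sq_le_qp`: if `Lin p e c`, `Lin qp (2e) c'` then `hf (qp ⊔ (g)) n ≤ hf p n + const`, so for a form
  `h ∈ p` the ideal `cln (qp ⊔ (g)) (h)` is bounded, hence not `≤ p`: some `t ∉ p` with
  `t h ∈ qp ⊔ (g)`; then for `h' ∈ p`: `t h h' ∈ qp` as `g h' ∈ qp`. -/

open MvPolynomial Module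

namespace Pool.H33.G

variable {F : Type} [Field F]

theorem mem_qp {I p : Ideal (A4 F)} (hp : p.IsPrime) {f : A4 F} :
    f ∈ qp I p ↔ ∃ g, g ∉ p ∧ g * f ∈ I := by
  constructor
  · intro h
    unfold qp at h
    refine Submodule.span_induction (p := fun f _ => ∃ g, g ∉ p ∧ g * f ∈ I) ?_ ?_ ?_ ?_ h
    · intro x hx; exact hx
    · exact ⟨1, fun h => hp.ne_top ((Ideal.eq_top_iff_one _).2 h), by simp⟩
    · rintro x y _ _ ⟨g, hg, hgx⟩ ⟨g', hg', hgy⟩
      refine ⟨g * g', fun h => (hp.mem_or_mem h).elim hg hg', ?_⟩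
      have : g * g' * (x + y) = g' * (g * x) + g * (g' * y) := by ring
      rw [this]
      exact I.add_mem (I.mul_mem_left _ hgx) (I.mul_mem_left _ hgy)
    · rintro a x _ ⟨g, hg, hgx⟩
      refine ⟨g, hg, ?_⟩
      have : g * (a • x) = a * (g * x) := by rw [smul_eq_mul]; ring
      rw [this]
      exact I.mul_mem_left _ hgx
  · intro h
    exact Ideal.subset_span h

theorem le_qp {I p : Ideal (A4 F)} (hp : p.IsPrime) : I ≤ qp I p := by
  intro f hf
  exact (mem_qp hp).2 ⟨1, fun h => hp.ne_top ((Ideal.eq_top_iff_one _).2 h), by simpa using hf⟩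

theorem qp_le {I p : Ideal (A4 F)} (hp : p.IsPrime) (h : I ≤ p) : qp I p ≤ p := by
  intro f hf
  obtain ⟨g, hg, hgf⟩ := (mem_qp hp).1 hf
  exact (hp.mem_or_mem (h hgf)).resolve_left hg

theorem qp_primary {I p : Ideal (A4 F)} (hp : p.IsPrime) {f g : A4 F} (hf : f ∉ p)
    (h : f * g ∈ qp I p) : g ∈ qp I p := by
  obtain ⟨t, ht, hI⟩ := (mem_qp hp).1 h
  refine (mem_qp hp).2 ⟨t * f, fun h => (hp.mem_or_mem h).elim ht hf, ?_⟩
  rw [mul_assoc]; exact hI

/-- the ring homomorphism `f ↦ Σ_n f_n T^n` -/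
private noncomputable def priPhi : A4 F →ₐ[F] Polynomial (A4 F) :=
  aeval (fun i => Polynomial.C (X i) * Polynomial.X)

private theorem priPhi_monomial (s : Fin 4 →₀ ℕ) (c : F) :
    priPhi (monomial s c) = Polynomial.C (monomial s c) * Polynomial.X ^ s.degree := by
  unfold priPhi
  rw [aeval_monomial]
  simp only [mul_pow]
  rw [Finsupp.prod_mul, ← mul_assoc]
  congr 1
  · rw [monomial_eq, map_mul]
    congr 1
    rw [Finsupp.prod, Finsupp.prod, map_prod]
    simp only [map_pow]
  · rw [Finsupp.prod, Finset.prod_pow_eq_pow_sum, Finsupp.degree]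
    rfl

private theorem priPhi_coeff (f : A4 F) (n : ℕ) :
    (priPhi f).coeff n = homogeneousComponent n f := by
  induction f using MvPolynomial.induction_on' with
  | monomial s c =>
    rw [priPhi_monomial, Polynomial.coeff_C_mul_X_pow,
      homogeneousComponent_of_mem (isHomogeneous_monomial c rfl)]
  | add p q hp hq => rw [map_add, Polynomial.coeff_add, hp, hq, map_add]

private theorem pri_mccoy {A : Type} [CommRing A] {q : Ideal A} {P Q : Polynomial A}
    (hPQ : ∀ m, (P * Q).coeff m ∈ q) {j : ℕ} (hj : ∀ a, P.coeff j * a ∈ q → a ∈ q) (n : ℕ) :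
    Q.coeff n ∈ q := by
  have hprod : P.map (Ideal.Quotient.mk q) * Q.map (Ideal.Quotient.mk q) = 0 := by
    rw [← Polynomial.map_mul]
    ext m
    rw [Polynomial.coeff_map, Polynomial.coeff_zero]
    exact Ideal.Quotient.eq_zero_iff_mem.2 (hPQ m)
  have hnzd : P.map (Ideal.Quotient.mk q) ∈ nonZeroDivisors (Polynomial (A ⧸ q)) := by
    rw [Polynomial.mem_nonZeroDivisors_iff]
    intro a ha
    obtain ⟨a, rfl⟩ := Ideal.Quotient.mk_surjective a
    have h2 := congrArg (fun R => Polynomial.coeff R j) ha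
    simp only [Polynomial.coeff_smul, Polynomial.coeff_map, Polynomial.coeff_zero,
      smul_eq_mul] at h2
    refine Ideal.Quotient.eq_zero_iff_mem.2 (hj a (Ideal.Quotient.eq_zero_iff_mem.1 ?_))
    rw [map_mul, mul_comm]; exact h2
  have h0 : Q.map (Ideal.Quotient.mk q) = 0 :=
    (mul_left_mem_nonZeroDivisors_eq_zero_iff hnzd).1 hprod
  have h1 := congrArg (fun R => Polynomial.coeff R n) h0
  simp only [Polynomial.coeff_map, Polynomial.coeff_zero] at h1
  exact Ideal.Quotient.eq_zero_iff_mem.1 h1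

theorem HI_qp {I p : Ideal (A4 F)} (hI : HI I) (hp : p.IsPrime) (hpI : HI p) : HI (qp I p) := by
  intro f hf n
  obtain ⟨g, hg, hgf⟩ := (mem_qp hp).1 hf
  obtain ⟨j, hj⟩ : ∃ j, homogeneousComponent j g ∉ p := by
    by_contra hcon
    push Not at hcon
    apply hg
    rw [← sum_homogeneousComponent g]
    exact p.sum_mem fun i _ => hcon i
  have h1 := pri_mccoy (q := qp I p) (P := priPhi g) (Q := priPhi f) (j := j) (fun m => by
    rw [← map_mul, priPhi_coeff]
    exact le_qp hp (hI _ hgf m)) (fun a ha => by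
    rw [priPhi_coeff] at ha
    exact qp_primary hp hj ha) n
  rw [priPhi_coeff] at h1
  exact h1

private theorem pri_mem_cln {I : Ideal (A4 F)} {f g : A4 F} :
    g ∈ cln I (Ideal.span {f}) ↔ g * f ∈ I := by
  constructor
  · intro h
    exact h f (Ideal.mem_span_singleton_self f)
  · intro h x hx
    obtain ⟨y, rfl⟩ := Ideal.mem_span_singleton.1 hx
    rw [← mul_assoc]
    exact I.mul_mem_right _ h

private theorem pri_bdd {I : Ideal (A4 F)} (h : ∃ (c : ℤ) (n0 : ℕ), ∀ n ≥ n0, hf I n ≤ c) :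
    Bdd I := by
  obtain ⟨c, n0, h⟩ := h
  refine ⟨|c| + ∑ k ∈ Finset.range n0, hf I k, fun n => ?_⟩
  have hs : 0 ≤ ∑ k ∈ Finset.range n0, hf I k := Finset.sum_nonneg fun k _ => hf_nonneg I k
  by_cases hn : n0 ≤ n
  · exact (h n hn).trans ((le_abs_self c).trans (le_add_of_nonneg_right hs))
  · have h1 : hf I n ≤ ∑ k ∈ Finset.range n0, hf I k :=
      Finset.single_le_sum (f := fun k => hf I k) (fun k _ => hf_nonneg I k)
        (Finset.mem_range.2 (not_le.1 hn))
    exact h1.trans (le_add_of_nonneg_left (abs_nonneg c))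

private theorem pri_le_of_forms {p Q : Ideal (A4 F)} (hp : HI p)
    (h : ∀ a, ∀ f ∈ Fm F a, f ∈ p → f ∈ Q) : p ≤ Q := by
  intro f hf
  rw [← sum_homogeneousComponent f]
  exact Q.sum_mem fun i _ => h i _ (homogeneousComponent_mem i f) (hp f hf i)

private theorem pri_exists_form {J p : Ideal (A4 F)} (hJ : HI J) (h : ¬ J ≤ p) :
    ∃ a, ∃ f ∈ Fm F a, f ∈ J ∧ f ∉ p := by
  by_contra hcon
  push Not at hcon
  exact h (pri_le_of_forms hJ hcon)

private theorem pri_HI_span {a : ℕ} {f : A4 F} (hf : f ∈ Fm F a) : HI (Ideal.span {f}) :=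
  HI_span fun g hg => ⟨a, by rw [Set.mem_singleton_iff.1 hg]; exact hf⟩

theorem pow_le_qp {I p : Ideal (A4 F)} (hI : HI I) {d : ℕ} {χ : ℤ} (hL : Lin I d χ) (hp : UP I p) :
    ∃ N : ℕ, p ^ N ≤ qp I p := by
  obtain ⟨hpp, hpI, hIp, hnb⟩ := hp
  have key : ∀ a, ∀ f ∈ Fm F a, f ∈ p → f ∈ (qp I p).radical := by
    intro a f hfa hfp
    let ch : ℕ →o Ideal (A4 F) := ⟨fun k => cln I (Ideal.span {f ^ k}), by
      intro i j hij g hg
      rw [pri_mem_cln] at hg ⊢
      rw [← Nat.sub_add_cancel hij, pow_add, mul_comm (f ^ (j - i)), ← mul_assoc]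
      exact I.mul_mem_right _ hg⟩
    obtain ⟨N, hN⟩ := monotone_stabilizes_iff_noetherian.2 (inferInstance : IsNoetherianRing (A4 F)) ch
    have hfN : f ^ N ∈ Fm F (a * N) := (show f.IsHomogeneous a from hfa).pow N
    have hbI : HI (cln I (Ideal.span {f ^ N})) := HI_cln hI (pri_HI_span hfN)
    have hIb : I ≤ cln I (Ideal.span {f ^ N}) := fun g hg => pri_mem_cln.2 (I.mul_mem_right _ hg)
    have hcl : cln (cln I (Ideal.span {f ^ N})) (Ideal.span {f}) = cln I (Ideal.span {f ^ N}) := by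
      apply le_antisymm
      · intro g hg
        rw [pri_mem_cln, pri_mem_cln, mul_assoc, ← pow_succ'] at hg
        have h1 : ch N = ch (N + 1) := hN (N + 1) (Nat.le_succ N)
        have h2 : g ∈ ch (N + 1) := pri_mem_cln.2 hg
        rw [← h1] at h2
        exact h2
      · intro g hg
        exact pri_mem_cln.2 (Ideal.mul_mem_right _ _ hg)
    by_contra hcon
    have hbp : cln I (Ideal.span {f ^ N}) ≤ p := by
      intro g hg
      by_contra hgp
      exact hcon ⟨N, (mem_qp hpp).2 ⟨g, hgp, pri_mem_cln.1 hg⟩⟩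
    obtain ⟨e', c', he', n0, hn0⟩ := exists_Lin_of_le hbI hIb hL
    apply hnb
    refine Bdd_mono (sup_le hbp ((Ideal.span_singleton_le_iff_mem _).2 hfp)) (pri_bdd ?_)
    refine ⟨e' * a, n0 + a, fun n hn => ?_⟩
    obtain ⟨m, rfl⟩ := Nat.exists_eq_add_of_le hn
    have h1 := hf_colon hbI hfa (n0 + m)
    rw [hcl, hn0 (n0 + m) (by omega), hn0 (n0 + m + a) (by omega)] at h1
    have h2 : n0 + a + m = n0 + m + a := by ring
    rw [h2]
    push_cast at h1
    linarith
  apply Ideal.exists_pow_le_of_le_radical_of_fg _ (IsNoetherian.noetherian p)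
  exact pri_le_of_forms hpI key

private theorem pri_exists_ann {I p : Ideal (A4 F)} (hI : HI I) {d : ℕ} {χ : ℤ} (hL : Lin I d χ)
    (hp : UP I p) (hne : qp I p ≠ p) :
    ∃ a, ∃ g ∈ Fm F a, g ∈ p ∧ (∀ x ∈ p, x * g ∈ qp I p) ∧ cln (qp I p) (Ideal.span {g}) = p := by
  obtain ⟨hpp, hpI, hIp, hnb⟩ := hp
  have hex := pow_le_qp hI hL ⟨hpp, hpI, hIp, hnb⟩
  classical
  have hN := Nat.find_spec hex
  have hmin := fun k => Nat.find_min hex (m := k)
  revert hN hmin
  generalize Nat.find hex = N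
  intro hN hmin
  have hN2 : 2 ≤ N := by
    by_contra hlt
    push Not at hlt
    interval_cases N
    · rw [pow_zero, Ideal.one_eq_top, top_le_iff] at hN
      exact hpp.ne_top (top_le_iff.1 (hN ▸ qp_le hpp hIp))
    · rw [pow_one] at hN
      exact hne (le_antisymm (qp_le hpp hIp) hN)
  have h1 : ¬ p ^ (N - 1) ≤ qp I p := hmin (N - 1) (by omega)
  obtain ⟨a, g, hga, hgp, hgq⟩ := pri_exists_form (HI_pow hpI (N - 1)) h1
  have hgp' : g ∈ p := Ideal.pow_le_self (by omega) hgp
  have hann : ∀ x ∈ p, x * g ∈ qp I p := by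
    intro x hx
    apply hN
    have h2 : N = 1 + (N - 1) := by omega
    rw [h2, pow_add, pow_one]
    exact Ideal.mul_mem_mul hx hgp
  refine ⟨a, g, hga, hgp', hann, le_antisymm ?_ ?_⟩
  · intro x hx
    rw [pri_mem_cln] at hx
    by_contra hxp
    exact hgq (qp_primary hpp hxp hx)
  · intro x hx
    exact pri_mem_cln.2 (hann x hx)

theorem slope_qp {I p : Ideal (A4 F)} (hI : HI I) {d : ℕ} {χ : ℤ} (hL : Lin I d χ) (hp : UP I p)
    (hne : qp I p ≠ p) {e e' : ℕ} {c c' : ℤ} (h : Lin p e c) (h' : Lin (qp I p) e' c') :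
    2 * e ≤ e' := by
  obtain ⟨a, g, hga, hgp, hann, hcl⟩ := pri_exists_ann hI hL hp hne
  obtain ⟨hpp, hpI, hIp, hnb⟩ := hp
  obtain ⟨n0, hn0⟩ := h
  obtain ⟨n1, hn1⟩ := h'
  by_contra hlt
  push Not at hlt
  have hq : HI (qp I p) := HI_qp hI hpp hpI
  have h1 : ∀ n ≥ n0 + n1, (e' : ℤ) * (n + a) + c' ≥ e * (n + a) + c + (e * n + c) := by
    intro n hn
    have h2 := hf_colon hq hga n
    rw [hcl, hn0 n (by omega), hn1 (n + a) (by omega)] at h2
    have h3 : hf p (n + a) ≤ hf (qp I p ⊔ Ideal.span {g}) (n + a) :=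
      hf_anti (sup_le (qp_le hpp hIp) ((Ideal.span_singleton_le_iff_mem _).2 hgp)) _
    rw [hn0 (n + a) (by omega)] at h3
    push_cast at h2 h3
    linarith
  have h4 : (e' : ℤ) + 1 ≤ 2 * e := by exact_mod_cast hlt
  have h5 := h1 (n0 + n1 + (|e' * a + c' - e * a - c - c| + 1).toNat) (by omega)
  have h6 : ((|(e' : ℤ) * a + c' - e * a - c - c| + 1).toNat : ℤ) = |(e' : ℤ) * a + c' - e * a - c - c| + 1 :=
    Int.toNat_of_nonneg (by positivity)
  push_cast at h5
  rw [h6] at h5
  have h7 := le_abs_self ((e' : ℤ) * a + c' - e * a - c - c)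
  set T : ℤ := |(e' : ℤ) * a + c' - e * a - c - c| with hT
  have h8 : (0 : ℤ) ≤ (n0 : ℤ) + n1 + (T + 1) := by positivity
  nlinarith [mul_le_mul_of_nonneg_right h4 h8]

theorem sq_le_qp {I p : Ideal (A4 F)} (hI : HI I) {d : ℕ} {χ : ℤ} (hL : Lin I d χ) (hp : UP I p)
    (hne : qp I p ≠ p) {e : ℕ} {c c' : ℤ} (h : Lin p e c) (h' : Lin (qp I p) (2 * e) c') :
    p ^ 2 ≤ qp I p := by
  obtain ⟨a, g, hga, hgp, hann, hcl⟩ := pri_exists_ann hI hL hp hne
  obtain ⟨hpp, hpI, hIp, hnb⟩ := hp
  obtain ⟨n0, hn0⟩ := h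
  obtain ⟨n1, hn1⟩ := h'
  have hq : HI (qp I p) := HI_qp hI hpp hpI
  have hJI : HI (qp I p ⊔ Ideal.span {g}) := HI_sup hq (pri_HI_span hga)
  have hJp : qp I p ⊔ Ideal.span {g} ≤ p :=
    sup_le (qp_le hpp hIp) ((Ideal.span_singleton_le_iff_mem _).2 hgp)
  have hJ : ∀ n ≥ n0 + n1, hf (qp I p ⊔ Ideal.span {g}) (n + a) = e * (n + a) + (e * a + c' - c) := by
    intro n hn
    have h2 := hf_colon hq hga n
    rw [hcl, hn0 n (by omega), hn1 (n + a) (by omega)] at h2
    push_cast at h2
    linarith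
  have key : ∀ b, ∀ x ∈ Fm F b, x ∈ p → ∀ y ∈ p, x * y ∈ qp I p := by
    intro b x hxb hxp y hyp
    have hB : Bdd (cln (qp I p ⊔ Ideal.span {g}) (Ideal.span {x})) := by
      apply pri_bdd
      refine ⟨e * a + c' - c - c, n0 + n1 + a, fun n hn => ?_⟩
      have h2 := hf_colon hJI hxb n
      have h3 : hf p (n + b) ≤ hf (qp I p ⊔ Ideal.span {g} ⊔ Ideal.span {x}) (n + b) :=
        hf_anti (sup_le hJp ((Ideal.span_singleton_le_iff_mem _).2 hxp)) _
      have h4 := hJ (n + b - a) (by omega)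
      rw [Nat.sub_add_cancel (by omega)] at h4
      have h5 : ((n + b - a : ℕ) : ℤ) = (n : ℤ) + b - a := by
        rw [Nat.cast_sub (by omega)]; push_cast; ring
      rw [h5] at h4
      rw [hn0 (n + b) (by omega)] at h3
      push_cast at h3
      linarith
    have hnot : ¬ cln (qp I p ⊔ Ideal.span {g}) (Ideal.span {x}) ≤ p :=
      fun hle => hnb (Bdd_mono hle hB)
    obtain ⟨t, htc, htp⟩ := SetLike.not_le_iff_exists.1 hnot
    rw [pri_mem_cln] at htc
    apply qp_primary hpp htp
    obtain ⟨u, hu, v, hv, huv⟩ := Submodule.mem_sup.1 htc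
    obtain ⟨w, rfl⟩ := Ideal.mem_span_singleton.1 hv
    have h6 : t * (x * y) = u * y + w * (y * g) := by
      rw [← mul_assoc, ← huv]; ring
    rw [h6]
    exact Ideal.add_mem _ (Ideal.mul_mem_right _ _ hu) (Ideal.mul_mem_left _ _ (hann y hyp))
  rw [pow_two, Ideal.mul_le]
  intro x hx y hy
  rw [← sum_homogeneousComponent x, Finset.sum_mul]
  exact Ideal.sum_mem _ fun i _ =>
    key i _ (homogeneousComponent_mem i x) (hpI x hx i) y hy

end Pool.H33.G

end S_PRI

section S_DEC

/-! # DEC: additivity of slopes, finiteness of the set of components, decomposition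

* `Lin_finset_inf`: induction on `s`: `hf (inf ⊓ q_a) = hf inf + hf q_a - hf (inf ⊔ q_a)` and
  `inf ⊔ q_a` is bounded: otherwise a prime `p ⊇ inf ⊔ q_a` with unbounded Hilbert function
  (`exists_prime`) contains some `q_b` (`p ⊇ ∏ q_b`) and `q_a`.  A bounded homogeneous ideal has
  `Lin _ 0 c` (`exists_Lin`).
* `UP_finite`: distinct primes `p_1 .. p_m` of the set: `Lin (inf) (Σ e_i) C` with `e_i ≥ 1` and
  `I ≤ inf` so `m ≤ Σ e_i ≤ d`.
* `decomp`: `J = inf of the qp I p` over all of them; `A = cln I J` is bounded: otherwise a prime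
  `p ⊇ A` in `UP I`, but `J` is finitely generated and `J ≤ qp I p`, so some `g ∉ p` has `g J ≤ I`,
  i.e. `g ∈ A ≤ p`, contradiction.  Then `mod_bound` with `I ⊔ J = J`. -/

open MvPolynomial Module

namespace Pool.H33.G

variable {F : Type} [Field F]

theorem DEC_top : Lin (⊤ : Ideal (A4 F)) 0 0 := ⟨0, fun n _ => by rw [hf_top]; simp⟩

theorem DEC_Bdd_Lin {I : Ideal (A4 F)} (hI : HI I) (h : Bdd I) : ∃ c, Lin I 0 c := by
  have h' := h
  obtain ⟨c, hc⟩ := h
  obtain ⟨e, c', hL⟩ := exists_Lin hI (c := |c|) fun n => by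
    have h1 := hc n
    have h2 := le_abs_self c
    have h3 := abs_nonneg c
    have h4 : (0 : ℤ) ≤ n := Int.natCast_nonneg n
    nlinarith
  have he := (Lin_Bdd_iff hL).1 h'
  subst he
  exact ⟨c', hL⟩

theorem Lin_finset_inf {α : Type} {s : Finset α} {q : α → Ideal (A4 F)} {e : α → ℕ} {c : α → ℤ}
    (hq : ∀ a ∈ s, HI (q a)) (hL : ∀ a ∈ s, Lin (q a) (e a) (c a))
    (hd : ∀ a ∈ s, ∀ b ∈ s, a ≠ b → ∀ p : Ideal (A4 F), p.IsPrime → HI p → q a ≤ p → q b ≤ p → Bdd p) :
    ∃ C, Lin (s.inf q) (∑ a ∈ s, e a) C := by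
  classical
  induction s using Finset.induction_on with
  | empty =>
    refine ⟨0, ?_⟩
    rw [Finset.inf_empty, Finset.sum_empty]
    exact DEC_top
  | insert a s ha ih =>
    have hqa : HI (q a) := hq a (Finset.mem_insert_self a s)
    have hqs : ∀ b ∈ s, HI (q b) := fun b hb => hq b (Finset.mem_insert_of_mem hb)
    obtain ⟨C, hC⟩ := ih hqs (fun b hb => hL b (Finset.mem_insert_of_mem hb))
      (fun x hx y hy => hd x (Finset.mem_insert_of_mem hx) y (Finset.mem_insert_of_mem hy))
    have hinf : HI (s.inf q) := HI_finset_inf hqs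
    have hsup : HI (q a ⊔ s.inf q) := HI_sup hqa hinf
    have hB : Bdd (q a ⊔ s.inf q) := by
      by_contra hcon
      obtain ⟨p, hpp, hpI, hle, hpb⟩ := exists_prime hsup hcon
      obtain ⟨b, hb, hbp⟩ := (Ideal.IsPrime.inf_le' hpp).1 (le_sup_right.trans hle)
      exact hpb (hd a (Finset.mem_insert_self a s) b (Finset.mem_insert_of_mem hb)
        (fun h => ha (h ▸ hb)) p hpp hpI (le_sup_left.trans hle) hbp)
    obtain ⟨c', hc'⟩ := DEC_Bdd_Lin hsup hB
    refine ⟨c a + C - c', ?_⟩
    rw [Finset.inf_insert, Finset.sum_insert ha]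
    obtain ⟨n1, h1⟩ := hL a (Finset.mem_insert_self a s)
    obtain ⟨n2, h2⟩ := hC
    obtain ⟨n3, h3⟩ := hc'
    refine ⟨n1 + n2 + n3, fun n hn => ?_⟩
    have h4 := hf_inf_add_sup hqa hinf n
    rw [h1 n (by omega), h2 n (by omega), h3 n (by omega)] at h4
    push_cast at h4 ⊢
    linarith

theorem DEC_le_of_Lin {I J : Ideal (A4 F)} (hIJ : I ≤ J) {d e : ℕ} {χ c : ℤ} (hI : Lin I d χ)
    (hJ : Lin J e c) : e ≤ d := by
  obtain ⟨n0, hn0⟩ := hI
  exact Lin_le hJ ⟨n0, fun n hn => (hf_anti hIJ n).trans (hn0 n hn).le⟩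

theorem UP_finite {I : Ideal (A4 F)} (hI : HI I) {d : ℕ} {χ : ℤ} (hL : Lin I d χ) :
    {p | UP I p}.Finite := by
  classical
  by_contra hinf
  obtain ⟨t, ht, hcard⟩ := Set.Infinite.exists_subset_card_eq hinf (d + 1)
  have hex : ∀ p : Ideal (A4 F), ∃ (e : ℕ) (c : ℤ), p ∈ t → Lin p e c ∧ 1 ≤ e := by
    intro p
    by_cases hp : p ∈ t
    · have hUP : UP I p := ht hp
      obtain ⟨e, c, -, hLp⟩ := exists_Lin_of_le hUP.2.1 hUP.2.2.1 hL
      refine ⟨e, c, fun _ => ⟨hLp, ?_⟩⟩
      rcases Nat.eq_zero_or_pos e with h0 | h0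
      · exact absurd ((Lin_Bdd_iff hLp).2 h0) hUP.2.2.2
      · exact h0
    · exact ⟨0, 0, fun h => absurd h hp⟩
  choose e c hec using hex
  obtain ⟨C, hC⟩ := Lin_finset_inf (s := t) (q := fun p => p) (e := e) (c := c)
    (fun p hp => (ht hp : UP I p).2.1) (fun p hp => (hec p hp).1) (by
      intro a ha b hb hab P hP hPI haP hbP
      by_contra hcon
      have hUa : UP I a := ht ha
      have hUb : UP I b := ht hb
      have hUP : UP I P := ⟨hP, hPI, hUa.2.2.1.trans haP, hcon⟩
      exact hab ((UP_eq hL hUa hUP haP).trans (UP_eq hL hUb hUP hbP).symm))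
  have hle : I ≤ t.inf (fun p => p) := Finset.le_inf fun p hp => (ht hp : UP I p).2.2.1
  have h1 := DEC_le_of_Lin hle hL hC
  have h2 : t.card ≤ ∑ p ∈ t, e p := by
    have := Finset.card_nsmul_le_sum t e 1 (fun p hp => (hec p hp).2)
    simpa using this
  omega

theorem DEC_le_inf {I : Ideal (A4 F)} {s : Finset (Ideal (A4 F))} (hs : ∀ p, p ∈ s ↔ UP I p) :
    I ≤ s.inf (qp I) :=
  Finset.le_inf fun p hp => le_qp ((hs p).1 hp).1

theorem decomp {I : Ideal (A4 F)} (hI : HI I) {d : ℕ} {χ : ℤ} (hL : Lin I d χ)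
    {s : Finset (Ideal (A4 F))} (hs : ∀ p, p ∈ s ↔ UP I p) :
    ∃ c : ℤ, ∀ n, hf I n ≤ hf (s.inf (qp I)) n + c := by
  classical
  have hJ : HI (s.inf (qp I)) :=
    HI_finset_inf fun p hp => HI_qp hI ((hs p).1 hp).1 ((hs p).1 hp).2.1
  have hA : HI (cln I (s.inf (qp I))) := HI_cln hI hJ
  have hAJ : cln I (s.inf (qp I)) * s.inf (qp I) ≤ I := by
    rw [Ideal.mul_le]
    intro a ha b hb
    exact ha b hb
  have hA' : Bdd (cln I (s.inf (qp I))) := by
    by_contra hcon
    obtain ⟨p, hpp, hpI, hle, hpb⟩ := exists_prime hA hcon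
    have hUP : UP I p := ⟨hpp, hpI, (BD_le_cln_self _ _).trans hle, hpb⟩
    have hJp : s.inf (qp I) ≤ qp I p := Finset.inf_le ((hs p).2 hUP)
    obtain ⟨t, -, htJ⟩ := HI_fg hJ
    have hex : ∀ f : A4 F, ∃ g : A4 F, f ∈ t → g ∉ p ∧ g * f ∈ I := by
      intro f
      by_cases hft : f ∈ t
      · have hfJ : f ∈ s.inf (qp I) := by
          rw [← htJ]
          exact Ideal.subset_span hft
        obtain ⟨g, hg⟩ := (mem_qp hpp).1 (hJp hfJ)
        exact ⟨g, fun _ => hg⟩
      · exact ⟨0, fun h => absurd h hft⟩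
    choose g hg using hex
    have hprod : ∏ f ∈ t, g f ∉ p := by
      intro hmem
      obtain ⟨f, hft, hfp⟩ := (Ideal.IsPrime.prod_mem_iff).1 hmem
      exact (hg f hft).1 hfp
    apply hprod
    apply hle
    intro x hx
    rw [← htJ] at hx
    refine Submodule.span_induction (p := fun x _ => (∏ f ∈ t, g f) * x ∈ I) ?_ ?_ ?_ ?_ hx
    · intro f hft
      obtain ⟨y, hy⟩ := Finset.dvd_prod_of_mem g (Finset.mem_coe.1 hft)
      rw [hy]
      have h1 : g f * y * f = y * (g f * f) := by ring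
      rw [h1]
      exact I.mul_mem_left _ (hg f hft).2
    · rw [mul_zero]; exact I.zero_mem
    · intro x y _ _ hx hy
      rw [mul_add]
      exact I.add_mem hx hy
    · intro a x _ hx
      have h1 : (∏ f ∈ t, g f) * (a • x) = a * ((∏ f ∈ t, g f) * x) := by
        rw [smul_eq_mul]; ring
      rw [h1]
      exact I.mul_mem_left _ hx
  obtain ⟨c, hc⟩ := mod_bound hI hJ hA hA' hAJ
  refine ⟨c, fun n => ?_⟩
  have h := hc n
  rwa [sup_eq_right.2 (DEC_le_inf hs)] at h

/-- the slopes of the components add up to the slope of `I` -/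
theorem sum_slopes {I : Ideal (A4 F)} (hI : HI I) {d : ℕ} {χ : ℤ} (hL : Lin I d χ)
    {s : Finset (Ideal (A4 F))} (hs : ∀ p, p ∈ s ↔ UP I p) {e : Ideal (A4 F) → ℕ}
    {c : Ideal (A4 F) → ℤ} (he : ∀ p ∈ s, Lin (qp I p) (e p) (c p)) : ∑ p ∈ s, e p = d := by
  obtain ⟨C, hC⟩ := Lin_finset_inf (s := s) (q := qp I) (e := e) (c := c)
    (fun p hp => HI_qp hI ((hs p).1 hp).1 ((hs p).1 hp).2.1) he (by
      intro a ha b hb hab P hP hPI haP hbP
      by_contra hcon
      have hUa : UP I a := (hs a).1 ha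
      have hUb : UP I b := (hs b).1 hb
      have hUP : UP I P := ⟨hP, hPI, (le_qp hUa.1).trans haP, hcon⟩
      obtain ⟨N, hN⟩ := pow_le_qp hI hL hUa
      obtain ⟨M, hM⟩ := pow_le_qp hI hL hUb
      have h1 : a ≤ P := Ideal.IsPrime.le_of_pow_le (hN.trans haP)
      have h2 : b ≤ P := Ideal.IsPrime.le_of_pow_le (hM.trans hbP)
      exact hab ((UP_eq hL hUa hUP h1).trans (UP_eq hL hUb hUP h2).symm))
  apply le_antisymm
  · exact DEC_le_of_Lin (DEC_le_inf hs) hL hC
  · obtain ⟨c', hc'⟩ := decomp hI hL hs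
    obtain ⟨n0, hn0⟩ := hC
    refine Lin_le hL (c' := C + c') ⟨n0, fun n hn => ?_⟩
    have h1 := hc' n
    rw [hn0 n hn] at h1
    linarith

end Pool.H33.G

end S_DEC

section S_LNA

/-! # LNA: the ideal `lineI P Q` of a line (kernel of the surjective `res P Q`); change coordinates so that the
line is `X 2 = X 3 = 0`, or use that `res P Q` maps forms of degree `n` onto binary forms of degree `n` -/

open MvPolynomial Module

namespace Pool.H33.G

variable {F : Type} [Field F]

theorem lineI_isPrime (P Q : Fin 4 → F) : (lineI P Q).IsPrime :=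
  RingHom.ker_isPrime (res P Q)

theorem LNA_mem {P Q : Fin 4 → F} {f : A4 F} : f ∈ lineI P Q ↔ res P Q f = 0 :=
  RingHom.mem_ker

theorem LNA_res_hom (P Q : Fin 4 → F) {n : ℕ} {f : A4 F} (hf' : f ∈ Fm F n) :
    (res P Q f).IsHomogeneous n := by
  have h := IsHomogeneous.aeval (S := F) (n := 1) (τ := Fin 2) hf'
    (fun a => C (P a) * X 0 + C (Q a) * X 1)
    (fun a => (isHomogeneous_C_mul_X _ _).add (isHomogeneous_C_mul_X _ _))
  rw [one_mul] at h
  exact h

theorem HI_lineI (P Q : Fin 4 → F) : HI (lineI P Q) := by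
  intro f hf' n
  rw [LNA_mem] at hf' ⊢
  by_cases hn : f.totalDegree < n
  · rw [homogeneousComponent_eq_zero _ _ hn, map_zero]
  · push Not at hn
    have h1 := congrArg (res P Q) (sum_homogeneousComponent f)
    rw [hf', map_sum] at h1
    have h2 := congrArg (homogeneousComponent n) h1
    rw [map_sum, map_zero, Finset.sum_eq_single n] at h2
    · rw [homogeneousComponent_of_mem (LNA_res_hom P Q (homogeneousComponent_mem n f)),
        if_pos rfl] at h2
      exact h2
    · intro m _ hm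
      rw [homogeneousComponent_of_mem (LNA_res_hom P Q (homogeneousComponent_mem m f)),
        if_neg hm.symm]
    · intro hcon
      exact absurd (Finset.mem_range.2 (Nat.lt_succ_of_le hn)) hcon

/-- binary monomials are images of forms -/
theorem LNA_surj {P Q : Fin 4 → F} (h : LinearIndependent F ![P, Q]) (n : ℕ) :
    (Fm F n).map (res P Q).toLinearMap = homogeneousSubmodule (Fin 2) F n := by
  have hinj : Function.Injective (Fintype.linearCombination F ![P, Q]) :=
    linearIndependent_iff_injective_fintypeLinearCombination.1 h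
  obtain ⟨g, hg⟩ := (Fintype.linearCombination F ![P, Q]).exists_leftInverse_of_injective
    (LinearMap.ker_eq_bot.2 hinj)
  have hgP : g P = Pi.single 0 1 := by
    have h1 := congrArg (fun t => t (Pi.single 0 1)) hg
    simpa [Fintype.linearCombination_apply_single] using h1
  have hgQ : g Q = Pi.single 1 1 := by
    have h1 := congrArg (fun t => t (Pi.single 1 1)) hg
    simpa [Fintype.linearCombination_apply_single] using h1
  have hlin : ∀ j : Fin 2, ∃ l : A4 F, l ∈ Fm F 1 ∧ res P Q l = X j := by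
    intro j
    refine ⟨∑ a, C (g (Pi.single a 1) j) * X a, ?_, ?_⟩
    · refine Submodule.sum_mem _ (fun a _ => ?_)
      exact isHomogeneous_C_mul_X _ _
    · have hexp : ∀ v : Fin 4 → F, ∑ a, g (Pi.single a 1) j * v a = g v j := by
        intro v
        conv_rhs => rw [pi_eq_sum_univ' v]
        rw [map_sum, Finset.sum_apply]
        refine Finset.sum_congr rfl (fun a _ => ?_)
        rw [map_smul, Pi.smul_apply, smul_eq_mul, mul_comm]
      rw [map_sum]
      have h2 : ∀ a, res P Q (C (g (Pi.single a 1) j) * X a) =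
          C (g (Pi.single a 1) j * P a) * X 0 + C (g (Pi.single a 1) j * Q a) * X 1 := by
        intro a
        unfold res
        rw [map_mul, aeval_C, aeval_X, algebraMap_eq, C_mul, C_mul]
        ring
      rw [Finset.sum_congr rfl (fun a _ => h2 a), Finset.sum_add_distrib, ← Finset.sum_mul,
        ← Finset.sum_mul, ← map_sum, ← map_sum, hexp, hexp, hgP, hgQ]
      fin_cases j
      · simp
      · simp
  obtain ⟨l0, hl0, hr0⟩ := hlin 0
  obtain ⟨l1, hl1, hr1⟩ := hlin 1
  apply le_antisymm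
  · rintro _ ⟨f, hf', rfl⟩
    exact LNA_res_hom P Q hf'
  · intro p hp
    have hp' : p.IsHomogeneous n := hp
    rw [p.as_sum]
    refine Submodule.sum_mem _ (fun m hm => ?_)
    have hdeg : m 0 + m 1 = n := by
      have h6 : m.degree = n := by
        have := hp' (mem_support_iff.1 hm)
        rwa [Finsupp.degree_eq_weight_one]
      rwa [Finsupp.degree_eq_sum, Fin.sum_univ_two] at h6
    refine ⟨C (coeff m p) * (l0 ^ m 0 * l1 ^ m 1), ?_, ?_⟩
    · have h3 : (l0 ^ m 0 * l1 ^ m 1).IsHomogeneous (1 * m 0 + 1 * m 1) :=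
        (IsHomogeneous.pow hl0 (m 0)).mul (IsHomogeneous.pow hl1 (m 1))
      have h4 := (isHomogeneous_C (Fin 4) (coeff m p)).mul h3
      rw [zero_add, one_mul, one_mul, hdeg] at h4
      exact h4
    · have h5 : (res P Q).toLinearMap (C (coeff m p) * (l0 ^ m 0 * l1 ^ m 1)) =
          C (coeff m p) * (X 0 ^ m 0 * X 1 ^ m 1) := by
        rw [AlgHom.toLinearMap_apply, map_mul, map_mul, map_pow, map_pow, hr0, hr1]
        congr 1
        unfold res
        rw [aeval_C, algebraMap_eq]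
      rw [h5, monomial_eq, Finsupp.prod_fintype _ _ (fun i => pow_zero _), Fin.prod_univ_two]

theorem LNA_finrank (n : ℕ) : finrank F (homogeneousSubmodule (Fin 2) F n) = n + 1 := by
  rw [homogeneousSubmodule_eq_finsupp_supported]
  let e : {d : Fin 2 →₀ ℕ | d.degree = n} ≃ Finset.HasAntidiagonal.antidiagonal n :=
    { toFun := fun d => ⟨(d.1 0, d.1 1), by
        have h := d.2
        rw [Set.mem_ofPred_eq, Finsupp.degree_eq_sum, Fin.sum_univ_two] at h
        exact Finset.HasAntidiagonal.mem_antidiagonal.2 h⟩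
      invFun := fun x => ⟨Finsupp.equivFunOnFinite.symm ![x.1.1, x.1.2], by
        rw [Set.mem_ofPred_eq, Finsupp.degree_eq_sum, Fin.sum_univ_two]
        exact Finset.HasAntidiagonal.mem_antidiagonal.1 x.2⟩
      left_inv := fun d => by
        apply Subtype.ext
        ext i
        fin_cases i <;> rfl
      right_inv := fun x => by
        apply Subtype.ext
        rfl }
  have h1 := (AddMonoidAlgebra.supportedEquivFinsupp (R := F) (S := F)
    {d : Fin 2 →₀ ℕ | d.degree = n}).finrank_eq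
  have h2 := (Finsupp.domLCongr (M := F) (R := F) e).finrank_eq
  have h3 : finrank F (Finset.HasAntidiagonal.antidiagonal n →₀ F) = n + 1 := by
    rw [Module.finrank_finsupp_self, Fintype.card_coe, Finset.Nat.card_antidiagonal]
  rw [← h3, ← h2, ← h1]

theorem hf_lineI {P Q : Fin 4 → F} (h : LinearIndependent F ![P, Q]) (n : ℕ) :
    hf (lineI P Q) n = n + 1 := by
  let L : Fm F n →ₗ[F] MvPolynomial (Fin 2) F := (res P Q).toLinearMap.domRestrict (Fm F n)
  have h1 : LinearMap.range L = homogeneousSubmodule (Fin 2) F n := by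
    rw [← LNA_surj h n]
    ext x
    constructor
    · rintro ⟨f, rfl⟩
      exact ⟨f.1, f.2, rfl⟩
    · rintro ⟨f, hf', rfl⟩
      exact ⟨⟨f, hf'⟩, rfl⟩
  have h2 : LinearMap.ker L = (part (lineI P Q) n).comap (Fm F n).subtype := by
    ext x
    rw [LinearMap.mem_ker, Submodule.mem_comap, mem_part, LNA_mem]
    constructor
    · intro hx
      exact ⟨hx, x.2⟩
    · intro hx
      exact hx.1
  have h3 : finrank F (LinearMap.ker L) = finrank F (part (lineI P Q) n) := by
    rw [h2]
    exact (Submodule.comapSubtypeEquivOfLe (inf_le_right : part (lineI P Q) n ≤ Fm F n)).finrank_eq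
  have h4 := LinearMap.finrank_range_add_finrank_ker L
  rw [h1, h3, LNA_finrank] at h4
  unfold hf
  rw [← h4]
  push_cast
  ring

theorem Lin_lineI {P Q : Fin 4 → F} (h : LinearIndependent F ![P, Q]) : Lin (lineI P Q) 1 1 :=
  ⟨0, fun n _ => by rw [hf_lineI h n]; push_cast; ring⟩

theorem not_Bdd_lineI {P Q : Fin 4 → F} (h : LinearIndependent F ![P, Q]) :
    ¬ Bdd (lineI P Q) := by
  rw [Lin_Bdd_iff (Lin_lineI h)]
  exact one_ne_zero

end Pool.H33.G

end S_LNA

section S_LNS

/-! # LNS: ideals of lines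

`vI Λ` for a 2-dimensional `Λ ⊆ F^4` and `lineI P Q = vI (span {P, Q})` over an infinite field. After a
linear change of coordinates the line is `X 2 = X 3 = 0`. -/

open MvPolynomial Module

namespace Pool.H33.G

set_option linter.unusedSectionVars false

variable {F : Type} [Field F] [Infinite F]

omit [Infinite F] in
theorem LNS_mem_vI {Λ : Submodule F (Fin 4 → F)} {f : A4 F} :
    f ∈ vI Λ ↔ ∀ v ∈ Λ, eval v f = 0 := Iff.rfl

omit [Infinite F] in
theorem LNS_eval_res (P Q : Fin 4 → F) (x : Fin 2 → F) (f : A4 F) :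
    eval x (res P Q f) = eval (x 0 • P + x 1 • Q) f := by
  have h : (MvPolynomial.aeval (R := F) x).comp (res P Q) =
      MvPolynomial.aeval (R := F) (x 0 • P + x 1 • Q) := by
    apply MvPolynomial.algHom_ext
    intro a
    simp [res, mul_comm]
  have h2 := DFunLike.congr_fun h f
  simpa [MvPolynomial.aeval_eq_eval] using h2

theorem lineI_eq_vI (P Q : Fin 4 → F) : lineI P Q = vI (Submodule.span F {P, Q}) := by
  ext f
  rw [LNS_mem_vI, lineI, RingHom.mem_ker]
  constructor
  · intro h v hv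
    obtain ⟨a, b, rfl⟩ := Submodule.mem_span_pair.1 hv
    have h1 := LNS_eval_res P Q ![a, b] f
    rw [h, map_zero] at h1
    simpa using h1.symm
  · intro h
    apply MvPolynomial.funext
    intro x
    rw [LNS_eval_res, map_zero]
    exact h _ (Submodule.mem_span_pair.2 ⟨_, _, rfl⟩)

theorem LNS_vI_eq_iInf (Λ : Submodule F (Fin 4 → F)) :
    vI Λ = ⨅ v : Λ, lineI (v : Fin 4 → F) (v : Fin 4 → F) := by
  ext f
  rw [LNS_mem_vI, Submodule.mem_iInf]
  constructor
  · intro h v
    rw [lineI_eq_vI, LNS_mem_vI]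
    intro w hw
    apply h
    refine (Submodule.span_le.2 ?_) hw
    rintro _ (rfl | rfl) <;> exact v.2
  · intro h v hv
    have h1 := h ⟨v, hv⟩
    rw [lineI_eq_vI, LNS_mem_vI] at h1
    exact h1 v (Submodule.subset_span (Set.mem_insert _ _))

theorem HI_vI (Λ : Submodule F (Fin 4 → F)) : HI (vI Λ) := by
  rw [LNS_vI_eq_iInf]
  exact HI_iInf fun v => HI_lineI _ _

omit [Infinite F] in
theorem LNS_single {m : ℕ} {M : Type} [AddCommGroup M] [Module F M] (L : (Fin m → F) →ₗ[F] M)
    (x : Fin m → F) : L x = ∑ i, x i • L (Pi.single i 1) := by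
  conv_lhs => rw [← Finset.univ_sum_single x]
  rw [map_sum]
  refine Finset.sum_congr rfl fun i _ => ?_
  rw [← L.map_smul, ← Pi.single_smul, smul_eq_mul, mul_one]

/-- composition with a linear substitution -/
noncomputable def LNS_sub {m : ℕ} (L : (Fin m → F) →ₗ[F] (Fin 4 → F)) :
    A4 F →ₐ[F] MvPolynomial (Fin m) F :=
  aeval fun a => ∑ i, C (L (Pi.single i 1) a) * X i

omit [Infinite F] in
theorem LNS_eval_sub {m : ℕ} (L : (Fin m → F) →ₗ[F] (Fin 4 → F)) (x : Fin m → F) (f : A4 F) :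
    eval x (LNS_sub L f) = eval (L x) f := by
  have h : (MvPolynomial.aeval (R := F) x).comp (LNS_sub L) =
      MvPolynomial.aeval (R := F) (L x) := by
    apply MvPolynomial.algHom_ext
    intro a
    have h1 : L x a = ∑ i, x i * L (Pi.single i 1) a := by
      conv_lhs => rw [LNS_single L x]
      simp
    simp [LNS_sub, h1, mul_comm]
  have h2 := DFunLike.congr_fun h f
  simpa [MvPolynomial.aeval_eq_eval] using h2

theorem vI_isPrime (Λ : Submodule F (Fin 4 → F)) : (vI Λ).IsPrime := by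
  let b := Module.finBasis F Λ
  let L : (Fin (finrank F Λ) → F) →ₗ[F] (Fin 4 → F) :=
    Λ.subtype ∘ₗ (b.equivFun.symm : (Fin (finrank F Λ) → F) ≃ₗ[F] Λ).toLinearMap
  have h : vI Λ = RingHom.ker (LNS_sub L) := by
    ext f
    rw [LNS_mem_vI, RingHom.mem_ker]
    constructor
    · intro h
      apply MvPolynomial.funext
      intro x
      rw [LNS_eval_sub, map_zero]
      exact h _ (Submodule.coe_mem _)
    · intro h v hv
      have h1 := LNS_eval_sub L (b.equivFun ⟨v, hv⟩) f
      rw [h, map_zero] at h1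
      have h2 : L (b.equivFun ⟨v, hv⟩) = v := by
        simp [L]
      rw [h2] at h1
      exact h1.symm
  rw [h]
  exact RingHom.ker_isPrime _

omit [Infinite F] in
theorem LNS_basis {Λ : Submodule F (Fin 4 → F)} (h : finrank F Λ = 2) :
    ∃ P Q : Fin 4 → F, LinearIndependent F ![P, Q] ∧ Λ = Submodule.span F {P, Q} := by
  let b := Module.finBasisOfFinrankEq F Λ h
  refine ⟨b 0, b 1, ?_, ?_⟩
  · have h1 : LinearIndependent F (Λ.subtype ∘ b) :=
      b.linearIndependent.map' Λ.subtype (Submodule.ker_subtype Λ)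
    have h2 : (Λ.subtype ∘ b) = ![(b 0 : Fin 4 → F), (b 1 : Fin 4 → F)] := by
      funext i
      fin_cases i <;> rfl
    rwa [h2] at h1
  · apply le_antisymm
    · intro v hv
      have h1 := b.sum_repr ⟨v, hv⟩
      rw [Fin.sum_univ_two] at h1
      have h2 := congrArg Subtype.val h1
      rw [Submodule.mem_span_pair]
      exact ⟨_, _, h2⟩
    · rw [Submodule.span_le]
      rintro _ (rfl | rfl)
      · exact (b 0).2
      · exact (b 1).2

theorem hf_vI {Λ : Submodule F (Fin 4 → F)} (h : finrank F Λ = 2) (n : ℕ) : hf (vI Λ) n = n + 1 := by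
  obtain ⟨P, Q, hPQ, rfl⟩ := LNS_basis h
  rw [← lineI_eq_vI]
  exact hf_lineI hPQ n

theorem not_Bdd_vI {Λ : Submodule F (Fin 4 → F)} (h : finrank F Λ = 2) : ¬ Bdd (vI Λ) := by
  obtain ⟨P, Q, hPQ, rfl⟩ := LNS_basis h
  rw [← lineI_eq_vI]
  exact not_Bdd_lineI hPQ

/-- the linear form of a functional -/
noncomputable def LNS_lf : Module.Dual F (Fin 4 → F) →ₗ[F] A4 F where
  toFun φ := ∑ a, C (φ (Pi.single a 1)) * X a
  map_add' := by
    intro φ ψ
    simp [add_mul, Finset.sum_add_distrib]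
  map_smul' := by
    intro c φ
    simp [Finset.smul_sum, smul_eq_C_mul, mul_assoc]

omit [Infinite F] in
theorem LNS_eval_lf (φ : Module.Dual F (Fin 4 → F)) (v : Fin 4 → F) :
    eval v (LNS_lf φ) = φ v := by
  rw [LNS_single (M := F) φ v]
  simp [LNS_lf, mul_comm]

omit [Infinite F] in
theorem LNS_lf_mem (φ : Module.Dual F (Fin 4 → F)) : LNS_lf φ ∈ Fm F 1 := by
  show (∑ a, C (φ (Pi.single a 1)) * X a : A4 F) ∈ Fm F 1
  refine Submodule.sum_mem _ fun a _ => ?_
  have h := (isHomogeneous_C (Fin 4) (φ (Pi.single a 1))).mul (isHomogeneous_X F a)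
  rwa [zero_add] at h

omit [Infinite F] in
theorem LNS_lf_proj (a : Fin 4) : LNS_lf (LinearMap.proj (R := F) (φ := fun _ : Fin 4 => F) a) =
    (X a : A4 F) := by
  simp only [LNS_lf, LinearMap.coe_mk, AddHom.coe_mk, LinearMap.proj_apply]
  rw [Finset.sum_eq_single a]
  · simp
  · intro b _ hb
    simp [Pi.single_eq_of_ne (Ne.symm hb)]
  · intro h
    exact absurd (Finset.mem_univ a) h

omit [Infinite F] in
theorem LNS_lf_mem_vI {φ : Module.Dual F (Fin 4 → F)} {Λ : Submodule F (Fin 4 → F)} :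
    LNS_lf φ ∈ vI Λ ↔ φ ∈ Λ.dualAnnihilator := by
  rw [LNS_mem_vI, Submodule.mem_dualAnnihilator]
  simp only [LNS_eval_lf]

omit [Infinite F] in
theorem LNS_lf_inj : Function.Injective (LNS_lf (F := F)) := by
  intro φ ψ h
  ext a
  have h1 := congrArg (eval (Pi.single a 1)) h
  rw [LNS_eval_lf, LNS_eval_lf] at h1
  simpa using h1

omit [Infinite F] in
theorem LNS_lf_surj {f : A4 F} (hf' : f ∈ Fm F 1) : ∃ φ, LNS_lf φ = f := by
  refine ⟨∑ a, coeff (Finsupp.single a 1) f • LinearMap.proj a, ?_⟩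
  rw [map_sum]
  simp only [map_smul, LNS_lf_proj]
  ext m
  rw [coeff_sum]
  by_cases hm : m.degree = 1
  · obtain ⟨b, rfl⟩ : ∃ b, m = Finsupp.single b 1 := by
      have h1 : m ∈ Set.range (fun a : Fin 4 => Finsupp.single a 1) := by
        rw [Finsupp.range_single_one]
        exact hm
      obtain ⟨b, hb⟩ := h1
      exact ⟨b, hb.symm⟩
    rw [Finset.sum_eq_single b]
    · simp
    · intro c _ hc
      rw [coeff_smul, coeff_X, if_neg, smul_zero]
      intro h
      exact hc ((Finsupp.single_left_inj one_ne_zero).1 h)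
    · intro h
      exact absurd (Finset.mem_univ b) h
  · rw [IsHomogeneous.coeff_eq_zero hf' hm]
    refine Finset.sum_eq_zero fun c _ => ?_
    rw [coeff_smul, coeff_X, if_neg, smul_zero]
    rintro rfl
    exact hm (Finsupp.degree_single _ _)

omit [Infinite F] in
theorem LNS_finrank_Fm : finrank F (Fm F 1) = 4 := by
  have h : Fm F 1 = LinearMap.range (LNS_lf (F := F)) := by
    ext f
    constructor
    · intro hf'
      exact LNS_lf_surj hf'
    · rintro ⟨φ, rfl⟩
      exact LNS_lf_mem φ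
  rw [h, LinearMap.finrank_range_of_inj LNS_lf_inj, Subspace.dual_finrank_eq]
  simp

theorem vI_le_iff {Λ Λ' : Submodule F (Fin 4 → F)} : vI Λ ≤ vI Λ' ↔ Λ' ≤ Λ := by
  constructor
  · intro h
    rw [← Subspace.dualAnnihilator_le_dualAnnihilator_iff]
    intro φ hφ
    rw [← LNS_lf_mem_vI] at hφ ⊢
    exact h hφ
  · intro h f hf' v hv
    exact hf' v (h hv)

theorem vI_inj {Λ Λ' : Submodule F (Fin 4 → F)} (h : vI Λ = vI Λ') : Λ = Λ' :=
  le_antisymm (vI_le_iff.1 h.ge) (vI_le_iff.1 h.le)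

/-- disjoint lines: the sum of the ideals contains all forms of positive degree -/
theorem vI_sup_of_disjoint {Λ Λ' : Submodule F (Fin 4 → F)} (h : Λ ⊓ Λ' = ⊥) :
    ∀ a, (X a : A4 F) ∈ vI Λ ⊔ vI Λ' := by
  intro a
  have h1 : (LinearMap.proj a : Module.Dual F (Fin 4 → F)) ∈
      Λ.dualAnnihilator ⊔ Λ'.dualAnnihilator := by
    rw [← Subspace.dualAnnihilator_inf_eq, h, Submodule.dualAnnihilator_bot]
    exact Submodule.mem_top
  obtain ⟨φ, hφ, ψ, hψ, h2⟩ := Submodule.mem_sup.1 h1
  rw [← LNS_lf_proj, ← h2, map_add]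
  exact Submodule.add_mem_sup (LNS_lf_mem_vI.2 hφ) (LNS_lf_mem_vI.2 hψ)

/-- `vI Λ` is generated by linear forms -/
theorem LNS_vI_le {p : Ideal (A4 F)} {Λ : Submodule F (Fin 4 → F)}
    (h : ∀ φ ∈ Λ.dualAnnihilator, LNS_lf φ ∈ p) : vI Λ ≤ p := by
  obtain ⟨g, hg⟩ := LinearMap.exists_leftInverse_of_injective Λ.subtype (Submodule.ker_subtype Λ)
  let L : (Fin 4 → F) →ₗ[F] (Fin 4 → F) := Λ.subtype ∘ₗ g
  have hL : ∀ v ∈ Λ, L v = v := by
    intro v hv
    have := DFunLike.congr_fun hg ⟨v, hv⟩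
    exact congrArg Subtype.val this
  have hL' : ∀ v, L v ∈ Λ := fun v => (g v).2
  have h1 : (Ideal.Quotient.mkₐ F p).comp (LNS_sub L) = Ideal.Quotient.mkₐ F p := by
    apply MvPolynomial.algHom_ext
    intro a
    rw [AlgHom.comp_apply, Ideal.Quotient.mkₐ_eq_mk, ← sub_eq_zero, ← map_sub,
      Ideal.Quotient.eq_zero_iff_mem]
    have h2 : LNS_sub L (X a) - X a =
        LNS_lf ((LinearMap.proj a : Module.Dual F (Fin 4 → F)) ∘ₗ (L - LinearMap.id)) := by
      have h3 : LNS_sub L (X a) = LNS_lf ((LinearMap.proj a : Module.Dual F (Fin 4 → F)) ∘ₗ L) := by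
        simp [LNS_sub, LNS_lf]
      rw [LinearMap.comp_sub, map_sub, ← h3, LinearMap.comp_id, LNS_lf_proj]
    rw [h2]
    apply h
    rw [Submodule.mem_dualAnnihilator]
    intro v hv
    simp [hL v hv]
  intro f hf'
  have h4 : LNS_sub L f = 0 := by
    apply MvPolynomial.funext
    intro x
    rw [LNS_eval_sub, map_zero]
    exact hf' _ (hL' x)
  have h5 := DFunLike.congr_fun h1 f
  rw [AlgHom.comp_apply, h4, map_zero, Ideal.Quotient.mkₐ_eq_mk] at h5
  exact Ideal.Quotient.eq_zero_iff_mem.1 h5.symm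

omit [Infinite F] in
theorem LNS_eval_smul {n : ℕ} {f : A4 F} (hf' : f ∈ Fm F n) (c : F) (v : Fin 4 → F) :
    eval (c • v) f = c ^ n * eval v f := by
  rw [eval_eq', eval_eq', Finset.mul_sum]
  refine Finset.sum_congr rfl fun d hd => ?_
  have hd1 : d.degree = n := by
    by_contra hne
    exact (MvPolynomial.mem_support_iff.1 hd) (IsHomogeneous.coeff_eq_zero hf' hne)
  have hd2 : ∑ i, d i = n := by
    rw [← hd1, Finsupp.degree_eq_sum]
  simp only [Pi.smul_apply, smul_eq_mul, mul_pow]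
  rw [Finset.prod_mul_distrib, Finset.prod_pow_eq_pow_sum, hd2]
  ring

omit [Infinite F] in
theorem LNS_finrank_map {V W : Type} [AddCommGroup V] [Module F V] [AddCommGroup W] [Module F W]
    (L : V →ₗ[F] W) (hL : Function.Injective L) (U : Submodule F V) :
    finrank F (U.map L) = finrank F U :=
  ((U.equivMapOfInjective L hL).finrank_eq).symm

theorem LNS_Bdd {Λ : Submodule F (Fin 4 → F)} (h : finrank F Λ ≤ 1) : Bdd (vI Λ) := by
  obtain ⟨v, hv⟩ : ∃ v : Fin 4 → F, Λ ≤ Submodule.span F {v} := by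
    obtain ⟨v, hv⟩ := (finrank_le_one_iff (K := F) (V := Λ)).1 h
    refine ⟨v, fun w hw => ?_⟩
    obtain ⟨c, hc⟩ := hv ⟨w, hw⟩
    rw [Submodule.mem_span_singleton]
    exact ⟨c, congrArg Subtype.val hc⟩
  refine ⟨1, fun n => ?_⟩
  let T : Fm F n →ₗ[F] F := (MvPolynomial.aeval (R := F) v).toLinearMap ∘ₗ (Fm F n).subtype
  have h1 := LinearMap.finrank_range_add_finrank_ker T
  have h2 : finrank F (LinearMap.range T) ≤ 1 :=
    (Submodule.finrank_le _).trans (by simp)
  have h3 : finrank F (LinearMap.ker T) ≤ finrank F (part (vI Λ) n) := by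
    have h4 : finrank F ((LinearMap.ker T).map (Fm F n).subtype) = finrank F (LinearMap.ker T) :=
      LNS_finrank_map _ (Submodule.injective_subtype _) _
    rw [← h4]
    apply Submodule.finrank_mono
    rintro _ ⟨f, hf', rfl⟩
    rw [mem_part]
    refine ⟨?_, f.2⟩
    intro w hw
    obtain ⟨c, rfl⟩ := Submodule.mem_span_singleton.1 (hv hw)
    have h5 : eval v (f : A4 F) = 0 := by
      have : T f = 0 := hf'
      simpa [T, MvPolynomial.aeval_eq_eval] using this
    rw [Submodule.subtype_apply, LNS_eval_smul f.2, h5, mul_zero]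
  unfold hf
  omega

/-- a homogeneous prime with `hf p n ≤ n + 1` and slope one is the ideal of a line.  (The linear forms
in `p` have dimension `≥ 2`; let `Λ` be their common zero space; `vI Λ` is generated by these linear
forms; if `dim Λ ≤ 1` then `hf (vI Λ)` is bounded; if `dim Λ = 2` use `Bdd_of_lt_prime`.) -/
theorem eq_vI_of_prime {p : Ideal (A4 F)} (hp : p.IsPrime) (hpI : HI p) {c : ℤ} (hL : Lin p 1 c)
    (h : ∀ n : ℕ, hf p n ≤ n + 1) : ∃ Λ : Submodule F (Fin 4 → F), finrank F Λ = 2 ∧ p = vI Λ := by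
  let W : Submodule F (Module.Dual F (Fin 4 → F)) := (p.restrictScalars F).comap LNS_lf
  have hnB : ¬ Bdd p := fun hb => one_ne_zero ((Lin_Bdd_iff hL).1 hb)
  have hW : 2 ≤ finrank F W := by
    have h1 := h 1
    unfold hf at h1
    rw [LNS_finrank_Fm] at h1
    have h2 : part p 1 = W.map LNS_lf := by
      ext f
      rw [mem_part, Submodule.mem_map]
      constructor
      · rintro ⟨h3, h4⟩
        obtain ⟨φ, rfl⟩ := LNS_lf_surj h4
        exact ⟨φ, h3, rfl⟩
      · rintro ⟨φ, h3, rfl⟩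
        exact ⟨h3, LNS_lf_mem φ⟩
    rw [h2, LNS_finrank_map _ LNS_lf_inj] at h1
    push_cast at h1
    omega
  have h1 := Subspace.finrank_add_finrank_dualCoannihilator_eq W
  rw [Module.finrank_fin_fun] at h1
  have h2 : vI W.dualCoannihilator ≤ p := by
    apply LNS_vI_le
    intro φ hφ
    rw [Subspace.dualCoannihilator_dualAnnihilator_eq] at hφ
    exact hφ
  rcases Nat.lt_or_ge (finrank F W.dualCoannihilator) 2 with h3 | h3
  · exact absurd (Bdd_mono h2 (LNS_Bdd (by omega))) hnB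
  · have h4 : finrank F W.dualCoannihilator = 2 := by omega
    refine ⟨_, h4, ?_⟩
    by_contra hne
    have hlt : vI W.dualCoannihilator < p := lt_of_le_of_ne h2 (Ne.symm hne)
    exact hnB (Bdd_of_lt_prime (vI_isPrime _) (HI_vI _) hpI hlt
      (e := 1) (c := 1) ⟨0, fun n _ => by rw [hf_vI h4]; push_cast; ring⟩)

end Pool.H33.G

end S_LNS
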