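import Mathlib
import Pool.Agent.H33.GG.M1
import Pool.Agent.H33.GG.M2

/-! Galois action on the components of Hilbert schemes of space curves, file M3 -/

section S_DBL

/-! # DBL: the double line `dblI P Q U V g M`

Let `y0, y1, u, w` be the linear forms dual to the basis `P, Q, U, V`.  Every `f` is
`f0(y0,y1) + f1(y0,y1) u + f2(y0,y1) w` modulo `(u,w)^2 = (lineI P Q)^2`, with
`res P Q f = f0` and `dres f = X0^M f1 + (hg g M) f2` (as `y0, y1` vanish on `U, V`); for `y ∈ lineI` one has
`dres (h * y) = res h * dres y`.  `X0^M` and `hg g M` are coprime since the coefficient of `X1^M` in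
`hg g M` is the leading coefficient of `g`; in degree `n - 1 + M`, `n ≥ M`, every binary form is
`X0^M f1 + (hg g M) f2` with `f1, f2` of degree `n - 1`. -/

open MvPolynomial Module

namespace Pool.H33.G

variable {F : Type} [Field F] {P Q U V : Fin 4 → F} {g : Polynomial F} {M : ℕ}

theorem mem_dblI {f : A4 F} : f ∈ dblI P Q U V g M ↔ res P Q f = 0 ∧ dres P Q U V g M f = 0 :=
  Iff.rfl

private theorem dbl_mem_lineI {f : A4 F} : f ∈ lineI P Q ↔ res P Q f = 0 := Iff.rfl

private theorem dbl_dres_mul (f h : A4 F) : dres P Q U V g M (f * h) =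
    res P Q f * dres P Q U V g M h + res P Q h * dres P Q U V g M f := by
  unfold dres
  rw [Finset.mul_sum, Finset.mul_sum, ← Finset.sum_add_distrib]
  refine Finset.sum_congr rfl fun a _ => ?_
  rw [pderiv_mul, map_add, map_mul, map_mul]
  ring

private theorem dbl_dres_add (f h : A4 F) : dres P Q U V g M (f + h) =
    dres P Q U V g M f + dres P Q U V g M h := by
  unfold dres
  rw [← Finset.sum_add_distrib]
  refine Finset.sum_congr rfl fun a _ => ?_
  rw [map_add, map_add, add_mul]

private theorem dbl_dres_smul (c : F) (f : A4 F) : dres P Q U V g M (c • f) =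
    c • dres P Q U V g M f := by
  unfold dres
  rw [Finset.smul_sum]
  refine Finset.sum_congr rfl fun a _ => ?_
  rw [Derivation.map_smul, map_smul, smul_mul_assoc]

/-- `dres` as a linear map -/
private noncomputable def dblL (P Q U V : Fin 4 → F) (g : Polynomial F) (M : ℕ) :
    A4 F →ₗ[F] MvPolynomial (Fin 2) F where
  toFun := dres P Q U V g M
  map_add' := dbl_dres_add
  map_smul' := dbl_dres_smul

private theorem dbl_res_hom {n : ℕ} {f : A4 F} (h : f.IsHomogeneous n) :
    (res P Q f).IsHomogeneous n := by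
  have := h.aeval (S := F) (fun a => C (P a) * X 0 + C (Q a) * X 1) (n := 1)
    (τ := Fin 2) (fun a => (isHomogeneous_C_mul_X _ _).add (isHomogeneous_C_mul_X _ _))
  rw [one_mul] at this
  exact this

private theorem dbl_hg_hom (g : Polynomial F) (M : ℕ) : (hg g M).IsHomogeneous M := by
  unfold hg
  refine IsHomogeneous.sum _ _ _ fun i hi => ?_
  rw [Finset.mem_range] at hi
  have h := ((isHomogeneous_C (Fin 2) (g.coeff i)).mul
    ((isHomogeneous_X_pow (R := F) (0 : Fin 2) (M - i)))).mul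
    (isHomogeneous_X_pow (R := F) (1 : Fin 2) i)
  have e : 0 + (M - i) + i = M := by omega
  rw [e] at h
  exact h

private theorem dbl_dres_hom {n : ℕ} {f : A4 F} (h : f.IsHomogeneous n) :
    (dres P Q U V g M f).IsHomogeneous (n - 1 + M) := by
  unfold dres
  refine IsHomogeneous.sum _ _ _ fun a _ => ?_
  refine (dbl_res_hom h.pderiv).mul (IsHomogeneous.add ?_ ?_)
  · have := (isHomogeneous_X_pow (R := F) (0 : Fin 2) M).mul (isHomogeneous_C (Fin 2) (U a))
    rw [add_zero] at this
    exact this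
  · have := (dbl_hg_hom g M).mul (isHomogeneous_C (Fin 2) (V a))
    rw [add_zero] at this
    exact this

private theorem dbl_zero_comp (T : A4 F →ₗ[F] MvPolynomial (Fin 2) F) (d : ℕ → ℕ)
    (hT : ∀ n, ∀ f ∈ Fm F n, T f ∈ homogeneousSubmodule (Fin 2) F (d n))
    (hd : ∀ m n, d m = d n → m = n ∨ (∀ f ∈ Fm F m, T f = 0) ∨ (∀ f ∈ Fm F n, T f = 0))
    {f : A4 F} (hf : T f = 0) (n : ℕ) : T (homogeneousComponent n f) = 0 := by
  by_cases hn : ∀ f ∈ Fm F n, T f = 0
  · exact hn _ (homogeneousComponent_mem n f)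
  by_cases hN : n ≤ f.totalDegree
  · have h1 : T f = ∑ i ∈ Finset.range (f.totalDegree + 1), T (homogeneousComponent i f) := by
      conv_lhs => rw [← sum_homogeneousComponent f]
      rw [map_sum]
    rw [hf] at h1
    have h2 := congrArg (homogeneousComponent (d n)) h1
    rw [map_zero, map_sum, Finset.sum_eq_single n] at h2
    · rw [homogeneousComponent_of_mem (hT n _ (homogeneousComponent_mem n f)), if_pos rfl] at h2
      exact h2.symm
    · intro i _ hi
      rw [homogeneousComponent_of_mem (hT i _ (homogeneousComponent_mem i f))]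
      split_ifs with h
      · rcases hd n i h with h' | h' | h'
        · exact absurd h'.symm hi
        · exact absurd h' hn
        · exact h' _ (homogeneousComponent_mem i f)
      · rfl
    · intro h
      exact absurd (Finset.mem_range.mpr (Nat.lt_succ_of_le hN)) h
  · rw [homogeneousComponent_eq_zero _ _ (not_le.mp hN), map_zero]

theorem HI_dblI : HI (dblI P Q U V g M) := by
  intro f hf n
  refine ⟨?_, ?_⟩
  · refine dbl_zero_comp (res P Q).toLinearMap (fun n => n) (fun n f hf => dbl_res_hom hf)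
      (fun m n h => Or.inl h) hf.1 n
  · refine dbl_zero_comp (dblL P Q U V g M) (fun n => n - 1 + M) (fun n f hf => dbl_dres_hom hf)
      ?_ hf.2 n
    have h0 : ∀ f ∈ Fm F 0, dblL P Q U V g M f = 0 := by
      intro f hf
      have h1 := (totalDegree_zero_iff_isHomogeneous (p := f)).mpr hf
      rw [totalDegree_eq_zero_iff_eq_C] at h1
      rw [h1]
      change dres P Q U V g M _ = 0
      unfold dres
      refine Finset.sum_eq_zero fun a _ => ?_
      rw [pderiv_C, map_zero, zero_mul]
    intro m n h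
    rcases Nat.eq_zero_or_pos m with rfl | hm
    · exact Or.inr (Or.inl h0)
    rcases Nat.eq_zero_or_pos n with rfl | hn
    · exact Or.inr (Or.inr h0)
    left
    omega

theorem dblI_le : dblI P Q U V g M ≤ lineI P Q := fun _ h => h.1

/-- `dres` is linear over `res` on the ideal of the line -/
theorem dres_mul {f y : A4 F} (hy : y ∈ lineI P Q) :
    dres P Q U V g M (f * y) = res P Q f * dres P Q U V g M y := by
  rw [dbl_dres_mul, dbl_mem_lineI.mp hy, zero_mul, add_zero]

theorem sq_le_dblI : (lineI P Q) ^ 2 ≤ dblI P Q U V g M := by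
  rw [pow_two, Ideal.mul_le]
  intro r hr s hs
  refine ⟨?_, ?_⟩
  · rw [map_mul, dbl_mem_lineI.mp hr, zero_mul]
  · rw [dres_mul hs, dbl_mem_lineI.mp hr, zero_mul]

theorem dblI_primary {f y : A4 F} (hf' : f ∉ lineI P Q) (hy : f * y ∈ dblI P Q U V g M) :
    y ∈ dblI P Q U V g M := by
  have hf0 : res P Q f ≠ 0 := fun h => hf' h
  have h1 : res P Q y = 0 := by
    have := hy.1
    rw [map_mul] at this
    exact (mul_eq_zero.mp this).resolve_left hf0
  refine ⟨h1, ?_⟩
  have h2 := hy.2
  rw [dres_mul (show y ∈ lineI P Q from h1)] at h2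
  exact (mul_eq_zero.mp h2).resolve_left hf0

/-- the linear form with given values -/
private noncomputable def dblF (l : (Fin 4 → F) →ₗ[F] F) : A4 F :=
  ∑ a, C (l (fun j => if a = j then 1 else 0)) * X a

private theorem dblF_hom (l : (Fin 4 → F) →ₗ[F] F) : (dblF l).IsHomogeneous 1 :=
  IsHomogeneous.sum _ _ _ fun a _ => isHomogeneous_C_mul_X _ _

private theorem dblF_val (l : (Fin 4 → F) →ₗ[F] F) (v : Fin 4 → F) :
    ∑ a, l (fun j => if a = j then 1 else 0) * v a = l v := by
  rw [LinearMap.pi_apply_eq_sum_univ l v]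
  refine Finset.sum_congr rfl fun a _ => ?_
  rw [smul_eq_mul, mul_comm]

private theorem dblF_res (l : (Fin 4 → F) →ₗ[F] F) :
    res P Q (dblF l) = C (l P) * X 0 + C (l Q) * X 1 := by
  unfold dblF res
  rw [map_sum, ← dblF_val l P, ← dblF_val l Q, map_sum, map_sum, Finset.sum_mul, Finset.sum_mul,
    ← Finset.sum_add_distrib]
  refine Finset.sum_congr rfl fun a _ => ?_
  rw [map_mul, aeval_X, map_mul, map_mul, algHom_C]
  rw [algebraMap_eq]
  ring

private theorem dblF_dres (l : (Fin 4 → F) →ₗ[F] F) :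
    dres P Q U V g M (dblF l) = X 0 ^ M * C (l U) + hg g M * C (l V) := by
  have h : ∀ a, pderiv a (dblF l) = C (l (fun j => if a = j then 1 else 0)) := by
    intro a
    unfold dblF
    rw [map_sum, Finset.sum_eq_single a]
    · rw [pderiv_C_mul, pderiv_X_self, mul_one]
    · intro b _ hb
      rw [pderiv_C_mul, pderiv_X_of_ne hb, mul_zero]
    · intro h
      exact absurd (Finset.mem_univ a) h
  unfold dres
  rw [← dblF_val l U, ← dblF_val l V, map_sum, map_sum, Finset.mul_sum, Finset.mul_sum,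
    ← Finset.sum_add_distrib]
  refine Finset.sum_congr rfl fun a _ => ?_
  rw [h, algHom_C, algebraMap_eq, map_mul, map_mul]
  ring

/-- dual coordinates and the section of the restriction -/
private theorem dbl_coords (hi : LinearIndependent F ![P, Q, U, V]) (g : Polynomial F) (M : ℕ) :
    ∃ (s : MvPolynomial (Fin 2) F →ₐ[F] A4 F) (u w : A4 F),
      (∀ p, res P Q (s p) = p) ∧ (∀ p, dres P Q U V g M (s p) = 0) ∧
      (∀ n p, p.IsHomogeneous n → (s p).IsHomogeneous n) ∧
      u.IsHomogeneous 1 ∧ w.IsHomogeneous 1 ∧ u ∈ lineI P Q ∧ w ∈ lineI P Q ∧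
      dres P Q U V g M u = X 0 ^ M ∧ dres P Q U V g M w = hg g M := by
  let b : Basis (Fin 4) F (Fin 4 → F) := basisOfLinearIndependentOfCardEqFinrank hi (by simp)
  have hb : ∀ i, b i = ![P, Q, U, V] i := by
    intro i
    simp [b]
  have hc : ∀ i j, b.coord i (![P, Q, U, V] j) = if j = i then 1 else 0 := by
    intro i j
    rw [← hb, Basis.coord_apply, Basis.repr_self, Finsupp.single_apply]
  have hP : ∀ i, b.coord i P = if (0 : Fin 4) = i then 1 else 0 := fun i => hc i 0
  have hQ : ∀ i, b.coord i Q = if (1 : Fin 4) = i then 1 else 0 := fun i => hc i 1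
  have hU : ∀ i, b.coord i U = if (2 : Fin 4) = i then 1 else 0 := fun i => hc i 2
  have hV : ∀ i, b.coord i V = if (3 : Fin 4) = i then 1 else 0 := fun i => hc i 3
  have r0 : res P Q (dblF (b.coord 0)) = X 0 := by
    rw [dblF_res, hP, hQ]
    simp
  have r1 : res P Q (dblF (b.coord 1)) = X 1 := by
    rw [dblF_res, hP, hQ]
    simp
  have d0 : dres P Q U V g M (dblF (b.coord 0)) = 0 := by
    rw [dblF_dres, hU, hV]
    simp
  have d1 : dres P Q U V g M (dblF (b.coord 1)) = 0 := by
    rw [dblF_dres, hU, hV]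
    simp
  let s : MvPolynomial (Fin 2) F →ₐ[F] A4 F := aeval ![dblF (b.coord 0), dblF (b.coord 1)]
  have hs0 : s (X 0) = dblF (b.coord 0) := by simp [s]
  have hs1 : s (X 1) = dblF (b.coord 1) := by simp [s]
  have hsX : ∀ i, res P Q (s (X i)) = X i ∧ dres P Q U V g M (s (X i)) = 0 := by
    intro i
    fin_cases i
    · exact ⟨by simpa [hs0] using r0, by simpa [hs0] using d0⟩
    · exact ⟨by simpa [hs1] using r1, by simpa [hs1] using d1⟩
  have hsr : ∀ p, res P Q (s p) = p := by
    intro p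
    have : (res P Q).comp s = AlgHom.id F _ := by
      apply MvPolynomial.algHom_ext
      intro i
      exact (hsX i).1
    exact congrArg (fun t : MvPolynomial (Fin 2) F →ₐ[F] MvPolynomial (Fin 2) F => t p) this
  refine ⟨s, dblF (b.coord 2), dblF (b.coord 3), hsr, ?_, ?_, dblF_hom _, dblF_hom _, ?_, ?_, ?_, ?_⟩
  · intro p
    induction p using MvPolynomial.induction_on with
    | C _ =>
      rw [algHom_C]
      unfold dres
      refine Finset.sum_eq_zero fun c _ => ?_
      rw [algebraMap_eq, pderiv_C, map_zero, zero_mul]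
    | add p q hp hq => rw [map_add, dbl_dres_add, hp, hq, add_zero]
    | mul_X p i hp => rw [map_mul, dbl_dres_mul, hp, (hsX i).2, mul_zero, mul_zero, add_zero]
  · intro n p hp
    have := hp.aeval (S := F) (τ := Fin 4) ![dblF (b.coord 0), dblF (b.coord 1)] (n := 1) (by
      intro i
      fin_cases i
      · exact dblF_hom _
      · exact dblF_hom _)
    rw [one_mul] at this
    exact this
  · rw [dbl_mem_lineI, dblF_res, hP, hQ]
    simp
  · rw [dbl_mem_lineI, dblF_res, hP, hQ]
    simp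
  · rw [dblF_dres, hU, hV]
    simp
  · rw [dblF_dres, hU, hV]
    simp

/-- rank-nullity -/
private theorem dbl_rank {E : Type*} [AddCommGroup E] [Module F E] (T : A4 F →ₗ[F] E)
    (S : Submodule F (A4 F)) [FiniteDimensional F S] :
    finrank F (S.map T) + finrank F (S ⊓ LinearMap.ker T : Submodule F (A4 F)) = finrank F S := by
  have h := LinearMap.finrank_range_add_finrank_ker (T.comp S.subtype)
  rw [LinearMap.range_comp, Submodule.range_subtype, LinearMap.ker_comp] at h
  rw [← Submodule.map_comap_subtype S (LinearMap.ker T), Submodule.finrank_map_subtype_eq]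
  exact h

private theorem dbl_part_line (n : ℕ) :
    (Fm F n ⊓ LinearMap.ker (res P Q).toLinearMap : Submodule F (A4 F)) = part (lineI P Q) n := by
  unfold part
  rw [inf_comm]
  rfl

private theorem dbl_finrank (hi : LinearIndependent F ![P, Q, U, V]) (n : ℕ) :
    finrank F (homogeneousSubmodule (Fin 2) F n) = n + 1 := by
  obtain ⟨s, u, w, hs, -, hsn, -⟩ := dbl_coords hi 0 0
  have hPQ : LinearIndependent F ![P, Q] := by
    have := hi.comp (![0, 1] : Fin 2 → Fin 4) (by decide)
    have e : (![P, Q, U, V] : Fin 4 → Fin 4 → F) ∘ (![0, 1] : Fin 2 → Fin 4) = ![P, Q] := by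
      funext i
      fin_cases i <;> rfl
    rw [e] at this
    exact this
  have h1 := dbl_rank (res P Q).toLinearMap (Fm F n)
  have h2 : (Fm F n).map (res P Q).toLinearMap = homogeneousSubmodule (Fin 2) F n := by
    apply le_antisymm
    · rintro _ ⟨f, hf, rfl⟩
      exact dbl_res_hom hf
    · intro p hp
      exact ⟨s p, hsn n p hp, hs p⟩
  rw [h2, dbl_part_line] at h1
  have h3 := hf_lineI hPQ n
  unfold hf at h3
  omega

private theorem dbl_decomp (hg' : g.natDegree = M) (hM : 0 < M) {n : ℕ} (hn : M ≤ n)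
    {h : MvPolynomial (Fin 2) F} (hh : h.IsHomogeneous (n - 1 + M)) :
    ∃ f1 f2 : MvPolynomial (Fin 2) F, f1.IsHomogeneous (n - 1) ∧ f2.IsHomogeneous (n - 1) ∧
      h = X 0 ^ M * f1 + hg g M * f2 := by
  have hlc : g.coeff M ≠ 0 := by
    rw [← hg', Polynomial.coeff_natDegree]
    intro h0
    rw [Polynomial.leadingCoeff_eq_zero] at h0
    rw [h0, Polynomial.natDegree_zero] at hg'
    omega
  let W : Submodule F (MvPolynomial (Fin 2) F) :=
    (homogeneousSubmodule (Fin 2) F (n - 1)).map (LinearMap.mulLeft F (X 0 ^ M)) ⊔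
    (homogeneousSubmodule (Fin 2) F (n - 1)).map (LinearMap.mulLeft F (hg g M))
  have key : ∀ k a b : ℕ, a + b = n - 1 + M → M ≤ a + k →
      (X 0 ^ a * X 1 ^ b : MvPolynomial (Fin 2) F) ∈ W := by
    intro k
    induction k with
    | zero =>
      intro a b hab hk
      apply Submodule.mem_sup_left
      refine ⟨X 0 ^ (a - M) * X 1 ^ b, ?_, ?_⟩
      · have := (isHomogeneous_X_pow (R := F) (0 : Fin 2) (a - M)).mul
          (isHomogeneous_X_pow (R := F) (1 : Fin 2) b)
        have e : a - M + b = n - 1 := by omega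
        rw [e] at this
        exact this
      · rw [LinearMap.mulLeft_apply, ← mul_assoc, ← pow_add]
        congr 2
        omega
    | succ k ih =>
      intro a b hab hk
      rcases le_or_gt M a with ha | ha
      · exact ih a b hab (by omega)
      have hb : M ≤ b := by omega
      have h1 : (X 0 ^ a * X 1 ^ (b - M) * hg g M : MvPolynomial (Fin 2) F) =
          (∑ i ∈ Finset.range M, g.coeff i • (X 0 ^ (a + (M - i)) * X 1 ^ (b - M + i))) +
            g.coeff M • (X 0 ^ a * X 1 ^ b) := by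
        unfold hg
        rw [Finset.sum_range_succ, mul_add, Finset.mul_sum]
        congr 1
        · refine Finset.sum_congr rfl fun i _ => ?_
          rw [smul_eq_C_mul, pow_add, pow_add]
          ring
        · rw [smul_eq_C_mul, Nat.sub_self, pow_zero, mul_one]
          have e : b = b - M + M := by omega
          conv_rhs => rw [e, pow_add]
          ring
      have h2 : (X 0 ^ a * X 1 ^ (b - M) * hg g M : MvPolynomial (Fin 2) F) ∈ W := by
        apply Submodule.mem_sup_right
        refine ⟨X 0 ^ a * X 1 ^ (b - M), ?_, ?_⟩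
        · have := (isHomogeneous_X_pow (R := F) (0 : Fin 2) a).mul
            (isHomogeneous_X_pow (R := F) (1 : Fin 2) (b - M))
          have e : a + (b - M) = n - 1 := by omega
          rw [e] at this
          exact this
        · rw [LinearMap.mulLeft_apply, mul_comm]
      have h3 : (∑ i ∈ Finset.range M, g.coeff i • (X 0 ^ (a + (M - i)) * X 1 ^ (b - M + i)) :
          MvPolynomial (Fin 2) F) ∈ W := by
        refine Submodule.sum_mem _ fun i hi => Submodule.smul_mem _ _ ?_
        rw [Finset.mem_range] at hi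
        exact ih _ _ (by omega) (by omega)
      have h4 : g.coeff M • (X 0 ^ a * X 1 ^ b : MvPolynomial (Fin 2) F) ∈ W := by
        have : g.coeff M • (X 0 ^ a * X 1 ^ b : MvPolynomial (Fin 2) F) =
            X 0 ^ a * X 1 ^ (b - M) * hg g M -
              ∑ i ∈ Finset.range M, g.coeff i • (X 0 ^ (a + (M - i)) * X 1 ^ (b - M + i)) := by
          rw [h1]
          ring
        rw [this]
        exact Submodule.sub_mem _ h2 h3
      exact (Submodule.smul_mem_iff _ hlc).mp h4
  have hW : h ∈ W := by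
    rw [h.as_sum]
    refine Submodule.sum_mem _ fun d hd => ?_
    have h1 : monomial d (coeff d h) = coeff d h • (X 0 ^ (d 0) * X 1 ^ (d 1)) := by
      rw [monomial_eq, Finsupp.prod_fintype _ _ (fun i => pow_zero _), Fin.prod_univ_two,
        smul_eq_C_mul]
    rw [h1]
    apply Submodule.smul_mem
    have h2 : d.degree = n - 1 + M := by
      by_contra hne
      exact (mem_support_iff.mp hd) (hh.coeff_eq_zero hne)
    have h3 : d 0 + d 1 = n - 1 + M := by
      rw [← h2, Finsupp.degree_eq_sum, Fin.sum_univ_two]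
    exact key M _ _ h3 (by omega)
  obtain ⟨x, ⟨f1, hf1, rfl⟩, y, ⟨f2, hf2, rfl⟩, hxy⟩ := Submodule.mem_sup.mp hW
  refine ⟨f1, f2, hf1, hf2, ?_⟩
  rw [← hxy]
  rfl

theorem hf_dblI (hi : LinearIndependent F ![P, Q, U, V]) (hg' : g.natDegree = M) (hM : 0 < M)
    {n : ℕ} (hn : M ≤ n) : hf (dblI P Q U V g M) n = 2 * n + 1 + M := by
  obtain ⟨s, u, w, hs, -, hsn, hu, hw, hul, hwl, hdu, hdw⟩ := dbl_coords hi g M
  have h1 := dbl_rank (dblL P Q U V g M) (part (lineI P Q) n)
  have h2 : (part (lineI P Q) n).map (dblL P Q U V g M) =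
      homogeneousSubmodule (Fin 2) F (n - 1 + M) := by
    apply le_antisymm
    · rintro _ ⟨f, hf, rfl⟩
      exact dbl_dres_hom (mem_part.mp hf).2
    · intro p hp
      obtain ⟨f1, f2, hf1, hf2, rfl⟩ := dbl_decomp hg' hM hn hp
      have e : n - 1 + 1 = n := by omega
      refine ⟨s f1 * u + s f2 * w, mem_part.mpr ⟨?_, ?_⟩, ?_⟩
      · exact Ideal.add_mem _ (Ideal.mul_mem_left _ _ hul) (Ideal.mul_mem_left _ _ hwl)
      · have h3 := ((hsn _ _ hf1).mul hu).add ((hsn _ _ hf2).mul hw)
        rw [e] at h3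
        exact h3
      · change dres P Q U V g M _ = _
        rw [dbl_dres_add, dres_mul hul, dres_mul hwl, hs, hs, hdu, hdw]
        ring
  have h3 : (part (lineI P Q) n ⊓ LinearMap.ker (dblL P Q U V g M) : Submodule F (A4 F)) =
      part (dblI P Q U V g M) n := by
    ext f
    rw [Submodule.mem_inf, mem_part, mem_part, LinearMap.mem_ker, mem_dblI, dbl_mem_lineI]
    change (res P Q f = 0 ∧ f ∈ Fm F n) ∧ dres P Q U V g M f = 0 ↔ _
    tauto
  rw [h2, h3, dbl_finrank hi] at h1
  have h4 := dbl_rank (res P Q).toLinearMap (Fm F n)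
  have h5 : (Fm F n).map (res P Q).toLinearMap = homogeneousSubmodule (Fin 2) F n := by
    apply le_antisymm
    · rintro _ ⟨f, hf, rfl⟩
      exact dbl_res_hom hf
    · intro p hp
      exact ⟨s p, hsn n p hp, hs p⟩
  rw [h5, dbl_part_line, dbl_finrank hi] at h4
  unfold hf
  omega

/-- `lineI / dblI` has rank one over the line -/
theorem dblI_rank_one (hi : LinearIndependent F ![P, Q, U, V]) {a : A4 F} (ha : a ∈ lineI P Q)
    (ha' : a ∉ dblI P Q U V g M) :
    ∃ t, t ∉ lineI P Q ∧ ∀ y ∈ lineI P Q, t * y ∈ Ideal.span {a} ⊔ dblI P Q U V g M := by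
  obtain ⟨s, u, w, hs, -, -⟩ := dbl_coords hi g M
  refine ⟨s (dres P Q U V g M a), ?_, ?_⟩
  · rw [dbl_mem_lineI, hs]
    intro h
    exact ha' ⟨ha, h⟩
  · intro y hy
    have h1 : s (dres P Q U V g M a) * y =
        s (dres P Q U V g M y) * a + (s (dres P Q U V g M a) * y - s (dres P Q U V g M y) * a) := by
      ring
    rw [h1]
    apply Submodule.add_mem_sup
    · exact Ideal.mul_mem_left _ _ (Ideal.mem_span_singleton_self a)
    · refine ⟨?_, ?_⟩
      · rw [map_sub, map_mul, map_mul, dbl_mem_lineI.mp ha, dbl_mem_lineI.mp hy, mul_zero,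
          mul_zero, sub_zero]
      · rw [sub_eq_add_neg, ← neg_one_smul F (s (dres P Q U V g M y) * a), dbl_dres_add,
          dbl_dres_smul, dres_mul hy, dres_mul ha, hs, hs, neg_one_smul]
        ring

private theorem dbl_chain (i : Fin 2) (f : A4 F) : pderiv i (res P Q f) =
    ∑ a, res P Q (pderiv a f) * C ((![P, Q] : Fin 2 → Fin 4 → F) i a) := by
  induction f using MvPolynomial.induction_on with
  | C _ =>
    rw [algHom_C, algebraMap_eq, pderiv_C]
    symm
    refine Finset.sum_eq_zero fun a _ => ?_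
    rw [pderiv_C, map_zero, zero_mul]
  | add p q hp hq =>
    rw [map_add, map_add, hp, hq, ← Finset.sum_add_distrib]
    refine Finset.sum_congr rfl fun a _ => ?_
    rw [map_add, map_add, add_mul]
  | mul_X p j hp =>
    have h1 : ∀ a, res P Q (pderiv a (p * X j)) * C ((![P, Q] : Fin 2 → Fin 4 → F) i a) =
        res P Q (X j) * (res P Q (pderiv a p) * C ((![P, Q] : Fin 2 → Fin 4 → F) i a)) +
          (if a = j then res P Q p * C ((![P, Q] : Fin 2 → Fin 4 → F) i j) else 0) := by
      intro a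
      rw [pderiv_mul, map_add, map_mul, map_mul]
      split_ifs with h
      · subst h
        rw [pderiv_X_self, map_one]
        ring
      · rw [pderiv_X_of_ne (fun h' => h h'.symm), map_zero]
        ring
    have h2 : pderiv i (res P Q (X j)) = C ((![P, Q] : Fin 2 → Fin 4 → F) i j) := by
      unfold res
      rw [aeval_X, map_add, pderiv_C_mul, pderiv_C_mul]
      fin_cases i
      · simp [pderiv_X]
      · simp [pderiv_X]
    simp only [h1]
    rw [map_mul, pderiv_mul, hp, h2, Finset.sum_add_distrib, ← Finset.mul_sum,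
      Finset.sum_ite_eq' Finset.univ j, if_pos (Finset.mem_univ j)]
    ring

private theorem dbl_eval (s t : F) (f : A4 F) :
    eval ![s, t] (res P Q f) = eval (s • P + t • Q) f := by
  have h : (aeval ![s, t] : MvPolynomial (Fin 2) F →ₐ[F] F).comp (res P Q) =
      (aeval (s • P + t • Q) : A4 F →ₐ[F] F) := by
    apply MvPolynomial.algHom_ext
    intro i
    simp [res]
    ring
  have h2 := congrArg (fun φ : A4 F →ₐ[F] F => φ f) h
  simp only [AlgHom.comp_apply] at h2
  rw [← coe_aeval_eq_eval, ← coe_aeval_eq_eval]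
  exact h2

/-- at a node: let `v = s P + t Q` and `D` be vectors such that the normal direction at `v` lies in
`span {P, Q, D}`.  Then for `f ∈ dblI` the derivative of `f` at `v` in direction `D` vanishes, provided
`(s,t) ≠ 0` (so that the normal direction is not in `span {P, Q}`) -/
theorem dblI_node (hi : LinearIndependent F ![P, Q, U, V]) (hg' : g.natDegree = M) (hM : 0 < M)
    {s t : F} (hst : s ≠ 0 ∨ t ≠ 0) {D : Fin 4 → F}
    (hD : s ^ M • U + (MvPolynomial.eval ![s, t] (hg g M)) • V ∈ Submodule.span F {P, Q, D})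
    {f : A4 F} (hf' : f ∈ dblI P Q U V g M) :
    eval (s • P + t • Q) f = 0 ∧ ∑ a, eval (s • P + t • Q) (pderiv a f) * D a = 0 := by
  obtain ⟨h0, h1⟩ := hf'
  refine ⟨by rw [← dbl_eval, h0, map_zero], ?_⟩
  have hP : ∑ a, eval (s • P + t • Q) (pderiv a f) * P a = 0 := by
    have := congrArg (eval ![s, t]) (dbl_chain (P := P) (Q := Q) 0 f)
    rw [h0, map_zero, map_zero, map_sum] at this
    rw [this]
    refine Finset.sum_congr rfl fun a _ => ?_
    rw [map_mul, dbl_eval, eval_C]
    rfl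
  have hQ : ∑ a, eval (s • P + t • Q) (pderiv a f) * Q a = 0 := by
    have := congrArg (eval ![s, t]) (dbl_chain (P := P) (Q := Q) 1 f)
    rw [h0, map_zero, map_zero, map_sum] at this
    rw [this]
    refine Finset.sum_congr rfl fun a _ => ?_
    rw [map_mul, dbl_eval, eval_C]
    rfl
  have hN : ∑ a, eval (s • P + t • Q) (pderiv a f) *
      (s ^ M • U + (MvPolynomial.eval ![s, t] (hg g M)) • V) a = 0 := by
    have := congrArg (eval ![s, t]) h1
    unfold dres at this
    rw [map_zero, map_sum] at this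
    rw [← this]
    refine Finset.sum_congr rfl fun a _ => ?_
    rw [map_mul, dbl_eval, map_add, map_mul, map_mul, eval_C, eval_C, map_pow, eval_X]
    rfl
  obtain ⟨α, β, γ, hαβγ⟩ := Submodule.mem_span_triple.mp hD
  rw [← hαβγ] at hN
  have hsum : ∑ a, eval (s • P + t • Q) (pderiv a f) * (α • P + β • Q + γ • D) a =
      α * (∑ a, eval (s • P + t • Q) (pderiv a f) * P a) +
      β * (∑ a, eval (s • P + t • Q) (pderiv a f) * Q a) +
      γ * (∑ a, eval (s • P + t • Q) (pderiv a f) * D a) := by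
    rw [Finset.mul_sum, Finset.mul_sum, Finset.mul_sum, ← Finset.sum_add_distrib,
      ← Finset.sum_add_distrib]
    refine Finset.sum_congr rfl fun a _ => ?_
    simp only [Pi.add_apply, Pi.smul_apply, smul_eq_mul]
    ring
  rw [hsum, hP, hQ, mul_zero, mul_zero, add_zero, zero_add] at hN
  rcases mul_eq_zero.mp hN with hγ | h
  · exfalso
    rw [hγ, zero_smul, add_zero] at hαβγ
    have hlin := Fintype.linearIndependent_iff.mp hi
      ![α, β, -s ^ M, -(MvPolynomial.eval ![s, t] (hg g M))] (by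
        rw [Fin.sum_univ_four]
        simp only [Matrix.cons_val_zero, Matrix.cons_val_one, Matrix.cons_val]
        rw [hαβγ]
        module)
    have h2 : s ^ M = 0 := by
      have := hlin 2
      simpa using this
    have h3 : eval ![s, t] (hg g M) = 0 := by
      have := hlin 3
      simpa using this
    have hs : s = 0 := by
      by_contra hs
      exact pow_ne_zero M hs h2
    have ht : t ≠ 0 := hst.resolve_left (fun h => h hs)
    have hlc : g.coeff M ≠ 0 := by
      rw [← hg', Polynomial.coeff_natDegree]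
      intro h0
      rw [Polynomial.leadingCoeff_eq_zero] at h0
      rw [h0, Polynomial.natDegree_zero] at hg'
      omega
    subst hs
    unfold hg at h3
    rw [map_sum, Finset.sum_eq_single M] at h3
    · simp only [map_mul, map_pow, eval_C, eval_X, Nat.sub_self, pow_zero, mul_one] at h3
      have h4 : (![0, t] : Fin 2 → F) 1 = t := rfl
      rw [h4] at h3
      rcases mul_eq_zero.mp h3 with h5 | h5
      · exact hlc h5
      · exact pow_ne_zero M ht h5
    · intro i hi' hne
      rw [Finset.mem_range] at hi'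
      have h5 : M - i ≠ 0 := by omega
      simp only [map_mul, map_pow, eval_C, eval_X]
      have h4 : (![0, t] : Fin 2 → F) 0 = 0 := rfl
      rw [h4, zero_pow h5, mul_zero, zero_mul]
    · intro h
      exact absurd (Finset.mem_range.mpr (Nat.lt_succ_self M)) h
  · exact h

end Pool.H33.G

end S_DBL

section S_LOWA

/-! # LOWA: Chinese remainder theorem in large degrees

By induction over finsets: if every `q j ⊔ q j'` contains all forms of large degree then so does
`q j ⊔ (inf of the others)` (a product of forms: `⨅ ≥ ∏`, and `(q ⊔ a) (q ⊔ b) ≤ q ⊔ a b`; a form of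
large degree is a sum of products of forms of large degree); then `hf_inf_add_sup`. -/

open MvPolynomial Module

namespace Pool.H33.G

variable {F : Type} [Field F]

/-- the ideal contains all forms of large degree -/
def LOWA_Big (K : Ideal (A4 F)) : Prop := ∃ N : ℕ, ∀ n ≥ N, Fm F n ≤ part K n

theorem LOWA_Big_mono {K L : Ideal (A4 F)} (h : K ≤ L) (hK : LOWA_Big K) : LOWA_Big L := by
  obtain ⟨N, hN⟩ := hK
  exact ⟨N, fun n hn => (hN n hn).trans (part_mono h n)⟩

theorem LOWA_mul_mem {R : Type} [CommRing R] (q a b : Ideal R) {r s : R} (hr : r ∈ q ⊔ a)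
    (hs : s ∈ q ⊔ b) : r * s ∈ q ⊔ a * b := by
  obtain ⟨r1, hr1, r2, hr2, rfl⟩ := Submodule.mem_sup.1 hr
  obtain ⟨s1, hs1, s2, hs2, rfl⟩ := Submodule.mem_sup.1 hs
  refine Submodule.mem_sup.2 ⟨r1 * (s1 + s2) + r2 * s1, ?_, r2 * s2, Ideal.mul_mem_mul hr2 hs2, ?_⟩
  · exact q.add_mem (q.mul_mem_right _ hr1) (q.mul_mem_left _ hs1)
  · ring

theorem LOWA_Big_mul {q a b : Ideal (A4 F)} (ha : LOWA_Big (q ⊔ a)) (hb : LOWA_Big (q ⊔ b)) :
    LOWA_Big (q ⊔ a * b) := by
  obtain ⟨N1, h1⟩ := ha
  obtain ⟨N2, h2⟩ := hb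
  refine ⟨N1 + N2, fun n hn c hc => ?_⟩
  rw [mem_part]
  refine ⟨?_, hc⟩
  rw [c.as_sum]
  refine (q ⊔ a * b).sum_mem fun d hd => ?_
  have hd1 : d.degree = n := by
    by_contra hne
    have := IsHomogeneous.coeff_eq_zero hc hne
    exact (MvPolynomial.mem_support_iff.1 hd) this
  obtain ⟨e, hed, he⟩ := Finsupp.exists_le_degree_eq d N2 (by omega)
  have h3 : monomial d (coeff d c) = monomial (d - e) (coeff d c) * monomial e (1 : F) := by
    rw [monomial_mul, mul_one, tsub_add_cancel_of_le hed]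
  have h4 : (d - e).degree = n - N2 := by
    have h5 : (d - e).degree + e.degree = d.degree := by
      rw [← map_add, tsub_add_cancel_of_le hed]
    omega
  have h6 : monomial (d - e) (coeff d c) ∈ q ⊔ a :=
    (h1 (n - N2) (by omega) (isHomogeneous_monomial _ h4)).1
  have h7 : monomial e (1 : F) ∈ q ⊔ b := (h2 N2 le_rfl (isHomogeneous_monomial _ he)).1
  rw [h3]
  exact LOWA_mul_mem q a b h6 h7

theorem LOWA_Big_inf {κ : Type} [DecidableEq κ] {q : κ → Ideal (A4 F)}
    (hc : ∀ j j', j ≠ j' → ∃ N : ℕ, ∀ n ≥ N, Fm F n ≤ part (q j ⊔ q j') n) (j : κ)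
    (s : Finset κ) (hj : j ∉ s) : LOWA_Big (q j ⊔ s.inf q) := by
  have h1 : LOWA_Big (q j ⊔ ∏ i ∈ s, q i) := by
    induction s using Finset.induction_on with
    | empty =>
      refine ⟨0, fun n _ c hc' => ⟨?_, hc'⟩⟩
      rw [Finset.prod_empty, Ideal.one_eq_top, sup_top_eq]
      trivial
    | insert i s hi ih =>
      rw [Finset.prod_insert hi]
      apply LOWA_Big_mul
      · apply hc
        rintro rfl
        exact hj (Finset.mem_insert_self _ _)
      · exact ih fun h => hj (Finset.mem_insert_of_mem h)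
  apply LOWA_Big_mono _ h1
  apply sup_le_sup_left
  exact Ideal.prod_le_inf

theorem LOWA_hf_zero {K : Ideal (A4 F)} {n : ℕ} (h : Fm F n ≤ part K n) : hf K n = 0 := by
  have h1 : part K n = Fm F n := le_antisymm inf_le_right h
  unfold hf
  rw [h1, sub_self]

theorem hf_iInf_coprime {κ : Type} [Fintype κ] [DecidableEq κ] {q : κ → Ideal (A4 F)}
    (hq : ∀ j, HI (q j)) (hc : ∀ j j', j ≠ j' → ∃ N : ℕ, ∀ n ≥ N, Fm F n ≤ part (q j ⊔ q j') n) :
    ∃ n0 : ℕ, ∀ n ≥ n0, hf (⨅ j, q j) n = ∑ j, hf (q j) n := by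
  have h : ∀ s : Finset κ, ∃ n0 : ℕ, ∀ n ≥ n0, hf (s.inf q) n = ∑ j ∈ s, hf (q j) n := by
    intro s
    induction s using Finset.induction_on with
    | empty => exact ⟨0, fun n _ => by rw [Finset.inf_empty, hf_top, Finset.sum_empty]⟩
    | insert j s hj ih =>
      obtain ⟨n0, h0⟩ := ih
      obtain ⟨n1, h1⟩ := LOWA_Big_inf hc j s hj
      refine ⟨n0 + n1, fun n hn => ?_⟩
      rw [Finset.inf_insert, Finset.sum_insert hj, ← h0 n (by omega)]
      have h2 := hf_inf_add_sup (hq j) (HI_finset_inf (s := s) fun i _ => hq i) n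
      rw [LOWA_hf_zero (h1 n (by omega)), add_zero] at h2
      exact h2
  obtain ⟨n0, h0⟩ := h Finset.univ
  refine ⟨n0, fun n hn => ?_⟩
  rw [← h0 n hn, Finset.inf_univ_eq_iInf]

theorem crt_large {κ : Type} [Fintype κ] [DecidableEq κ] {q : κ → Ideal (A4 F)}
    (hq : ∀ j, HI (q j)) (hc : ∀ j j', j ≠ j' → ∃ N : ℕ, ∀ n ≥ N, Fm F n ≤ part (q j ⊔ q j') n) :
    ∃ n0 : ℕ, ∀ n ≥ n0, ∀ f : κ → A4 F, (∀ j, f j ∈ Fm F n) → ∃ h ∈ Fm F n, ∀ j, h - f j ∈ q j := by
  have h : ∀ s : Finset κ, ∃ n0 : ℕ, ∀ n ≥ n0, ∀ f : κ → A4 F, (∀ j, f j ∈ Fm F n) →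
      ∃ h ∈ Fm F n, ∀ j ∈ s, h - f j ∈ q j := by
    intro s
    induction s using Finset.induction_on with
    | empty =>
      exact ⟨0, fun n _ f _ => ⟨0, Submodule.zero_mem _, fun j hj => absurd hj (Finset.notMem_empty j)⟩⟩
    | insert j s hj ih =>
      obtain ⟨n0, h0⟩ := ih
      obtain ⟨n1, h1⟩ := LOWA_Big_inf hc j s hj
      refine ⟨n0 + n1, fun n hn f hf => ?_⟩
      obtain ⟨h, hh, hs⟩ := h0 n (by omega) f hf
      have h2 : f j - h ∈ part (q j ⊔ s.inf q) n :=
        h1 n (by omega) (Submodule.sub_mem _ (hf j) hh)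
      rw [HF2_part_sup (hq j) (HI_finset_inf (s := s) fun i _ => hq i)] at h2
      obtain ⟨u, hu, v, hv, huv⟩ := Submodule.mem_sup.1 h2
      refine ⟨h + v, Submodule.add_mem _ hh hv.2, fun i hi => ?_⟩
      rcases Finset.mem_insert.1 hi with rfl | hi
      · have h3 : h + v - f i = -u := by
          have : u + v = f i - h := huv
          linear_combination this
        rw [h3]
        exact (q i).neg_mem hu.1
      · have h3 : h + v - f i = (h - f i) + v := by ring
        rw [h3]
        apply (q i).add_mem (hs i hi)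
        exact (Submodule.mem_finsetInf.1 hv.1) i hi
  obtain ⟨n0, h0⟩ := h Finset.univ
  refine ⟨n0, fun n hn f hf => ?_⟩
  obtain ⟨h, hh, hs⟩ := h0 n hn f hf
  exact ⟨h, hh, fun j => hs j (Finset.mem_univ j)⟩

end Pool.H33.G

end S_LOWA

section S_LOW

/-! # LOW: lower bound for the Hilbert function of a union of lines and double lines

Let `A = ⨅ vI (T i)`, `B = ⨅ q j`.
(1) (`hf_iInf_coprime`) `hf A n = card ι * (n+1)` for large `n` and `hf B n = Σ hf (q j) n` for large `n`.
(2) `hf (A ⊓ B) = hf A + hf B - hf (A ⊔ B)`; in large degrees `⨅ (vI (T i) ⊔ B) ≤ A ⊔ B` (`sup_inf_large`),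
so `hf (A ⊔ B) n ≤ Σ_i hf (vI (T i) ⊔ B) n`.
(3) `hf (vI (T i) ⊔ B) n ≤ 2 #{j | (i,j) ∈ Γ'}`: let `F = ∏ l_j ^ 2` with linear forms `l_j ∈ vI (L j)`,
`l_j ∉ vI (T i)`, over these `j`; `vI (T i) ⊔ B` contains all multiples of `F` of large degree, and
`hf (vI (T i) ⊔ (F)) n = deg F`.  -/

open MvPolynomial Module

namespace Pool.H33.G

variable {F : Type} [Field F]

section Aux

attribute [local instance] MvPolynomial.gradedAlgebra

private theorem hc_mul_right {a b : A4 F} {j : ℕ} (hb : b ∈ Fm F j) (i : ℕ) :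
    homogeneousComponent (i + j) (a * b) = homogeneousComponent i a * b := by
  have h := DirectSum.coe_decompose_mul_add_of_right_mem (homogeneousSubmodule (Fin 4) F)
    (i := i) (a := a) hb
  have h1 := decomposition.decompose'_apply (a * b) (i + j)
  have h2 := decomposition.decompose'_apply a i
  rw [← h1, ← h2]
  exact h

end Aux

private theorem hc_of_mem {f : A4 F} {n : ℕ} (h : f ∈ Fm F n) : homogeneousComponent n f = f := by
  have := homogeneousComponent_of_mem h (m := n)
  simpa using this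

private theorem form_mem_pow {J : Ideal (A4 F)} (hJ : ∀ a, (X a : A4 F) ∈ J) {N n : ℕ}
    (h : N ≤ n) {f : A4 F} (hf : f ∈ Fm F n) : f ∈ J ^ N := by
  apply Ideal.pow_le_pow_right h
  rw [f.as_sum]
  apply Ideal.sum_mem
  intro u hu
  have hdeg : u.degree = n := by
    have := (mem_homogeneousSubmodule n f).1 hf (mem_support_iff.1 hu)
    rw [← this, Finsupp.degree_eq_weight_one]
    rfl
  rw [monomial_eq]
  apply Ideal.mul_mem_left
  rw [Finsupp.prod_fintype _ _ (fun i => pow_zero _)]
  have h2 : ∏ a, (X a : A4 F) ^ (u a) ∈ ∏ a, J ^ (u a) :=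
    Ideal.prod_mem_prod fun a _ => Ideal.pow_mem_pow (hJ a) _
  rw [Finset.prod_pow_eq_pow_sum] at h2
  have h3 : ∑ a, u a = n := by
    rw [← hdeg, Finsupp.degree_eq_sum]
  rwa [h3] at h2

private theorem mul_sup_le {I K P : Ideal (A4 F)} : (I ⊔ K) * (I ⊔ P) ≤ I ⊔ K * P := by
  refine Ideal.mul_le.2 fun r hr s hs => ?_
  obtain ⟨a, ha, b, hb, rfl⟩ := Submodule.mem_sup.1 hr
  obtain ⟨c, hc, d, hd, rfl⟩ := Submodule.mem_sup.1 hs
  have : (a + b) * (c + d) = (a * (c + d) + b * c) + b * d := by ring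
  rw [this]
  exact Submodule.add_mem_sup (I.add_mem (I.mul_mem_right _ ha) (I.mul_mem_left _ hc))
    (Ideal.mul_mem_mul hb hd)

private theorem prod_sup_le {κ : Type} {I : Ideal (A4 F)} (K : κ → Ideal (A4 F)) (s : Finset κ) :
    ∏ j ∈ s, (I ⊔ K j) ≤ I ⊔ ∏ j ∈ s, K j := by
  classical
  induction s using Finset.induction_on with
  | empty => simp
  | insert j s hj ih =>
    rw [Finset.prod_insert hj, Finset.prod_insert hj]
    exact le_trans (Ideal.mul_mono_right ih) mul_sup_le

private theorem sq_sup_le {I K : Ideal (A4 F)} : (I ⊔ K) ^ 2 ≤ I ⊔ K ^ 2 := by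
  rw [pow_two, pow_two]
  exact mul_sup_le

/-- in large degrees, intersections of coprime ideals commute with sums -/
private theorem sup_inf_large {κ : Type} [Fintype κ] [DecidableEq κ] {q : κ → Ideal (A4 F)}
    {B : Ideal (A4 F)} (hB : HI B)
    (hq : ∀ j, HI (q j)) (hc : ∀ j j', j ≠ j' → ∃ N : ℕ, ∀ n ≥ N, Fm F n ≤ part (q j ⊔ q j') n) :
    ∃ n0 : ℕ, ∀ n ≥ n0, part (⨅ j, (q j ⊔ B)) n ≤ part ((⨅ j, q j) ⊔ B) n := by
  obtain ⟨n0, hn0⟩ := crt_large hq hc
  obtain ⟨r, hr⟩ := part_gen (HI_iInf fun j => HI_sup (hq j) hB)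
  have hr := hr r le_rfl
  -- products
  have key : ∀ m ≥ n0, ∀ c ∈ Fm F m, ∀ z ∈ (⨅ j, (q j ⊔ B)), c * z ∈ (⨅ j, q j) ⊔ B := by
    intro m hm c hcm z hz
    choose u hu hu' using fun i : κ => hn0 m hm (fun j => if j = i then c else 0) (by
      intro j
      split_ifs
      · exact hcm
      · exact Submodule.zero_mem _)
    have e : c * z = (c - ∑ i, u i) * z + ∑ i, u i * z := by
      rw [sub_mul, Finset.sum_mul]; ring
    rw [e]
    refine Ideal.add_mem _ ?_ (Ideal.sum_mem _ fun i _ => ?_)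
    · apply Ideal.mul_mem_right
      apply (le_sup_left : (⨅ j, q j) ≤ (⨅ j, q j) ⊔ B)
      rw [Ideal.mem_iInf]
      intro j
      have h1 : c - ∑ i, u i = - ∑ i, (u i - if j = i then c else 0) := by
        rw [Finset.sum_sub_distrib, Finset.sum_ite_eq]
        simp
      rw [h1]
      apply neg_mem
      apply Ideal.sum_mem
      intro i _
      exact hu' i j
    · have hzi : z ∈ q i ⊔ B := by
        rw [Ideal.mem_iInf] at hz
        exact hz i
      obtain ⟨a, ha, b, hb, rfl⟩ := Submodule.mem_sup.1 hzi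
      rw [mul_add]
      refine Submodule.add_mem_sup ?_ (B.mul_mem_left _ hb)
      rw [Ideal.mem_iInf]
      intro j
      by_cases hji : j = i
      · subst hji
        exact Ideal.mul_mem_left _ _ ha
      · have := hu' i j
        rw [if_neg hji, sub_zero] at this
        exact Ideal.mul_mem_right _ _ this
  refine ⟨n0 + r, fun n hn => ?_⟩
  rw [← hr n (by omega)]
  intro f hf
  rw [mem_part] at hf ⊢
  refine ⟨?_, hf.2⟩
  obtain ⟨m, rfl⟩ : ∃ m, n = m + r := ⟨n - r, by omega⟩
  have hm : m ≥ n0 := by omega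
  have h2 : homogeneousComponent (m + r) f ∈ (⨅ j, q j) ⊔ B := by
    have h3 := hf.1
    refine Submodule.closure_induction (p := fun x _ =>
      homogeneousComponent (m + r) x ∈ (⨅ j, q j) ⊔ B) ?_ ?_ ?_ h3
    · rw [map_zero]; exact Submodule.zero_mem _
    · intro x y _ _ hx hy
      rw [map_add]
      exact Submodule.add_mem _ hx hy
    · intro a x hx
      have hx' := mem_part.1 hx
      rw [smul_eq_mul, hc_mul_right hx'.2]
      exact key m hm _ (homogeneousComponent_mem m a) x hx'.1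
  rwa [hc_of_mem hf.2] at h2

/-- separating linear form -/
private theorem exists_linear {Λ Λ' : Submodule F (Fin 4 → F)} (h : ¬ Λ ≤ Λ') :
    ∃ l ∈ Fm F 1, l ∈ vI Λ' ∧ l ∉ vI Λ := by
  obtain ⟨v, hv, hv'⟩ := Set.not_subset.1 h
  obtain ⟨φ, hφ, hφ'⟩ := Submodule.exists_dual_map_eq_bot_of_notMem hv' inferInstance
  have heval : ∀ w : Fin 4 → F, eval w (∑ a, C (φ (Pi.single a 1)) * X a : A4 F) = φ w := by
    intro w
    rw [map_sum]
    conv_rhs => rw [← Finset.univ_sum_single w, map_sum]
    apply Finset.sum_congr rfl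
    intro a _
    have : (Pi.single a (w a) : Fin 4 → F) = w a • Pi.single a 1 := by
      rw [← Pi.single_smul, smul_eq_mul, mul_one]
    rw [this, map_smul]
    simp [mul_comm]
  refine ⟨∑ a, C (φ (Pi.single a 1)) * X a, ?_, ?_, ?_⟩
  · apply Submodule.sum_mem
    intro a _
    rw [mem_homogeneousSubmodule]
    simpa using (isHomogeneous_C (Fin 4) (φ (Pi.single a 1))).mul (isHomogeneous_X F a)
  · intro w hw
    rw [heval]
    have : φ w ∈ Submodule.map φ Λ' := Submodule.mem_map_of_mem hw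
    rw [hφ'] at this
    simpa using this
  · intro hl
    have := hl v hv
    rw [heval] at this
    exact hφ this

variable [Infinite F]

/-- the local bound on one line -/
private theorem line_bound {κ : Type} [Fintype κ] [DecidableEq κ] (T : Submodule F (Fin 4 → F))
    (L : κ → Submodule F (Fin 4 → F)) (hT : finrank F T = 2) (hL : ∀ j, finrank F (L j) = 2)
    (hne : ∀ j, T ≠ L j) (q : κ → Ideal (A4 F)) (hq : ∀ j, HI (q j))
    (hq1 : ∀ j, (vI (L j)) ^ 2 ≤ q j) (s : Finset κ) (hs : ∀ j, j ∉ s → T ⊓ L j = ⊥) :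
    ∃ n0 : ℕ, ∀ n ≥ n0, hf (vI T ⊔ ⨅ j, q j) n ≤ 2 * s.card := by
  have hnle : ∀ j, ¬ T ≤ L j := by
    intro j hle
    exact hne j (Submodule.eq_of_le_of_finrank_eq hle (by rw [hT, hL]))
  choose l hl1 hl2 hl3 using fun j => exists_linear (hnle j)
  have hIp := vI_isPrime (F := F) T
  have hIh := HI_vI (F := F) T
  set G : A4 F := ∏ j ∈ s, l j ^ 2 with hG
  have hGm : G ∈ Fm F (2 * s.card) := by
    rw [mem_homogeneousSubmodule]
    have := IsHomogeneous.prod s (fun j => l j ^ 2) (fun _ => 2) (fun j _ => by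
      have := ((mem_homogeneousSubmodule 1 (l j)).1 (hl1 j)).pow 2
      simpa using this)
    simpa [mul_comm] using this
  have hGn : G ∉ vI T := by
    rw [hG, hIp.prod_mem_iff]
    rintro ⟨j, _, hj⟩
    exact hl3 j (hIp.mem_of_pow_mem _ hj)
  have hcln : cln (vI T) (Ideal.span {G}) = vI T := by
    apply le_antisymm
    · intro f hf
      have := hf G (Ideal.mem_span_singleton_self G)
      exact (hIp.mem_or_mem this).resolve_right hGn
    · intro f hf g _
      exact Ideal.mul_mem_right _ _ hf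
  have hfG : ∀ n, hf (vI T ⊔ Ideal.span {G}) (n + 2 * s.card) = 2 * s.card := by
    intro n
    have h1 := hf_colon hIh hGm n
    rw [hcln, hf_vI hT, hf_vI hT] at h1
    push_cast at h1
    linarith
  refine ⟨2 * s.card + 2 * sᶜ.card, fun n hn => ?_⟩
  obtain ⟨m, rfl⟩ : ∃ m, n = m + 2 * s.card := ⟨n - 2 * s.card, by omega⟩
  rw [← hfG m]
  apply hf_anti_part
  intro f hf
  rw [mem_part] at hf ⊢
  refine ⟨?_, hf.2⟩
  obtain ⟨x, hx, y, hy, hxy⟩ := Submodule.mem_sup.1 hf.1
  obtain ⟨z, rfl⟩ := Ideal.mem_span_singleton'.1 hy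
  have h2 : f = homogeneousComponent (m + 2 * s.card) x + homogeneousComponent m z * G := by
    rw [← hc_mul_right hGm, ← map_add, hxy, hc_of_mem hf.2]
  rw [h2]
  refine Ideal.add_mem _ ((le_sup_left : vI T ≤ _) (hIh x hx _)) ?_
  -- the ideal inclusion
  have hle : (vI T ⊔ ∏ j ∈ sᶜ, (vI (L j)) ^ 2) * (∏ j ∈ s, (vI (L j)) ^ 2) ≤ vI T ⊔ ⨅ j, q j := by
    have h3 : (vI T ⊔ ∏ j ∈ sᶜ, (vI (L j)) ^ 2) * (∏ j ∈ s, (vI (L j)) ^ 2) ≤
        vI T ⊔ (∏ j ∈ sᶜ, (vI (L j)) ^ 2) * (∏ j ∈ s, (vI (L j)) ^ 2) :=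
      le_trans (Ideal.mul_mono_right le_sup_right) mul_sup_le
    refine le_trans h3 (sup_le le_sup_left (le_trans ?_ le_sup_right))
    rw [mul_comm, Finset.prod_mul_prod_compl]
    refine le_trans ?_ (le_trans (Ideal.prod_le_inf (s := Finset.univ) (f := q)) ?_)
    · exact Finset.prod_le_prod' fun j _ => hq1 j
    · rw [Finset.inf_univ_eq_iInf]
  apply hle
  apply Ideal.mul_mem_mul
  · -- z part
    have hm : 2 * sᶜ.card ≤ m := by omega
    set M : Ideal (A4 F) := Ideal.span (Set.range fun a => (X a : A4 F)) with hM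
    have h4 : homogeneousComponent m z ∈ M ^ (2 * sᶜ.card) :=
      form_mem_pow (J := M) (fun a => Ideal.subset_span (Set.mem_range_self a)) hm
        (homogeneousComponent_mem m z)
    have h5 : M ^ (2 * sᶜ.card) ≤ vI T ⊔ ∏ j ∈ sᶜ, (vI (L j)) ^ 2 := by
      rw [pow_mul, ← Finset.prod_const]
      refine le_trans (Finset.prod_le_prod' (g := fun j => vI T ⊔ (vI (L j)) ^ 2) ?_)
        (prod_sup_le (fun j => (vI (L j)) ^ 2) sᶜ)
      intro j hj
      refine le_trans (Ideal.pow_right_mono ?_ 2) sq_sup_le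
      rw [hM, Ideal.span_le]
      rintro _ ⟨a, rfl⟩
      exact vI_sup_of_disjoint (hs j (Finset.mem_compl.1 hj)) a
    exact h5 h4
  · exact Ideal.prod_mem_prod fun j _ => Ideal.pow_mem_pow (hl2 j) 2

theorem low {ι κ : Type} [Fintype ι] [Fintype κ] [DecidableEq ι] [DecidableEq κ]
    (T : ι → Submodule F (Fin 4 → F)) (L : κ → Submodule F (Fin 4 → F))
    (hT : ∀ i, finrank F (T i) = 2) (hL : ∀ j, finrank F (L j) = 2)
    (hTd : ∀ i i', i ≠ i' → T i ⊓ T i' = ⊥) (hLd : ∀ j j', j ≠ j' → L j ⊓ L j' = ⊥)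
    (hne : ∀ i j, T i ≠ L j) (q : κ → Ideal (A4 F)) (hq : ∀ j, HI (q j))
    (hq1 : ∀ j, (vI (L j)) ^ 2 ≤ q j) (hq2 : ∀ j, q j ≤ vI (L j)) (Γ' : Finset (ι × κ))
    (hΓ : ∀ i j, (i, j) ∉ Γ' → T i ⊓ L j = ⊥) :
    ∃ n0 : ℕ, ∀ n ≥ n0, (Fintype.card ι : ℤ) * (n + 1) + ∑ j, hf (q j) n - 2 * Γ'.card ≤
      hf ((⨅ i, vI (T i)) ⊓ (⨅ j, q j)) n := by
  have hIh : ∀ i, HI (vI (T i)) := fun i => HI_vI (T i)
  have hA : HI (⨅ i, vI (T i)) := HI_iInf hIh
  have hB : HI (⨅ j, q j) := HI_iInf hq
  have hcT : ∀ i i', i ≠ i' → ∃ N : ℕ, ∀ n ≥ N, Fm F n ≤ part (vI (T i) ⊔ vI (T i')) n := by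
    intro i i' h
    refine ⟨1, fun n hn f hf => mem_part.2 ⟨?_, hf⟩⟩
    have := form_mem_pow (vI_sup_of_disjoint (hTd i i' h)) hn hf
    rwa [pow_one] at this
  have hcq : ∀ j j', j ≠ j' → ∃ N : ℕ, ∀ n ≥ N, Fm F n ≤ part (q j ⊔ q j') n := by
    intro j j' h
    refine ⟨4, fun n hn f hf => mem_part.2 ⟨?_, hf⟩⟩
    have h1 := form_mem_pow (vI_sup_of_disjoint (hLd j j' h)) hn hf
    have h2 : (vI (L j) ⊔ vI (L j')) ^ (2 + 2) ≤ vI (L j) ^ 2 ⊔ vI (L j') ^ 2 :=
      Ideal.sup_pow_add_le_pow_sup_pow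
    exact sup_le_sup (hq1 j) (hq1 j') (h2 h1)
  obtain ⟨n1, hn1⟩ := hf_iInf_coprime hIh hcT
  obtain ⟨n2, hn2⟩ := hf_iInf_coprime hq hcq
  obtain ⟨n3, hn3⟩ := sup_inf_large hB hIh hcT
  choose n4 hn4 using fun i : ι => line_bound (T i) L (hT i) hL (hne i) q hq hq1
    (Finset.univ.filter fun j => (i, j) ∈ Γ') (fun j hj => hΓ i j (by simpa using hj))
  refine ⟨max (max n1 n2) (max n3 (∑ i, n4 i)), fun n hn => ?_⟩
  have hn1' := hn1 n (by omega)
  have hn2' := hn2 n (by omega)
  have hn3' := hn3 n (by omega)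
  have hn4' : ∀ i, hf (vI (T i) ⊔ ⨅ j, q j) n ≤
      2 * (Finset.univ.filter fun j => (i, j) ∈ Γ').card := by
    intro i
    apply hn4 i n
    have : n4 i ≤ ∑ i, n4 i := Finset.single_le_sum (fun _ _ => Nat.zero_le _) (Finset.mem_univ i)
    omega
  have h1 := hf_inf_add_sup hA hB n
  have h2 : hf ((⨅ i, vI (T i)) ⊔ ⨅ j, q j) n ≤ 2 * Γ'.card := by
    refine le_trans (hf_anti_part hn3') ?_
    have h3 := hf_finset_inf_le (s := Finset.univ) (I := fun i => vI (T i) ⊔ ⨅ j, q j)
      (fun i _ => HI_sup (hIh i) hB) n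
    rw [Finset.inf_univ_eq_iInf] at h3
    refine le_trans h3 (le_trans (Finset.sum_le_sum fun i _ => hn4' i) ?_)
    rw [← Finset.mul_sum]
    have h4 : ∑ i, (Finset.univ.filter fun j => (i, j) ∈ Γ').card = Γ'.card := by
      have : ∀ i, (Finset.univ.filter fun j => (i, j) ∈ Γ').card =
          (Γ'.filter fun p => p.1 = i).card := by
        intro i
        rw [← Finset.card_map ⟨fun j => (i, j), Prod.mk_right_injective i⟩]
        congr 1
        ext ⟨a, b⟩
        simp only [Finset.mem_map, Finset.mem_filter, Finset.mem_univ, true_and,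
          Function.Embedding.coeFn_mk, Prod.mk.injEq]
        constructor
        · rintro ⟨j, hj, rfl, rfl⟩
          exact ⟨hj, rfl⟩
        · rintro ⟨h, rfl⟩
          exact ⟨b, h, rfl, rfl⟩
      simp_rw [this]
      exact (Finset.card_eq_sum_card_fiberwise (fun p _ => Finset.mem_univ p.1)).symm
    have h5 : (∑ i, ((Finset.univ.filter fun j => (i, j) ∈ Γ').card : ℤ)) = Γ'.card := by
      exact_mod_cast h4
    rw [h5]
  have h6 : ∑ i, hf (vI (T i)) n = (Fintype.card ι : ℤ) * (n + 1) := by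
    simp_rw [hf_vI (hT _)]
    rw [Finset.sum_const, Finset.card_univ, nsmul_eq_mul]
  rw [hn1', hn2', h6] at h1
  linarith

end Pool.H33.G

end S_LOW

section S_EXA

/-! # EXA: exact Hilbert polynomial of a good configuration

`≥` is `low` with `q j = C.dI j` (`lineI_eq_vI`, `hf_dblI`).
`≤`: `hf (A ⊓ B) = hf A + hf B - hf (A ⊔ B)`, `hf A n ≤ card ι (n+1)`, `hf B n ≤ Σ (2n+1+M j)` for large
`n` and `hf (A ⊔ B) n ≥ 2 card Γ` for large `n`: for a node `(i,j) ∈ Γ` with point `v = s P + t Q ∈ T i`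
and a vector `D` with `span {TP i, TQ i} = span {v, D}`, the two functionals `f ↦ f(v)` and
`f ↦ Σ_a (∂_a f)(v) D a` vanish on `A ⊆ tI i` and on `B ⊆ dI j` (`dblI_node`), and the `2 card Γ` functionals
obtained are linearly independent on forms of large degree, because the points `v_{ij}` are pairwise
non-proportional (`tdis`, `ldis`) and `D` is not proportional to `v`. -/

open MvPolynomial Module

namespace Pool.H33.G

section Lin
variable {F : Type} [Field F]

theorem exa_disj {A B C D : Fin 4 → F} (h : LinearIndependent F ![A, B, C, D]) {a b c d : F}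
    (he : a • A + b • B = c • C + d • D) : a = 0 ∧ b = 0 ∧ c = 0 ∧ d = 0 := by
  rw [Fintype.linearIndependent_iff] at h
  have h1 := h ![a, b, -c, -d] (by
    rw [Fin.sum_univ_four]
    simp only [Matrix.cons_val_zero, Matrix.cons_val_one, Matrix.cons_val_two,
      Matrix.cons_val_three, Matrix.head_cons, Matrix.tail_cons]
    rw [he]
    module)
  have e0 := h1 0
  have e1 := h1 1
  have e2 := h1 2
  have e3 := h1 3
  simp only [Matrix.cons_val_zero, Matrix.cons_val_one, Matrix.cons_val_two,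
    Matrix.cons_val_three, Matrix.head_cons, Matrix.tail_cons, neg_eq_zero] at e0 e1 e2 e3
  exact ⟨e0, e1, e2, e3⟩

theorem exa_inf_bot {A B C D : Fin 4 → F} (h : LinearIndependent F ![A, B, C, D]) :
    Submodule.span F {A, B} ⊓ Submodule.span F {C, D} = ⊥ := by
  rw [eq_bot_iff]
  rintro z ⟨h1, h2⟩
  obtain ⟨a, b, rfl⟩ := Submodule.mem_span_pair.mp h1
  obtain ⟨c, d, he⟩ := Submodule.mem_span_pair.mp h2
  obtain ⟨rfl, rfl, -, -⟩ := exa_disj h he.symm
  simp

theorem exa_finrank {A B : Fin 4 → F} (h : LinearIndependent F ![A, B]) :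
    finrank F (Submodule.span F {A, B}) = 2 := by
  have h1 := finrank_span_eq_card h
  have h2 : Set.range ![A, B] = {A, B} := by
    rw [Matrix.range_cons, Matrix.range_cons, Matrix.range_empty]
    rw [Set.union_empty]
    rfl
  rw [h2] at h1
  simpa using h1

/-- prescribed values of a linear form on independent vectors -/
theorem exa_dual {m : ℕ} {b : Fin m → Fin 4 → F} (hb : LinearIndependent F b) (c : Fin m → F) :
    ∃ w : Fin 4 → F, ∀ i, ∑ a, w a * b i a = c i := by
  obtain ⟨φ, hφ⟩ := LinearMap.exists_extend ((Basis.span hb).constr F c)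
  have hval : ∀ i, φ (b i) = c i := by
    intro i
    have h1 := LinearMap.congr_fun hφ (Basis.span hb i)
    rw [Basis.constr_basis, LinearMap.comp_apply, Submodule.subtype_apply, Basis.span_apply] at h1
    exact h1
  refine ⟨fun a => φ (Pi.single a 1), fun i => ?_⟩
  rw [← hval i]
  conv_rhs => rw [← Finset.univ_sum_single (b i)]
  rw [map_sum]
  refine Finset.sum_congr rfl (fun a _ => ?_)
  have : (Pi.single a (b i a) : Fin 4 → F) = (b i a) • Pi.single a 1 := by
    ext k
    by_cases hk : k = a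
    · subst hk; simp
    · simp [Pi.single_eq_of_ne hk]
  rw [this, map_smul, smul_eq_mul, mul_comm]

end Lin

section Dual
variable {F : Type} [Field F]

/-- evaluation at `v + ε D` -/
noncomputable def exaE (v D : Fin 4 → F) : A4 F →ₐ[F] DualNumber F :=
  aeval (fun a => TrivSqZeroExt.inl (v a) + TrivSqZeroExt.inr (D a))

theorem exaE_fst (v D : Fin 4 → F) (f : A4 F) : (exaE v D f).fst = eval v f := by
  induction f using MvPolynomial.induction_on with
  | C a =>
    rw [exaE, aeval_C, eval_C]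
    rfl
  | add p q hp hq => rw [map_add, TrivSqZeroExt.fst_add, hp, hq, map_add]
  | mul_X p a hp =>
    rw [map_mul, TrivSqZeroExt.fst_mul, hp, map_mul, eval_X, exaE, aeval_X]
    simp

theorem exaE_snd (v D : Fin 4 → F) (f : A4 F) :
    (exaE v D f).snd = ∑ a, eval v (pderiv a f) * D a := by
  induction f using MvPolynomial.induction_on with
  | C a =>
    rw [exaE, aeval_C]
    simp only [pderiv_C, map_zero, zero_mul, Finset.sum_const_zero]
    rfl
  | add p q hp hq =>
    rw [map_add, TrivSqZeroExt.snd_add, hp, hq, ← Finset.sum_add_distrib]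
    refine Finset.sum_congr rfl (fun a _ => ?_)
    rw [map_add, map_add, add_mul]
  | mul_X p b hp =>
    rw [map_mul, TrivSqZeroExt.snd_mul, hp, exaE_fst]
    have h1 : ∀ a, eval v (pderiv a (p * X b)) * D a =
        eval v p * (if b = a then D a else 0) + v b * (eval v (pderiv a p) * D a) := by
      intro a
      rw [Derivation.leibniz, smul_eq_mul, smul_eq_mul, map_add, map_mul, map_mul, eval_X, pderiv_X]
      by_cases hab : b = a
      · subst hab
        simp
        ring
      · rw [Pi.single_eq_of_ne (by exact fun h => hab h), if_neg hab]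
        simp
        ring
    simp only [h1]
    rw [Finset.sum_add_distrib, ← Finset.mul_sum, ← Finset.mul_sum, Finset.sum_ite_eq]
    simp only [Finset.mem_univ, if_true]
    rw [exaE, aeval_X]
    simp [TrivSqZeroExt.snd_add, TrivSqZeroExt.fst_add]
    ring

/-- elements of the ideal of a line vanish on the tangent vectors -/
theorem exaE_lineI (P Q : Fin 4 → F) (p q p' q' : F) {f : A4 F} (hf' : f ∈ lineI P Q) :
    exaE (p • P + q • Q) (p' • P + q' • Q) f = 0 := by
  have h1 : exaE (p • P + q • Q) (p' • P + q' • Q) =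
      (aeval ![(TrivSqZeroExt.inl p + TrivSqZeroExt.inr p' : DualNumber F),
        TrivSqZeroExt.inl q + TrivSqZeroExt.inr q'] :
        MvPolynomial (Fin 2) F →ₐ[F] DualNumber F).comp (res P Q) := by
    apply MvPolynomial.algHom_ext
    intro a
    rw [exaE, aeval_X, AlgHom.comp_apply, res, aeval_X, map_add, map_mul, map_mul, aeval_X, aeval_X,
      aeval_C, aeval_C]
    ext
    · simp [TrivSqZeroExt.algebraMap_eq_inl]
      ring
    · simp [TrivSqZeroExt.algebraMap_eq_inl]
      ring
  rw [h1, AlgHom.comp_apply]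
  have h2 : res P Q f = 0 := hf'
  rw [h2, map_zero]

/-- linear form -/
noncomputable def exaL (w : Fin 4 → F) : A4 F := ∑ a, C (w a) * X a

theorem exaL_mem (w : Fin 4 → F) : exaL w ∈ Fm F 1 := by
  refine Submodule.sum_mem _ (fun a _ => ?_)
  exact (isHomogeneous_C_mul_X (w a) a)

theorem exaE_L (v D w : Fin 4 → F) : exaE v D (exaL w) =
    TrivSqZeroExt.inl (∑ a, w a * v a) + TrivSqZeroExt.inr (∑ a, w a * D a) := by
  rw [exaL, map_sum]
  have h1 : ∀ a, exaE v D (C (w a) * X a) =
      TrivSqZeroExt.inl (w a * v a) + TrivSqZeroExt.inr (w a * D a) := by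
    intro a
    rw [map_mul, exaE, aeval_C, aeval_X]
    ext <;> simp [TrivSqZeroExt.algebraMap_eq_inl]
  simp only [h1]
  rw [Finset.sum_add_distrib]
  ext
  · simp [TrivSqZeroExt.fst_sum]
  · simp [TrivSqZeroExt.snd_sum]

/-- Hermite interpolation at pairwise different points -/
theorem exa_single {α : Type} [Fintype α] [DecidableEq α] {v D : α → Fin 4 → F}
    (h1 : ∀ x, LinearIndependent F ![v x, D x])
    (h2 : ∀ x y, x ≠ y → LinearIndependent F ![v x, v y]) {n : ℕ}
    (hn : 2 * Fintype.card α ≤ n) (x : α) (w : DualNumber F) :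
    ∃ f ∈ Fm F n, exaE (v x) (D x) f = w ∧ ∀ y, y ≠ x → exaE (v y) (D y) f = 0 := by
  have hl : ∀ y, ∃ u : Fin 4 → F, y ≠ x → (∑ a, u a * v y a = 0 ∧ ∑ a, u a * v x a = 1) := by
    intro y
    by_cases hyx : y = x
    · exact ⟨0, fun h => absurd hyx h⟩
    · obtain ⟨u, hu⟩ := exa_dual (h2 y x hyx) ![0, 1]
      exact ⟨u, fun _ => ⟨hu 0, hu 1⟩⟩
  choose l hl using hl
  obtain ⟨al, hal⟩ := exa_dual (h1 x) ![1, 0]
  obtain ⟨be, hbe⟩ := exa_dual (h1 x) ![0, 1]
  have hal0 : ∑ a, al a * v x a = 1 := hal 0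
  have hal1 : ∑ a, al a * D x a = 0 := hal 1
  have hbe0 : ∑ a, be a * v x a = 0 := hbe 0
  have hbe1 : ∑ a, be a * D x a = 1 := hbe 1
  set G : A4 F := ∏ y ∈ Finset.univ.erase x, (exaL (l y)) ^ 2 with hG
  have hGmem : G ∈ Fm F (2 * (Fintype.card α - 1)) := by
    have h3 : IsHomogeneous G (∑ y ∈ Finset.univ.erase x, 1 * 2) :=
      IsHomogeneous.prod _ _ _ (fun y _ => (exaL_mem (l y)).pow 2)
    rw [Finset.sum_const, Finset.card_erase_of_mem (Finset.mem_univ x), Finset.card_univ,
      smul_eq_mul] at h3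
    have h4 : (Fintype.card α - 1) * (1 * 2) = 2 * (Fintype.card α - 1) := by ring
    rwa [h4] at h3
  have hcard : 1 ≤ Fintype.card α := Fintype.card_pos_iff.mpr ⟨x⟩
  obtain ⟨m, hm⟩ : ∃ m, n = 2 * (Fintype.card α - 1) + (m + 1) :=
    ⟨n - 2 * (Fintype.card α - 1) - 1, by omega⟩
  set g : DualNumber F := exaE (v x) (D x) G with hg
  have hg1 : g.fst = 1 := by
    rw [hg, exaE_fst, hG, map_prod]
    refine Finset.prod_eq_one (fun y hy => ?_)
    have hyx : y ≠ x := Finset.ne_of_mem_erase hy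
    rw [map_pow, ← exaE_fst (v x) (D x), exaE_L, (hl y hyx).2]
    simp
  have hA : exaE (v x) (D x) (exaL al) = 1 := by
    rw [exaE_L, hal0, hal1]
    ext <;> simp
  have hB : exaE (v x) (D x) (exaL be) = TrivSqZeroExt.inr 1 := by
    rw [exaE_L, hbe0, hbe1]
    ext <;> simp
  refine ⟨G * (C w.fst * exaL al ^ (m + 1) + C (w.snd - g.snd * w.fst) * (exaL al ^ m * exaL be)),
    ?_, ?_, ?_⟩
  · rw [hm]
    refine IsHomogeneous.mul hGmem (IsHomogeneous.add ?_ ?_)
    · have h3 := ((exaL_mem al).pow (m + 1))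
      have h4 := (isHomogeneous_C (Fin 4) w.fst).mul h3
      simpa using h4
    · have h3 := ((exaL_mem al).pow m).mul (exaL_mem be)
      have h4 := (isHomogeneous_C (Fin 4) (w.snd - g.snd * w.fst)).mul h3
      simpa using h4
  · rw [map_mul, map_add, map_mul, map_mul, map_mul, map_pow, map_pow, hA, hB, ← hg, one_pow,
      one_pow, exaE, aeval_C, aeval_C]
    ext
    · simp [TrivSqZeroExt.algebraMap_eq_inl, hg1]
    · simp [TrivSqZeroExt.algebraMap_eq_inl, hg1]
  · intro y hyx
    rw [map_mul, hG, map_prod, Finset.prod_eq_zero (Finset.mem_erase.mpr ⟨hyx, Finset.mem_univ y⟩),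
      zero_mul]
    rw [map_pow, exaE_L, (hl y hyx).1, TrivSqZeroExt.inl_zero, zero_add, sq,
      TrivSqZeroExt.inr_mul_inr]

theorem exa_surj {α : Type} [Fintype α] [DecidableEq α] {v D : α → Fin 4 → F}
    (h1 : ∀ x, LinearIndependent F ![v x, D x])
    (h2 : ∀ x y, x ≠ y → LinearIndependent F ![v x, v y]) {n : ℕ}
    (hn : 2 * Fintype.card α ≤ n) (w : α → DualNumber F) :
    ∃ f ∈ Fm F n, ∀ x, exaE (v x) (D x) f = w x := by
  choose f hf1 hf2 hf3 using fun x => exa_single h1 h2 hn x (w x)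
  refine ⟨∑ x, f x, Submodule.sum_mem _ (fun x _ => hf1 x), fun x => ?_⟩
  rw [map_sum, Finset.sum_eq_single x]
  · exact hf2 x
  · intro y _ hyx
    exact hf3 y x (fun h => hyx h.symm)
  · intro h
    exact absurd (Finset.mem_univ x) h

/-- the values at the tangent vectors -/
noncomputable def exaPhi {α : Type} (v D : α → Fin 4 → F) : A4 F →ₗ[F] (α → F × F) where
  toFun f x := ((exaE (v x) (D x) f).fst, (exaE (v x) (D x) f).snd)
  map_add' f g := by
    funext x
    simp
  map_smul' c f := by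
    funext x
    simp

theorem exa_hf_lower {α : Type} [Fintype α] [DecidableEq α] {v D : α → Fin 4 → F}
    (h1 : ∀ x, LinearIndependent F ![v x, D x])
    (h2 : ∀ x y, x ≠ y → LinearIndependent F ![v x, v y]) {n : ℕ}
    (hn : 2 * Fintype.card α ≤ n) {I : Ideal (A4 F)}
    (hI : ∀ f ∈ I, ∀ x, exaE (v x) (D x) f = 0) : 2 * (Fintype.card α : ℤ) ≤ hf I n := by
  set ψ : Fm F n →ₗ[F] (α → F × F) := (exaPhi v D).comp (Fm F n).subtype with hψ
  have hr : LinearMap.range ψ = ⊤ := by
    rw [LinearMap.range_eq_top]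
    intro w
    obtain ⟨f, hf, hfw⟩ := exa_surj h1 h2 hn
      (fun x => TrivSqZeroExt.inl (w x).1 + TrivSqZeroExt.inr (w x).2)
    refine ⟨⟨f, hf⟩, ?_⟩
    funext x
    show ((exaE (v x) (D x) f).fst, (exaE (v x) (D x) f).snd) = w x
    rw [hfw x]
    simp
  have h3 := LinearMap.finrank_range_add_finrank_ker ψ
  rw [hr, finrank_top, Module.finrank_pi_fintype] at h3
  simp only [Module.finrank_prod, Module.finrank_self, Finset.sum_const, Finset.card_univ,
    smul_eq_mul] at h3
  have h4 : (part I n).comap (Fm F n).subtype ≤ LinearMap.ker ψ := by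
    intro f hf
    rw [LinearMap.mem_ker]
    funext x
    show ((exaE (v x) (D x) f.1).fst, (exaE (v x) (D x) f.1).snd) = (0, 0)
    rw [hI f.1 hf.1 x]
    rfl
  have h5 : finrank F ((part I n).comap (Fm F n).subtype) = finrank F (part I n) :=
    (Submodule.comapSubtypeEquivOfLe (p := part I n) (q := Fm F n) inf_le_right).finrank_eq
  have h6 := Submodule.finrank_mono h4
  rw [h5] at h6
  unfold hf
  omega

end Dual

section Main
variable {F : Type} [Field F] [Infinite F] {ι κ : Type} [Fintype ι] [Fintype κ] [DecidableEq ι]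
  [DecidableEq κ]

theorem Good.HI_ideal {C : Cfg F ι κ} : HI C.ideal :=
  HI_inf (HI_iInf fun i => HI_lineI (C.TP i) (C.TQ i)) (HI_iInf fun _ => HI_dblI)

/-- the coefficient of `X 1 ^ M` in `hg g M` -/
theorem exa_hg_ne {g : Polynomial F} {M : ℕ} (hg' : g.natDegree = M) (hM : 0 < M) {t : F}
    (ht : t ≠ 0) : eval ![0, t] (hg g M) ≠ 0 := by
  have h1 : eval ![0, t] (hg g M) = g.coeff M * t ^ M := by
    rw [hg, map_sum, Finset.sum_eq_single M]
    · simp
    · intro i hi hne
      have hi' : i < M + 1 := Finset.mem_range.mp hi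
      have : M - i ≠ 0 := by omega
      simp [zero_pow this]
    · intro h
      exact absurd (Finset.mem_range.mpr (Nat.lt_succ_self M)) h
  rw [h1]
  have h2 : g.coeff M ≠ 0 := by
    rw [← hg', Polynomial.coeff_natDegree, Polynomial.leadingCoeff_ne_zero]
    rintro rfl
    simp at hg'
    omega
  exact mul_ne_zero h2 (pow_ne_zero _ ht)

theorem exa_ind2 {A B C' D : Fin 4 → F} (h : LinearIndependent F ![A, B, C', D]) :
    LinearIndependent F ![A, B] := by
  rw [LinearIndependent.pair_iff]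
  intro s t hst
  obtain ⟨h1, h2, -, -⟩ := exa_disj h (a := s) (b := t) (c := 0) (d := 0) (by rw [hst]; simp)
  exact ⟨h1, h2⟩

/-- the tangent vector of a node -/
theorem exa_node {C : Cfg F ι κ} {Γ : Finset (ι × κ)} (hC : C.Good Γ) {i : ι} {j : κ}
    (hij : (i, j) ∈ Γ) : ∃ v D : Fin 4 → F, LinearIndependent F ![v, D] ∧
      v ∈ Submodule.span F {C.TP i, C.TQ i} ∧ v ∈ Submodule.span F {C.P j, C.Q j} ∧
      (∀ f ∈ C.tI i, exaE v D f = 0) ∧ (∀ f ∈ C.dI j, exaE v D f = 0) := by
  obtain ⟨s, t, hst, hv, hn⟩ := hC.node i j hij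
  obtain ⟨p, q, hpq⟩ := Submodule.mem_span_pair.mp hv
  have hPQ : LinearIndependent F ![C.P j, C.Q j] := exa_ind2 (hC.lind j)
  have hT := hC.tind i
  rw [LinearIndependent.pair_iff] at hPQ hT
  have hne : p ≠ 0 ∨ q ≠ 0 := by
    by_contra hcon
    push Not at hcon
    obtain ⟨rfl, rfl⟩ := hcon
    rw [zero_smul, zero_smul, add_zero] at hpq
    obtain ⟨h1, h2⟩ := hPQ s t hpq.symm
    rcases hst with h | h
    · exact h h1
    · exact h h2
  obtain ⟨p', q', hdet⟩ : ∃ p' q' : F, p * q' - q * p' ≠ 0 := by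
    rcases hne with h | h
    · exact ⟨0, 1, by simpa using h⟩
    · exact ⟨1, 0, by simpa using h⟩
  refine ⟨s • C.P j + t • C.Q j, p' • C.TP i + q' • C.TQ i, ?_, hv,
    Submodule.mem_span_pair.mpr ⟨s, t, rfl⟩, ?_, ?_⟩
  · rw [LinearIndependent.pair_iff]
    intro x y hxy
    rw [← hpq] at hxy
    have h1 : (x * p + y * p') • C.TP i + (x * q + y * q') • C.TQ i = 0 := by
      rw [← hxy]
      module
    obtain ⟨e1, e2⟩ := hT _ _ h1
    constructor
    · have : x * (p * q' - q * p') = 0 := by linear_combination q' * e1 - p' * e2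
      exact (mul_eq_zero.mp this).resolve_right hdet
    · have : y * (p * q' - q * p') = 0 := by linear_combination p * e2 - q * e1
      exact (mul_eq_zero.mp this).resolve_right hdet
  · intro f hf'
    rw [← hpq]
    exact exaE_lineI _ _ _ _ _ _ hf'
  · intro f hf'
    have hspan : s ^ C.M j • C.U j + (MvPolynomial.eval ![s, t] (hg (C.g j) (C.M j))) • C.V j ∈
        Submodule.span F {C.P j, C.Q j, p' • C.TP i + q' • C.TQ i} := by
      have hle : Submodule.span F {C.P j, C.Q j, C.TP i, C.TQ i} ≤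
          Submodule.span F {C.P j, C.Q j, p' • C.TP i + q' • C.TQ i} := by
        set S := Submodule.span F {C.P j, C.Q j, p' • C.TP i + q' • C.TQ i} with hS
        have hP : C.P j ∈ S := Submodule.subset_span (by simp)
        have hQ : C.Q j ∈ S := Submodule.subset_span (by simp)
        have hD : p' • C.TP i + q' • C.TQ i ∈ S := Submodule.subset_span (by simp)
        have hv' : p • C.TP i + q • C.TQ i ∈ S := by
          rw [hpq]
          exact S.add_mem (S.smul_mem _ hP) (S.smul_mem _ hQ)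
        have hTP : C.TP i ∈ S := by
          have h1 : C.TP i = (p * q' - q * p')⁻¹ • (q' • (p • C.TP i + q • C.TQ i) -
              q • (p' • C.TP i + q' • C.TQ i)) := by
            rw [eq_inv_smul_iff₀ hdet]
            module
          rw [h1]
          exact S.smul_mem _ (S.sub_mem (S.smul_mem _ hv') (S.smul_mem _ hD))
        have hTQ : C.TQ i ∈ S := by
          have h1 : C.TQ i = (p * q' - q * p')⁻¹ • (p • (p' • C.TP i + q' • C.TQ i) -
              p' • (p • C.TP i + q • C.TQ i)) := by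
            rw [eq_inv_smul_iff₀ hdet]
            module
          rw [h1]
          exact S.smul_mem _ (S.sub_mem (S.smul_mem _ hD) (S.smul_mem _ hv'))
        rw [Submodule.span_le]
        rintro z (rfl | rfl | rfl | rfl)
        · exact hP
        · exact hQ
        · exact hTP
        · exact hTQ
      exact hle hn
    obtain ⟨h1, h2⟩ := dblI_node (hC.lind j) (hC.deg j) (hC.pos j) hst hspan hf'
    ext
    · rw [exaE_fst, h1]
      rfl
    · rw [exaE_snd, h2]
      rfl

theorem exact_hf {C : Cfg F ι κ} {Γ : Finset (ι × κ)} (hC : C.Good Γ) :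
    Lin C.ideal (Fintype.card ι + 2 * Fintype.card κ) (chi0 C.M Γ) := by
  classical
  -- lower bound
  obtain ⟨n1, hn1⟩ := low (fun i => Submodule.span F {C.TP i, C.TQ i})
    (fun j => Submodule.span F {C.P j, C.Q j}) (fun i => exa_finrank (hC.tind i))
    (fun j => exa_finrank (exa_ind2 (hC.lind j)))
    (fun i i' h => exa_inf_bot (hC.tdis i i' h)) (fun j j' h => exa_inf_bot (hC.ldis j j' h))
    (by
      intro i j hTL
      by_cases hij : (i, j) ∈ Γ
      · obtain ⟨s, t, hst, hv, hn⟩ := hC.node i j hij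
        have h1 : Submodule.span F {C.P j, C.Q j, C.TP i, C.TQ i} ≤
            Submodule.span F {C.P j, C.Q j} := by
          rw [Submodule.span_le]
          have hP : C.P j ∈ Submodule.span F {C.P j, C.Q j} := Submodule.subset_span (by simp)
          have hQ : C.Q j ∈ Submodule.span F {C.P j, C.Q j} := Submodule.subset_span (by simp)
          have hTP : C.TP i ∈ Submodule.span F {C.P j, C.Q j} := by
            rw [← hTL]
            exact Submodule.subset_span (by simp)
          have hTQ : C.TQ i ∈ Submodule.span F {C.P j, C.Q j} := by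
            rw [← hTL]
            exact Submodule.subset_span (by simp)
          rintro z (rfl | rfl | rfl | rfl)
          · exact hP
          · exact hQ
          · exact hTP
          · exact hTQ
        obtain ⟨a, b, hab⟩ := Submodule.mem_span_pair.mp (h1 hn)
        obtain ⟨-, -, h2, h3⟩ := exa_disj (hC.lind j) hab
        have hs : s = 0 := pow_eq_zero_iff (hC.pos j).ne' |>.mp h2
        subst hs
        rcases hst with h | h
        · exact h rfl
        · exact exa_hg_ne (hC.deg j) (hC.pos j) h h3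
      · have h1 := exa_inf_bot (hC.non i j hij)
        have h2 : Submodule.span F {C.TP i, C.TQ i} = Submodule.span F {C.P j, C.Q j} := hTL
        rw [← h2, inf_idem] at h1
        have h3 := exa_finrank (hC.tind i)
        rw [h1, finrank_bot] at h3
        omega)
    (fun j => C.dI j) (fun j => HI_dblI)
    (fun j => by rw [← lineI_eq_vI]; exact sq_le_dblI)
    (fun j => by rw [← lineI_eq_vI]; exact dblI_le) Γ
    (fun i j h => exa_inf_bot (hC.non i j h))
  have hideal : (⨅ i, vI (Submodule.span F {C.TP i, C.TQ i})) ⊓ (⨅ j, C.dI j) = C.ideal := by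
    unfold Cfg.ideal Cfg.tI
    simp only [lineI_eq_vI]
  -- upper bound
  set A : Ideal (A4 F) := ⨅ i, C.tI i with hA
  set B : Ideal (A4 F) := ⨅ j, C.dI j with hB
  have hAI : HI A := HI_iInf fun i => HI_lineI (C.TP i) (C.TQ i)
  have hBI : HI B := HI_iInf fun _ => HI_dblI
  have hAle : ∀ n : ℕ, hf A n ≤ (Fintype.card ι : ℤ) * (n + 1) := by
    intro n
    have h1 := hf_finset_inf_le (s := Finset.univ) (I := fun i => C.tI i)
      (fun i _ => HI_lineI (C.TP i) (C.TQ i)) n
    rw [Finset.inf_univ_eq_iInf] at h1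
    refine h1.trans (le_of_eq ?_)
    have h2 : ∀ i ∈ (Finset.univ : Finset ι), hf (C.tI i) n = (n : ℤ) + 1 :=
      fun i _ => hf_lineI (hC.tind i) n
    rw [Finset.sum_congr rfl h2, Finset.sum_const, Finset.card_univ, nsmul_eq_mul]
  set n2 : ℕ := Finset.univ.sup C.M with hn2
  have hdI : ∀ n ≥ n2, ∀ j, hf (C.dI j) n = 2 * n + 1 + C.M j := by
    intro n hn j
    exact hf_dblI (hC.lind j) (hC.deg j) (hC.pos j)
      ((Finset.le_sup (f := C.M) (Finset.mem_univ j)).trans hn)
  have hBle : ∀ n ≥ n2, hf B n ≤ ∑ j, (2 * (n : ℤ) + 1 + C.M j) := by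
    intro n hn
    have h1 := hf_finset_inf_le (s := Finset.univ) (I := fun j => C.dI j)
      (fun j _ => HI_dblI) n
    rw [Finset.inf_univ_eq_iInf] at h1
    refine h1.trans (le_of_eq ?_)
    exact Finset.sum_congr rfl (fun j _ => hdI n hn j)
  -- nodes
  have hnode : ∀ x : Γ, ∃ vD : (Fin 4 → F) × (Fin 4 → F), LinearIndependent F ![vD.1, vD.2] ∧
      vD.1 ∈ Submodule.span F {C.TP x.1.1, C.TQ x.1.1} ∧
      vD.1 ∈ Submodule.span F {C.P x.1.2, C.Q x.1.2} ∧
      (∀ f ∈ C.tI x.1.1, exaE vD.1 vD.2 f = 0) ∧ (∀ f ∈ C.dI x.1.2, exaE vD.1 vD.2 f = 0) := by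
    intro x
    obtain ⟨v, D, h⟩ := exa_node hC (i := x.1.1) (j := x.1.2) x.2
    exact ⟨(v, D), h⟩
  choose vD hv1 hv2 hv3 hv4 hv5 using hnode
  have hv0 : ∀ x, (vD x).1 ≠ 0 := fun x => (hv1 x).ne_zero 0
  have hpair : ∀ x y : Γ, x ≠ y → LinearIndependent F ![(vD x).1, (vD y).1] := by
    intro x y hxy
    rw [LinearIndependent.pair_iff' (hv0 x)]
    intro c hc
    have hcases : x.1.1 ≠ y.1.1 ∨ x.1.2 ≠ y.1.2 := by
      by_contra hcon
      push Not at hcon
      exact hxy (Subtype.ext (Prod.ext hcon.1 hcon.2))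
    rcases hcases with h | h
    · have h1 := exa_inf_bot (hC.tdis _ _ h)
      have h2 : (vD y).1 ∈ Submodule.span F {C.TP x.1.1, C.TQ x.1.1} ⊓
          Submodule.span F {C.TP y.1.1, C.TQ y.1.1} := by
        refine ⟨?_, hv2 y⟩
        rw [← hc]
        exact Submodule.smul_mem _ _ (hv2 x)
      rw [h1, Submodule.mem_bot] at h2
      exact hv0 y h2
    · have h1 := exa_inf_bot (hC.ldis _ _ h)
      have h2 : (vD y).1 ∈ Submodule.span F {C.P x.1.2, C.Q x.1.2} ⊓
          Submodule.span F {C.P y.1.2, C.Q y.1.2} := by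
        refine ⟨?_, hv3 y⟩
        rw [← hc]
        exact Submodule.smul_mem _ _ (hv3 x)
      rw [h1, Submodule.mem_bot] at h2
      exact hv0 y h2
  have hABge : ∀ n ≥ 2 * Fintype.card Γ, 2 * (Γ.card : ℤ) ≤ hf (A ⊔ B) n := by
    intro n hn
    have h1 := exa_hf_lower (v := fun x => (vD x).1) (D := fun x => (vD x).2) hv1 hpair hn
      (I := A ⊔ B) (by
        intro f hf x
        obtain ⟨a, ha, b, hb, rfl⟩ := Submodule.mem_sup.mp hf
        rw [map_add, hv4 x a ((iInf_le _ x.1.1 : A ≤ _) ha),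
          hv5 x b ((iInf_le _ x.1.2 : B ≤ _) hb), add_zero])
    rwa [Fintype.card_coe] at h1
  refine ⟨max n1 (max n2 (2 * Fintype.card Γ)), fun n hn => ?_⟩
  have hm1 : n1 ≤ n := (le_max_left _ _).trans hn
  have hm2 : n2 ≤ n := (le_max_left _ _).trans ((le_max_right _ _).trans hn)
  have hm3 : 2 * Fintype.card Γ ≤ n := (le_max_right _ _).trans ((le_max_right _ _).trans hn)
  have hlow := hn1 n hm1
  have hsum : ∑ j, hf (C.dI j) n = ∑ j, (2 * (n : ℤ) + 1 + C.M j) :=
    Finset.sum_congr rfl (fun j _ => hdI n hm2 j)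
  have hsum2 : ∑ j, (2 * (n : ℤ) + 1 + C.M j) =
      2 * (Fintype.card κ : ℤ) * n + ∑ j, (1 + (C.M j : ℤ)) := by
    rw [Finset.sum_add_distrib, Finset.sum_add_distrib, Finset.sum_const, Finset.sum_const,
      Finset.card_univ, Finset.sum_add_distrib, Finset.sum_const, Finset.card_univ, nsmul_eq_mul,
      nsmul_eq_mul]
    ring
  rw [hsum, hsum2] at hlow
  have hlow' : (Fintype.card ι : ℤ) * (n + 1) + (2 * (Fintype.card κ : ℤ) * n +
      ∑ j, (1 + (C.M j : ℤ))) - 2 * Γ.card ≤ hf C.ideal n := by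
    rw [← hideal]
    exact hlow
  have h1 := hf_inf_add_sup hAI hBI n
  have h2 := hAle n
  have h3 := hBle n hm2
  have h4 := hABge n hm3
  rw [hsum2] at h3
  have h5 : hf C.ideal n = hf (A ⊓ B) n := rfl
  unfold chi0
  push_cast
  linarith

end Main

end Pool.H33.G

end S_EXA
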