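import Mathlib
import Pool.Agent.H33.GG.Def
import Pool.Agent.H33.GG.M1
import Pool.Agent.H33.GG.M2
import Pool.Agent.H33.GG.M3

/-! Galois action on the components of Hilbert schemes of space curves, file M4 -/

section S_SUP

/-! # SUP: subschemes of the curve `C`

All ideals `J` here are homogeneous and contain `C.ideal` in large degrees.
* `sup_prime`: `C.ideal ≤ p` (`Lle_prime`), `∏ tI i * ∏ (lI j)^2 ≤ C.ideal ≤ p`, so `p` contains the prime ideal
  of a line; equality by `Bdd_of_lt_prime`.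
* `sup_upper`: `Qs = (inf of tI i over suppT) ⊓ (inf of dI j over suppL)`, `A = cln J Qs`.  `A` is bounded:
  otherwise `exists_prime` gives `p ⊇ A ⊇ J`, so `p` is one of the line ideals by `sup_prime`; then that
  line is in the support; but `A` contains an element outside: with `g_ℓ' ∈ P_ℓ' \ I_ℓ` (squares of linear
  forms) for all other lines `ℓ'` and a linear form `x ∉ I_ℓ` the element
  `x^N ∏ g_ℓ'` (`N` from `Lle_mul_pow`) is in `A`, not in `I_ℓ`.  Then `mod_bound` and
  `hf (J ⊔ Qs) ≤ hf Qs ≤ Σ`.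
* `sup_lower`: `J ≤ inf of the line ideals`, `Lin_finset_inf`.
* `sup_rank`: same as `sup_upper` with `Qs = lI j`, using `dblI_rank_one` for `ℓ = L j`.
* `sup_pure`: a form `f ∈ J`, `f ∉ P_ℓ` (`P_ℓ = tI i` or `dI j`); `C.ideal' := C.ideal ⊔ ..`: by `hf_colon`
  `hf (C.ideal ⊔ (f)) (n + a) = hf C.ideal (n+a) - hf (cln C.ideal (f)) n` and
  `cln C.ideal (f) ≤ cln P_ℓ (f) ≤ I_ℓ` (primary), so the difference is at least `n + 1`; and
  `part (C.ideal ⊔ (f)) n ≤ part J n` for large `n`. -/

open MvPolynomial Module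

namespace Pool.H33.G

section Family

variable {F : Type} [Field F] {Ω : Type} [Fintype Ω]

/-- a family of primes `IL a` of lines with primary ideals `PL a`. -/
structure SupFam (IL PL : Ω → Ideal (A4 F)) : Prop where
  prime : ∀ a, (IL a).IsPrime
  hI : ∀ a, HI (IL a)
  lin : ∀ a, Lin (IL a) 1 1
  le : ∀ a, PL a ≤ IL a
  sq : ∀ a, (IL a) ^ 2 ≤ PL a
  prim : ∀ a f y, f ∉ IL a → f * y ∈ PL a → y ∈ PL a
  hP : ∀ a, HI (PL a)
  inj : ∀ a b, IL a = IL b → a = b

namespace SupFam

variable {IL PL : Ω → Ideal (A4 F)}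

omit [Fintype Ω] in
theorem not_bdd (S : SupFam IL PL) (a : Ω) : ¬ Bdd (IL a) := by
  rw [Lin_Bdd_iff (S.lin a)]
  exact one_ne_zero

omit [Fintype Ω] in
theorem eq_of_le (S : SupFam IL PL) {a : Ω} {p : Ideal (A4 F)} (hp : HI p) (hb : ¬ Bdd p)
    (h : IL a ≤ p) : IL a = p := by
  by_contra hne
  exact hb (Bdd_of_lt_prime (S.prime a) (S.hI a) hp (lt_of_le_of_ne h hne) (S.lin a))

theorem HI_all (S : SupFam IL PL) : HI (Finset.univ.inf PL) := HI_finset_inf fun a _ => S.hP a

theorem of_prime (S : SupFam IL PL) {J p : Ideal (A4 F)} (hJC : Lle (Finset.univ.inf PL) J)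
    (hp : UP J p) : ∃ a, p = IL a := by
  obtain ⟨hp1, hp2, hp3, hp4⟩ := hp
  have h1 : Finset.univ.inf PL ≤ p := Lle_prime S.HI_all hp1 hp2 hp4 hJC hp3
  obtain ⟨a, _, ha⟩ := (Ideal.IsPrime.inf_le' hp1).1 h1
  have h2 : IL a ≤ p := hp1.le_of_pow_le ((S.sq a).trans ha)
  exact ⟨a, (S.eq_of_le hp2 hp4 h2).symm⟩

omit [Fintype Ω] in
theorem exists_not_mem (S : SupFam IL PL) {a b : Ω} (hab : b ≠ a) : ∃ g ∈ PL b, g ∉ IL a := by
  by_contra hcon
  push Not at hcon
  have h1 : PL b ≤ IL a := hcon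
  have h2 : IL b ≤ IL a := (S.prime a).le_of_pow_le ((S.sq b).trans h1)
  exact hab (S.inj b a (S.eq_of_le (S.hI a) (S.not_bdd a) h2))

theorem outside (S : SupFam IL PL) {J : Ideal (A4 F)} (hJC : Lle (Finset.univ.inf PL) J) (a : Ω) :
    ∃ t, t ∉ IL a ∧ ∀ g ∈ PL a, t * g ∈ J := by
  classical
  have h1 : ∀ b, ∃ g, (b ≠ a → g ∈ PL b) ∧ g ∉ IL a := by
    intro b
    by_cases hb : b = a
    · exact ⟨1, fun h => absurd hb h, fun h =>
        (S.prime a).ne_top ((Ideal.eq_top_iff_one _).2 h)⟩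
    · obtain ⟨g, hg, hg'⟩ := S.exists_not_mem hb
      exact ⟨g, fun _ => hg, hg'⟩
  choose g hg hg' using h1
  obtain ⟨N, hN⟩ := Lle_mul_pow S.HI_all hJC
  obtain ⟨x, hx, hx'⟩ := exists_linear_not_mem (S.prime a) (S.hI a) (S.not_bdd a)
  refine ⟨x ^ N * ∏ b ∈ Finset.univ.erase a, g b, ?_, ?_⟩
  · intro h
    rcases (S.prime a).mem_or_mem h with h | h
    · exact hx' ((S.prime a).mem_of_pow_mem N h)
    · obtain ⟨b, _, hb⟩ := ((S.prime a).prod_mem_iff).1 h
      exact hg' b hb
  · intro u hu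
    rw [mul_assoc]
    apply hN x hx
    rw [Submodule.mem_finsetInf]
    intro b _
    by_cases hb : b = a
    · rw [hb]
      exact (PL a).mul_mem_left _ hu
    · obtain ⟨w, hw⟩ := Finset.dvd_prod_of_mem g (Finset.mem_erase.2 ⟨hb, Finset.mem_univ b⟩)
      rw [hw]
      have : g b * w * u = (w * u) * g b := by ring
      rw [this]
      exact (PL b).mul_mem_left _ (hg b hb)

theorem upper (S : SupFam IL PL) {J Q : Ideal (A4 F)} (hJ : HI J) (hQ : HI Q)
    (hJC : Lle (Finset.univ.inf PL) J)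
    (h : ∀ a, J ≤ IL a → ∃ t, t ∉ IL a ∧ ∀ g ∈ Q, t * g ∈ J) :
    ∃ c : ℤ, ∀ n, hf J n ≤ hf Q n + c := by
  have hA : HI (cln J Q) := HI_cln hJ hQ
  have hJA : J ≤ cln J Q := fun f hf g _ => J.mul_mem_right g hf
  have hb : Bdd (cln J Q) := by
    by_contra hb
    obtain ⟨p, hp1, hp2, hp3, hp4⟩ := exists_prime hA hb
    obtain ⟨a, rfl⟩ := S.of_prime hJC ⟨hp1, hp2, hJA.trans hp3, hp4⟩
    obtain ⟨t, ht, ht'⟩ := h a (hJA.trans hp3)
    exact ht (hp3 ht')
  have hmul : cln J Q * Q ≤ J := by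
    rw [Ideal.mul_le]
    intro r hr s hs
    exact hr s hs
  obtain ⟨c, hc⟩ := mod_bound hJ hQ hA hb hmul
  refine ⟨c, fun n => (hc n).trans ?_⟩
  have := hf_anti (le_sup_right : Q ≤ J ⊔ Q) n
  linarith

theorem upper_fin (S : SupFam IL PL) {J : Ideal (A4 F)} (hJ : HI J)
    (hJC : Lle (Finset.univ.inf PL) J) (s : Finset Ω) (hs : ∀ a, J ≤ IL a → a ∈ s) :
    ∃ c : ℤ, ∀ n, hf J n ≤ ∑ a ∈ s, hf (PL a) n + c := by
  classical
  obtain ⟨c, hc⟩ := S.upper hJ (HI_finset_inf fun a (_ : a ∈ s) => S.hP a) hJC (by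
    intro a ha
    obtain ⟨t, ht, ht'⟩ := S.outside hJC a
    exact ⟨t, ht, fun g hg => ht' g ((Finset.inf_le (hs a ha) : s.inf PL ≤ PL a) hg)⟩)
  refine ⟨c, fun n => (hc n).trans ?_⟩
  have := hf_finset_inf_le (s := s) (I := PL) (fun a _ => S.hP a) n
  linarith

omit [Fintype Ω] in
theorem lower (S : SupFam IL PL) {J : Ideal (A4 F)} (s : Finset Ω) (hs : ∀ a ∈ s, J ≤ IL a) :
    ∃ c : ℤ, ∀ n : ℕ, (s.card : ℤ) * n - c ≤ hf J n := by
  obtain ⟨C, hC⟩ := Lin_finset_inf (s := s) (q := IL) (e := fun _ => 1) (c := fun _ => 1)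
    (fun a _ => S.hI a) (fun a _ => S.lin a) (by
      intro a _ b _ hab p _ hpI hap hbp
      by_contra hb
      exact hab (S.inj a b ((S.eq_of_le hpI hb hap).trans (S.eq_of_le hpI hb hbp).symm)))
  obtain ⟨c, hc⟩ := Lin_bound hC
  refine ⟨c, fun n => ?_⟩
  have h1 := hf_anti (Finset.le_inf hs) n
  have h2 := (abs_le.1 (hc n)).1
  have h3 : ((∑ a ∈ s, 1 : ℕ) : ℤ) = s.card := by simp
  rw [h3] at h2
  linarith

theorem pure (S : SupFam IL PL) {J : Ideal (A4 F)} (hJ : HI J)
    (hJC : Lle (Finset.univ.inf PL) J) {c : ℤ}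
    (h : ∃ n0 : ℕ, ∀ n ≥ n0, hf (Finset.univ.inf PL) n ≤ hf J n + c) :
    J ≤ Finset.univ.inf PL := by
  obtain ⟨n0, hn0⟩ := h
  obtain ⟨n1, hn1⟩ := hJC
  refine le_of_part_le hJ fun a f hf' => ?_
  obtain ⟨hfJ, hfa⟩ := mem_part.1 hf'
  rw [mem_part]
  refine ⟨?_, hfa⟩
  by_contra hcon
  rw [Submodule.mem_finsetInf] at hcon
  push Not at hcon
  obtain ⟨l, _, hl⟩ := hcon
  have h1 : ∀ n, hf (Finset.univ.inf PL) (n + a) =
      hf (Finset.univ.inf PL ⊔ Ideal.span {f}) (n + a) +
        hf (cln (Finset.univ.inf PL) (Ideal.span {f})) n := fun n => hf_colon S.HI_all hfa n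
  have h2 : cln (Finset.univ.inf PL) (Ideal.span {f}) ≤ IL l := by
    intro g hg
    by_contra hgl
    have h3 : g * f ∈ Finset.univ.inf PL := hg f (Ideal.mem_span_singleton_self f)
    have h4 : g * f ∈ PL l := (Finset.inf_le (Finset.mem_univ l) : Finset.univ.inf PL ≤ PL l) h3
    exact hl (S.prim l g f hgl h4)
  have h5 : ∀ n ≥ n1, hf J n ≤ hf (Finset.univ.inf PL ⊔ Ideal.span {f}) n := by
    intro n hn
    apply hf_anti_part
    intro u hu
    obtain ⟨hu1, hu2⟩ := mem_part.1 hu
    obtain ⟨v, hv, w, hw, hvw⟩ := Submodule.mem_sup.1 hu1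
    have hwJ : w ∈ J := by
      obtain ⟨z, rfl⟩ := Ideal.mem_span_singleton'.1 hw
      exact J.mul_mem_left _ hfJ
    rw [mem_part]
    refine ⟨?_, hu2⟩
    have h6 : u = homogeneousComponent n v + homogeneousComponent n w := by
      rw [← map_add, hvw]
      exact (homogeneousComponent_of_mem hu2).symm ▸ by simp
    rw [h6]
    refine J.add_mem ?_ (hJ w hwJ n)
    have h7 : homogeneousComponent n v ∈ part (Finset.univ.inf PL) n :=
      mem_part.2 ⟨S.HI_all v hv n, homogeneousComponent_isHomogeneous n v⟩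
    exact (mem_part.1 (hn1 n hn h7)).1
  obtain ⟨n2, hn2⟩ := S.lin l
  have h8 := hn2 (max (max n0 n1) n2 + c.toNat) (by omega)
  have h9 := hf_anti h2 (max (max n0 n1) n2 + c.toNat)
  have h10 := h1 (max (max n0 n1) n2 + c.toNat)
  have h11 := h5 (max (max n0 n1) n2 + c.toNat + a) (by omega)
  have h12 := hn0 (max (max n0 n1) n2 + c.toNat + a) (by omega)
  have h13 : c ≤ c.toNat := Int.self_le_toNat c
  push_cast at h8
  have h14 : (0 : ℤ) ≤ max (max (n0 : ℤ) n1) n2 := by
    have : (0 : ℤ) ≤ n2 := Int.natCast_nonneg n2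
    exact le_trans this (le_max_right _ _)
  linarith

end SupFam

end Family

variable {F : Type} [Field F] [Infinite F] {ι κ : Type} [Fintype ι] [Fintype κ] [DecidableEq ι]
  [DecidableEq κ] {C : Cfg F ι κ} {Γ : Finset (ι × κ)}

omit [Infinite F] in
theorem sup_li {a b c d : Fin 4 → F} (h : LinearIndependent F ![a, b, c, d]) {s t : F}
    (hm : s • c + t • d ∈ Submodule.span F {a, b}) : s = 0 ∧ t = 0 := by
  obtain ⟨x, y, hxy⟩ := Submodule.mem_span_pair.1 hm
  have h1 := Fintype.linearIndependent_iff.1 h ![-x, -y, s, t] (by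
    rw [Fin.sum_univ_four]
    simp only [Matrix.cons_val_zero, Matrix.cons_val_one, Matrix.cons_val]
    rw [add_assoc, ← hxy]
    simp only [neg_smul]
    abel)
  exact ⟨by simpa using h1 2, by simpa using h1 3⟩

omit [Infinite F] in
theorem sup_li2 {a b c d : Fin 4 → F} (h : LinearIndependent F ![a, b, c, d]) :
    LinearIndependent F ![a, b] := by
  rw [Fintype.linearIndependent_iff]
  intro g hg
  rw [Fin.sum_univ_two] at hg
  have h1 := Fintype.linearIndependent_iff.1 h ![g 0, g 1, 0, 0] (by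
    rw [Fin.sum_univ_four]
    simpa using hg)
  intro i
  fin_cases i
  · simpa using h1 0
  · simpa using h1 1

omit [Infinite F] in
theorem sup_hg {g : Polynomial F} {M : ℕ} (hg' : g.natDegree = M) (hM : 0 < M) {s t : F}
    (hst : s ≠ 0 ∨ t ≠ 0) (h1 : s ^ M = 0) (h2 : MvPolynomial.eval ![s, t] (hg g M) = 0) :
    False := by
  have hs : s = 0 := by
    by_contra h
    exact pow_ne_zero M h h1
  subst hs
  have ht : t ≠ 0 := hst.resolve_left (fun h => h rfl)
  unfold hg at h2
  rw [map_sum, Finset.sum_range_succ, Finset.sum_eq_zero, zero_add] at h2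
  · simp only [map_mul, map_pow, eval_C, eval_X, Nat.sub_self, pow_zero, mul_one,
      Matrix.cons_val_one, Matrix.cons_val_fin_one] at h2
    rcases mul_eq_zero.1 h2 with h3 | h3
    · rw [← hg', Polynomial.coeff_natDegree, Polynomial.leadingCoeff_eq_zero] at h3
      rw [h3, Polynomial.natDegree_zero] at hg'
      omega
    · exact pow_ne_zero M ht h3
  · intro i hi
    have : M - i ≠ 0 := by
      have := Finset.mem_range.1 hi
      omega
    simp [this]

theorem sup_line_le {P Q P' Q' : Fin 4 → F} (h : lineI P Q ≤ lineI P' Q') :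
    P' ∈ Submodule.span F {P, Q} ∧ Q' ∈ Submodule.span F {P, Q} := by
  rw [lineI_eq_vI, lineI_eq_vI, vI_le_iff] at h
  exact ⟨h (Submodule.subset_span (by simp)), h (Submodule.subset_span (by simp))⟩

omit [Fintype ι] [Fintype κ] in
theorem sup_fam (hC : C.Good Γ) :
    SupFam (Sum.elim C.tI C.lI) (Sum.elim C.tI C.dI) where
  prime := by
    rintro (i | j)
    · exact lineI_isPrime _ _
    · exact lineI_isPrime _ _
  hI := by
    rintro (i | j)
    · exact HI_lineI _ _
    · exact HI_lineI _ _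
  lin := by
    rintro (i | j)
    · exact Lin_lineI (hC.tind i)
    · exact Lin_lineI (sup_li2 (hC.lind j))
  le := by
    rintro (i | j)
    · exact le_refl _
    · exact dblI_le
  sq := by
    rintro (i | j)
    · exact Ideal.pow_le_self two_ne_zero
    · exact sq_le_dblI
  prim := by
    rintro (i | j) f y hf hy
    · exact ((lineI_isPrime _ _).mem_or_mem hy).resolve_left hf
    · exact dblI_primary hf hy
  hP := by
    rintro (i | j)
    · exact HI_lineI _ _
    · exact HI_dblI
  inj := by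
    have key : ∀ i j, C.lI j ≤ C.tI i → False := by
      intro i j hle
      obtain ⟨h1, h2⟩ := sup_line_le hle
      by_cases hij : (i, j) ∈ Γ
      · obtain ⟨s, t, hst, _, hn⟩ := hC.node i j hij
        have h3 : Submodule.span F {C.P j, C.Q j, C.TP i, C.TQ i} ≤
            Submodule.span F {C.P j, C.Q j} := by
          rw [Submodule.span_le]
          rintro v hv
          simp only [Set.mem_insert_iff, Set.mem_singleton_iff] at hv
          rcases hv with rfl | rfl | rfl | rfl
          · exact Submodule.subset_span (by simp)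
          · exact Submodule.subset_span (by simp)
          · exact h1
          · exact h2
        obtain ⟨h4, h5⟩ := sup_li (hC.lind j) (h3 hn)
        exact sup_hg (hC.deg j) (hC.pos j) hst h4 h5
      · have h3 := hC.non i j hij
        -- `TP, TQ` are in the span of `P, Q`: four independent vectors in a plane
        have h4 : Submodule.span F (Set.range ![C.TP i, C.TQ i, C.P j, C.Q j]) ≤
            Submodule.span F {C.P j, C.Q j} := by
          rw [Submodule.span_le]
          rintro v ⟨l, rfl⟩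
          fin_cases l
          · exact h1
          · exact h2
          · exact Submodule.subset_span (by simp)
          · exact Submodule.subset_span (by simp)
        have h5 := finrank_span_eq_card h3
        have h6 := Submodule.finrank_mono h4
        have h7 : finrank F (Submodule.span F {C.P j, C.Q j}) ≤ 2 := by
          have h8 := finrank_range_le_card (R := F) ![C.P j, C.Q j]
          rw [Fintype.card_fin, Matrix.range_cons, Matrix.range_cons, Matrix.range_empty,
            Set.union_empty] at h8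
          exact h8
        rw [Fintype.card_fin] at h5
        omega
    have h1 : ∀ i i', C.tI i = C.tI i' → i = i' := by
      intro i i' h
      by_contra hne
      have h2 := (sup_line_le (le_of_eq h)).1
      have h3 := sup_li (hC.tdis i i' hne) (s := 1) (t := 0) (by simpa using h2)
      exact one_ne_zero h3.1
    have h2 : ∀ j j', C.lI j = C.lI j' → j = j' := by
      intro j j' h
      by_contra hne
      have h2 := (sup_line_le (le_of_eq h)).1
      have h3 := sup_li (hC.ldis j j' hne) (s := 1) (t := 0) (by simpa using h2)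
      exact one_ne_zero h3.1
    rintro (i | j) (i' | j') h
    · rw [h1 i i' h]
    · exact absurd (le_of_eq h.symm) (key i j')
    · exact absurd (le_of_eq h) (key i' j)
    · rw [h2 j j' h]

omit [Infinite F] [DecidableEq ι] [DecidableEq κ] in
theorem sup_ideal : C.ideal = Finset.univ.inf (Sum.elim C.tI C.dI) := by
  rw [Finset.inf_univ_eq_iInf, iInf_sum]
  rfl

theorem sup_prime (hC : C.Good Γ) {J p : Ideal (A4 F)} (hJC : Lle C.ideal J) (hp : UP J p) :
    (∃ i, p = C.tI i) ∨ (∃ j, p = C.lI j) := by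
  rw [sup_ideal] at hJC
  obtain ⟨a | a, ha⟩ := (sup_fam hC).of_prime hJC hp
  · exact Or.inl ⟨a, ha⟩
  · exact Or.inr ⟨a, ha⟩

theorem sup_upper (hC : C.Good Γ) {J : Ideal (A4 F)} (hJ : HI J) (hJC : Lle C.ideal J)
    (sT : Finset ι) (sL : Finset κ) (hT : ∀ i, J ≤ C.tI i → i ∈ sT) (hL : ∀ j, J ≤ C.lI j → j ∈ sL) :
    ∃ c : ℤ, ∀ n : ℕ, hf J n ≤ ((sT.card : ℤ) + 2 * sL.card) * n + c := by
  rw [sup_ideal] at hJC
  obtain ⟨c, hc⟩ := (sup_fam hC).upper_fin hJ hJC (sT.disjSum sL) (by
    rintro (i | j) h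
    · exact Finset.inl_mem_disjSum.2 (hT i h)
    · exact Finset.inr_mem_disjSum.2 (hL j h))
  have h1 : ∀ i, ∀ n : ℕ, hf (C.tI i) n = n + 1 := fun i n => hf_lineI (hC.tind i) n
  have h2 : ∀ j, ∃ b : ℤ, ∀ n : ℕ, hf (C.dI j) n ≤ 2 * n + b := by
    intro j
    have h3 : Lin (C.dI j) 2 (1 + C.M j) := ⟨C.M j, fun n hn => by
      have := hf_dblI (hC.lind j) (hC.deg j) (hC.pos j) hn
      unfold Cfg.dI
      rw [this]
      push_cast
      ring⟩
    obtain ⟨b, hb⟩ := Lin_bound h3
    refine ⟨b, fun n => ?_⟩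
    have := (abs_le.1 (hb n)).2
    push_cast at this
    linarith
  choose b hb using h2
  refine ⟨∑ i ∈ sT, 1 + ∑ j ∈ sL, b j + c, fun n => (hc n).trans ?_⟩
  rw [Finset.sum_disjSum]
  simp only [Sum.elim_inl, Sum.elim_inr]
  have h4 : ∑ i ∈ sT, hf (C.tI i) n = sT.card * n + ∑ i ∈ sT, 1 := by
    rw [Finset.sum_congr rfl fun i _ => h1 i n, Finset.sum_add_distrib]
    simp
  have h5 : ∑ j ∈ sL, hf (C.dI j) n ≤ 2 * sL.card * n + ∑ j ∈ sL, b j := by
    refine (Finset.sum_le_sum fun j _ => hb j n).trans (le_of_eq ?_)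
    rw [Finset.sum_add_distrib, Finset.sum_const, nsmul_eq_mul]
    ring
  rw [h4]
  linarith

theorem sup_lower (hC : C.Good Γ) {J : Ideal (A4 F)}
    (sT : Finset ι) (sL : Finset κ) (hT : ∀ i ∈ sT, J ≤ C.tI i) (hL : ∀ j ∈ sL, J ≤ C.lI j) :
    ∃ c : ℤ, ∀ n : ℕ, ((sT.card : ℤ) + sL.card) * n - c ≤ hf J n := by
  obtain ⟨c, hc⟩ := (sup_fam hC).lower (J := J) (sT.disjSum sL) (by
    rintro (i | j) h
    · exact hT i (Finset.inl_mem_disjSum.1 h)
    · exact hL j (Finset.inr_mem_disjSum.1 h))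
  refine ⟨c, fun n => ?_⟩
  have := hc n
  rw [Finset.card_disjSum] at this
  push_cast at this
  exact this

theorem sup_rank (hC : C.Good Γ) {J : Ideal (A4 F)} (hJ : HI J) (hJC : Lle C.ideal J)
    (j : κ) (hT : ∀ i, ¬ J ≤ C.tI i) (hL : ∀ j', J ≤ C.lI j' → j' = j) (hd : ¬ J ≤ C.dI j) :
    ∃ c : ℤ, ∀ n : ℕ, hf J n ≤ n + c := by
  rw [sup_ideal] at hJC
  obtain ⟨c, hc⟩ := (sup_fam hC).upper (Q := C.lI j) hJ (HI_lineI _ _) hJC (by
    rintro (i | j') h
    · exact absurd h (hT i)
    · have hj := hL j' h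
      subst hj
      obtain ⟨a, haJ, had⟩ := SetLike.not_le_iff_exists.1 hd
      obtain ⟨t, ht, ht'⟩ := dblI_rank_one (hC.lind j') (h haJ) had
      obtain ⟨t', ht1, ht2⟩ := (sup_fam hC).outside hJC (Sum.inr j')
      refine ⟨t' * t, fun hm => ?_, fun y hy => ?_⟩
      · rcases ((sup_fam hC).prime (Sum.inr j')).mem_or_mem hm with h1 | h1
        · exact ht1 h1
        · exact ht h1
      · obtain ⟨u, hu, v, hv, huv⟩ := Submodule.mem_sup.1 (ht' y hy)
        rw [mul_assoc, ← huv, mul_add]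
        refine J.add_mem ?_ (ht2 v hv)
        obtain ⟨z, rfl⟩ := Ideal.mem_span_singleton'.1 hu
        exact J.mul_mem_left _ (J.mul_mem_left _ haJ))
  refine ⟨1 + c, fun n => (hc n).trans ?_⟩
  have : hf (C.lI j) n = n + 1 := hf_lineI (sup_li2 (hC.lind j)) n
  rw [this]
  linarith

theorem sup_pure (hC : C.Good Γ) {J : Ideal (A4 F)} (hJ : HI J) (hJC : Lle C.ideal J) {c : ℤ}
    (h : ∃ n0 : ℕ, ∀ n ≥ n0, hf C.ideal n ≤ hf J n + c) : J ≤ C.ideal := by
  rw [sup_ideal] at hJC h ⊢
  exact (sup_fam hC).pure hJ hJC h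

end Pool.H33.G

end S_SUP

section S_NB

/-! # NB: double structures in the limit have bounded defect

`J ⊇ (lI j)^2` and `J ⊇ C.ideal` in large degrees.  Let `y0,y1,u,w` be dual to `P,Q,U,V` (index `j`),
`γ = G(y0,y1) u - y0^M w ∈ dI j` (`G = hg (g j) (M j)`).  Modulo `(lI j)^2`, `part (dI j) n` is
`γ * F[y0,y1]_{n-1-M}`.  For `k ∈ K := (⨅ tI) ⊓ (⨅_{j' ≠ j} dI j')` one has `γ k ∈ C.ideal`.  The
restriction of `K` to the line `L j` contains the product of the restrictions of `tI i` and `(lI j')^2`: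
`(s,t)` if the lines are disjoint, `(l_i)` (`l_i` a nonzero linear form) if `(i,j) ∈ Γ`; so it contains in large
degree all multiples of a form of degree `ν_j = #{i | (i,j) ∈ Γ}`.  Hence
`dim (part (dI j) n) - dim (part ((lI j)^2 ⊔ J) n) ≤ ν_j` for large `n`, i.e.
`hf J n ≤ hf (dI j) n + ν_j = 2 n + 1 + M j + ν_j`. -/

open MvPolynomial Module

namespace Pool.H33.G

section Coord

variable {F : Type} [Field F] {P Q U V : Fin 4 → F}

/-- the linear form with given values -/
noncomputable def NB_F (l : (Fin 4 → F) →ₗ[F] F) : A4 F :=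
  ∑ a, C (l (fun j => if a = j then 1 else 0)) * X a

theorem NB_F_hom (l : (Fin 4 → F) →ₗ[F] F) : (NB_F l).IsHomogeneous 1 :=
  IsHomogeneous.sum _ _ _ fun _ _ => isHomogeneous_C_mul_X _ _

theorem NB_F_val (l : (Fin 4 → F) →ₗ[F] F) (v : Fin 4 → F) :
    ∑ a, l (fun j => if a = j then 1 else 0) * v a = l v := by
  rw [LinearMap.pi_apply_eq_sum_univ l v]
  refine Finset.sum_congr rfl fun a _ => ?_
  rw [smul_eq_mul, mul_comm]

theorem NB_F_res (l : (Fin 4 → F) →ₗ[F] F) :
    res P Q (NB_F l) = C (l P) * X 0 + C (l Q) * X 1 := by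
  unfold NB_F res
  rw [map_sum, ← NB_F_val l P, ← NB_F_val l Q, map_sum, map_sum, Finset.sum_mul, Finset.sum_mul,
    ← Finset.sum_add_distrib]
  refine Finset.sum_congr rfl fun a _ => ?_
  rw [map_mul, aeval_X, map_mul, map_mul, algHom_C]
  rw [algebraMap_eq]
  ring

theorem NB_F_dres (g : Polynomial F) (M : ℕ) (l : (Fin 4 → F) →ₗ[F] F) :
    dres P Q U V g M (NB_F l) = X 0 ^ M * C (l U) + hg g M * C (l V) := by
  have h : ∀ a, pderiv a (NB_F l) = C (l (fun j => if a = j then 1 else 0)) := by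
    intro a
    unfold NB_F
    rw [map_sum, Finset.sum_eq_single a]
    · rw [pderiv_C_mul, pderiv_X_self, mul_one]
    · intro b _ hb
      rw [pderiv_C_mul, pderiv_X_of_ne hb, mul_zero]
    · intro h
      exact absurd (Finset.mem_univ a) h
  unfold dres
  rw [← NB_F_val l U, ← NB_F_val l V, map_sum, map_sum, Finset.mul_sum, Finset.mul_sum,
    ← Finset.sum_add_distrib]
  refine Finset.sum_congr rfl fun a _ => ?_
  rw [h, algHom_C, algebraMap_eq, map_mul, map_mul]
  ring

theorem NB_X (b : Basis (Fin 4) F (Fin 4 → F)) (a : Fin 4) :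
    (X a : A4 F) = ∑ i, C (b i a) * NB_F (b.coord i) := by
  unfold NB_F
  simp only [Finset.mul_sum]
  rw [Finset.sum_comm]
  have h : ∀ c : Fin 4, ∑ i, C (b i a) * (C (b.coord i (fun j => if c = j then 1 else 0)) * X c) =
      (if c = a then X c else 0 : A4 F) := by
    intro c
    have h1 : ∑ i, b i a * b.coord i (fun j => if c = j then 1 else 0) = if c = a then 1 else 0 := by
      have h2 := congrFun (b.sum_repr (fun j => if c = j then (1 : F) else 0)) a
      rw [Finset.sum_apply] at h2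
      rw [← h2]
      refine Finset.sum_congr rfl fun i _ => ?_
      rw [Pi.smul_apply, smul_eq_mul, mul_comm]
      rfl
    have h3 : ∑ i, C (b i a) * (C (b.coord i (fun j => if c = j then 1 else 0)) * X c) =
        C (∑ i, b i a * b.coord i (fun j => if c = j then 1 else 0)) * (X c : A4 F) := by
      rw [map_sum, Finset.sum_mul]
      refine Finset.sum_congr rfl fun i _ => ?_
      rw [map_mul, mul_assoc]
    rw [h3, h1]
    split_ifs
    · rw [C_1, one_mul]
    · rw [C_0, zero_mul]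
  simp only [h]
  rw [Finset.sum_ite_eq']
  simp

theorem NB_dres_mul (g : Polynomial F) (M : ℕ) (f h : A4 F) : dres P Q U V g M (f * h) =
    res P Q f * dres P Q U V g M h + res P Q h * dres P Q U V g M f := by
  unfold dres
  rw [Finset.mul_sum, Finset.mul_sum, ← Finset.sum_add_distrib]
  refine Finset.sum_congr rfl fun a _ => ?_
  rw [pderiv_mul, map_add, map_mul, map_mul]
  ring

theorem NB_dres_add (g : Polynomial F) (M : ℕ) (f h : A4 F) : dres P Q U V g M (f + h) =
    dres P Q U V g M f + dres P Q U V g M h := by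
  unfold dres
  rw [← Finset.sum_add_distrib]
  refine Finset.sum_congr rfl fun a _ => ?_
  rw [map_add, map_add, add_mul]

theorem NB_dres_sub (g : Polynomial F) (M : ℕ) (f h : A4 F) : dres P Q U V g M (f - h) =
    dres P Q U V g M f - dres P Q U V g M h := by
  have := NB_dres_add (P := P) (Q := Q) (U := U) (V := V) g M (f - h) h
  rw [sub_add_cancel] at this
  rw [this, add_sub_cancel_right]

theorem NB_hg_hom (g : Polynomial F) (M : ℕ) : (hg g M).IsHomogeneous M := by
  unfold hg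
  refine IsHomogeneous.sum _ _ _ fun i hi => ?_
  rw [Finset.mem_range] at hi
  have h := ((isHomogeneous_C (Fin 2) (g.coeff i)).mul
    ((isHomogeneous_X_pow (R := F) (0 : Fin 2) (M - i)))).mul
    (isHomogeneous_X_pow (R := F) (1 : Fin 2) i)
  have e : 0 + (M - i) + i = M := by omega
  rw [e] at h
  exact h

theorem NB_hg_ne (g : Polynomial F) (M : ℕ) (hg' : g.natDegree = M) (hM : 0 < M) :
    hg g M ≠ 0 := by
  intro h0
  have hlc : g.coeff M ≠ 0 := by
    rw [← hg', Polynomial.coeff_natDegree]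
    intro h0
    rw [Polynomial.leadingCoeff_eq_zero] at h0
    rw [h0, Polynomial.natDegree_zero] at hg'
    omega
  apply hlc
  have h3 := congrArg (eval ![(0 : F), 1]) h0
  unfold hg at h3
  rw [map_sum, Finset.sum_eq_single M] at h3
  · simpa using h3
  · intro i hi' hne
    rw [Finset.mem_range] at hi'
    have h5 : M - i ≠ 0 := by omega
    simp only [map_mul, map_pow, eval_C, eval_X]
    have h4 : (![0, 1] : Fin 2 → F) 0 = 0 := rfl
    rw [h4, zero_pow h5, mul_zero, zero_mul]
  · intro h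
    exact absurd (Finset.mem_range.mpr (Nat.lt_succ_self M)) h

/-- dual coordinates and the section of the restriction -/
theorem NB_coords (hi : LinearIndependent F ![P, Q, U, V]) :
    ∃ (s : MvPolynomial (Fin 2) F →ₐ[F] A4 F) (u w : A4 F),
      (∀ p, res P Q (s p) = p) ∧ (∀ g M p, dres P Q U V g M (s p) = 0) ∧
      (∀ n p, p.IsHomogeneous n → (s p).IsHomogeneous n) ∧
      u.IsHomogeneous 1 ∧ w.IsHomogeneous 1 ∧ u ∈ lineI P Q ∧ w ∈ lineI P Q ∧
      (∀ g M, dres P Q U V g M u = X 0 ^ M) ∧ (∀ g M, dres P Q U V g M w = hg g M) ∧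
      (∀ f, f - s (res P Q f) ∈ Ideal.span {u, w}) := by
  let b : Basis (Fin 4) F (Fin 4 → F) := basisOfLinearIndependentOfCardEqFinrank hi (by simp)
  have hb : ∀ i, b i = ![P, Q, U, V] i := by
    intro i
    simp [b]
  have hc : ∀ i j, b.coord i (![P, Q, U, V] j) = if j = i then 1 else 0 := by
    intro i j
    rw [← hb, Basis.coord_apply, Basis.repr_self, Finsupp.single_apply]
  have hP : ∀ i, b.coord i P = if (0 : Fin 4) = i then 1 else 0 := fun i => hc i 0
  have hQ : ∀ i, b.coord i Q = if (1 : Fin 4) = i then 1 else 0 := fun i => hc i 1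
  have hU : ∀ i, b.coord i U = if (2 : Fin 4) = i then 1 else 0 := fun i => hc i 2
  have hV : ∀ i, b.coord i V = if (3 : Fin 4) = i then 1 else 0 := fun i => hc i 3
  have r0 : res P Q (NB_F (b.coord 0)) = X 0 := by
    rw [NB_F_res, hP, hQ]
    simp
  have r1 : res P Q (NB_F (b.coord 1)) = X 1 := by
    rw [NB_F_res, hP, hQ]
    simp
  have d0 : ∀ g M, dres P Q U V g M (NB_F (b.coord 0)) = 0 := by
    intro g M
    rw [NB_F_dres, hU, hV]
    simp
  have d1 : ∀ g M, dres P Q U V g M (NB_F (b.coord 1)) = 0 := by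
    intro g M
    rw [NB_F_dres, hU, hV]
    simp
  let s : MvPolynomial (Fin 2) F →ₐ[F] A4 F := aeval ![NB_F (b.coord 0), NB_F (b.coord 1)]
  have hs0 : s (X 0) = NB_F (b.coord 0) := by simp [s]
  have hs1 : s (X 1) = NB_F (b.coord 1) := by simp [s]
  have hsX : ∀ i, res P Q (s (X i)) = X i ∧ ∀ g M, dres P Q U V g M (s (X i)) = 0 := by
    intro i
    fin_cases i
    · exact ⟨by simpa [hs0] using r0, by simpa [hs0] using d0⟩
    · exact ⟨by simpa [hs1] using r1, by simpa [hs1] using d1⟩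
  have hsr : ∀ p, res P Q (s p) = p := by
    intro p
    have : (res P Q).comp s = AlgHom.id F _ := by
      apply MvPolynomial.algHom_ext
      intro i
      exact (hsX i).1
    exact congrArg (fun t : MvPolynomial (Fin 2) F →ₐ[F] MvPolynomial (Fin 2) F => t p) this
  refine ⟨s, NB_F (b.coord 2), NB_F (b.coord 3), hsr, ?_, ?_, NB_F_hom _, NB_F_hom _, ?_, ?_, ?_,
    ?_, ?_⟩
  · intro g M p
    induction p using MvPolynomial.induction_on with
    | C _ =>
      rw [algHom_C]
      unfold dres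
      refine Finset.sum_eq_zero fun c _ => ?_
      rw [algebraMap_eq, pderiv_C, map_zero, zero_mul]
    | add p q hp hq => rw [map_add, NB_dres_add, hp, hq, add_zero]
    | mul_X p i hp => rw [map_mul, NB_dres_mul, hp, (hsX i).2, mul_zero, mul_zero, add_zero]
  · intro n p hp
    have := hp.aeval (S := F) (τ := Fin 4) ![NB_F (b.coord 0), NB_F (b.coord 1)] (n := 1) (by
      intro i
      fin_cases i
      · exact NB_F_hom _
      · exact NB_F_hom _)
    rw [one_mul] at this
    exact this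
  · change res P Q _ = 0
    rw [NB_F_res, hP, hQ]
    simp
  · change res P Q _ = 0
    rw [NB_F_res, hP, hQ]
    simp
  · intro g M
    rw [NB_F_dres, hU, hV]
    simp
  · intro g M
    rw [NB_F_dres, hU, hV]
    simp
  · set I : Ideal (A4 F) := Ideal.span {NB_F (b.coord 2), NB_F (b.coord 3)} with hI
    have hu : NB_F (b.coord 2) ∈ I := Ideal.subset_span (by simp)
    have hw : NB_F (b.coord 3) ∈ I := Ideal.subset_span (by simp)
    have key : (Ideal.Quotient.mkₐ F I).comp (s.comp (res P Q)) = Ideal.Quotient.mkₐ F I := by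
      apply MvPolynomial.algHom_ext
      intro a
      change Ideal.Quotient.mk I (s (res P Q (X a))) = Ideal.Quotient.mk I (X a)
      rw [eq_comm, ← sub_eq_zero, ← map_sub, Ideal.Quotient.eq_zero_iff_mem]
      have h1 : s (res P Q (X a)) = C (P a) * NB_F (b.coord 0) + C (Q a) * NB_F (b.coord 1) := by
        unfold res
        rw [aeval_X, map_add, map_mul, map_mul, hs0, hs1, algHom_C, algHom_C]
        rfl
      have h2 : (X a : A4 F) = C (P a) * NB_F (b.coord 0) + C (Q a) * NB_F (b.coord 1) +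
          C (U a) * NB_F (b.coord 2) + C (V a) * NB_F (b.coord 3) := by
        conv_lhs => rw [NB_X b a]
        rw [Fin.sum_univ_four]
        simp only [hb]
        rfl
      have h3 : (X a : A4 F) - s (res P Q (X a)) =
          C (U a) * NB_F (b.coord 2) + C (V a) * NB_F (b.coord 3) := by
        rw [h1]
        conv_lhs => rw [h2]
        ring
      rw [h3]
      exact I.add_mem (I.mul_mem_left _ hu) (I.mul_mem_left _ hw)
    intro f
    rw [← Ideal.Quotient.eq_zero_iff_mem, map_sub, sub_eq_zero]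
    exact (congrArg (fun t : A4 F →ₐ[F] (A4 F ⧸ I) => t f) key).symm

theorem NB_vars {P₁ P₂ P₃ P₄ : Fin 4 → F} (hi : LinearIndependent F ![P₁, P₂, P₃, P₄]) (a : Fin 4) :
    (X a : A4 F) ∈ lineI P₁ P₂ ⊔ lineI P₃ P₄ := by
  let b : Basis (Fin 4) F (Fin 4 → F) := basisOfLinearIndependentOfCardEqFinrank hi (by simp)
  have hb : ∀ i, b i = ![P₁, P₂, P₃, P₄] i := by
    intro i
    simp [b]
  have hc : ∀ i j, b.coord i (![P₁, P₂, P₃, P₄] j) = if j = i then 1 else 0 := by
    intro i j
    rw [← hb, Basis.coord_apply, Basis.repr_self, Finsupp.single_apply]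
  have h1 : ∀ i, b.coord i P₁ = if (0 : Fin 4) = i then 1 else 0 := fun i => hc i 0
  have h2 : ∀ i, b.coord i P₂ = if (1 : Fin 4) = i then 1 else 0 := fun i => hc i 1
  have h3 : ∀ i, b.coord i P₃ = if (2 : Fin 4) = i then 1 else 0 := fun i => hc i 2
  have h4 : ∀ i, b.coord i P₄ = if (3 : Fin 4) = i then 1 else 0 := fun i => hc i 3
  rw [NB_X b a]
  refine Ideal.sum_mem _ fun i _ => Ideal.mul_mem_left _ _ ?_
  have hx : NB_F (b.coord i) ∈ lineI P₁ P₂ ∨ NB_F (b.coord i) ∈ lineI P₃ P₄ := by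
    change res P₁ P₂ _ = 0 ∨ res P₃ P₄ _ = 0
    rw [NB_F_res, NB_F_res, h1, h2, h3, h4]
    fin_cases i <;> simp
  rcases hx with hx | hx
  · exact (le_sup_left : lineI P₁ P₂ ≤ lineI P₁ P₂ ⊔ lineI P₃ P₄) hx
  · exact (le_sup_right : lineI P₃ P₄ ≤ lineI P₁ P₂ ⊔ lineI P₃ P₄) hx

theorem NB_ind2 (hi : LinearIndependent F ![P, Q, U, V]) : LinearIndependent F ![P, Q] := by
  have h := hi.comp (![0, 1] : Fin 2 → Fin 4) (by decide)
  have e : (![P, Q, U, V] ∘ (![0, 1] : Fin 2 → Fin 4)) = ![P, Q] := by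
    funext i
    fin_cases i <;> rfl
  rwa [e] at h

theorem NB_hf_sq (hi : LinearIndependent F ![P, Q, U, V]) (n : ℕ) :
    hf ((lineI P Q) ^ 2) (n + 1) ≤ 3 * ((n : ℤ) + 1) + 1 := by
  obtain ⟨s, u, w, hs, -, hsn, hu, hw, hul, hwl, -, -, hsp⟩ := NB_coords hi
  have hHI : HI (lineI P Q) := HI_lineI P Q
  have hHI2 : HI ((lineI P Q) ^ 2) := HI_pow hHI 2
  have hu1 : u ∈ Fm F 1 := (mem_homogeneousSubmodule _ _).2 hu
  have hw1 : w ∈ Fm F 1 := (mem_homogeneousSubmodule _ _).2 hw
  have h1 := hf_colon hHI2 hu1 n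
  have h2 := hf_colon (HI_sup hHI2 (BD_HI_single hu1)) hw1 n
  have h3 : hf (cln ((lineI P Q) ^ 2) (Ideal.span {u})) n ≤ n + 1 := by
    rw [← hf_lineI (NB_ind2 hi) n]
    refine hf_anti (fun f hf' => ?_) n
    rw [BD_mem_cln_single, pow_two]
    exact Ideal.mul_mem_mul hf' hul
  have h4 : hf (cln ((lineI P Q) ^ 2 ⊔ Ideal.span {u}) (Ideal.span {w})) n ≤ n + 1 := by
    rw [← hf_lineI (NB_ind2 hi) n]
    refine hf_anti (fun f hf' => ?_) n
    rw [BD_mem_cln_single, pow_two]
    exact (le_sup_left : lineI P Q * lineI P Q ≤ _) (Ideal.mul_mem_mul hf' hwl)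
  have h5 : hf ((lineI P Q) ^ 2 ⊔ Ideal.span {u} ⊔ Ideal.span {w}) (n + 1) ≤ (n + 1 : ℕ) + 1 := by
    rw [← hf_lineI (NB_ind2 hi) (n + 1)]
    refine hf_anti (fun f hf' => ?_) (n + 1)
    have hf0 : res P Q f = 0 := hf'
    have := hsp f
    rw [hf0, map_zero, sub_zero] at this
    have hle : Ideal.span {u, w} ≤ (lineI P Q) ^ 2 ⊔ Ideal.span {u} ⊔ Ideal.span {w} := by
      rw [Ideal.span_insert, sup_assoc]
      exact le_sup_right
    exact hle this
  push_cast at h5
  linarith

theorem NB_gamma (hi : LinearIndependent F ![P, Q, U, V]) {g : Polynomial F} {M : ℕ}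
    (hg' : g.natDegree = M) (hM : 0 < M) :
    ∃ γ ∈ Fm F (M + 1), γ ∈ dblI P Q U V g M ∧ γ ∈ lineI P Q ∧
      ∀ f, f * γ ∈ (lineI P Q) ^ 2 → f ∈ lineI P Q := by
  obtain ⟨s, u, w, hs, hsd, hsn, hu, hw, hul, hwl, hdu, hdw, hsp⟩ := NB_coords hi
  refine ⟨s (hg g M) * u - s (X 0 ^ M) * w, ?_, ⟨?_, ?_⟩, ?_, ?_⟩
  · rw [mem_homogeneousSubmodule]
    exact ((hsn _ _ (NB_hg_hom g M)).mul hu).sub
      ((hsn _ _ (isHomogeneous_X_pow (R := F) (0 : Fin 2) M)).mul hw)
  · rw [map_sub, map_mul, map_mul]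
    have h1 : res P Q u = 0 := hul
    have h2 : res P Q w = 0 := hwl
    rw [h1, h2]
    ring
  · rw [NB_dres_sub, dres_mul hul, dres_mul hwl, hs, hs, hdu, hdw]
    ring
  · exact Ideal.sub_mem _ (Ideal.mul_mem_left _ _ hul) (Ideal.mul_mem_left _ _ hwl)
  · intro f hf'
    have h1 := (sq_le_dblI (U := U) (V := V) (g := 0) (M := 0) hf').2
    have h2 : s (hg g M) * u - s (X 0 ^ M) * w ∈ lineI P Q :=
      Ideal.sub_mem _ (Ideal.mul_mem_left _ _ hul) (Ideal.mul_mem_left _ _ hwl)
    rw [dres_mul h2, NB_dres_sub, dres_mul hul, dres_mul hwl, hs, hs, hdu, hdw] at h1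
    have h3 : (hg 0 0 : MvPolynomial (Fin 2) F) = 0 := by
      unfold hg
      simp
    rw [h3, mul_zero, sub_zero, pow_zero, mul_one] at h1
    exact (mul_eq_zero.mp h1).resolve_right (NB_hg_ne g M hg' hM)

theorem NB_hf_gamma (hi : LinearIndependent F ![P, Q, U, V]) {M : ℕ} {γ : A4 F}
    (h1 : γ ∈ Fm F (M + 1)) (h2 : ∀ f, f * γ ∈ (lineI P Q) ^ 2 → f ∈ lineI P Q) (n : ℕ) :
    hf ((lineI P Q) ^ 2 ⊔ Ideal.span {γ}) (n + (M + 1)) ≤ 2 * ((n : ℤ) + M + 1) + 1 + M := by
  have h3 := hf_colon (HI_pow (HI_lineI P Q) 2) h1 n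
  have h4 := NB_hf_sq hi (n + M)
  have h5 : hf (lineI P Q) n ≤ hf (cln ((lineI P Q) ^ 2) (Ideal.span {γ})) n := by
    refine hf_anti (fun f hf' => ?_) n
    rw [BD_mem_cln_single] at hf'
    exact h2 f hf'
  rw [hf_lineI (NB_ind2 hi)] at h5
  have e : n + M + 1 = n + (M + 1) := by ring
  rw [e] at h4
  push_cast at h4
  linarith

/-- a linear form vanishing on the first line but not on the second -/
theorem NB_lin {TP TQ : Fin 4 → F} (hi : LinearIndependent F ![P, Q, U, V])
    (hT : LinearIndependent F ![TP, TQ]) {g : Polynomial F} {M : ℕ} (hg' : g.natDegree = M)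
    (hM : 0 < M) {s t : F} (hst : s ≠ 0 ∨ t ≠ 0)
    (hD : s ^ M • U + (MvPolynomial.eval ![s, t] (hg g M)) • V ∈
      Submodule.span F {P, Q, TP, TQ}) :
    ∃ φ ∈ Fm F 1, φ ∈ lineI TP TQ ∧ φ ∉ lineI P Q := by
  have hr : ∀ A B : Fin 4 → F, LinearIndependent F ![A, B] →
      finrank F (Submodule.span F {A, B}) = 2 := by
    intro A B hAB
    have h := finrank_span_eq_card hAB
    rw [Fintype.card_fin] at h
    have e : Set.range ![A, B] = {A, B} := by
      ext x
      simp only [Set.mem_range, Fin.exists_fin_two, Set.mem_insert_iff, Set.mem_singleton_iff]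
      exact ⟨fun h => h.imp Eq.symm Eq.symm, fun h => h.imp Eq.symm Eq.symm⟩
    rwa [e] at h
  have hnle : ¬ Submodule.span F {P, Q} ≤ Submodule.span F {TP, TQ} := by
    intro hle
    have heq := Submodule.eq_of_le_of_finrank_eq hle
      ((hr P Q (NB_ind2 hi)).trans (hr TP TQ hT).symm)
    have hD' : s ^ M • U + (MvPolynomial.eval ![s, t] (hg g M)) • V ∈
        Submodule.span F {P, Q} := by
      refine (Submodule.span_le.2 ?_ : Submodule.span F {P, Q, TP, TQ} ≤ _) hD
      intro x hx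
      simp only [Set.mem_insert_iff, Set.mem_singleton_iff] at hx
      rcases hx with rfl | rfl | rfl | rfl
      · exact Submodule.subset_span (by simp)
      · exact Submodule.subset_span (by simp)
      · rw [heq]
        exact Submodule.subset_span (by simp)
      · rw [heq]
        exact Submodule.subset_span (by simp)
    obtain ⟨α, β, hαβ⟩ := Submodule.mem_span_pair.1 hD'
    have hlin := Fintype.linearIndependent_iff.mp hi
      ![α, β, -s ^ M, -(MvPolynomial.eval ![s, t] (hg g M))] (by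
        rw [Fin.sum_univ_four]
        simp only [Matrix.cons_val_zero, Matrix.cons_val_one, Matrix.cons_val]
        rw [hαβ]
        module)
    have h2 : s ^ M = 0 := by
      have := hlin 2
      simpa using this
    have h3 : eval ![s, t] (hg g M) = 0 := by
      have := hlin 3
      simpa using this
    have hs : s = 0 := by
      by_contra hs
      exact pow_ne_zero M hs h2
    have ht : t ≠ 0 := hst.resolve_left (fun h => h hs)
    have hlc : g.coeff M ≠ 0 := by
      rw [← hg', Polynomial.coeff_natDegree]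
      intro h0
      rw [Polynomial.leadingCoeff_eq_zero] at h0
      rw [h0, Polynomial.natDegree_zero] at hg'
      omega
    subst hs
    unfold hg at h3
    rw [map_sum, Finset.sum_eq_single M] at h3
    · simp only [map_mul, map_pow, eval_C, eval_X, Nat.sub_self, pow_zero, mul_one] at h3
      have h4 : (![0, t] : Fin 2 → F) 1 = t := rfl
      rw [h4] at h3
      rcases mul_eq_zero.mp h3 with h5 | h5
      · exact hlc h5
      · exact pow_ne_zero M ht h5
    · intro i hi' hne
      rw [Finset.mem_range] at hi'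
      have h5 : M - i ≠ 0 := by omega
      simp only [map_mul, map_pow, eval_C, eval_X]
      have h4 : (![0, t] : Fin 2 → F) 0 = 0 := rfl
      rw [h4, zero_pow h5, mul_zero, zero_mul]
    · intro h
      exact absurd (Finset.mem_range.mpr (Nat.lt_succ_self M)) h
  have hv : ∃ v, (v = P ∨ v = Q) ∧ v ∉ Submodule.span F {TP, TQ} := by
    by_contra hcon
    push Not at hcon
    apply hnle
    rw [Submodule.span_le]
    intro x hx
    simp only [Set.mem_insert_iff, Set.mem_singleton_iff] at hx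
    exact hcon x hx
  obtain ⟨v, hv, hvn⟩ := hv
  obtain ⟨l, hl1, hl2⟩ := Submodule.exists_dual_map_eq_bot_of_notMem hvn inferInstance
  have hl0 : ∀ x ∈ Submodule.span F {TP, TQ}, l x = 0 := by
    intro x hx
    have : l x ∈ (Submodule.span F {TP, TQ}).map l := Submodule.mem_map_of_mem hx
    rw [hl2] at this
    exact (Submodule.mem_bot F).1 this
  refine ⟨NB_F l, (mem_homogeneousSubmodule _ _).2 (NB_F_hom l), ?_, ?_⟩
  · change res TP TQ _ = 0
    rw [NB_F_res, hl0 TP (Submodule.subset_span (by simp)),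
      hl0 TQ (Submodule.subset_span (by simp))]
    simp
  · intro hcon
    have hcon' : res P Q (NB_F l) = 0 := hcon
    rw [NB_F_res] at hcon'
    rcases hv with rfl | rfl
    · apply hl1
      have := congrArg (eval ![(1 : F), 0]) hcon'
      simpa using this
    · apply hl1
      have := congrArg (eval ![(0 : F), 1]) hcon'
      simpa using this

end Coord

section Main

variable {F : Type} [Field F]

theorem NB_mul_sup (a b l : Ideal (A4 F)) : (a ⊔ l) * (b ⊔ l) ≤ a * b ⊔ l := by
  rw [Ideal.mul_le]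
  intro x hx y hy
  obtain ⟨x1, hx1, x2, hx2, rfl⟩ := Submodule.mem_sup.1 hx
  obtain ⟨y1, hy1, y2, hy2, rfl⟩ := Submodule.mem_sup.1 hy
  have h : (x1 + x2) * (y1 + y2) = x1 * y1 + (x1 * y2 + x2 * (y1 + y2)) := by ring
  rw [h]
  refine Submodule.add_mem_sup (Ideal.mul_mem_mul hx1 hy1) ?_
  exact l.add_mem (l.mul_mem_left _ hy2) (l.mul_mem_right _ hx2)

theorem NB_prod_sup {α : Type} [DecidableEq α] (s : Finset α) (a : α → Ideal (A4 F))
    (l : Ideal (A4 F)) : ∏ i ∈ s, (a i ⊔ l) ≤ (∏ i ∈ s, a i) ⊔ l := by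
  induction s using Finset.induction_on with
  | empty => simp
  | insert i s hi ih =>
    rw [Finset.prod_insert hi, Finset.prod_insert hi]
    exact (Ideal.mul_mono_right ih).trans (NB_mul_sup _ _ _)

theorem NB_prod_mono {α : Type} [DecidableEq α] (s : Finset α) (a b : α → Ideal (A4 F))
    (h : ∀ i ∈ s, a i ≤ b i) : ∏ i ∈ s, a i ≤ ∏ i ∈ s, b i := by
  induction s using Finset.induction_on with
  | empty => simp
  | insert i s hi ih =>
    rw [Finset.prod_insert hi, Finset.prod_insert hi]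
    exact Ideal.mul_mono (h i (Finset.mem_insert_self i s))
      (ih fun k hk => h k (Finset.mem_insert_of_mem hk))

/-- the irrelevant ideal -/
noncomputable abbrev NB_m (F : Type) [Field F] : Ideal (A4 F) := idealOfVars (Fin 4) F

theorem NB_m_le {a : Ideal (A4 F)} (h : ∀ i, (X i : A4 F) ∈ a) : NB_m F ≤ a := by
  rw [NB_m, idealOfVars, Ideal.span_le]
  rintro _ ⟨i, rfl⟩
  exact h i

theorem NB_hf_m {N n : ℕ} (hn : N ≤ n) : hf (NB_m F ^ N) n ≤ 0 := by
  rw [← hf_top (F := F) n]
  refine hf_anti_part (fun f hf' => ?_)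
  rw [mem_part] at hf' ⊢
  refine ⟨?_, hf'.2⟩
  rw [NB_m, mem_pow_idealOfVars_iff]
  intro x hx
  have h1 := (mem_homogeneousSubmodule _ _).1 hf'.2
  by_contra hlt
  exact (mem_support_iff.1 hx) (h1.coeff_eq_zero (by omega))

theorem NB_hf_mult {l B : Ideal (A4 F)} (hl : l.IsPrime) (hlI : HI l) (hB : HI B) (hlB : l ≤ B)
    (hl1 : ∀ n : ℕ, hf l n = n + 1) {ν N : ℕ} {f : A4 F} (hf1 : f ∈ Fm F ν) (hf2 : f ∉ l)
    (hf3 : Ideal.span {f} * NB_m F ^ N ≤ B) (n : ℕ) (hn : N ≤ n) : hf B (n + ν) ≤ ν := by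
  have h1 := hf_colon hB hf1 n
  have h2 := hf_colon hlI hf1 n
  rw [BD_cln_prime hl hf2, hl1, hl1] at h2
  have h3 : hf (B ⊔ Ideal.span {f}) (n + ν) ≤ hf (l ⊔ Ideal.span {f}) (n + ν) :=
    hf_anti (sup_le_sup_right hlB _) _
  have h4 : hf (cln B (Ideal.span {f})) n ≤ 0 := by
    refine (hf_anti (fun x hx => ?_) n).trans (NB_hf_m hn)
    rw [BD_mem_cln_single, mul_comm]
    exact hf3 (Ideal.mul_mem_mul (Ideal.mem_span_singleton_self f) hx)
  push_cast at h2
  linarith

variable [Infinite F] {ι κ : Type} [Fintype ι] [Fintype κ] [DecidableEq ι]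
  [DecidableEq κ] {C : Cfg F ι κ} {Γ : Finset (ι × κ)}

/-- the intersection of the other components -/
noncomputable def NB_K (C : Cfg F ι κ) (j : κ) : Ideal (A4 F) :=
  Finset.univ.inf C.tI ⊓ (Finset.univ.erase j).inf C.dI

theorem NB_node (hC : C.Good Γ) (j : κ) (i : ι) (h : (i, j) ∈ Γ) :
    ∃ φ ∈ Fm F 1, φ ∈ C.tI i ∧ φ ∉ C.lI j := by
  obtain ⟨s, t, hst, -, hD⟩ := hC.node i j h
  exact NB_lin (hC.lind j) (hC.tind i) (hC.deg j) (hC.pos j) hst hD

theorem NB_K_bound (hC : C.Good Γ) (j : κ) :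
    ∃ N : ℕ, ∀ n ≥ N, hf (C.lI j ⊔ NB_K C j) n ≤
      ((Finset.univ.filter fun i => (i, j) ∈ Γ).card : ℤ) := by
  classical
  choose! φ hφ1 hφ2 hφ3 using NB_node hC j
  set S : Finset ι := Finset.univ.filter fun i => (i, j) ∈ Γ with hS
  set f : A4 F := ∏ i ∈ S, φ i with hf'
  have hHIl : HI (C.lI j) := HI_lineI _ _
  have hprime : (C.lI j).IsPrime := lineI_isPrime _ _
  have hHIB : HI (C.lI j ⊔ NB_K C j) := by
    refine HI_sup hHIl (HI_inf (HI_finset_inf fun i _ => HI_lineI _ _)
      (HI_finset_inf fun i _ => HI_dblI))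
  have hf1 : f ∈ Fm F S.card := by
    rw [mem_homogeneousSubmodule, hf']
    have := IsHomogeneous.prod S φ (fun _ => 1) (fun i hi => by
      have := hφ1 i (by simpa [hS] using hi)
      rwa [mem_homogeneousSubmodule] at this)
    simpa using this
  have hf2 : f ∉ C.lI j := by
    intro hcon
    rw [hf', hprime.prod_mem_iff] at hcon
    obtain ⟨i, hi, hi'⟩ := hcon
    exact hφ3 i (by simpa [hS] using hi) hi'
  obtain ⟨N, hN⟩ : ∃ N, Ideal.span {f} * NB_m F ^ N ≤ C.lI j ⊔ NB_K C j := by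
    refine ⟨(Finset.univ.filter fun i => ¬ (i, j) ∈ Γ).card + 2 * (Finset.univ.erase j).card, ?_⟩
    have h1 : ∀ i ∈ (Finset.univ : Finset ι),
        (if (i, j) ∈ Γ then Ideal.span {φ i} else NB_m F) ≤ C.tI i ⊔ C.lI j := by
      intro i _
      split_ifs with h
      · rw [Ideal.span_singleton_le_iff_mem]
        exact (le_sup_left : C.tI i ≤ _) (hφ2 i h)
      · exact NB_m_le (NB_vars (hC.non i j h))
    have h2 : ∀ j' ∈ Finset.univ.erase j, NB_m F ^ 2 ≤ C.dI j' ⊔ C.lI j := by
      intro j' hj'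
      have hne : j' ≠ j := (Finset.mem_erase.1 hj').1
      have h3 : NB_m F ≤ C.lI j' ⊔ C.lI j := NB_m_le (NB_vars (hC.ldis j' j hne))
      rw [pow_two]
      refine (Ideal.mul_mono h3 h3).trans ((NB_mul_sup _ _ _).trans ?_)
      refine sup_le_sup_right ?_ _
      rw [← pow_two]
      exact sq_le_dblI
    have h3 := NB_prod_mono Finset.univ _ _ h1
    have h4 := NB_prod_mono (Finset.univ.erase j) _ _ h2
    rw [Finset.prod_ite, Ideal.prod_span_singleton, Finset.prod_const] at h3
    rw [Finset.prod_const, ← pow_mul] at h4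
    have h5 := (Ideal.mul_mono h3 h4).trans ((Ideal.mul_mono (NB_prod_sup _ _ _)
      (NB_prod_sup _ _ _)).trans (NB_mul_sup _ _ _))
    rw [pow_add, ← mul_assoc]
    refine h5.trans ?_
    rw [sup_comm]
    refine sup_le_sup_left ?_ _
    refine le_inf ?_ ?_
    · exact Ideal.mul_le_left.trans Ideal.prod_le_inf
    · exact Ideal.mul_le_right.trans Ideal.prod_le_inf
  refine ⟨N + S.card, fun n hn => ?_⟩
  obtain ⟨m, rfl⟩ := Nat.exists_eq_add_of_le' (le_trans (Nat.le_add_left _ _) hn)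
  exact NB_hf_mult hprime hHIl hHIB le_sup_left
    (fun n => hf_lineI (NB_ind2 (hC.lind j)) n) hf1 hf2 hN m (by omega)

theorem defect_bound (hC : C.Good Γ) {J : Ideal (A4 F)} (hJ : HI J) (hJC : Lle C.ideal J) (j : κ)
    (h2 : (C.lI j) ^ 2 ≤ J) :
    ∃ n0 : ℕ, ∀ n ≥ n0, hf J n ≤ 2 * n + 1 + C.M j + ((Finset.univ.filter fun i => (i, j) ∈ Γ).card : ℤ) := by
  classical
  obtain ⟨γ, hγ1, hγ2, hγ3, hγ4⟩ := NB_gamma (hC.lind j) (hC.deg j) (hC.pos j)
  obtain ⟨N, hN⟩ := NB_K_bound hC j
  obtain ⟨n1, hn1⟩ := hJC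
  have hHIl : HI (C.lI j) := HI_lineI _ _
  have hHIl2 : HI ((C.lI j) ^ 2) := HI_pow hHIl 2
  have hHIC : HI C.ideal := Good.HI_ideal
  set I0 : Ideal (A4 F) := (C.lI j) ^ 2 ⊔ C.ideal with hI0
  have hHI0 : HI I0 := HI_sup hHIl2 hHIC
  have hK : C.lI j ⊔ NB_K C j ≤ cln I0 (Ideal.span {γ}) := by
    refine sup_le ?_ ?_
    · intro x hx
      rw [BD_mem_cln_single]
      refine (le_sup_left : (C.lI j) ^ 2 ≤ I0) ?_
      rw [pow_two]
      exact Ideal.mul_mem_mul hx hγ3
    · intro x hx
      rw [BD_mem_cln_single]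
      refine (le_sup_right : C.ideal ≤ I0) ?_
      obtain ⟨hx1, hx2⟩ := hx
      rw [Finset.inf_eq_iInf] at hx1 hx2
      refine ⟨?_, ?_⟩
      · have : x ∈ (⨅ i, C.tI i : Ideal (A4 F)) := by simpa using hx1
        exact Ideal.mul_mem_right _ _ this
      · change x * γ ∈ (⨅ j, C.dI j : Ideal (A4 F))
        rw [Ideal.mem_iInf]
        intro j'
        by_cases hj : j' = j
        · subst hj
          exact Ideal.mul_mem_left _ _ hγ2
        · refine Ideal.mul_mem_right _ _ ?_
          have h3 : (⨅ a ∈ Finset.univ.erase j, C.dI a : Ideal (A4 F)) ≤ C.dI j' :=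
            iInf₂_le j' (Finset.mem_erase.2 ⟨hj, Finset.mem_univ _⟩)
          exact h3 hx2
  refine ⟨max n1 (N + (C.M j + 1)), fun n hn => ?_⟩
  have hle : hf J n ≤ hf I0 n := by
    refine hf_anti_part (fun x hx => ?_)
    rw [mem_part] at hx ⊢
    obtain ⟨hx1, hx2⟩ := hx
    refine ⟨?_, hx2⟩
    obtain ⟨a, ha, b, hb, rfl⟩ := Submodule.mem_sup.1 hx1
    have h3 : homogeneousComponent n (a + b) = a + b :=
      (homogeneousComponent_of_mem hx2).trans (if_pos rfl)
    rw [← h3, map_add]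
    refine J.add_mem (h2 (hHIl2 a ha n)) ?_
    have h4 : homogeneousComponent n b ∈ part C.ideal n := by
      rw [mem_part]
      exact ⟨hHIC b hb n, homogeneousComponent_mem n b⟩
    exact (mem_part.1 (hn1 n (le_trans (le_max_left _ _) hn) h4)).1
  refine hle.trans ?_
  have hn' : N + (C.M j + 1) ≤ n := le_trans (le_max_right _ _) hn
  obtain ⟨m, rfl⟩ := Nat.exists_eq_add_of_le' (le_trans (Nat.le_add_left _ _) hn')
  have h5 := hf_colon hHI0 hγ1 m
  have h6 : hf (I0 ⊔ Ideal.span {γ}) (m + (C.M j + 1)) ≤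
      hf ((C.lI j) ^ 2 ⊔ Ideal.span {γ}) (m + (C.M j + 1)) :=
    hf_anti (sup_le_sup_right le_sup_left _) _
  have h7 := NB_hf_gamma (hC.lind j) hγ1 hγ4 m
  have h8 := (hf_anti hK m).trans (hN m (by omega))
  push_cast
  have h9 : hf ((C.lI j) ^ 2 ⊔ Ideal.span {γ}) (m + (C.M j + 1)) ≤
      2 * ((m : ℤ) + C.M j + 1) + 1 + C.M j := h7
  linarith

end Main

end Pool.H33.G

end S_NB

section S_LMA

/-! # LMA: limits of ideals along a valuation subring, algebraic properties

`MvPolynomial.map (residue R)` is surjective, so `mem_limI` holds (`Ideal.mem_map_iff_of_surjective`). -/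

open MvPolynomial Module

namespace Pool.H33.G

variable {K : Type} [Field K] (R : ValuationSubring K)

theorem LMA_surj : Function.Surjective
    (MvPolynomial.map (σ := Fin 4) (IsLocalRing.residue R)) :=
  MvPolynomial.map_surjective _ IsLocalRing.residue_surjective

theorem mem_limI {I : Ideal (A4 K)} {f : A4 (IsLocalRing.ResidueField R)} :
    f ∈ limI R I ↔ ∃ h : MvPolynomial (Fin 4) R, MvPolynomial.map (algebraMap R K) h ∈ I ∧
      MvPolynomial.map (IsLocalRing.residue R) h = f := by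
  unfold limI
  rw [Ideal.mem_map_iff_of_surjective _ (LMA_surj R)]
  rfl

theorem limI_mono {I J : Ideal (A4 K)} (h : I ≤ J) : limI R I ≤ limI R J :=
  Ideal.map_mono (Ideal.comap_mono h)

theorem limI_mul {I J : Ideal (A4 K)} : limI R I * limI R J ≤ limI R (I * J) := by
  rw [Ideal.mul_le]
  intro a ha b hb
  rw [mem_limI] at ha hb ⊢
  obtain ⟨x, hx, rfl⟩ := ha
  obtain ⟨y, hy, rfl⟩ := hb
  refine ⟨x * y, ?_, ?_⟩
  · rw [map_mul]
    exact Ideal.mul_mem_mul hx hy
  · rw [map_mul]

theorem limI_pow {I : Ideal (A4 K)} (n : ℕ) : limI R I ^ n ≤ limI R (I ^ n) := by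
  induction n with
  | zero =>
    rw [pow_zero, pow_zero, Ideal.one_eq_top, Ideal.one_eq_top]
    intro f _
    obtain ⟨h, hh⟩ := LMA_surj R f
    rw [mem_limI]
    exact ⟨h, trivial, hh⟩
  | succ n ih =>
    rw [pow_succ, pow_succ]
    exact (Ideal.mul_mono_left ih).trans (limI_mul R)

theorem LMA_hc_map {S T : Type} [CommRing S] [CommRing T] (φ : S →+* T) (n : ℕ)
    (h : MvPolynomial (Fin 4) S) :
    homogeneousComponent n (MvPolynomial.map φ h) = MvPolynomial.map φ (homogeneousComponent n h) := by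
  ext m
  rw [coeff_homogeneousComponent, coeff_map, coeff_map, coeff_homogeneousComponent]
  split_ifs
  · rfl
  · rw [map_zero]

theorem HI_limI {I : Ideal (A4 K)} (hI : HI I) : HI (limI R I) := by
  intro f hf' n
  rw [mem_limI] at hf' ⊢
  obtain ⟨h, hh, rfl⟩ := hf'
  refine ⟨homogeneousComponent n h, ?_, ?_⟩
  · rw [← LMA_hc_map]
    exact hI _ hh n
  · rw [← LMA_hc_map]

theorem mem_part_limI {I : Ideal (A4 K)} (hI : HI I) {n : ℕ} {f : A4 (IsLocalRing.ResidueField R)} :
    f ∈ part (limI R I) n ↔ ∃ h : MvPolynomial (Fin 4) R, h.IsHomogeneous n ∧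
      MvPolynomial.map (algebraMap R K) h ∈ I ∧ MvPolynomial.map (IsLocalRing.residue R) h = f := by
  rw [mem_part, mem_limI]
  constructor
  · rintro ⟨⟨h, hh, rfl⟩, hn⟩
    refine ⟨homogeneousComponent n h, homogeneousComponent_isHomogeneous n h, ?_, ?_⟩
    · rw [← LMA_hc_map]
      exact hI _ hh n
    · rw [← LMA_hc_map, homogeneousComponent_of_mem hn, if_pos rfl]
  · rintro ⟨h, hn, hh, rfl⟩
    exact ⟨⟨h, hh, rfl⟩, hn.map _⟩

end Pool.H33.G

end S_LMA

section S_LMB

/-! # LMB: reduction of a finite dimensional subspace along a valuation subring preserves dimension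

`V ≤ K^N` (`N` a finite type), `V̄ = {v̄ | v ∈ R^N ∩ V}`.  The quotient of `R^N` by `R^N ∩ V` is finitely
generated and torsion free over the valuation ring `R`, hence flat, hence free; so `R^N ∩ V` is the kernel
of a split surjection `R^N → R^q`, `V` is the kernel of its extension to `K` and `V̄` the kernel of its
reduction. -/

open Module

namespace Pool.H33.G

variable {K : Type} [Field K] (R : ValuationSubring K)

/-- reduction of a subspace of `K^N` -/
noncomputable def redS {N : Type} (V : Submodule K (N → K)) :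
    Submodule (IsLocalRing.ResidueField R) (N → IsLocalRing.ResidueField R) :=
  Submodule.span _ {v | ∃ w : N → R, (fun a => (w a : K)) ∈ V ∧ v = fun a => IsLocalRing.residue R (w a)}

theorem mem_redS {N : Type} {V : Submodule K (N → K)} {v : N → IsLocalRing.ResidueField R} :
    v ∈ redS R V ↔ ∃ w : N → R, (fun a => (w a : K)) ∈ V ∧ v = fun a => IsLocalRing.residue R (w a) := by
  constructor
  · intro h
    refine Submodule.span_induction (p := fun v _ => ∃ w : N → R, (fun a => (w a : K)) ∈ V ∧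
      v = fun a => IsLocalRing.residue R (w a)) ?_ ?_ ?_ ?_ h
    · intro x hx; exact hx
    · exact ⟨0, V.zero_mem, by funext a; simp⟩
    · rintro x y - - ⟨w, hw, rfl⟩ ⟨w', hw', rfl⟩
      refine ⟨w + w', V.add_mem hw hw', ?_⟩
      funext a; simp
    · rintro c x - ⟨w, hw, rfl⟩
      obtain ⟨c, rfl⟩ := IsLocalRing.residue_surjective c
      refine ⟨c • w, V.smul_mem (c : K) hw, ?_⟩
      funext a; simp
  · intro h; exact Submodule.subset_span h

/-- the lattice of integral points -/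
noncomputable def LMB_lat {N : Type} (V : Submodule K (N → K)) : Submodule R (N → R) :=
  (V.restrictScalars R).comap ((Algebra.linearMap R K).compLeft N)

theorem LMB_mem_lat {N : Type} {V : Submodule K (N → K)} {w : N → R} :
    w ∈ LMB_lat R V ↔ (fun a => (w a : K)) ∈ V := Iff.rfl

theorem LMB_free {N : Type} [Finite N] (V : Submodule K (N → K)) :
    Module.Free R ((N → R) ⧸ LMB_lat R V) := by
  have hfl : Module.Flat R ((N → R) ⧸ LMB_lat R V) := by
    rw [Module.Flat.flat_iff_torsion_eq_bot_of_isBezout, eq_bot_iff]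
    rintro x ⟨⟨r, hr⟩, h⟩
    obtain ⟨w, rfl⟩ := Submodule.Quotient.mk_surjective _ x
    have hr0 : (r : K) ≠ 0 := by
      have := nonZeroDivisors.ne_zero hr
      intro h; exact this (Subtype.ext h)
    have h1 : r • w ∈ LMB_lat R V := by
      rw [← Submodule.Quotient.mk_eq_zero, Submodule.Quotient.mk_smul]; exact h
    have h2 : w ∈ LMB_lat R V := by
      rw [LMB_mem_lat] at h1 ⊢
      have := V.smul_mem (r : K)⁻¹ h1
      convert this using 1
      funext a
      simp [hr0]
    rw [Submodule.mem_bot, Submodule.Quotient.mk_eq_zero]; exact h2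
  exact Module.free_of_flat_of_isLocalRing

theorem LMB_exists {N : Type} [Finite N] (V : Submodule K (N → K)) :
    ∃ (q : ℕ) (A : (N → R) →ₗ[R] (Fin q → R)) (B : (Fin q → R) →ₗ[R] (N → R)),
      (∀ x, A (B x) = x) ∧ ∀ w, A w = 0 ↔ (fun a => (w a : K)) ∈ V := by
  have := LMB_free R V
  have e : ((N → R) ⧸ LMB_lat R V) ≃ₗ[R] (Fin (finrank R ((N → R) ⧸ LMB_lat R V)) → R) :=
    (finBasis R ((N → R) ⧸ LMB_lat R V)).equivFun
  have hs : Function.Surjective (e.toLinearMap ∘ₗ (LMB_lat R V).mkQ) :=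
    e.surjective.comp (Submodule.mkQ_surjective _)
  obtain ⟨B, hB⟩ := Module.projective_lifting_property (e.toLinearMap ∘ₗ (LMB_lat R V).mkQ)
    LinearMap.id hs
  refine ⟨_, e.toLinearMap ∘ₗ (LMB_lat R V).mkQ, B, fun x => LinearMap.congr_fun hB x, fun w => ?_⟩
  simp only [LinearMap.comp_apply, LinearEquiv.coe_coe, map_eq_zero_iff e e.injective,
    Submodule.mkQ_apply, Submodule.Quotient.mk_eq_zero]
  exact Iff.rfl

open Matrix in
theorem LMB_ker {N : Type} [Fintype N] [DecidableEq N] {F : Type} [Field F] {q : ℕ}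
    (A : Matrix (Fin q) N F) (B : Matrix N (Fin q) F) (h : A * B = 1) :
    finrank F (LinearMap.ker A.mulVecLin) + q = Fintype.card N := by
  have hs : Function.Surjective A.mulVecLin := by
    intro x
    refine ⟨B.mulVec x, ?_⟩
    rw [Matrix.mulVecLin_apply, Matrix.mulVec_mulVec, h, Matrix.one_mulVec]
  have h1 := A.mulVecLin.finrank_range_add_finrank_ker
  rw [LinearMap.range_eq_top.2 hs, finrank_top, Module.finrank_fin_fun, Module.finrank_fintype_fun_eq_card] at h1
  omega

open Matrix in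
theorem finrank_redS {N : Type} [Finite N] (V : Submodule K (N → K)) :
    finrank (IsLocalRing.ResidueField R) (redS R V) = finrank K V := by
  classical
  have := Fintype.ofFinite N
  obtain ⟨q, A, B, hAB, hA⟩ := LMB_exists R V
  have hAB' : LinearMap.toMatrix' A * LinearMap.toMatrix' B = 1 := by
    rw [← LinearMap.toMatrix'_comp]
    have : A ∘ₗ B = LinearMap.id := LinearMap.ext hAB
    rw [this, LinearMap.toMatrix'_id]
  have hAw : ∀ w, A w = LinearMap.toMatrix' A *ᵥ w := fun w => (LinearMap.toMatrix'_mulVec A w).symm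
  have hBw : ∀ w, B w = LinearMap.toMatrix' B *ᵥ w := fun w => (LinearMap.toMatrix'_mulVec B w).symm
  generalize LinearMap.toMatrix' A = A' at hAB' hAw
  generalize LinearMap.toMatrix' B = B' at hAB' hBw
  have hmap : ∀ {F : Type} [Field F] (f : R →+* F), A'.map f * B'.map f = 1 := by
    intro F _ f
    rw [← Matrix.map_mul, hAB', Matrix.map_one f f.map_zero f.map_one]
  have hmv : ∀ {F : Type} [Field F] (f : R →+* F) (w : N → R),
      A'.map f *ᵥ (fun a => f (w a)) = fun i => f (A w i) := by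
    intro F _ f w
    funext i
    rw [hAw, RingHom.map_mulVec]
    rfl
  have hV : V = LinearMap.ker (A'.map (algebraMap R K)).mulVecLin := by
    ext v
    rw [LinearMap.mem_ker, Matrix.mulVecLin_apply]
    obtain ⟨b, hb⟩ := IsLocalization.exist_integer_multiples_of_finite (nonZeroDivisors R) v
    choose w hw using hb
    have hb0 : (algebraMap R K) b ≠ 0 := by
      rw [map_ne_zero_iff _ (FaithfulSMul.algebraMap_injective R K)]
      exact nonZeroDivisors.ne_zero b.2
    have hv : (fun a => algebraMap R K (w a)) = (algebraMap R K b) • v := by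
      funext a
      rw [hw a, Pi.smul_apply, Algebra.smul_def, smul_eq_mul]
    have h1 : v ∈ V ↔ (fun a => algebraMap R K (w a)) ∈ V := by
      rw [hv]
      exact (Submodule.smul_mem_iff V hb0).symm
    have h2 : (fun a => algebraMap R K (w a)) ∈ V ↔ A w = 0 := (hA w).symm
    rw [h1, h2]
    have h3 : (A'.map (algebraMap R K)) *ᵥ v = 0 ↔ (A'.map (algebraMap R K)) *ᵥ (fun a => algebraMap R K (w a)) = 0 := by
      rw [hv, Matrix.mulVec_smul, smul_eq_zero_iff_right hb0]
    rw [h3, hmv]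
    constructor
    · intro h; rw [h]; funext i; simp
    · intro h; funext i
      have := congrFun h i
      simp only [Pi.zero_apply] at this
      rwa [map_eq_zero_iff _ (FaithfulSMul.algebraMap_injective R K)] at this
  have hr : redS R V = LinearMap.ker (A'.map (IsLocalRing.residue R)).mulVecLin := by
    ext v
    rw [mem_redS, LinearMap.mem_ker, Matrix.mulVecLin_apply]
    constructor
    · rintro ⟨w, hw, rfl⟩
      rw [hmv, (hA w).2 hw]
      funext i; simp
    · intro hv
      choose w hw using fun a => IsLocalRing.residue_surjective (v a)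
      have hv' : v = fun a => IsLocalRing.residue R (w a) := by funext a; rw [hw]
      refine ⟨w - B (A w), ?_, ?_⟩
      · rw [← hA, map_sub, hAB, sub_self]
      · rw [hv', hmv] at hv
        funext a
        rw [← hw a, Pi.sub_apply, map_sub]
        have : IsLocalRing.residue R (B (A w) a) = 0 := by
          rw [hBw, RingHom.map_mulVec]
          have h0 : (IsLocalRing.residue R ∘ A w) = 0 := hv
          rw [h0, Matrix.mulVec_zero]; rfl
        rw [this, sub_zero]
  have h1 := LMB_ker _ _ (hmap (algebraMap R K))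
  have h2 := LMB_ker _ _ (hmap (IsLocalRing.residue R))
  rw [← hV] at h1
  rw [← hr] at h2
  omega

theorem limS_eq_redS (Λ : Submodule K (Fin 4 → K)) : limS R Λ = redS R Λ := rfl

end Pool.H33.G

end S_LMB

section S_LMC

/-! # LMC: Hilbert functions of limits, limits of lines

`hf_limI`: identify forms of degree `n` with functions on the finite type of monomials of degree `n` and
use `mem_part_limI`, `finrank_redS`.
`limI_vI`: if `f ∈ vI Λ` has coefficients in `R` and `w ∈ R^4 ∩ Λ` then `f̄(w̄) = 0`; so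
`limI R (vI Λ) ≤ vI (limS R Λ)`; both have Hilbert function `n + 1` (`hf_vI`), so they are equal. -/

open MvPolynomial Module

namespace Pool.H33.G

/-- monomials of degree `n` -/
abbrev LMC_N (n : ℕ) : Type :=
  {d : Fin 4 →₀ ℕ // d ∈ Finset.finsuppAntidiag (Finset.univ : Finset (Fin 4)) n}

theorem LMC_mem_N {n : ℕ} {d : Fin 4 →₀ ℕ} :
    d ∈ Finset.finsuppAntidiag (Finset.univ : Finset (Fin 4)) n ↔ d.degree = n := by
  rw [Finset.mem_finsuppAntidiag, Finsupp.degree_eq_sum]
  simp

/-- the form of degree `n` with given coefficients -/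
noncomputable def LMC_mk (A : Type) [CommRing A] (n : ℕ) :
    (LMC_N n → A) →ₗ[A] MvPolynomial (Fin 4) A where
  toFun v := ∑ d, monomial d.1 (v d)
  map_add' v w := by simp [Finset.sum_add_distrib]
  map_smul' c v := by simp [Finset.smul_sum, smul_monomial]

theorem LMC_mk_apply {A : Type} [CommRing A] (n : ℕ) (v : LMC_N n → A) :
    LMC_mk A n v = ∑ d, monomial d.1 (v d) := rfl

theorem LMC_coeff_mk {A : Type} [CommRing A] {n : ℕ} (v : LMC_N n → A) (d : LMC_N n) :
    coeff d.1 (LMC_mk A n v) = v d := by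
  classical
  rw [LMC_mk_apply, coeff_sum]
  rw [Finset.sum_eq_single d]
  · simp
  · intro b _ hb
    rw [coeff_monomial, if_neg]
    intro h; exact hb (Subtype.ext h)
  · intro h; exact absurd (Finset.mem_univ _) h

theorem LMC_mk_hom {A : Type} [CommRing A] {n : ℕ} (v : LMC_N n → A) :
    (LMC_mk A n v).IsHomogeneous n := by
  rw [LMC_mk_apply]
  refine IsHomogeneous.sum _ _ _ fun d _ => isHomogeneous_monomial _ (LMC_mem_N.1 d.2)

theorem LMC_mk_inj (A : Type) [CommRing A] (n : ℕ) : Function.Injective (LMC_mk A n) := by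
  intro v w h
  funext d
  rw [← LMC_coeff_mk v d, h, LMC_coeff_mk]

theorem LMC_mk_coeff {A : Type} [CommRing A] {n : ℕ} {h : MvPolynomial (Fin 4) A}
    (hh : h.IsHomogeneous n) : LMC_mk A n (fun d => coeff d.1 h) = h := by
  ext d
  by_cases hd : d.degree = n
  · exact LMC_coeff_mk (fun d : LMC_N n => coeff d.1 h) ⟨d, LMC_mem_N.2 hd⟩
  · rw [(LMC_mk_hom _).coeff_eq_zero hd, hh.coeff_eq_zero hd]

theorem LMC_map_mk {A B : Type} [CommRing A] [CommRing B] (f : A →+* B) {n : ℕ} (v : LMC_N n → A) :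
    MvPolynomial.map f (LMC_mk A n v) = LMC_mk B n (fun d => f (v d)) := by
  rw [LMC_mk_apply, LMC_mk_apply, map_sum]
  simp

theorem LMC_finrank {F : Type} [Field F] {n : ℕ} {S : Submodule F (A4 F)} (hS : S ≤ Fm F n) :
    finrank F (S.comap (LMC_mk F n)) = finrank F S := by
  have h : (S.comap (LMC_mk F n)).map (LMC_mk F n) = S := by
    rw [Submodule.map_comap_eq, inf_eq_right]
    intro x hx
    exact ⟨_, LMC_mk_coeff (hS hx)⟩
  conv_rhs => rw [← h]
  exact (LinearEquiv.finrank_eq (Submodule.equivMapOfInjective _ (LMC_mk_inj F n) _))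

theorem LMC_finrank_Fm (F : Type) [Field F] (n : ℕ) :
    finrank F (Fm F n) = Fintype.card (LMC_N n) := by
  rw [← LMC_finrank (le_refl (Fm F n))]
  have : (Fm F n).comap (LMC_mk F n) = ⊤ := by
    rw [eq_top_iff]; intro v _; exact LMC_mk_hom v
  rw [this, finrank_top, Module.finrank_fintype_fun_eq_card]

variable {K : Type} [Field K] (R : ValuationSubring K)

theorem hf_limI {I : Ideal (A4 K)} (hI : HI I) (n : ℕ) : hf (limI R I) n = hf I n := by
  unfold hf
  rw [LMC_finrank_Fm, LMC_finrank_Fm, ← LMC_finrank (S := part (limI R I) n) inf_le_right,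
    ← LMC_finrank (S := part I n) inf_le_right, ← finrank_redS R]
  have h : (part (limI R I) n).comap (LMC_mk _ n) = redS R ((part I n).comap (LMC_mk K n)) := by
    ext v
    rw [mem_redS, Submodule.mem_comap, mem_part_limI R hI]
    constructor
    · rintro ⟨h, hh, hI', hv⟩
      refine ⟨fun d => coeff d.1 h, ?_, ?_⟩
      · rw [Submodule.mem_comap]
        have h1 := LMC_map_mk (algebraMap R K) (fun d : LMC_N n => coeff d.1 h)
        rw [LMC_mk_coeff hh] at h1
        have h2 : MvPolynomial.map (algebraMap R K) h ∈ part I n := by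
          rw [mem_part]; exact ⟨hI', hh.map _⟩
        rw [h1] at h2
        exact h2
      · funext d
        rw [← LMC_coeff_mk v d, ← hv, coeff_map]
    · rintro ⟨w, hw, rfl⟩
      rw [Submodule.mem_comap, mem_part] at hw
      refine ⟨LMC_mk R n w, LMC_mk_hom w, ?_, LMC_map_mk _ _⟩
      rw [LMC_map_mk]
      exact hw.1
  rw [h]

theorem Lin_limI {I : Ideal (A4 K)} (hI : HI I) {e : ℕ} {c : ℤ} : Lin (limI R I) e c ↔ Lin I e c := by
  unfold Lin
  simp only [hf_limI R hI]

theorem finrank_limS (Λ : Submodule K (Fin 4 → K)) :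
    finrank (IsLocalRing.ResidueField R) (limS R Λ) = finrank K Λ := by
  rw [limS_eq_redS, finrank_redS]

theorem limS_mono {Λ Λ' : Submodule K (Fin 4 → K)} (h : Λ ≤ Λ') : limS R Λ ≤ limS R Λ' := by
  refine Submodule.span_mono ?_
  rintro v ⟨w, hw, rfl⟩
  exact ⟨w, h hw, rfl⟩

/-- lines with disjoint limits are disjoint -/
theorem inf_eq_bot_of_limS {Λ Λ' : Submodule K (Fin 4 → K)} (h : limS R Λ ⊓ limS R Λ' = ⊥) :
    Λ ⊓ Λ' = ⊥ := by
  have h1 : limS R (Λ ⊓ Λ') = ⊥ := by
    rw [eq_bot_iff, ← h]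
    exact le_inf (limS_mono R inf_le_left) (limS_mono R inf_le_right)
  have h2 := finrank_limS R (Λ ⊓ Λ')
  rw [h1, finrank_bot] at h2
  exact Submodule.finrank_eq_zero.1 h2.symm

theorem limI_vI [Infinite K] [Infinite (IsLocalRing.ResidueField R)] {Λ : Submodule K (Fin 4 → K)}
    (h : finrank K Λ = 2) : limI R (vI Λ) = vI (limS R Λ) := by
  have hle : limI R (vI Λ) ≤ vI (limS R Λ) := by
    intro f hf'
    obtain ⟨p, hp, rfl⟩ := (mem_limI R).1 hf'
    intro v hv
    rw [limS_eq_redS, mem_redS] at hv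
    obtain ⟨w, hw, rfl⟩ := hv
    have h1 : eval (fun a => (w a : K)) (MvPolynomial.map (algebraMap R K) p) = 0 := hp _ hw
    have h2 : eval (fun a => (w a : K)) (MvPolynomial.map (algebraMap R K) p) =
        algebraMap R K (eval w p) := by
      rw [eval_map]
      exact (MvPolynomial.eval₂_comp (algebraMap R K) w p).symm
    have h3 : eval w p = 0 := by
      rw [h2] at h1
      exact (map_eq_zero_iff _ (FaithfulSMul.algebraMap_injective R K)).1 h1
    rw [eval_map, ← Function.comp_def (IsLocalRing.residue R) w, ← MvPolynomial.eval₂_comp, h3, map_zero]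
  refine le_antisymm hle (le_of_part_le (HI_vI _) fun n => ?_)
  have h1 : part (limI R (vI Λ)) n = part (vI (limS R Λ)) n := by
    refine part_eq_of_hf_eq (part_mono hle n) ?_
    rw [hf_limI R (HI_vI _), hf_vI h, hf_vI (by rw [finrank_limS, h])]
  exact h1.ge

end Pool.H33.G

end S_LMC
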