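import Mathlib
import Pool.Agent.H33.GG.Def
import Pool.Agent.H33.GG.M1
import Pool.Agent.H33.GG.M3
import Pool.Agent.H33.GG.M4

/-! Galois action on the components of Hilbert schemes of space curves, file M5 -/

section S_BCH

/-! # BCH: base change along a field homomorphism

`hf_map`: a basis of `part I n` stays linearly independent after applying `φ` to the coefficients, and
spans `part (I.map (map φ)) n` over `F'` (for homogeneous `I`). -/

open MvPolynomial Module

namespace Pool.H33.G

variable {F F' : Type} [Field F] [Field F'] (φ : F →+* F')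

theorem BCH_li {κ M M' : Type*} [AddCommGroup M] [Module F M] [AddCommGroup M'] [Module F' M']
    (B : Basis κ F M) (B' : Basis κ F' M') (j : M →ₛₗ[φ] M') (hj : ∀ a, j (B a) = B' a)
    {ι : Type*} {v : ι → M} (hv : LinearIndependent F v) :
    LinearIndependent F' (fun i => j (v i)) := by
  classical
  obtain ⟨g, hg⟩ := LinearMap.exists_leftInverse_of_injective (Finsupp.linearCombination F v)
    (LinearMap.ker_eq_bot.2 hv)
  have hgv : ∀ k, g (v k) = Finsupp.single k 1 := by
    intro k
    have h1 := LinearMap.congr_fun hg (Finsupp.single k (1 : F))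
    rw [LinearMap.comp_apply, Finsupp.linearCombination_single, one_smul] at h1
    exact h1
  have hext : ∀ (l : M →ₗ[F] F) (x : M),
      B'.constr F' (fun a => φ (l (B a))) (j x) = φ (l x) := by
    intro l x
    refine Submodule.span_induction (p := fun x _ =>
      B'.constr F' (fun a => φ (l (B a))) (j x) = φ (l x)) ?_ ?_ ?_ ?_ (B.mem_span x)
    · rintro _ ⟨a, rfl⟩
      rw [hj, Basis.constr_basis]
    · rw [map_zero, map_zero, map_zero, map_zero]
    · intro x y _ _ hx hy
      rw [map_add, map_add, hx, hy, map_add, map_add]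
    · intro c x _ hx
      rw [LinearMap.map_smulₛₗ, map_smul, hx, map_smul, smul_eq_mul, smul_eq_mul, map_mul]
  rw [linearIndependent_iff']
  intro s c hc i hi
  have h1 := congrArg (B'.constr F' (fun a => φ ((Finsupp.lapply i ∘ₗ g) (B a)))) hc
  rw [map_zero, map_sum] at h1
  have h2 : ∀ k ∈ s, B'.constr F' (fun a => φ ((Finsupp.lapply i ∘ₗ g) (B a))) (c k • j (v k)) =
      if k = i then c i else 0 := by
    intro k _
    rw [map_smul, hext, LinearMap.comp_apply, hgv, Finsupp.lapply_apply, Finsupp.single_apply]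
    split_ifs with h
    · rw [map_one, smul_eq_mul, mul_one, h]
    · rw [map_zero, smul_zero]
  rw [Finset.sum_congr rfl h2, Finset.sum_ite_eq' s i, if_pos hi] at h1
  exact h1

theorem HI_map {I : Ideal (A4 F)} (hI : HI I) : HI (I.map (MvPolynomial.map φ)) := by
  obtain ⟨s, hs, rfl⟩ := HI_fg hI
  rw [Ideal.map_span]
  apply HI_span
  rintro _ ⟨f, hf, rfl⟩
  obtain ⟨n, hn⟩ := hs f hf
  exact ⟨n, IsHomogeneous.map hn φ⟩

/-- the semilinear map given by `φ` on coefficients -/
noncomputable def BCH_map : A4 F →ₛₗ[φ] A4 F' where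
  toFun := MvPolynomial.map φ
  map_add' := map_add _
  map_smul' := by
    intro c x
    rw [MvPolynomial.smul_eq_C_mul, map_mul, MvPolynomial.map_C, MvPolynomial.smul_eq_C_mul]

theorem BCH_map_apply (f : A4 F) : BCH_map φ f = MvPolynomial.map φ f := rfl

theorem BCH_map_smul (c : F) (f : A4 F) :
    MvPolynomial.map φ (c • f) = φ c • MvPolynomial.map φ f := (BCH_map φ).map_smulₛₗ c f

theorem BCH_li_poly {ι : Type*} {v : ι → A4 F} (hv : LinearIndependent F v) :
    LinearIndependent F' (fun i => MvPolynomial.map φ (v i)) :=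
  BCH_li φ (basisMonomials (Fin 4) F) (basisMonomials (Fin 4) F') (BCH_map φ)
    (fun a => by
      rw [coe_basisMonomials, coe_basisMonomials, BCH_map_apply, MvPolynomial.map_monomial, map_one])
    hv

theorem BCH_mem_span {S : Set (A4 F)} {x : A4 F} (hx : x ∈ Submodule.span F S) :
    MvPolynomial.map φ x ∈ Submodule.span F' (MvPolynomial.map φ '' S) := by
  refine Submodule.span_induction (p := fun x _ => MvPolynomial.map φ x ∈
    Submodule.span F' (MvPolynomial.map φ '' S)) ?_ ?_ ?_ ?_ hx
  · intro y hy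
    exact Submodule.subset_span ⟨y, hy, rfl⟩
  · rw [map_zero]; exact Submodule.zero_mem _
  · intro x y _ _ hx hy
    rw [map_add]
    exact Submodule.add_mem _ hx hy
  · intro c x _ hx
    rw [BCH_map_smul]
    exact Submodule.smul_mem _ _ hx

theorem BCH_finrank (W : Submodule F (A4 F)) [Module.Finite F W] :
    finrank F' (Submodule.span F' (MvPolynomial.map φ '' (W : Set (A4 F)))) = finrank F W := by
  have b := Module.finBasis F W
  have hli : LinearIndependent F (fun i => (b i : A4 F)) := by
    have := b.linearIndependent.map' W.subtype (Submodule.ker_subtype W)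
    exact this
  have hsp : Submodule.span F (Set.range (fun i => (b i : A4 F))) = W := by
    have h1 := congrArg (Submodule.map W.subtype) b.span_eq
    rw [Submodule.map_span, Submodule.map_top, Submodule.range_subtype, ← Set.range_comp] at h1
    exact h1
  have h2 : Submodule.span F' (MvPolynomial.map φ '' (W : Set (A4 F))) =
      Submodule.span F' (Set.range (fun i => MvPolynomial.map φ (b i : A4 F))) := by
    apply le_antisymm
    · rw [Submodule.span_le]
      rintro _ ⟨x, hx, rfl⟩
      have hx' : x ∈ Submodule.span F (Set.range (fun i => (b i : A4 F))) := by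
        rw [hsp]; exact hx
      have h3 := BCH_mem_span φ hx'
      rw [← Set.range_comp] at h3
      exact h3
    · apply Submodule.span_mono
      rintro _ ⟨i, rfl⟩
      exact ⟨(b i : A4 F), (b i).2, rfl⟩
  rw [h2, finrank_span_eq_card (BCH_li_poly φ hli), Fintype.card_fin]

theorem BCH_mul_mem {I : Ideal (A4 F)} (a : A4 F') {x : A4 F'}
    (hx : x ∈ Submodule.span F' (MvPolynomial.map φ '' (I : Set (A4 F)))) :
    a * x ∈ Submodule.span F' (MvPolynomial.map φ '' (I : Set (A4 F))) := by
  refine Submodule.span_induction (p := fun x _ => a * x ∈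
    Submodule.span F' (MvPolynomial.map φ '' (I : Set (A4 F)))) ?_ ?_ ?_ ?_ hx
  · rintro _ ⟨f, hf, rfl⟩
    induction a using MvPolynomial.induction_on' with
    | monomial m c =>
      have h1 : monomial m c * MvPolynomial.map φ f =
          c • MvPolynomial.map φ (monomial m 1 * f) := by
        rw [map_mul, MvPolynomial.map_monomial, map_one, ← smul_mul_assoc, smul_monomial,
          smul_eq_mul, mul_one]
      rw [h1]
      exact Submodule.smul_mem _ _ (Submodule.subset_span ⟨_, I.mul_mem_left _ hf, rfl⟩)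
    | add p q hp hq =>
      rw [add_mul]
      exact Submodule.add_mem _ hp hq
  · rw [mul_zero]; exact Submodule.zero_mem _
  · intro x y _ _ hx hy
    rw [mul_add]
    exact Submodule.add_mem _ hx hy
  · intro c x _ hx
    rw [mul_smul_comm]
    exact Submodule.smul_mem _ _ hx

theorem BCH_mem_map {I : Ideal (A4 F)} {x : A4 F'} (hx : x ∈ I.map (MvPolynomial.map φ)) :
    x ∈ Submodule.span F' (MvPolynomial.map φ '' (I : Set (A4 F))) := by
  refine Submodule.span_induction (p := fun x _ => x ∈
    Submodule.span F' (MvPolynomial.map φ '' (I : Set (A4 F)))) ?_ ?_ ?_ ?_ hx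
  · intro y hy
    exact Submodule.subset_span hy
  · exact Submodule.zero_mem _
  · intro x y _ _ hx hy
    exact Submodule.add_mem _ hx hy
  · intro c x _ hx
    exact BCH_mul_mem φ c hx

theorem BCH_hc (n : ℕ) (f : A4 F) :
    homogeneousComponent n (MvPolynomial.map φ f) = MvPolynomial.map φ (homogeneousComponent n f) := by
  ext m
  rw [coeff_homogeneousComponent, coeff_map, coeff_map, coeff_homogeneousComponent]
  split_ifs with h
  · rfl
  · rw [map_zero]

theorem BCH_part {I : Ideal (A4 F)} (hI : HI I) (n : ℕ) :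
    part (I.map (MvPolynomial.map φ)) n =
      Submodule.span F' (MvPolynomial.map φ '' (part I n : Set (A4 F))) := by
  apply le_antisymm
  · intro x hx
    rw [mem_part] at hx
    have h1 : ∀ y ∈ Submodule.span F' (MvPolynomial.map φ '' (I : Set (A4 F))),
        homogeneousComponent n y ∈
          Submodule.span F' (MvPolynomial.map φ '' (part I n : Set (A4 F))) := by
      intro y hy
      refine Submodule.span_induction (p := fun y _ => homogeneousComponent n y ∈
        Submodule.span F' (MvPolynomial.map φ '' (part I n : Set (A4 F)))) ?_ ?_ ?_ ?_ hy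
      · rintro _ ⟨f, hf, rfl⟩
        rw [BCH_hc]
        refine Submodule.subset_span ⟨_, ?_, rfl⟩
        show homogeneousComponent n f ∈ part I n
        rw [mem_part]
        exact ⟨hI f hf n, HF2_hc_mem n f⟩
      · rw [map_zero]; exact Submodule.zero_mem _
      · intro x y _ _ hx hy
        rw [map_add]
        exact Submodule.add_mem _ hx hy
      · intro c x _ hx
        rw [map_smul]
        exact Submodule.smul_mem _ _ hx
    have h2 := h1 x (BCH_mem_map φ hx.1)
    rwa [HF2_hc_self hx.2] at h2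
  · rw [Submodule.span_le]
    rintro _ ⟨f, hf, rfl⟩
    have hf' : f ∈ part I n := hf
    rw [mem_part] at hf'
    show _ ∈ part _ n
    rw [mem_part]
    exact ⟨Ideal.mem_map_of_mem _ hf'.1, IsHomogeneous.map hf'.2 φ⟩

include φ in
theorem BCH_Fm (n : ℕ) : finrank F' (Fm F' n) = finrank F (Fm F n) := by
  have h0 : ∀ (K : Type) [Field K], part (⊤ : Ideal (A4 K)) n = Fm K n := by
    intro K _
    apply le_antisymm inf_le_right
    intro f hf
    exact ⟨trivial, hf⟩
  have h1 := BCH_part φ (HI_top (F := F)) n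
  rw [Ideal.map_top, h0, h0] at h1
  rw [h1, BCH_finrank]

theorem hf_map {I : Ideal (A4 F)} (hI : HI I) (n : ℕ) :
    hf (I.map (MvPolynomial.map φ)) n = hf I n := by
  have : Module.Finite F (part I n) :=
    Submodule.finiteDimensional_of_le (inf_le_right : part I n ≤ Fm F n)
  unfold hf
  rw [BCH_part φ hI, BCH_finrank, BCH_Fm φ]

theorem BCH_res (P Q : Fin 4 → F) (f : A4 F) :
    res (φ ∘ P) (φ ∘ Q) (MvPolynomial.map φ f) = MvPolynomial.map φ (res P Q f) := by
  induction f using MvPolynomial.induction_on with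
  | C a =>
    rw [MvPolynomial.map_C]
    unfold res
    rw [MvPolynomial.aeval_C, MvPolynomial.aeval_C, MvPolynomial.algebraMap_eq,
      MvPolynomial.algebraMap_eq, MvPolynomial.map_C]
  | add p q hp hq => rw [map_add, map_add, hp, hq, map_add, map_add]
  | mul_X p i hp =>
    rw [map_mul, map_mul, hp, map_mul, map_mul, MvPolynomial.map_X]
    congr 1
    unfold res
    rw [MvPolynomial.aeval_X, MvPolynomial.aeval_X, map_add, map_mul, map_mul, MvPolynomial.map_C,
      MvPolynomial.map_C, MvPolynomial.map_X, MvPolynomial.map_X]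
    rfl

theorem BCH_hg (g : Polynomial F) (M : ℕ) :
    hg (g.map φ) M = MvPolynomial.map φ (hg g M) := by
  unfold hg
  rw [map_sum]
  refine Finset.sum_congr rfl fun i _ => ?_
  rw [map_mul, map_mul, map_pow, map_pow, MvPolynomial.map_X, MvPolynomial.map_X,
    MvPolynomial.map_C, Polynomial.coeff_map]

theorem BCH_dres (P Q U V : Fin 4 → F) (g : Polynomial F) (M : ℕ) (f : A4 F) :
    dres (φ ∘ P) (φ ∘ Q) (φ ∘ U) (φ ∘ V) (g.map φ) M (MvPolynomial.map φ f) =
      MvPolynomial.map φ (dres P Q U V g M f) := by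
  unfold dres
  rw [map_sum]
  refine Finset.sum_congr rfl fun a _ => ?_
  rw [MvPolynomial.pderiv_map, BCH_res, BCH_hg, map_mul, map_add, map_mul, map_mul, map_pow,
    MvPolynomial.map_X, MvPolynomial.map_C, MvPolynomial.map_C]
  rfl

theorem mapC_ideal {ι κ : Type} (C : Cfg F ι κ) :
    C.ideal.map (MvPolynomial.map φ) ≤ (C.mapC φ).ideal := by
  rw [Ideal.map_le_iff_le_comap]
  intro f hf
  rw [Ideal.mem_comap]
  obtain ⟨hf1, hf2⟩ := hf
  refine ⟨?_, ?_⟩
  · have hf1' : f ∈ ⨅ i, C.tI i := hf1
    show _ ∈ ⨅ i, (C.mapC φ).tI i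
    rw [Ideal.mem_iInf] at hf1' ⊢
    intro i
    have h1 : res (C.TP i) (C.TQ i) f = 0 := hf1' i
    show res (φ ∘ C.TP i) (φ ∘ C.TQ i) (MvPolynomial.map φ f) = 0
    rw [BCH_res, h1, map_zero]
  · have hf2' : f ∈ ⨅ j, C.dI j := hf2
    show _ ∈ ⨅ j, (C.mapC φ).dI j
    rw [Ideal.mem_iInf] at hf2' ⊢
    intro j
    obtain ⟨h1, h2⟩ : res (C.P j) (C.Q j) f = 0 ∧
      dres (C.P j) (C.Q j) (C.U j) (C.V j) (C.g j) (C.M j) f = 0 := hf2' j
    show res (φ ∘ C.P j) (φ ∘ C.Q j) (MvPolynomial.map φ f) = 0 ∧
      dres (φ ∘ C.P j) (φ ∘ C.Q j) (φ ∘ C.U j) (φ ∘ C.V j) ((C.g j).map φ) (C.M j)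
        (MvPolynomial.map φ f) = 0
    rw [BCH_res, h1, map_zero, BCH_dres, h2, map_zero]
    exact ⟨rfl, rfl⟩

/-- the semilinear map `φ ∘ ·` on vectors -/
noncomputable def BCH_vec : (Fin 4 → F) →ₛₗ[φ] (Fin 4 → F') where
  toFun := fun v => φ ∘ v
  map_add' := by
    intro x y
    funext a
    exact map_add φ _ _
  map_smul' := by
    intro c x
    funext a
    exact map_mul φ _ _

theorem BCH_vec_apply (v : Fin 4 → F) : BCH_vec φ v = φ ∘ v := rfl

theorem BCH_li_vec {ι : Type*} {v : ι → Fin 4 → F} (hv : LinearIndependent F v) :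
    LinearIndependent F' (fun i => φ ∘ v i) :=
  BCH_li φ (Pi.basisFun F (Fin 4)) (Pi.basisFun F' (Fin 4)) (BCH_vec φ)
    (fun a => by
      rw [Pi.basisFun_apply, Pi.basisFun_apply, BCH_vec_apply]
      funext b
      simp only [Function.comp_apply, Pi.single_apply]
      split_ifs with h
      · exact map_one φ
      · exact map_zero φ)
    hv

theorem BCH_vec_span {S : Set (Fin 4 → F)} {x : Fin 4 → F} (hx : x ∈ Submodule.span F S) :
    φ ∘ x ∈ Submodule.span F' ((fun v => φ ∘ v) '' S) := by
  refine Submodule.span_induction (p := fun x _ => φ ∘ x ∈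
    Submodule.span F' ((fun v => φ ∘ v) '' S)) ?_ ?_ ?_ ?_ hx
  · intro y hy
    exact Submodule.subset_span ⟨y, hy, rfl⟩
  · rw [← BCH_vec_apply, map_zero]; exact Submodule.zero_mem _
  · intro x y _ _ hx hy
    rw [← BCH_vec_apply, map_add]
    exact Submodule.add_mem _ hx hy
  · intro c x _ hx
    rw [← BCH_vec_apply, LinearMap.map_smulₛₗ]
    exact Submodule.smul_mem _ _ hx

theorem mapC_good {ι κ : Type} {C : Cfg F ι κ} {Γ : Finset (ι × κ)} (hC : C.Good Γ) :
    (C.mapC φ).Good Γ := by
  have h2 : ∀ {x y : Fin 4 → F}, LinearIndependent F ![x, y] →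
      LinearIndependent F' ![φ ∘ x, φ ∘ y] := by
    intro x y h
    have h1 := BCH_li_vec φ h
    have h3 : (fun i => φ ∘ (![x, y] : Fin 2 → Fin 4 → F) i) = ![φ ∘ x, φ ∘ y] := by
      funext i
      fin_cases i <;> rfl
    rwa [h3] at h1
  have h4 : ∀ {x y z w : Fin 4 → F}, LinearIndependent F ![x, y, z, w] →
      LinearIndependent F' ![φ ∘ x, φ ∘ y, φ ∘ z, φ ∘ w] := by
    intro x y z w h
    have h1 := BCH_li_vec φ h
    have h3 : (fun i => φ ∘ (![x, y, z, w] : Fin 4 → Fin 4 → F) i) =
        ![φ ∘ x, φ ∘ y, φ ∘ z, φ ∘ w] := by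
      funext i
      fin_cases i <;> rfl
    rwa [h3] at h1
  refine ⟨fun i => h2 (hC.tind i), fun i i' h => h4 (hC.tdis i i' h), fun j => h4 (hC.lind j),
    fun j j' h => h4 (hC.ldis j j' h), hC.pos, fun j => ?_, fun i j h => h4 (hC.non i j h), ?_⟩
  · show ((C.g j).map φ).natDegree = C.M j
    rw [Polynomial.natDegree_map, hC.deg j]
  · intro i j hij
    obtain ⟨s, t, hst, ha, hb⟩ := hC.node i j hij
    refine ⟨φ s, φ t, ?_, ?_, ?_⟩
    · rcases hst with h | h
      · exact Or.inl ((map_ne_zero φ).2 h)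
      · exact Or.inr ((map_ne_zero φ).2 h)
    · have h1 := BCH_vec_span φ ha
      rw [Set.image_insert_eq, Set.image_singleton, ← BCH_vec_apply φ (s • C.P j + _), map_add,
        LinearMap.map_smulₛₗ, LinearMap.map_smulₛₗ] at h1
      exact h1
    · have h1 := BCH_vec_span φ hb
      rw [Set.image_insert_eq, Set.image_insert_eq, Set.image_insert_eq, Set.image_singleton,
        ← BCH_vec_apply φ (s ^ C.M j • C.U j + _), map_add, LinearMap.map_smulₛₗ,
        LinearMap.map_smulₛₗ, map_pow] at h1
      show φ s ^ C.M j • (φ ∘ C.U j) + (MvPolynomial.eval ![φ s, φ t]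
        (hg ((C.g j).map φ) (C.M j))) • (φ ∘ C.V j) ∈ _
      have h5 : MvPolynomial.eval ![φ s, φ t] (hg ((C.g j).map φ) (C.M j)) =
          φ (MvPolynomial.eval ![s, t] (hg (C.g j) (C.M j))) := by
        rw [BCH_hg, MvPolynomial.eval_map]
        have h6 : (![φ s, φ t] : Fin 2 → F') = φ ∘ ![s, t] := by
          funext i
          fin_cases i <;> rfl
        rw [h6, MvPolynomial.eval₂_comp]
      rw [h5]
      exact h1

/-- the span of the images of a subspace of forms under an automorphism of the field -/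
theorem hf_span_map {n r : ℕ} (W : Submodule F (A4 F)) (hW : W ≤ Fm F r) :
    hf (Ideal.span ((Submodule.span F' (MvPolynomial.map φ '' (W : Set (A4 F))) :
      Submodule F' (A4 F')) : Set (A4 F'))) n = hf (Ideal.span (W : Set (A4 F))) n := by
  have h1 : Ideal.span ((Submodule.span F' (MvPolynomial.map φ '' (W : Set (A4 F))) :
      Submodule F' (A4 F')) : Set (A4 F')) =
      (Ideal.span (W : Set (A4 F))).map (MvPolynomial.map φ) := by
    rw [Ideal.map_span]
    exact Submodule.span_span_of_tower F' (A4 F') _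
  rw [h1, hf_map φ (HI_span fun f hf => ⟨r, hW hf⟩)]

end Pool.H33.G

end S_BCH

section S_VAL

/-! # VAL: extension of a specialisation to a valuation subring

Let `A` be the subring of `K` generated by (the image of) `k` and the `a i`, i.e. the range of
`aeval a : MvPolynomial σ k → K`, and `P ⊆ A` the image of the kernel of `eval a0`; by `h` the ideal `P` is
proper (`1 ∉ P`: if `aeval a φ = 1` with `eval a0 φ = 0` then `φ - 1` contradicts `h`).  Apply
`Ideal.image_subset_nonunits_valuationSubring`. -/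

open MvPolynomial Module

namespace Pool.H33.G

theorem exists_valuation {k K σ : Type} [Field k] [Field K] [Algebra k K] (a : σ → K) (a0 : σ → k)
    (h : ∀ φ : MvPolynomial σ k, aeval a φ = 0 → MvPolynomial.eval a0 φ = 0) :
    ∃ R : ValuationSubring K, (∀ c : k, algebraMap k K c ∈ R) ∧
      ∀ i, a i ∈ R ∧ a i - algebraMap k K (a0 i) ∈ R.nonunits := by
  set f : MvPolynomial σ k →+* K := (aeval a : MvPolynomial σ k →ₐ[k] K).toRingHom with hf
  set I : Ideal f.range := (RingHom.ker (MvPolynomial.eval a0)).map f.rangeRestrict with hI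
  have hmem : ∀ x : f.range, x ∈ I → ∃ φ, MvPolynomial.eval a0 φ = 0 ∧ f.rangeRestrict φ = x := by
    intro x hx
    obtain ⟨φ, hφ, hφx⟩ := (Ideal.mem_map_iff_of_surjective _ f.rangeRestrict_surjective).1 hx
    exact ⟨φ, hφ, hφx⟩
  have hne : I ≠ ⊤ := by
    rw [Ideal.ne_top_iff_one]
    intro h1
    obtain ⟨φ, hφ, hφ1⟩ := hmem 1 h1
    have h2 : f φ = 1 := congrArg Subtype.val hφ1
    have h3 : aeval a (φ - 1) = 0 := by
      rw [map_sub, map_one]
      exact sub_eq_zero.2 h2
    have h4 := h _ h3
    rw [map_sub, hφ, map_one] at h4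
    simp at h4
  obtain ⟨R, hR1, hR2⟩ := Ideal.image_subset_nonunits_valuationSubring I hne
  refine ⟨R, ?_, ?_⟩
  · intro c
    apply hR1
    exact ⟨C c, by rw [hf]; simp⟩
  · intro i
    constructor
    · apply hR1
      exact ⟨X i, by rw [hf]; simp⟩
    · apply hR2
      refine ⟨f.rangeRestrict (X i - C (a0 i)), ?_, ?_⟩
      · apply Ideal.mem_map_of_mem
        rw [RingHom.mem_ker]
        simp
      · show f (X i - C (a0 i)) = _
        rw [hf]
        simp

/-- the homomorphism from `k` to the residue field -/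
noncomputable def resHom {k K : Type} [Field k] [Field K] [Algebra k K] (R : ValuationSubring K)
    (h : ∀ c : k, algebraMap k K c ∈ R) : k →+* IsLocalRing.ResidueField R :=
  (IsLocalRing.residue R).comp ((algebraMap k K).codRestrict R h)

end Pool.H33.G

end S_VAL

section S_ULT

/-! # ULT: ultraproducts of fields and of families of forms

`UK 𝒰 k` is the ultrapower of `k`.  Algebraically closed: see the proof of `KK_isAlgClosed` in
`Pool/Agent/H33/V/Acl.lean` (same proof for any ultrafilter).  `germ_hf`: the vectors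
`monomial ν 1 * v x a` (`ν` of degree `n - r`, `a : Fin m`) span the degree `n` part of
`Ideal.span (range (v x))` (if `n ≥ r`; for `n < r` both sides are the full space). As there are finitely
many such vectors, some subset `Q` of the index set is such that for `𝒰`-almost all `x` the subfamily is a basis of
the span; the same subset is a basis of the span of the germs (relations pass to germs and back). -/

open MvPolynomial Module Filter

namespace Pool.H33.G

/-- the ultrapower of `k` -/
abbrev UK {X : Type} (𝒰 : Ultrafilter X) (k : Type) [Field k] : Type := (𝒰 : Filter X).Germ k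

noncomputable instance UKalg {X : Type} (𝒰 : Ultrafilter X) (k : Type) [Field k] :
    Algebra k (UK 𝒰 k) :=
  ((Germ.coeRingHom (𝒰 : Filter X)).comp (Pi.constRingHom X k)).toAlgebra

theorem UK_algebraMap {X : Type} (𝒰 : Ultrafilter X) (k : Type) [Field k] (c : k) :
    algebraMap k (UK 𝒰 k) c = ((fun _ => c : X → k) : (𝒰 : Filter X).Germ k) := rfl

/-- the germ homomorphism -/
noncomputable def ULT_g {X : Type} (𝒰 : Ultrafilter X) (k : Type) [Field k] : (X → k) →+* UK 𝒰 k :=
  Germ.coeRingHom (𝒰 : Filter X)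

theorem ULT_g_apply {X : Type} (𝒰 : Ultrafilter X) {k : Type} [Field k] (f : X → k) :
    ULT_g 𝒰 k f = (f : (𝒰 : Filter X).Germ k) := rfl

theorem ULT_g_surj {X : Type} (𝒰 : Ultrafilter X) {k : Type} [Field k] (y : UK 𝒰 k) :
    ∃ f : X → k, ULT_g 𝒰 k f = y := by
  obtain ⟨f, hf⟩ := Quotient.exists_rep y
  exact ⟨f, hf⟩

theorem ULT_g_eq {X : Type} (𝒰 : Ultrafilter X) {k : Type} [Field k] {f f' : X → k} :
    ULT_g 𝒰 k f = ULT_g 𝒰 k f' ↔ ∀ᶠ x in (𝒰 : Filter X), f x = f' x := by
  rw [ULT_g_apply, ULT_g_apply, Germ.coe_eq]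
  rfl

theorem ULT_g_eq_zero {X : Type} (𝒰 : Ultrafilter X) {k : Type} [Field k] {f : X → k} :
    ULT_g 𝒰 k f = 0 ↔ ∀ᶠ x in (𝒰 : Filter X), f x = 0 := by
  rw [← map_zero (ULT_g 𝒰 k), ULT_g_eq]
  rfl

theorem ULT_root {k : Type} [Field k] [IsAlgClosed k] (d : ℕ) (hd : 0 < d) (a : ℕ → k) :
    ∃ r : k, r ^ d + ∑ i ∈ Finset.range d, a i * r ^ i = 0 := by
  let q : Polynomial k := ∑ i ∈ Finset.range d, Polynomial.C (a i) * Polynomial.X ^ i
  have hq : q.degree < d := by
    refine lt_of_le_of_lt (Polynomial.degree_sum_le _ _) ?_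
    refine (Finset.sup_lt_iff (WithBot.bot_lt_coe d)).mpr ?_
    intro i hi
    refine lt_of_le_of_lt (Polynomial.degree_C_mul_X_pow_le i (a i)) ?_
    exact WithBot.coe_lt_coe.mpr (Finset.mem_range.mp hi)
  have hdeg : (Polynomial.X ^ d + q : Polynomial k).degree = (d : WithBot ℕ) := by
    rw [Polynomial.degree_add_eq_left_of_degree_lt]
    · exact Polynomial.degree_X_pow d
    · rw [Polynomial.degree_X_pow]; exact hq
  obtain ⟨r, hr⟩ := IsAlgClosed.exists_root (Polynomial.X ^ d + q) (by
    rw [hdeg]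
    exact_mod_cast hd.ne')
  refine ⟨r, ?_⟩
  have h1 : (Polynomial.X ^ d + q : Polynomial k).eval r = 0 := hr
  rw [Polynomial.eval_add, Polynomial.eval_pow, Polynomial.eval_X,
    Polynomial.eval_finsetSum] at h1
  simpa using h1

theorem UK_isAlgClosed {X : Type} (𝒰 : Ultrafilter X) (k : Type) [Field k] [IsAlgClosed k] :
    IsAlgClosed (UK 𝒰 k) := by
  apply IsAlgClosed.of_exists_root
  intro p hp hirr
  have hd : 0 < p.natDegree := hirr.natDegree_pos
  choose a ha using fun i : ℕ => ULT_g_surj 𝒰 (p.coeff i)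
  choose r hr using fun x : X => ULT_root p.natDegree hd (fun i => a i x)
  refine ⟨ULT_g 𝒰 k r, ?_⟩
  rw [Polynomial.eval_eq_sum_range, Finset.sum_range_succ]
  have h1 : p.coeff p.natDegree = 1 := hp
  rw [h1, one_mul]
  have h2 : ULT_g 𝒰 k (r ^ p.natDegree + ∑ i ∈ Finset.range p.natDegree, a i * r ^ i) = 0 := by
    have h3 : (r ^ p.natDegree + ∑ i ∈ Finset.range p.natDegree, a i * r ^ i) = 0 := by
      funext x
      rw [Pi.add_apply, Finset.sum_apply]
      exact hr x
    rw [h3, map_zero]
  rw [map_add, map_sum, map_pow] at h2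
  rw [add_comm, ← h2]
  congr 1
  refine Finset.sum_congr rfl fun i _ => ?_
  rw [map_mul, map_pow, ha]

theorem UK_charZero {X : Type} (𝒰 : Ultrafilter X) (k : Type) [Field k] [CharZero k] :
    CharZero (UK 𝒰 k) :=
  charZero_of_injective_algebraMap (algebraMap k (UK 𝒰 k)).injective

/-- the germ of a family of forms of degree `r` -/
noncomputable def germP {X : Type} (𝒰 : Ultrafilter X) {k : Type} [Field k] (r : ℕ) (f : X → A4 k) :
    A4 (UK 𝒰 k) :=
  ∑ μ ∈ Finset.finsuppAntidiag (Finset.univ : Finset (Fin 4)) r,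
    monomial μ (((fun x => coeff μ (f x)) : X → k) : (𝒰 : Filter X).Germ k)

theorem ULT_anti {n : ℕ} {μ : Fin 4 →₀ ℕ} :
    μ ∈ Finset.finsuppAntidiag (Finset.univ : Finset (Fin 4)) n ↔ μ.degree = n := by
  rw [Finset.mem_finsuppAntidiag, Finsupp.degree_eq_sum]
  simp

theorem germP_mem {X : Type} (𝒰 : Ultrafilter X) {k : Type} [Field k] (r : ℕ) (f : X → A4 k) :
    germP 𝒰 r f ∈ Fm (UK 𝒰 k) r := by
  unfold germP
  refine Submodule.sum_mem _ fun μ hμ => ?_
  exact isHomogeneous_monomial _ (ULT_anti.mp hμ)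

theorem ULT_coeff_zero {F : Type} [Field F] {n : ℕ} {f : A4 F} (hf' : f ∈ Fm F n) {μ : Fin 4 →₀ ℕ}
    (h : μ.degree ≠ n) : coeff μ f = 0 := by
  by_contra h0
  exact h ((mem_homogeneousSubmodule n f).mp hf' h0 |> fun h' => by
    rw [Finsupp.degree_eq_weight_one]; exact h')

theorem coeff_germP {X : Type} (𝒰 : Ultrafilter X) {k : Type} [Field k] (r : ℕ) {f : X → A4 k}
    (hf' : ∀ x, f x ∈ Fm k r) (μ : Fin 4 →₀ ℕ) :
    coeff μ (germP 𝒰 r f) = (((fun x => coeff μ (f x)) : X → k) : (𝒰 : Filter X).Germ k) := by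
  unfold germP
  rw [coeff_sum]
  simp only [coeff_monomial]
  by_cases h : μ.degree = r
  · rw [Finset.sum_eq_single μ]
    · rw [if_pos rfl]
    · intro b _ hb; rw [if_neg hb]
    · intro h2; exact absurd (ULT_anti.mpr h) h2
  · rw [Finset.sum_eq_zero]
    · have : (fun x => coeff μ (f x)) = (0 : X → k) := by
        funext x; exact ULT_coeff_zero (hf' x) h
      rw [this]; rfl
    · intro b hb
      rw [if_neg]
      rintro rfl
      exact h (ULT_anti.mp hb)

theorem ULT_coeff_germP {X : Type} (𝒰 : Ultrafilter X) {k : Type} [Field k] (r : ℕ) {f : X → A4 k}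
    (hf' : ∀ x, f x ∈ Fm k r) (μ : Fin 4 →₀ ℕ) :
    coeff μ (germP 𝒰 r f) = ULT_g 𝒰 k (fun x => coeff μ (f x)) := coeff_germP 𝒰 r hf' μ

/-- ranks of families of vectors pass to germs -/
theorem ULT_rank {X : Type} (𝒰 : Ultrafilter X) {k : Type} [Field k] {I J : Type} [Fintype I]
    [Fintype J] (u : X → I → J → k) {ρ : ℕ}
    (h : ∀ᶠ x in (𝒰 : Filter X), finrank k (Submodule.span k (Set.range (u x))) = ρ) :
    finrank (UK 𝒰 k) (Submodule.span (UK 𝒰 k)
      (Set.range fun i => fun j => ULT_g 𝒰 k (fun x => u x i j))) = ρ := by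
  classical
  have hQ : ∀ x, ∃ Q : Finset I, LinearIndependent k (fun i : Q => u x i) ∧
      Submodule.span k (Set.range fun i : Q => u x i) = Submodule.span k (Set.range (u x)) := by
    intro x
    obtain ⟨κ, a, ha, hsp, hli⟩ := exists_linearIndependent' k (u x)
    have : Finite κ := Finite.of_injective a ha
    have : Fintype κ := Fintype.ofFinite κ
    refine ⟨Finset.univ.image a, ?_, ?_⟩
    · let e' : κ → (Finset.univ.image a : Finset I) := fun i => ⟨a i, by simp⟩
      have he' : Function.Bijective e' := by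
        constructor
        · intro i i' hii
          exact ha (congrArg Subtype.val hii)
        · rintro ⟨b, hb⟩
          simp only [Finset.mem_image, Finset.mem_univ, true_and] at hb
          obtain ⟨i, rfl⟩ := hb
          exact ⟨i, rfl⟩
      exact (linearIndependent_equiv' (Equiv.ofBijective e' he') rfl).mp hli
    · rw [← hsp]
      congr 1
      ext y
      constructor
      · rintro ⟨⟨b, hb⟩, rfl⟩
        simp only [Finset.mem_image, Finset.mem_univ, true_and] at hb
        obtain ⟨i, rfl⟩ := hb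
        exact ⟨i, rfl⟩
      · rintro ⟨i, rfl⟩
        exact ⟨⟨a i, by simp⟩, rfl⟩
  have h1 : ∀ᶠ x in (𝒰 : Filter X), ∃ Q : Finset I, (LinearIndependent k (fun i : Q => u x i) ∧
      Submodule.span k (Set.range fun i : Q => u x i) = Submodule.span k (Set.range (u x))) ∧
      finrank k (Submodule.span k (Set.range (u x))) = ρ := by
    filter_upwards [h] with x hx
    obtain ⟨Q, hQ1⟩ := hQ x
    exact ⟨Q, hQ1, hx⟩
  rw [Ultrafilter.eventually_exists_iff] at h1
  obtain ⟨Q, hQ2⟩ := h1
  have hcard : Q.card = ρ := by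
    have : (𝒰 : Filter X).NeBot := inferInstance
    obtain ⟨x, hx⟩ := hQ2.exists
    rw [← hx.2, ← hx.1.2, finrank_span_eq_card hx.1.1, Fintype.card_coe]
  set U : I → J → UK 𝒰 k := fun i => fun j => ULT_g 𝒰 k (fun x => u x i j) with hU
  have hli : LinearIndependent (UK 𝒰 k) (fun i : Q => U i) := by
    rw [Fintype.linearIndependent_iff]
    intro g hg i
    choose c hc using fun i => ULT_g_surj 𝒰 (g i)
    rw [← hc i, ULT_g_eq_zero]
    have h2 : ∀ j, ∀ᶠ x in (𝒰 : Filter X), (∑ i : Q, c i x * u x i j) = 0 := by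
      intro j
      have h3 := congrFun hg j
      rw [Finset.sum_apply] at h3
      have h4 : ULT_g 𝒰 k (∑ i : Q, c i * fun x => u x i j) = 0 := by
        rw [map_sum]
        refine Eq.trans ?_ h3
        refine Finset.sum_congr rfl fun i _ => ?_
        rw [map_mul, hc i]
        rfl
      rw [ULT_g_eq_zero] at h4
      filter_upwards [h4] with x hx
      rw [Finset.sum_apply] at hx
      exact hx
    have h5 : ∀ᶠ x in (𝒰 : Filter X), ∀ j, (∑ i : Q, c i x * u x i j) = 0 := eventually_all.mpr h2
    filter_upwards [h5, hQ2] with x hx hx2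
    have h6 := Fintype.linearIndependent_iff.mp hx2.1.1 (fun i => c i x) (by
      funext j
      rw [Finset.sum_apply]
      exact hx j) i
    exact h6
  have hsp : Submodule.span (UK 𝒰 k) (Set.range fun i : Q => U i) =
      Submodule.span (UK 𝒰 k) (Set.range U) := by
    apply le_antisymm
    · apply Submodule.span_mono
      rintro _ ⟨i, rfl⟩
      exact ⟨i, rfl⟩
    · rw [Submodule.span_le]
      rintro _ ⟨i, rfl⟩
      have h2 : ∀ x, ∃ c : Q → k, (∀ᶠ y in (𝒰 : Filter X), True) ∧
          ((LinearIndependent k (fun i : Q => u x i) ∧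
          Submodule.span k (Set.range fun i : Q => u x i) = Submodule.span k (Set.range (u x))) →
          ∑ q : Q, c q • u x q = u x i) := by
        intro x
        by_cases hx : Submodule.span k (Set.range fun i : Q => u x i) =
            Submodule.span k (Set.range (u x))
        · have h3 : u x i ∈ Submodule.span k (Set.range fun i : Q => u x i) := by
            rw [hx]; exact Submodule.subset_span ⟨i, rfl⟩
          obtain ⟨c, hc⟩ := (Submodule.mem_span_range_iff_exists_fun k).mp h3
          exact ⟨c, by simp, fun _ => hc⟩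
        · exact ⟨0, by simp, fun h => absurd h.2 hx⟩
      choose c hc using h2
      refine (Submodule.mem_span_range_iff_exists_fun _).mpr
        ⟨fun q => ULT_g 𝒰 k (fun x => c x q), ?_⟩
      funext j
      rw [Finset.sum_apply]
      have h3 : (∑ q : Q, (ULT_g 𝒰 k (fun x => c x q) • U q) j) =
          ULT_g 𝒰 k (∑ q : Q, (fun x => c x q) * (fun x => u x q j)) := by
        rw [map_sum]
        refine Finset.sum_congr rfl fun q _ => ?_
        rw [map_mul]
        rfl
      rw [h3, hU]
      simp only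
      rw [ULT_g_eq]
      filter_upwards [hQ2] with x hx
      have h4 := congrFun ((hc x).2 hx.1) j
      rw [Finset.sum_apply] at h4
      rw [Finset.sum_apply]
      exact h4
  rw [← hsp, finrank_span_eq_card hli, Fintype.card_coe, hcard]

/-- the index set of monomials of degree `n` -/
abbrev ULT_J (n : ℕ) : Type := {μ // μ ∈ Finset.finsuppAntidiag (Finset.univ : Finset (Fin 4)) n}

/-- coefficient vector of degree `n` -/
noncomputable def ULT_T (F : Type) [Field F] (n : ℕ) : A4 F →ₗ[F] (ULT_J n → F) where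
  toFun f := fun μ => coeff μ.1 f
  map_add' a b := by funext μ; simp
  map_smul' c a := by funext μ; simp

theorem ULT_T_inj {F : Type} [Field F] {n : ℕ} {f : A4 F} (hf' : f ∈ Fm F n)
    (h : ULT_T F n f = 0) : f = 0 := by
  ext μ
  rw [coeff_zero]
  by_cases hμ : μ.degree = n
  · exact congrFun h ⟨μ, ULT_anti.mpr hμ⟩
  · exact ULT_coeff_zero hf' hμ

theorem ULT_finrank_map {F : Type} [Field F] {n : ℕ} {W : Submodule F (A4 F)} (hW : W ≤ Fm F n) :
    finrank F (W.map (ULT_T F n)) = finrank F W := by
  have h1 : Function.Injective ((ULT_T F n).domRestrict W) := by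
    rw [← LinearMap.ker_eq_bot, LinearMap.ker_eq_bot']
    rintro ⟨f, hf'⟩ h
    exact Subtype.ext (ULT_T_inj (hW hf') h)
  rw [← LinearMap.finrank_range_of_inj h1, LinearMap.range_domRestrict]

theorem ULT_finrank_Fm (F : Type) [Field F] (n : ℕ) :
    finrank F (Fm F n) = Fintype.card (ULT_J n) := by
  rw [← ULT_finrank_map (le_refl (Fm F n))]
  have h : (Fm F n).map (ULT_T F n) = ⊤ := by
    rw [eq_top_iff]
    intro y _
    refine ⟨∑ μ : ULT_J n, monomial μ.1 (y μ), ?_, ?_⟩
    · refine Submodule.sum_mem _ fun μ _ => ?_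
      exact isHomogeneous_monomial _ (ULT_anti.mp μ.2)
    · funext ν
      change coeff ν.1 (∑ μ : ULT_J n, monomial μ.1 (y μ)) = y ν
      rw [coeff_sum]
      simp only [coeff_monomial]
      rw [Finset.sum_eq_single ν]
      · rw [if_pos rfl]
      · intro b _ hb
        rw [if_neg]
        intro h; exact hb (Subtype.ext h)
      · intro h; exact absurd (Finset.mem_univ _) h
  rw [h, finrank_top, finrank_fintype_fun_eq_card]

/-- homogeneous components of a product with a form -/
theorem ULT_comp_mul {F : Type} [Field F] {r n : ℕ} {q v : A4 F} (hv : v ∈ Fm F r) :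
    homogeneousComponent n (q * v) =
      if r ≤ n then homogeneousComponent (n - r) q * v else 0 := by
  have h0 : q * v = ∑ i ∈ Finset.range (q.totalDegree + 1), homogeneousComponent i q * v := by
    rw [← Finset.sum_mul, sum_homogeneousComponent]
  have h1 : ∀ i, homogeneousComponent n (homogeneousComponent i q * v) =
      if n = i + r then homogeneousComponent i q * v else 0 := by
    intro i
    exact homogeneousComponent_of_mem
      (IsHomogeneous.mul (homogeneousComponent_isHomogeneous i q) hv)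
  rw [h0, map_sum]
  simp only [h1]
  split_ifs with hr
  · by_cases h2 : n - r ∈ Finset.range (q.totalDegree + 1)
    · rw [Finset.sum_eq_single (n - r)]
      · rw [if_pos (by omega)]
      · intro b _ hb; rw [if_neg (by omega)]
      · intro h; exact absurd h2 h
    · rw [Finset.sum_eq_zero]
      · rw [homogeneousComponent_eq_zero, zero_mul]
        simp only [Finset.mem_range, not_lt] at h2
        omega
      · intro b hb
        rw [if_neg]
        rintro rfl
        apply h2
        rw [Nat.add_sub_cancel]; exact hb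
  · rw [Finset.sum_eq_zero]
    intro b _
    rw [if_neg (by omega)]

/-- the degree `n` part of an ideal generated by forms of degree `r` -/
theorem ULT_part {F : Type} [Field F] {m r n : ℕ} {v : Fin m → A4 F} (hv : ∀ a, v a ∈ Fm F r)
    (hr : r ≤ n) : part (Ideal.span (Set.range v)) n =
      Submodule.span F (Set.range fun i : ULT_J (n - r) × Fin m => monomial i.1.1 (1 : F) * v i.2) := by
  apply le_antisymm
  · rintro p ⟨hp1, hp2⟩
    have hp1' : p ∈ Ideal.span (Set.range v) := hp1
    rw [Ideal.mem_span_range_iff_exists_fun] at hp1'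
    obtain ⟨c, hc⟩ := hp1'
    have hp3 : homogeneousComponent n p = p := homogeneousComponent_eq_self hp2
    rw [← hp3, ← hc, map_sum]
    refine Submodule.sum_mem _ fun a _ => ?_
    rw [ULT_comp_mul (hv a), if_pos hr]
    have h1 : homogeneousComponent (n - r) (c a) =
        ∑ μ : ULT_J (n - r), coeff μ.1 (c a) • monomial μ.1 (1 : F) := by
      ext ν
      rw [coeff_homogeneousComponent, coeff_sum]
      simp only [coeff_smul, coeff_monomial, smul_eq_mul, mul_ite, mul_one, mul_zero]
      split_ifs with h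
      · rw [Finset.sum_eq_single ⟨ν, ULT_anti.mpr h⟩]
        · rw [if_pos rfl]
        · intro b _ hb
          rw [if_neg]
          intro h; exact hb (Subtype.ext h)
        · intro h; exact absurd (Finset.mem_univ _) h
      · rw [Finset.sum_eq_zero]
        intro b _
        rw [if_neg]
        intro h2
        apply h
        rw [← h2]
        exact ULT_anti.mp b.2
    rw [h1, Finset.sum_mul]
    refine Submodule.sum_mem _ fun μ _ => ?_
    rw [smul_mul_assoc]
    exact Submodule.smul_mem _ _ (Submodule.subset_span ⟨(μ, a), rfl⟩)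
  · rw [Submodule.span_le]
    rintro _ ⟨i, rfl⟩
    refine ⟨?_, ?_⟩
    · change monomial i.1.1 (1 : F) * v i.2 ∈ Ideal.span (Set.range v)
      exact Ideal.mul_mem_left _ _ (Ideal.subset_span ⟨i.2, rfl⟩)
    · have h1 : (monomial i.1.1 (1 : F)) ∈ Fm F (n - r) :=
        isHomogeneous_monomial _ (ULT_anti.mp i.1.2)
      have h2 := IsHomogeneous.mul h1 (hv i.2)
      rw [Nat.sub_add_cancel hr] at h2
      exact h2

theorem ULT_part_lt {F : Type} [Field F] {m r n : ℕ} {v : Fin m → A4 F} (hv : ∀ a, v a ∈ Fm F r)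
    (hr : n < r) : part (Ideal.span (Set.range v)) n = ⊥ := by
  rw [eq_bot_iff]
  rintro p ⟨hp1, hp2⟩
  have hp1' : p ∈ Ideal.span (Set.range v) := hp1
  rw [Ideal.mem_span_range_iff_exists_fun] at hp1'
  obtain ⟨c, hc⟩ := hp1'
  have hp3 : homogeneousComponent n p = p := homogeneousComponent_eq_self hp2
  rw [← hp3, ← hc, map_sum, Finset.sum_eq_zero]
  · exact Submodule.zero_mem _
  · intro a _
    rw [ULT_comp_mul (hv a), if_neg (by omega)]

theorem ULT_hf {F : Type} [Field F] {m r n : ℕ} {v : Fin m → A4 F} (hv : ∀ a, v a ∈ Fm F r)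
    (hr : r ≤ n) : hf (Ideal.span (Set.range v)) n = (Fintype.card (ULT_J n) : ℤ) -
      finrank F (Submodule.span F (Set.range fun i : ULT_J (n - r) × Fin m =>
        ULT_T F n (monomial i.1.1 (1 : F) * v i.2))) := by
  unfold hf
  rw [ULT_finrank_Fm, ← ULT_finrank_map (W := part (Ideal.span (Set.range v)) n) inf_le_right,
    ULT_part hv hr, Submodule.map_span, ← Set.range_comp]
  rfl

theorem germ_hf {X : Type} (𝒰 : Ultrafilter X) {k : Type} [Field k] {m r n : ℕ}
    (v : X → Fin m → A4 k) (hv : ∀ x a, v x a ∈ Fm k r) {c : ℤ}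
    (h : ∀ᶠ x in (𝒰 : Filter X), hf (Ideal.span (Set.range (v x))) n = c) :
    hf (Ideal.span (Set.range fun a => germP 𝒰 r fun x => v x a)) n = c := by
  classical
  by_cases hr : r ≤ n
  · rw [ULT_hf (fun a => germP_mem 𝒰 r _) hr]
    have h1 : ∀ᶠ x in (𝒰 : Filter X), finrank k (Submodule.span k
        (Set.range fun i : ULT_J (n - r) × Fin m => ULT_T k n (monomial i.1.1 (1 : k) * v x i.2))) =
        ((Fintype.card (ULT_J n) : ℤ) - c).toNat := by
      filter_upwards [h] with x hx
      rw [ULT_hf (hv x) hr] at hx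
      omega
    have h2 := ULT_rank 𝒰 (fun x (i : ULT_J (n - r) × Fin m) =>
      ULT_T k n (monomial i.1.1 (1 : k) * v x i.2)) h1
    have h3 : (fun (i : ULT_J (n - r) × Fin m) => ULT_T (UK 𝒰 k) n (monomial i.1.1 (1 : UK 𝒰 k) *
        germP 𝒰 r fun x => v x i.2)) = fun i => fun j => ULT_g 𝒰 k (fun x =>
        ULT_T k n (monomial i.1.1 (1 : k) * v x i.2) j) := by
      funext i j
      change coeff j.1 (monomial i.1.1 (1 : UK 𝒰 k) * germP 𝒰 r fun x => v x i.2) =
        ULT_g 𝒰 k (fun x => coeff j.1 (monomial i.1.1 (1 : k) * v x i.2))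
      simp only [coeff_monomial_mul']
      split_ifs with h4
      · rw [ULT_coeff_germP 𝒰 r (fun x => hv x i.2)]
        simp only [one_mul]
      · exact (map_zero (ULT_g 𝒰 k)).symm
    rw [h3, h2]
    have : (𝒰 : Filter X).NeBot := inferInstance
    obtain ⟨x, hx, hx1⟩ := (h.and h1).exists
    rw [ULT_hf (hv x) hr] at hx
    omega
  · have : (𝒰 : Filter X).NeBot := inferInstance
    obtain ⟨x, hx⟩ := h.exists
    rw [← hx]
    unfold hf
    rw [ULT_part_lt (hv x) (by omega), ULT_part_lt (fun a => germP_mem 𝒰 r _) (by omega),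
      ULT_finrank_Fm, ULT_finrank_Fm, finrank_bot, finrank_bot]

/-- membership in the span passes to germs -/
theorem germ_span {X : Type} (𝒰 : Ultrafilter X) {k : Type} [Field k] {m r : ℕ}
    (v : X → Fin m → A4 k) (hv : ∀ x a, v x a ∈ Fm k r) {f : X → A4 k} (hf' : ∀ x, f x ∈ Fm k r)
    (h : ∀ᶠ x in (𝒰 : Filter X), f x ∈ Submodule.span k (Set.range (v x))) :
    germP 𝒰 r f ∈ Submodule.span (UK 𝒰 k) (Set.range fun a => germP 𝒰 r fun x => v x a) := by
  classical
  have h2 : ∀ x, ∃ c : Fin m → k, f x ∈ Submodule.span k (Set.range (v x)) →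
      ∑ a, c a • v x a = f x := by
    intro x
    by_cases hx : f x ∈ Submodule.span k (Set.range (v x))
    · obtain ⟨c, hc⟩ := (Submodule.mem_span_range_iff_exists_fun k).mp hx
      exact ⟨c, fun _ => hc⟩
    · exact ⟨0, fun h => absurd h hx⟩
  choose c hc using h2
  refine (Submodule.mem_span_range_iff_exists_fun _).mpr
    ⟨fun a => ULT_g 𝒰 k (fun x => c x a), ?_⟩
  ext μ
  rw [ULT_coeff_germP 𝒰 r hf', coeff_sum]
  have h3 : (∑ a : Fin m, coeff μ (ULT_g 𝒰 k (fun x => c x a) • germP 𝒰 r fun x => v x a)) =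
      ULT_g 𝒰 k (∑ a : Fin m, (fun x => c x a) * (fun x => coeff μ (v x a))) := by
    rw [map_sum]
    refine Finset.sum_congr rfl fun a _ => ?_
    rw [map_mul, coeff_smul, ULT_coeff_germP 𝒰 r (fun x => hv x a)]
    rfl
  rw [h3, ULT_g_eq]
  filter_upwards [h] with x hx
  rw [Finset.sum_apply, ← hc x hx, coeff_sum]
  refine Finset.sum_congr rfl fun a _ => ?_
  rw [coeff_smul]
  rfl

end Pool.H33.G

end S_ULT

section S_GNA

/-! # GNA (part of GEN): the generic point of an irreducible set of points of the Hilbert scheme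

`exists_ultra`: the sets `{S | ∃ U open, (U ∩ H).Nonempty ∧ U ∩ H ⊆ S}` form a proper filter as `H` is
irreducible; take an ultrafilter finer than it.
`exists_frame`: every `w` has an echelon basis `v` for some pivot monomials `μ`: choose a basis
(`finrank`), the coefficient matrix has full row rank, choose `m` independent columns, multiply by the inverse.
`generic_point`: `K = UK 𝒰 k` for `𝒰` from `exists_ultra`, index type `X = HilbPt k d g r`.  Take any `w0 ∈ H` and
`μ, v0` from `exists_frame`; `basicOpen m μ 1 ∋ w0` is in `𝒰`; for `x` in it let `v x` be the frame (else `0`).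
`I = Ideal.span (range (germP 𝒰 r (v · a)))`, `germ_hf`.  For another `w ∈ H` with frame `μ', v0'` and
chart frames `v'`, the two spans agree by `germ_span`.  The hypothesis of `exists_valuation` for
`a = coefficients of germP 𝒰 r (v' · a)`, `a0 = coefficients of v0'`: if `aeval a φ = 0` then `φ` vanishes at the
coefficients of `v' x` for almost all `x`; if `eval a0 φ ≠ 0` then `w ∈ basicOpen m μ' φ`, which is then in
`𝒰`, and the frame is unique, contradiction.  Finally for `f ∈ w.1`, `f = Σ c_a v0' a`, and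
`Σ c_a germP (v' · a)` is an element of `I` with coefficients in `R` and reduction `map (resHom R hR) f`. -/

open MvPolynomial Module Filter

namespace Pool.H33.G

variable {k : Type} [Field k] {d : ℕ} {g : ℤ} {r : ℕ}

/-- the filter of dense open subsets of an irreducible set -/
def GNA_filter {X : Type} [TopologicalSpace X] (H : Set X) (hH : IsIrreducible H) : Filter X where
  sets := {S | ∃ U, IsOpen U ∧ (U ∩ H).Nonempty ∧ U ∩ H ⊆ S}
  univ_sets := ⟨Set.univ, isOpen_univ, by rw [Set.univ_inter]; exact hH.1, Set.subset_univ _⟩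
  sets_of_superset := by
    rintro S T ⟨U, hU, hne, hs⟩ hST
    exact ⟨U, hU, hne, hs.trans hST⟩
  inter_sets := by
    rintro S T ⟨U, hU, hne, hs⟩ ⟨V, hV, hne', hs'⟩
    refine ⟨U ∩ V, hU.inter hV, ?_, ?_⟩
    · have h := hH.2 U V hU hV (by rwa [Set.inter_comm]) (by rwa [Set.inter_comm])
      rwa [Set.inter_comm]
    · rintro x ⟨⟨h1, h2⟩, h3⟩
      exact ⟨hs ⟨h1, h3⟩, hs' ⟨h2, h3⟩⟩

theorem exists_ultra (H : Set (HilbPt k d g r)) (hH : IsIrreducible H) :
    ∃ 𝒰 : Ultrafilter (HilbPt k d g r), H ∈ 𝒰 ∧ ∀ U, IsOpen U → (U ∩ H).Nonempty → U ∈ 𝒰 := by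
  have hne : (GNA_filter H hH).NeBot := by
    rw [← Filter.forall_mem_nonempty_iff_neBot]
    rintro S ⟨U, _, hne, hs⟩
    exact hne.mono hs
  refine ⟨Ultrafilter.of (GNA_filter H hH), ?_, ?_⟩
  · exact Ultrafilter.of_le _ ⟨Set.univ, isOpen_univ, by rw [Set.univ_inter]; exact hH.1,
      Set.inter_subset_right⟩
  · intro U hU hne'
    exact Ultrafilter.of_le _ ⟨U, hU, hne', Set.inter_subset_left⟩

theorem GNA_frame (W : Submodule k (A4 k)) [FiniteDimensional k W] :
    ∃ (m : ℕ) (μ : Fin m → (Fin 4 →₀ ℕ)) (v : Fin m → A4 k),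
    Submodule.span k (Set.range v) = W ∧ ∀ a b, coeff (μ b) (v a) = if a = b then 1 else 0 := by
  classical
  let L : (Fin 4 →₀ ℕ) → Module.Dual k W := fun μ => (lcoeff k μ).comp W.subtype
  have hL : ∀ μ (w : W), L μ w = coeff μ (w : A4 k) := fun μ w => rfl
  obtain ⟨κ, a, ha, hsp, hli⟩ := exists_linearIndependent' k L
  have : Finite κ := hli.finite
  have : Fintype κ := Fintype.ofFinite κ
  obtain ⟨e⟩ : Nonempty (κ ≃ Fin (Fintype.card κ)) := ⟨Fintype.equivFin κ⟩
  let T : W →ₗ[k] (Fin (Fintype.card κ) → k) := LinearMap.pi fun i => L (a (e.symm i))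
  have hT : ∀ w i, T w i = coeff (a (e.symm i)) (w : A4 k) := fun w i => rfl
  have hinj : Function.Injective T := by
    rw [← LinearMap.ker_eq_bot, LinearMap.ker_eq_bot']
    intro w hw
    have h1 : ∀ φ ∈ Submodule.span k (Set.range (L ∘ a)), φ w = 0 := by
      intro φ hφ
      induction hφ using Submodule.span_induction with
      | mem x hx =>
        obtain ⟨i, rfl⟩ := hx
        have h2 := congrFun hw (e i)
        rw [hT, Equiv.symm_apply_apply] at h2
        exact h2
      | zero => rfl
      | add x y _ _ hx hy => rw [LinearMap.add_apply, hx, hy, add_zero]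
      | smul c x _ hx => rw [LinearMap.smul_apply, hx, smul_zero]
    apply Subtype.ext
    ext μ
    have h3 := h1 (L μ) (by rw [hsp]; exact Submodule.subset_span ⟨μ, rfl⟩)
    rw [hL] at h3
    rw [h3]
    simp
  have hcard : Fintype.card κ ≤ finrank k W := by
    have h1 := hli.fintype_card_le_finrank
    rwa [Subspace.dual_finrank_eq] at h1
  have hfr : finrank k W = finrank k (Fin (Fintype.card κ) → k) := by
    apply le_antisymm
    · exact LinearMap.finrank_le_finrank_of_injective hinj
    · rw [finrank_fintype_fun_eq_card, Fintype.card_fin]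
      exact hcard
  let E := LinearMap.linearEquivOfInjective T hinj hfr
  have hE : ∀ w, E w = T w := fun w => rfl
  refine ⟨Fintype.card κ, fun i => a (e.symm i), fun i => (E.symm (Pi.single i 1) : W), ?_, ?_⟩
  · apply le_antisymm
    · rw [Submodule.span_le]
      rintro _ ⟨i, rfl⟩
      exact (E.symm (Pi.single i 1)).2
    · intro w hw
      have h1 : (⟨w, hw⟩ : W) = ∑ i, (T ⟨w, hw⟩ i) • E.symm (Pi.single i 1) := by
        apply E.injective
        rw [map_sum]
        funext j
        rw [Finset.sum_apply, hE]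
        simp [Pi.single_apply]
      have h2 : w = ∑ i, (T ⟨w, hw⟩ i) • ((E.symm (Pi.single i 1) : W) : A4 k) := by
        have := congrArg (Subtype.val) h1
        rw [Submodule.coe_sum] at this
        exact this
      rw [h2]
      refine Submodule.sum_mem _ fun i _ => Submodule.smul_mem _ _ (Submodule.subset_span ⟨i, rfl⟩)
  · intro i j
    rw [← hT, ← hE, LinearEquiv.apply_symm_apply, Pi.single_apply]
    by_cases h : i = j
    · subst h; simp
    · rw [if_neg h, if_neg (Ne.symm h)]

theorem exists_frame (w : HilbPt k d g r) : ∃ (m : ℕ) (μ : Fin m → (Fin 4 →₀ ℕ)) (v : Fin m → A4 k),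
    Submodule.span k (Set.range v) = w.1 ∧ ∀ a b, coeff (μ b) (v a) = if a = b then 1 else 0 := by
  have : FiniteDimensional k w.1 := Submodule.finiteDimensional_of_le w.2.1
  exact GNA_frame w.1

theorem frame_unique {m : ℕ} {μ : Fin m → (Fin 4 →₀ ℕ)} {v v' : Fin m → A4 k}
    (h : Submodule.span k (Set.range v) = Submodule.span k (Set.range v'))
    (hv : ∀ a b, coeff (μ b) (v a) = if a = b then 1 else 0)
    (hv' : ∀ a b, coeff (μ b) (v' a) = if a = b then 1 else 0) : v = v' := by
  classical
  funext a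
  have h1 : v a ∈ Submodule.span k (Set.range v') := by
    rw [← h]
    exact Submodule.subset_span ⟨a, rfl⟩
  obtain ⟨c, hc⟩ := (Submodule.mem_span_range_iff_exists_fun k).1 h1
  have h2 : ∀ b, c b = if a = b then 1 else 0 := by
    intro b
    rw [← hv a b, ← hc, coeff_sum, Finset.sum_eq_single b]
    · rw [coeff_smul, hv', if_pos rfl, smul_eq_mul, mul_one]
    · intro b' _ hb'
      rw [coeff_smul, hv', if_neg hb', smul_zero]
    · intro hb'
      exact absurd (Finset.mem_univ b) hb'
  rw [← hc, Finset.sum_eq_single a]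
  · rw [h2 a, if_pos rfl, one_smul]
  · intro b _ hb
    rw [h2 b, if_neg (Ne.symm hb), zero_smul]
  · intro hb
    exact absurd (Finset.mem_univ a) hb

end Pool.H33.G

end S_GNA

section S_GEN

/-! # GEN: the generic point of an irreducible set of points of the Hilbert scheme

`exists_ultra`: the sets `{S | ∃ U open, (U ∩ H).Nonempty ∧ U ∩ H ⊆ S}` form a proper filter as `H` is
irreducible; take an ultrafilter finer than it.
`exists_frame`: every `w` has an echelon basis `v` for some pivot monomials `μ`: choose a basis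
(`finrank`), the coefficient matrix has full row rank, choose `m` independent columns, multiply by the inverse.
`generic_point`: `K = UK 𝒰 k` for `𝒰` from `exists_ultra`, index type `X = HilbPt k d g r`.  Take any `w0 ∈ H` and
`μ, v0` from `exists_frame`; `basicOpen m μ 1 ∋ w0` is in `𝒰`; for `x` in it let `v x` be the frame (else `0`).
`I = Ideal.span (range (germP 𝒰 r (v · a)))`, `germ_hf`.  For another `w ∈ H` with frame `μ', v0'` and
chart frames `v'`, the two spans agree by `germ_span`.  The hypothesis of `exists_valuation` for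
`a = coefficients of germP 𝒰 r (v' · a)`, `a0 = coefficients of v0'`: if `aeval a φ = 0` then `φ` vanishes at the
coefficients of `v' x` for almost all `x`; if `eval a0 φ ≠ 0` then `w ∈ basicOpen m μ' φ`, which is then in
`𝒰`, and the frame is unique, contradiction.  Finally for `f ∈ w.1`, `f = Σ c_a v0' a`, and
`Σ c_a germP (v' · a)` is an element of `I` with coefficients in `R` and reduction `map (resHom R hR) f`. -/

open MvPolynomial Module Filter

namespace Pool.H33.G

variable {k : Type} [Field k] {d : ℕ} {g : ℤ} {r : ℕ}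

/-- evaluation of a polynomial at germs -/
theorem GEN_aeval {X : Type} (𝒰 : Ultrafilter X) {σ : Type} (F : σ → X → k)
    (φ : MvPolynomial σ k) :
    aeval (fun s => ((F s : X → k) : (𝒰 : Filter X).Germ k)) φ =
      (((fun x => MvPolynomial.eval (fun s => F s x) φ) : X → k) : (𝒰 : Filter X).Germ k) := by
  induction φ using MvPolynomial.induction_on with
  | C c =>
    rw [aeval_C, UK_algebraMap]
    simp
  | add p q hp hq =>
    rw [map_add, hp, hq, ← Germ.coe_add]
    congr 1
    funext x
    simp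
  | mul_X p s hp =>
    rw [map_mul, hp, aeval_X, ← Germ.coe_mul]
    congr 1
    funext x
    simp

open Classical in
/-- the chart frame -/
noncomputable def GEN_fr (m : ℕ) (μ : Fin m → (Fin 4 →₀ ℕ)) (x : HilbPt k d g r) : Fin m → A4 k :=
  if h : ∃ v : Fin m → A4 k, Submodule.span k (Set.range v) = x.1 ∧
    (∀ a b, coeff (μ b) (v a) = if a = b then 1 else 0) then h.choose else fun _ => 0

theorem GEN_fr_spec {m : ℕ} {μ : Fin m → (Fin 4 →₀ ℕ)} {x : HilbPt k d g r} {v : Fin m → A4 k}
    (h1 : Submodule.span k (Set.range v) = x.1)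
    (h2 : ∀ a b, coeff (μ b) (v a) = if a = b then 1 else 0) :
    Submodule.span k (Set.range (GEN_fr m μ x)) = x.1 ∧
    (∀ a b, coeff (μ b) (GEN_fr m μ x a) = if a = b then 1 else 0) := by
  have h : ∃ v : Fin m → A4 k, Submodule.span k (Set.range v) = x.1 ∧
    (∀ a b, coeff (μ b) (v a) = if a = b then 1 else 0) := ⟨v, h1, h2⟩
  unfold GEN_fr
  rw [dif_pos h]
  exact h.choose_spec

theorem GEN_fr_mem (m : ℕ) (μ : Fin m → (Fin 4 →₀ ℕ)) (x : HilbPt k d g r) (a : Fin m) :
    GEN_fr m μ x a ∈ Fm k r := by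
  classical
  by_cases h : ∃ v : Fin m → A4 k, Submodule.span k (Set.range v) = x.1 ∧
    (∀ a b, coeff (μ b) (v a) = if a = b then 1 else 0)
  · obtain ⟨v, h1, h2⟩ := h
    have := (GEN_fr_spec h1 h2).1
    apply x.2.1
    rw [← this]
    exact Submodule.subset_span ⟨a, rfl⟩
  · unfold GEN_fr
    rw [dif_neg h]
    exact Submodule.zero_mem _

theorem GEN_span (m : ℕ) (v : Fin m → A4 k) {W : Submodule k (A4 k)}
    (h : Submodule.span k (Set.range v) = W) :
    Ideal.span (Set.range v) = Ideal.span (W : Set (A4 k)) := by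
  apply le_antisymm
  · apply Ideal.span_mono
    rw [← h]
    exact Submodule.subset_span
  · rw [Ideal.span_le, ← h]
    intro f hf'
    have : Submodule.span k (Set.range v) ≤
        (Ideal.span (Set.range v)).restrictScalars k := by
      rw [Submodule.span_le]
      exact Ideal.subset_span
    exact this hf'

theorem generic_point [IsAlgClosed k] [CharZero k] (H : Set (HilbPt k d g r)) (hH : IsIrreducible H) :
    ∃ (K : Type) (_ : Field K) (_ : IsAlgClosed K) (_ : CharZero K) (_ : Algebra k K)
      (I : Ideal (A4 K)), HI I ∧ (∀ n ≥ r, hf I n = (d : ℤ) * n + 1 - g) ∧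
      ∀ w ∈ H, ∃ (R : ValuationSubring K) (hR : ∀ c : k, algebraMap k K c ∈ R),
        ∀ f ∈ w.1, MvPolynomial.map (resHom R hR) f ∈ limI R I := by
  classical
  obtain ⟨𝒰, hHU, hU⟩ := exists_ultra H hH
  obtain ⟨w0, hw0⟩ := hH.nonempty
  -- charts
  have chart : ∀ w ∈ H, ∃ (m : ℕ) (μ : Fin m → (Fin 4 →₀ ℕ)),
      (Submodule.span k (Set.range (GEN_fr m μ w)) = w.1 ∧
        (∀ a b, coeff (μ b) (GEN_fr m μ w a) = if a = b then 1 else 0)) ∧
      ∀ᶠ x in (𝒰 : Filter (HilbPt k d g r)), Submodule.span k (Set.range (GEN_fr m μ x)) = x.1 ∧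
        (∀ a b, coeff (μ b) (GEN_fr m μ x a) = if a = b then 1 else 0) := by
    intro w hw
    obtain ⟨m, μ, v, h1, h2⟩ := exists_frame w
    refine ⟨m, μ, GEN_fr_spec h1 h2, ?_⟩
    have hopen : IsOpen (basicOpen (d := d) (g := g) (r := r) m μ (1 : MvPolynomial _ k)) :=
      TopologicalSpace.isOpen_generateFrom_of_mem ⟨m, μ, 1, rfl⟩
    have hmem := hU _ hopen ⟨w, ⟨v, h1, h2, by simp⟩, hw⟩
    refine Filter.mem_of_superset hmem ?_
    rintro x ⟨v', h1', h2', -⟩
    exact GEN_fr_spec h1' h2'
  obtain ⟨m, μ, hw1, hw2⟩ := chart w0 hw0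
  refine ⟨UK 𝒰 k, inferInstance, UK_isAlgClosed 𝒰 k, UK_charZero 𝒰 k, UKalg 𝒰 k,
    Ideal.span (Set.range fun a => germP 𝒰 r fun x => GEN_fr m μ x a), ?_, ?_, ?_⟩
  · apply HI_span
    rintro _ ⟨a, rfl⟩
    exact ⟨r, germP_mem 𝒰 r _⟩
  · intro n hn
    apply germ_hf 𝒰 (GEN_fr m μ) (GEN_fr_mem m μ)
    filter_upwards [hw2] with x hx
    rw [GEN_span m _ hx.1]
    exact x.2.2 n hn
  · intro w hw
    obtain ⟨m', μ', hv1, hv2⟩ := chart w hw
    let a : Fin m' × (Fin 4 →₀ ℕ) → UK 𝒰 k := fun s =>
      (((fun x => coeff s.2 (GEN_fr m' μ' x s.1)) : HilbPt k d g r → k) :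
        (𝒰 : Filter (HilbPt k d g r)).Germ k)
    let a0 : Fin m' × (Fin 4 →₀ ℕ) → k := fun s => coeff s.2 (GEN_fr m' μ' w s.1)
    have hval : ∀ φ : MvPolynomial (Fin m' × (Fin 4 →₀ ℕ)) k, aeval a φ = 0 →
        MvPolynomial.eval a0 φ = 0 := by
      intro φ hφ
      by_contra hne
      have e1 := GEN_aeval 𝒰 (fun s x => coeff s.2 (GEN_fr m' μ' x s.1)) φ
      have e0 := e1.symm.trans hφ
      rw [← Germ.coe_zero] at e0
      have e2 : ∀ᶠ x in (𝒰 : Filter (HilbPt k d g r)),
          MvPolynomial.eval (fun s => coeff s.2 (GEN_fr m' μ' x s.1)) φ = 0 := Germ.coe_eq.1 e0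
      have hopen : IsOpen (basicOpen (d := d) (g := g) (r := r) m' μ' φ) :=
        TopologicalSpace.isOpen_generateFrom_of_mem ⟨m', μ', φ, rfl⟩
      have hmem := hU _ hopen ⟨w, ⟨GEN_fr m' μ' w, hv1.1, hv1.2, hne⟩, hw⟩
      have e3 : ∀ᶠ x in (𝒰 : Filter (HilbPt k d g r)),
        x ∈ basicOpen (d := d) (g := g) (r := r) m' μ' φ := hmem
      obtain ⟨x, hx1, hx2, v, hx3, hx4, hx5⟩ := (e2.and (hv2.and e3)).exists
      have := frame_unique (hx3.trans hx2.1.symm) hx4 hx2.2
      rw [this] at hx5
      exact hx5 hx1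
    obtain ⟨R, hR, hRa⟩ := exists_valuation a a0 hval
    refine ⟨R, hR, ?_⟩
    intro f hf'
    rw [← hv1.1] at hf'
    induction hf' using Submodule.span_induction with
    | mem f hf' =>
      obtain ⟨b, rfl⟩ := hf'
      rw [mem_limI]
      refine ⟨∑ ν ∈ Finset.finsuppAntidiag (Finset.univ : Finset (Fin 4)) r,
        monomial ν ⟨a (b, ν), (hRa (b, ν)).1⟩, ?_, ?_⟩
      · rw [map_sum]
        have e1 : ∑ ν ∈ Finset.finsuppAntidiag (Finset.univ : Finset (Fin 4)) r,
            MvPolynomial.map (algebraMap R (UK 𝒰 k)) (monomial ν ⟨a (b, ν), (hRa (b, ν)).1⟩) =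
            germP 𝒰 r fun x => GEN_fr m' μ' x b := by
          unfold germP
          refine Finset.sum_congr rfl fun ν _ => ?_
          rw [map_monomial]
          rfl
        rw [e1]
        have e2 := germ_span 𝒰 (GEN_fr m μ) (GEN_fr_mem m μ)
          (f := fun x => GEN_fr m' μ' x b) (fun x => GEN_fr_mem m' μ' x b) (by
            filter_upwards [hw2, hv2] with x hx hx'
            rw [hx.1, ← hx'.1]
            exact Submodule.subset_span ⟨b, rfl⟩)
        have e3 : Submodule.span (UK 𝒰 k) (Set.range fun a => germP 𝒰 r fun x => GEN_fr m μ x a) ≤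
            (Ideal.span (Set.range fun a => germP 𝒰 r fun x => GEN_fr m μ x a)).restrictScalars
              (UK 𝒰 k) := by
          rw [Submodule.span_le]
          exact Ideal.subset_span
        exact e3 e2
      · rw [map_sum]
        have hres : ∀ ν : Fin 4 →₀ ℕ, IsLocalRing.residue R ⟨a (b, ν), (hRa (b, ν)).1⟩ =
            resHom R hR (coeff ν (GEN_fr m' μ' w b)) := by
          intro ν
          obtain ⟨h1, h2⟩ := ValuationSubring.mem_nonunits_iff_exists_mem_maximalIdeal.1
            (hRa (b, ν)).2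
          have h3 : IsLocalRing.residue R ⟨a (b, ν) - algebraMap k (UK 𝒰 k) (a0 (b, ν)), h1⟩ = 0 :=
            (IsLocalRing.residue_eq_zero_iff _).2 h2
          have h4 : (⟨a (b, ν) - algebraMap k (UK 𝒰 k) (a0 (b, ν)), h1⟩ : R) =
              ⟨a (b, ν), (hRa (b, ν)).1⟩ - ⟨algebraMap k (UK 𝒰 k) (a0 (b, ν)), hR _⟩ := rfl
          rw [h4, map_sub, sub_eq_zero] at h3
          rw [h3]
          rfl
        ext ν
        rw [coeff_sum, coeff_map]
        by_cases hν : ν ∈ Finset.finsuppAntidiag (Finset.univ : Finset (Fin 4)) r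
        · rw [Finset.sum_eq_single ν]
          · rw [map_monomial, coeff_monomial, if_pos rfl, hres]
          · intro ν' _ hne
            rw [map_monomial, coeff_monomial, if_neg hne]
          · intro h; exact absurd hν h
        · have hz : coeff ν (GEN_fr m' μ' w b) = 0 := by
            by_contra hne
            apply hν
            have := (mem_homogeneousSubmodule r _).1 (GEN_fr_mem m' μ' w b) hne
            rw [Finset.mem_finsuppAntidiag]
            refine ⟨?_, Finset.subset_univ _⟩
            rw [← this, Finsupp.weight_apply, Finsupp.sum_fintype]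
            · simp
            · simp
          rw [hz, map_zero]
          apply Finset.sum_eq_zero
          intro ν' hν'
          rw [map_monomial, coeff_monomial, if_neg]
          rintro rfl
          exact hν hν'
    | zero => rw [map_zero]; exact Ideal.zero_mem _
    | add f g _ _ h1 h2 => rw [map_add]; exact Ideal.add_mem _ h1 h2
    | smul c f _ h1 =>
      rw [smul_eq_C_mul, map_mul]
      exact Ideal.mul_mem_left _ _ h1

end Pool.H33.G

end S_GEN
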