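import Mathlib
import Pool.Agent.H33.GG.M4
import Pool.Agent.H33.GG.M5
import Pool.Agent.H33.GG.Crv

/-! Galois action on the components of Hilbert schemes of space curves, file M6 -/

section S_XCA

/-! # XCA: arithmetic of the explicit configuration

`a + b ω ≠ 0` for integers `(a,b) ≠ (0,0)` (multiply by the conjugate: `a^2 - a b + b^2`, or: `ω` is not
rational).  All statements are finite checks; a convenient way: do the computation in
`QuadraticAlgebra ℤ (-1) (-1)` (or pairs of integers) with `decide` and map to `F`. -/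

open MvPolynomial Module

namespace Pool.H33.G

variable {F : Type} [Field F] [CharZero F] {ω : F}

/-- twice the oriented area of a triangle -/
def br {F : Type} [Field F] (a b : Fin 8 → F) (i j l : Fin 8) : F :=
  (a j - a i) * (b l - b i) - (a l - a i) * (b j - b i)

def numB {F : Type} [Field F] (a b : Fin 8 → F) : F := br a b 0 3 2 * br a b 1 4 0 * br a b 7 2 1
def denB {F : Type} [Field F] (a b : Fin 8 → F) : F := br a b 3 1 2 * br a b 4 2 0 * br a b 0 7 1

/-! pairs of integers `(a, b)` stand for `a + b ω` -/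

def xcaM (x y : ℤ × ℤ) : ℤ × ℤ := (x.1 * y.1 - x.2 * y.2, x.1 * y.2 + x.2 * y.1 - x.2 * y.2)

def xcaE {F : Type} [Field F] (ω : F) (x : ℤ × ℤ) : F := (x.1 : F) + (x.2 : F) * ω

omit [CharZero F] in
theorem xcaE_mul (h : ω ^ 2 + ω + 1 = 0) (x y : ℤ × ℤ) :
    xcaE ω (xcaM x y) = xcaE ω x * xcaE ω y := by
  simp only [xcaE, xcaM]
  push_cast
  linear_combination (-(x.2 : F) * (y.2 : F)) * h

omit [CharZero F] in
theorem xcaE_sub (x y : ℤ × ℤ) : xcaE ω (x - y) = xcaE ω x - xcaE ω y := by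
  simp only [xcaE, Prod.fst_sub, Prod.snd_sub]
  push_cast
  ring

omit [CharZero F] in
theorem xcaE_add (x y : ℤ × ℤ) : xcaE ω (x + y) = xcaE ω x + xcaE ω y := by
  simp only [xcaE, Prod.fst_add, Prod.snd_add]
  push_cast
  ring

theorem xcaE_eq_zero (h : ω ^ 2 + ω + 1 = 0) (x : ℤ × ℤ) (hx : xcaE ω x = 0) : x = 0 := by
  obtain ⟨a, b⟩ := x
  simp only [xcaE] at hx
  have h1 : ((a ^ 2 - a * b + b ^ 2 : ℤ) : F) = 0 := by
    push_cast
    linear_combination ((a : F) - b - b * ω) * hx + (b : F) ^ 2 * h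
  have h2 : a ^ 2 - a * b + b ^ 2 = 0 := by exact_mod_cast h1
  have hb : b = 0 := by nlinarith [sq_nonneg (2 * a - b), sq_nonneg b]
  have ha : a = 0 := by
    rw [hb] at h2
    nlinarith [sq_nonneg a]
  rw [ha, hb]
  rfl

theorem xcaE_inj (h : ω ^ 2 + ω + 1 = 0) {x y : ℤ × ℤ} (hxy : xcaE ω x = xcaE ω y) : x = y := by
  have h1 : xcaE ω (x - y) = 0 := by
    rw [xcaE_sub, hxy, sub_self]
  exact sub_eq_zero.1 (xcaE_eq_zero h _ h1)

def xcaZ0 : Fin 8 → ℤ × ℤ := ![(2, 0), (2, 0), (1, 0), (4, 0), (2, 1), (5, 1), (5, 3), (3, 0)]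
def xcaZ1 : Fin 8 → ℤ × ℤ := ![(1, 0), (0, 0), (1, 0), (1, 0), (0, 1), (2, 1), (2, 2), (2, 0)]
def xcaZ2 : Fin 8 → ℤ × ℤ := ![(0, 0), (1, 0), (1, 0), (1, 0), (1, 1), (2, 1), (2, 1), (1, 0)]
def xcaP : Fin 8 → ℤ × ℤ :=
  ![(4, 0), (-1, 0), (1, -1), (-2, 0), (-4, -4), (1, 0), (2, -3), (-4, 1)]
def xcaQ : Fin 8 → ℤ × ℤ :=
  ![(2, 0), (1, 0), (2, 1), (-1, 0), (-2, -2), (0, 0), (1, 0), (-2, -1)]
def xcaR : Fin 8 → ℤ × ℤ :=
  ![(-4, 0), (-2, 0), (-4, -2), (-1, 0), (1, 1), (1, 0), (-2, -3), (1, 2)]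

omit [CharZero F] in
theorem xca_z0 (i : Fin 8) : z0 ω i = xcaE ω (xcaZ0 i) := by
  fin_cases i <;> simp [z0, xcaZ0, xcaE]

omit [CharZero F] in
theorem xca_z1 (i : Fin 8) : z1 ω i = xcaE ω (xcaZ1 i) := by
  fin_cases i <;> simp [z1, xcaZ1, xcaE]

omit [CharZero F] in
theorem xca_z2 (i : Fin 8) : z2 ω i = xcaE ω (xcaZ2 i) := by
  fin_cases i <;> simp [z2, xcaZ2, xcaE]

omit [CharZero F] in
theorem xca_pk (i : Fin 8) : pk ω i = xcaE ω (xcaP i) := by
  fin_cases i <;> simp [pk, xcaP, xcaE] <;> ring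

omit [CharZero F] in
theorem xca_qk (i : Fin 8) : qk ω i = xcaE ω (xcaQ i) := by
  fin_cases i <;> simp [qk, xcaQ, xcaE] <;> ring

omit [CharZero F] in
theorem xca_rk (i : Fin 8) : rk ω i = xcaE ω (xcaR i) := by
  fin_cases i <;> simp [rk, xcaR, xcaE] <;> ring

/-- determinant of three points -/
def xcaD (i j l : Fin 8) : ℤ × ℤ :=
  xcaM (xcaZ0 i) (xcaM (xcaZ1 j) (xcaZ2 l) - xcaM (xcaZ2 j) (xcaZ1 l)) -
    xcaM (xcaZ1 i) (xcaM (xcaZ0 j) (xcaZ2 l) - xcaM (xcaZ2 j) (xcaZ0 l)) +
    xcaM (xcaZ2 i) (xcaM (xcaZ0 j) (xcaZ1 l) - xcaM (xcaZ1 j) (xcaZ0 l))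

theorem z0_ne (h : ω ^ 2 + ω + 1 = 0) (i : Fin 8) : z0 ω i ≠ 0 := by
  rw [xca_z0]
  intro h0
  exact (by decide : ∀ i, xcaZ0 i ≠ 0) i (xcaE_eq_zero h _ h0)

theorem xca_br (h : ω ^ 2 + ω + 1 = 0) (i j l : Fin 8) :
    br (al ω) (be ω) i j l * (z0 ω i * z0 ω j * z0 ω l) = xcaE ω (xcaD i j l) := by
  have h1 := z0_ne h i
  have h2 := z0_ne h j
  have h3 := z0_ne h l
  have h4 : xcaE ω (xcaD i j l) = z0 ω i * (z1 ω j * z2 ω l - z2 ω j * z1 ω l) -
      z1 ω i * (z0 ω j * z2 ω l - z2 ω j * z0 ω l) +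
      z2 ω i * (z0 ω j * z1 ω l - z1 ω j * z0 ω l) := by
    simp only [xcaD, xcaE_add, xcaE_sub, xcaE_mul h, xca_z0, xca_z1, xca_z2]
  rw [h4]
  simp only [br, al, be]
  field_simp
  ring

theorem al_inj (h : ω ^ 2 + ω + 1 = 0) : Function.Injective (al ω) := by
  intro i j hij
  simp only [al] at hij
  rw [div_eq_div_iff (z0_ne h i) (z0_ne h j), xca_z0, xca_z0, xca_z1, xca_z1, ← xcaE_mul h,
    ← xcaE_mul h] at hij
  exact (by decide : ∀ i j, xcaM (xcaZ1 i) (xcaZ0 j) = xcaM (xcaZ1 j) (xcaZ0 i) → i = j) i j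
    (xcaE_inj h hij)

theorem be_inj (h : ω ^ 2 + ω + 1 = 0) : Function.Injective (be ω) := by
  intro i j hij
  simp only [be] at hij
  rw [div_eq_div_iff (z0_ne h i) (z0_ne h j), xca_z0, xca_z0, xca_z2, xca_z2, ← xcaE_mul h,
    ← xcaE_mul h] at hij
  exact (by decide : ∀ i j, xcaM (xcaZ2 i) (xcaZ0 j) = xcaM (xcaZ2 j) (xcaZ0 i) → i = j) i j
    (xcaE_inj h hij)

theorem pk_ne (h : ω ^ 2 + ω + 1 = 0) (b : Fin 8) : pk ω b ≠ 0 := by
  rw [xca_pk]
  intro h0
  exact (by decide : ∀ i, xcaP i ≠ 0) b (xcaE_eq_zero h _ h0)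

theorem rk_ne (h : ω ^ 2 + ω + 1 = 0) (b : Fin 8) : rk ω b ≠ 0 := by
  rw [xca_rk]
  intro h0
  exact (by decide : ∀ i, xcaR i ≠ 0) b (xcaE_eq_zero h _ h0)

theorem pk_inj (h : ω ^ 2 + ω + 1 = 0) : Function.Injective (pk ω) := by
  intro i j hij
  rw [xca_pk, xca_pk] at hij
  exact (by decide : ∀ i j, xcaP i = xcaP j → i = j) i j (xcaE_inj h hij)

theorem rk_inj (h : ω ^ 2 + ω + 1 = 0) : Function.Injective (rk ω) := by
  intro i j hij
  rw [xca_rk, xca_rk] at hij
  exact (by decide : ∀ i j, xcaR i = xcaR j → i = j) i j (xcaE_inj h hij)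

theorem on_line (h : ω ^ 2 + ω + 1 = 0) (b : Fin 8) (c : Fin 3) :
    pk ω b * be ω (blk b c) = qk ω b + rk ω b * al ω (blk b c) := by
  have h1 := z0_ne h (blk b c)
  have h2 : xcaM (xcaP b) (xcaZ2 (blk b c)) =
      xcaM (xcaQ b) (xcaZ0 (blk b c)) + xcaM (xcaR b) (xcaZ1 (blk b c)) :=
    (by decide : ∀ (b : Fin 8) (c : Fin 3), xcaM (xcaP b) (xcaZ2 (blk b c)) =
      xcaM (xcaQ b) (xcaZ0 (blk b c)) + xcaM (xcaR b) (xcaZ1 (blk b c))) b c
  have h3 := congrArg (xcaE ω) h2
  rw [xcaE_add, xcaE_mul h, xcaE_mul h, xcaE_mul h, ← xca_pk, ← xca_z2, ← xca_qk, ← xca_z0,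
    ← xca_rk, ← xca_z1] at h3
  simp only [al, be]
  field_simp
  linear_combination h3

theorem off_line (h : ω ^ 2 + ω + 1 = 0) (b i : Fin 8) (hi : ∀ c, i ≠ blk b c) :
    pk ω b * be ω i ≠ qk ω b + rk ω b * al ω i := by
  intro h0
  have h1 := z0_ne h i
  simp only [al, be] at h0
  field_simp at h0
  have h3 : xcaE ω (xcaM (xcaP b) (xcaZ2 i)) =
      xcaE ω (xcaM (xcaQ b) (xcaZ0 i) + xcaM (xcaR b) (xcaZ1 i)) := by
    rw [xcaE_add, xcaE_mul h, xcaE_mul h, xcaE_mul h, ← xca_pk, ← xca_z2, ← xca_qk, ← xca_z0,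
      ← xca_rk, ← xca_z1]
    linear_combination h0
  exact (by decide : ∀ b i : Fin 8, (∀ c, i ≠ blk b c) → xcaM (xcaP b) (xcaZ2 i) ≠
      xcaM (xcaQ b) (xcaZ0 i) + xcaM (xcaR b) (xcaZ1 i)) b i hi (xcaE_inj h h3)

set_option maxRecDepth 100000 in
theorem xca_D_ne : ∀ (i j l : Fin 8), i ≠ j → i ≠ l → j ≠ l →
    (∀ b, ¬ ((∃ c, i = blk b c) ∧ (∃ c, j = blk b c) ∧ (∃ c, l = blk b c))) →
    xcaD i j l ≠ 0 := by
  decide

/-- triples not contained in a line of the configuration are not collinear -/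
theorem br_ne (h : ω ^ 2 + ω + 1 = 0) (i j l : Fin 8) (hij : i ≠ j) (hil : i ≠ l) (hjl : j ≠ l)
    (hb : ∀ b, ¬ ((∃ c, i = blk b c) ∧ (∃ c, j = blk b c) ∧ (∃ c, l = blk b c))) :
    br (al ω) (be ω) i j l ≠ 0 := by
  intro h0
  have h1 := xca_br h i j l
  rw [h0, zero_mul] at h1
  have h2 := xcaE_eq_zero h _ h1.symm
  exact xca_D_ne i j l hij hil hjl hb h2

theorem num_eq (h : ω ^ 2 + ω + 1 = 0) :
    numB (al ω) (be ω) = ω * denB (al ω) (be ω) ∧ denB (al ω) (be ω) ≠ 0 := by
  have hD1 : denB (al ω) (be ω) ≠ 0 := by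
    unfold denB
    refine mul_ne_zero (mul_ne_zero ?_ ?_) ?_
    · exact br_ne h 3 1 2 (by decide) (by decide) (by decide) (by decide)
    · exact br_ne h 4 2 0 (by decide) (by decide) (by decide) (by decide)
    · exact br_ne h 0 7 1 (by decide) (by decide) (by decide) (by decide)
  refine ⟨?_, hD1⟩
  have h0 := z0_ne h
  have hz : z0 ω 0 * z0 ω 0 * (z0 ω 1 * z0 ω 1) * (z0 ω 2 * z0 ω 2) * z0 ω 3 * z0 ω 4 * z0 ω 7 ≠ 0 := by
    refine mul_ne_zero (mul_ne_zero (mul_ne_zero (mul_ne_zero (mul_ne_zero ?_ ?_) ?_) ?_) ?_) ?_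
    · exact mul_ne_zero (h0 0) (h0 0)
    · exact mul_ne_zero (h0 1) (h0 1)
    · exact mul_ne_zero (h0 2) (h0 2)
    · exact h0 3
    · exact h0 4
    · exact h0 7
  apply mul_right_cancel₀ hz
  have e1 : xcaM (xcaM (xcaD 0 3 2) (xcaD 1 4 0)) (xcaD 7 2 1) =
      xcaM (0, 1) (xcaM (xcaM (xcaD 3 1 2) (xcaD 4 2 0)) (xcaD 0 7 1)) := by decide
  have e2 := congrArg (xcaE ω) e1
  have e3 : xcaE ω (0, 1) = ω := by simp [xcaE]
  rw [xcaE_mul h, xcaE_mul h, xcaE_mul h, xcaE_mul h, xcaE_mul h, e3, ← xca_br h, ← xca_br h,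
    ← xca_br h, ← xca_br h, ← xca_br h, ← xca_br h] at e2
  unfold numB denB
  linear_combination e2

end Pool.H33.G

end S_XCA

section S_XCP

/-! # XCP: the interpolation polynomials -/

open MvPolynomial Module

namespace Pool.H33.G

variable {F : Type} [Field F] [CharZero F] {ω : F}

omit [CharZero F] in
theorem xcp_prod_monic (x : Fin 8 → F) (M : ℕ) :
    (Polynomial.X ^ (M - 8) * ∏ i, (Polynomial.X - Polynomial.C (x i))).Monic :=
  (Polynomial.monic_X_pow _).mul (Polynomial.monic_prod_of_monic _ _ fun i _ =>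
    Polynomial.monic_X_sub_C _)

omit [CharZero F] in
theorem xcp_prod_natDegree (x : Fin 8 → F) {M : ℕ} (hM : 8 ≤ M) :
    (Polynomial.X ^ (M - 8) * ∏ i, (Polynomial.X - Polynomial.C (x i))).natDegree = M := by
  rw [(Polynomial.monic_X_pow _).natDegree_mul (Polynomial.monic_prod_of_monic _ _ fun i _ =>
    Polynomial.monic_X_sub_C _), Polynomial.natDegree_X_pow,
    Polynomial.natDegree_prod_of_monic _ _ fun i _ => Polynomial.monic_X_sub_C _]
  simp
  omega

omit [CharZero F] in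
theorem xcp_interp_degree (x y : Fin 8 → F) :
    (Lagrange.interpolate Finset.univ x y).natDegree < 8 := by
  have h1 : (Lagrange.interpolate Finset.univ x y).natDegree ≤ 7 := by
    rw [Lagrange.interpolate_apply]
    refine Polynomial.natDegree_sum_le_of_forall_le _ _ fun i _ => ?_
    refine le_trans (Polynomial.natDegree_C_mul_le _ _) ?_
    unfold Lagrange.basis
    refine le_trans (Polynomial.natDegree_prod_le _ _) ?_
    have h2 : ∀ j ∈ Finset.univ.erase i, (Lagrange.basisDivisor (x i) (x j)).natDegree ≤ 1 := by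
      intro j _
      unfold Lagrange.basisDivisor
      refine le_trans (Polynomial.natDegree_C_mul_le _ _) ?_
      exact (Polynomial.natDegree_X_sub_C (x j)).le
    refine le_trans (Finset.sum_le_sum h2) ?_
    simp
  omega

omit [CharZero F] in
theorem xcp_main {x y : Fin 8 → F} {M : ℕ} (hM : 8 ≤ M) :
    (gpoly x y M).natDegree = M ∧ (gpoly x y M).coeff M = 1 := by
  have h1 := xcp_interp_degree x y
  have h2 := xcp_prod_natDegree x hM
  have h3 := xcp_prod_monic x M
  constructor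
  · unfold gpoly
    rw [Polynomial.natDegree_add_eq_right_of_natDegree_lt (by rw [h2]; omega)]
    exact h2
  · unfold gpoly
    rw [Polynomial.coeff_add, Polynomial.coeff_eq_zero_of_natDegree_lt (by omega), zero_add]
    have h4 := h3.coeff_natDegree
    rw [h2] at h4
    exact h4

omit [CharZero F] in
theorem gpoly_natDegree {x y : Fin 8 → F} {M : ℕ} (hM : 8 ≤ M) : (gpoly x y M).natDegree = M :=
  (xcp_main hM).1

omit [CharZero F] in
theorem gpoly_eval {x y : Fin 8 → F} (hx : Function.Injective x) (M : ℕ) (i : Fin 8) :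
    (gpoly x y M).eval (x i) = y i := by
  unfold gpoly
  rw [Polynomial.eval_add, Lagrange.eval_interpolate_at_node y hx.injOn (Finset.mem_univ i),
    Polynomial.eval_mul, Polynomial.eval_prod, Finset.prod_eq_zero (Finset.mem_univ i) (by simp)]
  simp

omit [CharZero F] in
theorem gpoly_coeff {x y : Fin 8 → F} {M : ℕ} (hM : 8 ≤ M) : (gpoly x y M).coeff M = 1 :=
  (xcp_main hM).2

omit [CharZero F] in
theorem hg_eval_one {g : Polynomial F} {M : ℕ} (h : g.natDegree = M) (t : F) :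
    MvPolynomial.eval ![1, t] (hg g M) = g.eval t := by
  unfold hg
  rw [map_sum, Polynomial.eval_eq_sum_range, h]
  refine Finset.sum_congr rfl fun i _ => ?_
  simp

omit [CharZero F] in
theorem hg_eval_inf {g : Polynomial F} {M : ℕ} (hM : 0 < M) :
    MvPolynomial.eval ![0, 1] (hg g M) = g.coeff M := by
  unfold hg
  rw [map_sum, Finset.sum_range_succ, Finset.sum_eq_zero, zero_add]
  · simp
  · intro i hi
    have hi' : M - i ≠ 0 := by have := Finset.mem_range.1 hi; omega
    simp [hi']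

end Pool.H33.G

end S_XCP

section S_XCB

/-! # XCB: the explicit curve is good.  `T i ∋ (1, al i, 0, 0), (0,0,1, be i)`; the node of `T i` and `L 0` is
`P + al i Q` (s = 1, t = al i), normal direction `U + be i V = (0,0,1,be i)`; same for `L (b+2)`:
`P + al i Q = (1, al i, p, q + r al i) = (1, al i, p, p be i)`; for `L 1` exchange `al` and `be`.  The node of `T 8` and
`L j` is `Q j` (s = 0, t = 1), normal direction `V j` (as `gpoly` is monic). -/

open MvPolynomial Module

namespace Pool.H33.G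

section

variable {F : Type} [Field F]

theorem xcb_li4 {F : Type} [Field F] (a b c d : Fin 4 → F)
    (h : ∀ x y z w : F, (∀ l, x * a l + y * b l + z * c l + w * d l = 0) →
      x = 0 ∧ y = 0 ∧ z = 0 ∧ w = 0) :
    LinearIndependent F ![a, b, c, d] := by
  rw [Fintype.linearIndependent_iff]
  intro g hg
  obtain ⟨h0, h1, h2, h3⟩ := h (g 0) (g 1) (g 2) (g 3) (by
    intro l
    have h4 := congrFun hg l
    rw [Fin.sum_univ_four] at h4
    simpa using h4)
  intro i
  fin_cases i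
  · exact h0
  · exact h1
  · exact h2
  · exact h3

theorem xcb_sTP_last (ω : F) : sTP ω (Fin.last 8) = ![0, 1, 0, 0] := by
  unfold sTP; rw [Fin.lastCases_last]
theorem xcb_sTQ_last (ω : F) : sTQ ω (Fin.last 8) = ![0, 0, 0, 1] := by
  unfold sTQ; rw [Fin.lastCases_last]
theorem xcb_sTP_cast (ω : F) (i : Fin 8) : sTP ω i.castSucc = ![1, al ω i, 0, 0] := by
  unfold sTP; rw [Fin.lastCases_castSucc]
theorem xcb_sTQ_cast (ω : F) (i : Fin 8) : sTQ ω i.castSucc = ![0, 0, 1, be ω i] := by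
  unfold sTQ; rw [Fin.lastCases_castSucc]

theorem xcb_sP_zero (ω : F) : sP ω 0 = ![1, 0, 0, 0] := rfl
theorem xcb_sP_one (ω : F) : sP ω 1 = ![0, 0, 1, 0] := rfl
theorem xcb_sP_succ (ω : F) (b : Fin 8) : sP ω b.succ.succ = ![1, 0, pk ω b, qk ω b] := rfl
theorem xcb_sQ_zero (ω : F) : sQ ω 0 = ![0, 1, 0, 0] := rfl
theorem xcb_sQ_one (ω : F) : sQ ω 1 = ![0, 0, 0, 1] := rfl
theorem xcb_sQ_succ (ω : F) (b : Fin 8) : sQ ω b.succ.succ = ![0, 1, 0, rk ω b] := rfl
theorem xcb_sU_zero : (sU 0 : Fin 4 → F) = ![0, 0, 1, 0] := rfl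
theorem xcb_sU_one : (sU 1 : Fin 4 → F) = ![1, 0, 0, 0] := rfl
theorem xcb_sU_succ (b : Fin 8) : (sU b.succ.succ : Fin 4 → F) = ![0, 0, 1, 0] := rfl
theorem xcb_sV_zero : (sV 0 : Fin 4 → F) = ![0, 0, 0, 1] := rfl
theorem xcb_sV_one : (sV 1 : Fin 4 → F) = ![0, 1, 0, 0] := rfl
theorem xcb_sV_succ (b : Fin 8) : (sV b.succ.succ : Fin 4 → F) = ![0, 0, 0, 1] := rfl

end

variable {F : Type} [Field F] [CharZero F] {ω : F}

/-- the three kinds of double lines -/
theorem xcb_cases {p : Fin 10 → Prop} (h0 : p 0) (h1 : p 1) (h2 : ∀ b : Fin 8, p b.succ.succ)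
    (j : Fin 10) : p j := by
  induction j using Fin.cases with
  | zero => exact h0
  | succ j =>
    induction j using Fin.cases with
    | zero => exact h1
    | succ b => exact h2 b

theorem xcb_mem (i b : Fin 8) : (i.castSucc, b.succ.succ) ∈ Gam ↔ ∃ c, i = blk b c := by
  revert i b
  decide

theorem xcb_last_mem (j : Fin 10) : (Fin.last 8, j) ∈ Gam := by
  revert j
  decide

theorem xcb_zero_mem (i : Fin 9) : (i, (0 : Fin 10)) ∈ Gam := by
  revert i
  decide

theorem xcb_one_mem (i : Fin 9) : (i, (1 : Fin 10)) ∈ Gam := by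
  revert i
  decide

theorem xcb_sM (j : Fin 10) : 8 ≤ sM j := by
  unfold sM; omega

theorem xcb_succ_ne (b : Fin 8) : b.succ.succ ≠ (1 : Fin 10) := by
  revert b
  decide

theorem xcb_tind (i : Fin 9) : LinearIndependent F ![sTP ω i, sTQ ω i] := by
  rw [LinearIndependent.pair_iff]
  intro s t hst
  induction i using Fin.lastCases with
  | last =>
    rw [xcb_sTP_last, xcb_sTQ_last] at hst
    have h1 := congrFun hst 1
    have h3 := congrFun hst 3
    simp at h1 h3
    exact ⟨h1, h3⟩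
  | cast i =>
    rw [xcb_sTP_cast, xcb_sTQ_cast] at hst
    have h1 := congrFun hst 0
    have h3 := congrFun hst 2
    simp at h1 h3
    exact ⟨h1, h3⟩

theorem xcb_tdis (h : ω ^ 2 + ω + 1 = 0) (i i' : Fin 9) (hii : i ≠ i') :
    LinearIndependent F ![sTP ω i, sTQ ω i, sTP ω i', sTQ ω i'] := by
  apply xcb_li4
  intro x y z w hl
  have l0 := hl 0
  have l1 := hl 1
  have l2 := hl 2
  have l3 := hl 3
  induction i using Fin.lastCases with
  | last =>
    induction i' using Fin.lastCases with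
    | last => exact absurd rfl hii
    | cast i' =>
      rw [xcb_sTP_last, xcb_sTQ_last, xcb_sTP_cast, xcb_sTQ_cast] at l0 l1 l2 l3
      simp at l0 l1 l2 l3
      subst l0
      subst l2
      simp at l1 l3
      exact ⟨l1, l3, rfl, rfl⟩
  | cast i =>
    induction i' using Fin.lastCases with
    | last =>
      rw [xcb_sTP_last, xcb_sTQ_last, xcb_sTP_cast, xcb_sTQ_cast] at l0 l1 l2 l3
      simp at l0 l1 l2 l3
      subst l0
      subst l2
      simp at l1 l3
      exact ⟨rfl, rfl, l1, l3⟩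
    | cast i' =>
      rw [xcb_sTP_cast, xcb_sTQ_cast, xcb_sTP_cast, xcb_sTQ_cast] at l0 l1 l2 l3
      simp at l0 l1 l2 l3
      have hne : i ≠ i' := fun h => hii (congrArg _ h)
      have ha : al ω i - al ω i' ≠ 0 := sub_ne_zero.2 fun h' => hne (al_inj h h')
      have hb : be ω i - be ω i' ≠ 0 := sub_ne_zero.2 fun h' => hne (be_inj h h')
      have hz : x = -z := by linear_combination l0
      have hw : y = -w := by linear_combination l2
      have hz0 : z = 0 := by
        have : z * (al ω i - al ω i') = 0 := by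
          rw [hz] at l1
          linear_combination -l1
        exact (mul_eq_zero.1 this).resolve_right ha
      have hw0 : w = 0 := by
        have : w * (be ω i - be ω i') = 0 := by
          rw [hw] at l3
          linear_combination -l3
        exact (mul_eq_zero.1 this).resolve_right hb
      rw [hz0] at hz
      rw [hw0] at hw
      exact ⟨by rw [hz, neg_zero], by rw [hw, neg_zero], hz0, hw0⟩

theorem xcb_lind (j : Fin 10) : LinearIndependent F ![sP ω j, sQ ω j, sU j, sV j] := by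
  apply xcb_li4
  intro x y z w hl
  have l0 := hl 0
  have l1 := hl 1
  have l2 := hl 2
  have l3 := hl 3
  clear hl
  revert l0 l1 l2 l3
  induction j using xcb_cases with
  | h0 =>
    rw [xcb_sP_zero, xcb_sQ_zero, xcb_sU_zero, xcb_sV_zero]
    intro l0 l1 l2 l3
    simp at l0 l1 l2 l3
    exact ⟨l0, l1, l2, l3⟩
  | h1 =>
    rw [xcb_sP_one, xcb_sQ_one, xcb_sU_one, xcb_sV_one]
    intro l0 l1 l2 l3
    simp at l0 l1 l2 l3
    exact ⟨l2, l3, l0, l1⟩
  | h2 b =>
    rw [xcb_sP_succ, xcb_sQ_succ, xcb_sU_succ, xcb_sV_succ]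
    intro l0 l1 l2 l3
    simp at l0 l1 l2 l3
    subst l0
    subst l1
    simp at l2 l3
    exact ⟨rfl, rfl, l2, l3⟩

theorem xcb_ldis (h : ω ^ 2 + ω + 1 = 0) (j j' : Fin 10) (hjj : j ≠ j') :
    LinearIndependent F ![sP ω j, sQ ω j, sP ω j', sQ ω j'] := by
  apply xcb_li4
  intro x y z w hl
  have l0 := hl 0
  have l1 := hl 1
  have l2 := hl 2
  have l3 := hl 3
  clear hl
  revert l0 l1 l2 l3 hjj
  induction j using xcb_cases with
  | h0 =>
    induction j' using xcb_cases with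
    | h0 => exact fun h => absurd rfl h
    | h1 =>
      rw [xcb_sP_zero, xcb_sQ_zero, xcb_sP_one, xcb_sQ_one]
      intro _ l0 l1 l2 l3
      simp at l0 l1 l2 l3
      exact ⟨l0, l1, l2, l3⟩
    | h2 b =>
      rw [xcb_sP_zero, xcb_sQ_zero, xcb_sP_succ, xcb_sQ_succ]
      intro _ l0 l1 l2 l3
      simp at l0 l1 l2 l3
      have hz : z = 0 := l2.resolve_right (pk_ne h b)
      subst hz
      simp at l0 l3
      have hw : w = 0 := l3.resolve_right (rk_ne h b)
      subst hw
      simp at l1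
      exact ⟨l0, l1, rfl, rfl⟩
  | h1 =>
    induction j' using xcb_cases with
    | h0 =>
      rw [xcb_sP_zero, xcb_sQ_zero, xcb_sP_one, xcb_sQ_one]
      intro _ l0 l1 l2 l3
      simp at l0 l1 l2 l3
      exact ⟨l2, l3, l0, l1⟩
    | h1 => exact fun h => absurd rfl h
    | h2 b =>
      rw [xcb_sP_one, xcb_sQ_one, xcb_sP_succ, xcb_sQ_succ]
      intro _ l0 l1 l2 l3
      simp at l0 l1 l2 l3
      subst l0
      subst l1
      simp at l2 l3
      exact ⟨l2, l3, rfl, rfl⟩
  | h2 b =>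
    induction j' using xcb_cases with
    | h0 =>
      rw [xcb_sP_zero, xcb_sQ_zero, xcb_sP_succ, xcb_sQ_succ]
      intro _ l0 l1 l2 l3
      simp at l0 l1 l2 l3
      have hz : x = 0 := l2.resolve_right (pk_ne h b)
      subst hz
      simp at l0 l3
      have hw : y = 0 := l3.resolve_right (rk_ne h b)
      subst hw
      simp at l1
      exact ⟨rfl, rfl, l0, l1⟩
    | h1 =>
      rw [xcb_sP_one, xcb_sQ_one, xcb_sP_succ, xcb_sQ_succ]
      intro _ l0 l1 l2 l3
      simp at l0 l1 l2 l3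
      subst l0
      subst l1
      simp at l2 l3
      exact ⟨rfl, rfl, l2, l3⟩
    | h2 b' =>
      rw [xcb_sP_succ, xcb_sQ_succ, xcb_sP_succ, xcb_sQ_succ]
      intro hjj l0 l1 l2 l3
      simp at l0 l1 l2 l3
      have hne : b ≠ b' := fun h => hjj (by rw [h])
      have ha : pk ω b - pk ω b' ≠ 0 := sub_ne_zero.2 fun h' => hne (pk_inj h h')
      have hb : rk ω b - rk ω b' ≠ 0 := sub_ne_zero.2 fun h' => hne (rk_inj h h')
      have hz : x = -z := by linear_combination l0
      have hw : y = -w := by linear_combination l1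
      have hz0 : z = 0 := by
        have : z * (pk ω b - pk ω b') = 0 := by
          rw [hz] at l2
          linear_combination -l2
        exact (mul_eq_zero.1 this).resolve_right ha
      rw [hz0, neg_zero] at hz
      have hw0 : w = 0 := by
        have : w * (rk ω b - rk ω b') = 0 := by
          rw [hz, hz0, hw] at l3
          linear_combination -l3
        exact (mul_eq_zero.1 this).resolve_right hb
      rw [hw0] at hw
      exact ⟨hz, by rw [hw, neg_zero], hz0, hw0⟩

theorem xcb_non (h : ω ^ 2 + ω + 1 = 0) (i : Fin 9) (j : Fin 10) (hij : (i, j) ∉ Gam) :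
    LinearIndependent F ![sTP ω i, sTQ ω i, sP ω j, sQ ω j] := by
  apply xcb_li4
  intro x y z w hl
  have l0 := hl 0
  have l1 := hl 1
  have l2 := hl 2
  have l3 := hl 3
  clear hl
  revert l0 l1 l2 l3 hij
  induction i using Fin.lastCases with
  | last => exact fun h => absurd (xcb_last_mem j) h
  | cast i =>
    induction j using xcb_cases with
    | h0 => exact fun h => absurd (xcb_zero_mem _) h
    | h1 => exact fun h => absurd (xcb_one_mem _) h
    | h2 b =>
      rw [xcb_sTP_cast, xcb_sTQ_cast, xcb_sP_succ, xcb_sQ_succ]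
      intro hij l0 l1 l2 l3
      simp at l0 l1 l2 l3
      have h1 : pk ω b * be ω i - (qk ω b + rk ω b * al ω i) ≠ 0 := by
        refine sub_ne_zero.2 (off_line h b i ?_)
        intro c hc
        exact hij ((xcb_mem i b).2 ⟨c, hc⟩)
      have hx : x = -z := by linear_combination l0
      have hw : w = z * al ω i := by rw [hx] at l1; linear_combination l1
      have hy : y = -(z * pk ω b) := by linear_combination l2
      have hz0 : z = 0 := by
        have : z * (pk ω b * be ω i - (qk ω b + rk ω b * al ω i)) = 0 := by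
          rw [hy, hw] at l3
          linear_combination -l3
        exact (mul_eq_zero.1 this).resolve_right h1
      rw [hx, hy, hw, hz0]
      simp

theorem curve_good (h : ω ^ 2 + ω + 1 = 0) : (curve ω).Good Gam := by
  have hginf : ∀ j, MvPolynomial.eval ![0, 1] (hg (sg ω j) (sM j)) = 1 := by
    intro j
    rw [hg_eval_inf (by have := xcb_sM j; omega)]
    unfold sg
    split_ifs
    · exact gpoly_coeff (xcb_sM j)
    · exact gpoly_coeff (xcb_sM j)
  have hdeg : ∀ j, (sg ω j).natDegree = sM j := by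
    intro j
    unfold sg
    split_ifs
    · exact gpoly_natDegree (xcb_sM j)
    · exact gpoly_natDegree (xcb_sM j)
  have hev : ∀ j, j ≠ 1 → ∀ i, MvPolynomial.eval ![1, al ω i] (hg (sg ω j) (sM j)) = be ω i := by
    intro j hj i
    rw [hg_eval_one (hdeg j)]
    unfold sg
    rw [if_neg hj]
    exact gpoly_eval (al_inj h) _ i
  have hev1 : ∀ i, MvPolynomial.eval ![1, be ω i] (hg (sg ω 1) (sM 1)) = al ω i := by
    intro i
    rw [hg_eval_one (hdeg 1)]
    unfold sg
    rw [if_pos rfl]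
    exact gpoly_eval (be_inj h) _ i
  have hpow0 : ∀ j, (0 : F) ^ sM j = 0 := by
    intro j
    exact zero_pow (by have := xcb_sM j; omega)
  refine ⟨xcb_tind, xcb_tdis h, xcb_lind, xcb_ldis h, ?_, hdeg, xcb_non h, ?_⟩
  · intro j
    change 0 < sM j
    have := xcb_sM j
    omega
  · intro i j hij
    change ∃ s t : F, (s ≠ 0 ∨ t ≠ 0) ∧
      s • sP ω j + t • sQ ω j ∈ Submodule.span F {sTP ω i, sTQ ω i} ∧
      s ^ sM j • sU j + (MvPolynomial.eval ![s, t] (hg (sg ω j) (sM j))) • sV j ∈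
      Submodule.span F {sP ω j, sQ ω j, sTP ω i, sTQ ω i}
    induction i using Fin.lastCases with
    | last =>
      refine ⟨0, 1, Or.inr one_ne_zero, ?_, ?_⟩
      · rw [zero_smul, one_smul, zero_add, xcb_sTP_last, xcb_sTQ_last]
        induction j using xcb_cases with
        | h0 => exact Submodule.subset_span (Or.inl rfl)
        | h1 => exact Submodule.subset_span (Or.inr rfl)
        | h2 b =>
          rw [Submodule.mem_span_pair, xcb_sQ_succ]
          refine ⟨1, rk ω b, ?_⟩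
          funext l
          fin_cases l <;> simp
      · rw [hpow0, zero_smul, zero_add, hginf, one_smul, xcb_sTP_last, xcb_sTQ_last]
        induction j using xcb_cases with
        | h0 => exact Submodule.subset_span (Or.inr (Or.inr (Or.inr rfl)))
        | h1 => exact Submodule.subset_span (Or.inr (Or.inr (Or.inl rfl)))
        | h2 b => exact Submodule.subset_span (Or.inr (Or.inr (Or.inr rfl)))
    | cast i =>
      rw [xcb_sTP_cast, xcb_sTQ_cast]
      revert hij
      induction j using xcb_cases with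
      | h0 =>
        intro _
        refine ⟨1, al ω i, Or.inl one_ne_zero, ?_, ?_⟩
        · refine Submodule.subset_span (Or.inl ?_)
          rw [xcb_sP_zero, xcb_sQ_zero]
          funext l
          fin_cases l <;> simp
        · refine Submodule.subset_span (Or.inr (Or.inr (Or.inr ?_)))
          rw [one_pow, hev 0 (by decide), xcb_sU_zero, xcb_sV_zero]
          change _ = (![0, 0, 1, be ω i] : Fin 4 → F)
          funext l
          fin_cases l <;> simp
      | h1 =>
        intro _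
        refine ⟨1, be ω i, Or.inl one_ne_zero, ?_, ?_⟩
        · refine Submodule.subset_span (Or.inr ?_)
          rw [xcb_sP_one, xcb_sQ_one]
          change _ = (![0, 0, 1, be ω i] : Fin 4 → F)
          funext l
          fin_cases l <;> simp
        · refine Submodule.subset_span (Or.inr (Or.inr (Or.inl ?_)))
          rw [one_pow, hev1, xcb_sU_one, xcb_sV_one]
          funext l
          fin_cases l <;> simp
      | h2 b =>
        intro hij
        obtain ⟨c, hc⟩ := (xcb_mem i b).1 hij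
        have hon := on_line h b c
        rw [← hc] at hon
        refine ⟨1, al ω i, Or.inl one_ne_zero, ?_, ?_⟩
        · rw [Submodule.mem_span_pair, xcb_sP_succ, xcb_sQ_succ]
          refine ⟨1, pk ω b, ?_⟩
          funext l
          fin_cases l
          · simp
          · simp
          · simp
          · simp
            rw [hon]
            ring
        · refine Submodule.subset_span (Or.inr (Or.inr (Or.inr ?_)))
          rw [one_pow, hev _ (xcb_succ_ne b), xcb_sU_succ, xcb_sV_succ]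
          change _ = (![0, 0, 1, be ω i] : Fin 4 → F)
          funext l
          fin_cases l <;> simp

theorem xcb_al_map {F' : Type} [Field F'] (φ : F →+* F') (i : Fin 8) :
    φ (al ω i) = al (φ ω) i := by
  unfold al
  rw [map_div₀]
  congr 1
  · fin_cases i <;> simp [z1, map_ofNat]
  · fin_cases i <;> simp [z0, map_ofNat]

theorem xcb_be_map {F' : Type} [Field F'] (φ : F →+* F') (i : Fin 8) :
    φ (be ω i) = be (φ ω) i := by
  unfold be
  rw [map_div₀]
  congr 1
  · fin_cases i <;> simp [z2, map_ofNat]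
  · fin_cases i <;> simp [z0, map_ofNat]

theorem xcb_pk_map {F' : Type} [Field F'] (φ : F →+* F') (i : Fin 8) :
    φ (pk ω i) = pk (φ ω) i := by
  fin_cases i <;> simp [pk, map_ofNat]

theorem xcb_qk_map {F' : Type} [Field F'] (φ : F →+* F') (i : Fin 8) :
    φ (qk ω i) = qk (φ ω) i := by
  fin_cases i <;> simp [qk, map_ofNat]

theorem xcb_rk_map {F' : Type} [Field F'] (φ : F →+* F') (i : Fin 8) :
    φ (rk ω i) = rk (φ ω) i := by
  fin_cases i <;> simp [rk, map_ofNat]

theorem curve_map {F' : Type} [Field F'] (φ : F →+* F') :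
    ((curve ω).mapC φ).TP = sTP (φ ω) ∧ ((curve ω).mapC φ).TQ = sTQ (φ ω) ∧
    ((curve ω).mapC φ).P = sP (φ ω) ∧ ((curve ω).mapC φ).Q = sQ (φ ω) := by
  refine ⟨?_, ?_, ?_, ?_⟩
  · funext i l
    change φ (sTP ω i l) = sTP (φ ω) i l
    unfold sTP
    induction i using Fin.lastCases with
    | last =>
      rw [Fin.lastCases_last, Fin.lastCases_last]
      fin_cases l <;> simp
    | cast i =>
      rw [Fin.lastCases_castSucc, Fin.lastCases_castSucc]
      fin_cases l <;> simp [xcb_al_map]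
  · funext i l
    change φ (sTQ ω i l) = sTQ (φ ω) i l
    unfold sTQ
    induction i using Fin.lastCases with
    | last =>
      rw [Fin.lastCases_last, Fin.lastCases_last]
      fin_cases l <;> simp
    | cast i =>
      rw [Fin.lastCases_castSucc, Fin.lastCases_castSucc]
      fin_cases l <;> simp [xcb_be_map]
  · funext j l
    change φ (sP ω j l) = sP (φ ω) j l
    induction j using xcb_cases with
    | h0 => fin_cases l <;> simp [sP]
    | h1 =>
      change φ ((![0, 0, 1, 0] : Fin 4 → F) l) = (![0, 0, 1, 0] : Fin 4 → F') l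
      fin_cases l <;> simp
    | h2 b =>
      change φ ((![1, 0, pk ω b, qk ω b] : Fin 4 → F) l) =
        (![1, 0, pk (φ ω) b, qk (φ ω) b] : Fin 4 → F') l
      fin_cases l <;> simp [xcb_pk_map, xcb_qk_map]
  · funext j l
    change φ (sQ ω j l) = sQ (φ ω) j l
    induction j using xcb_cases with
    | h0 => fin_cases l <;> simp [sQ]
    | h1 =>
      change φ ((![0, 0, 0, 1] : Fin 4 → F) l) = (![0, 0, 0, 1] : Fin 4 → F') l
      fin_cases l <;> simp
    | h2 b =>
      change φ ((![0, 1, 0, rk ω b] : Fin 4 → F) l) =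
        (![0, 1, 0, rk (φ ω) b] : Fin 4 → F') l
      fin_cases l <;> simp [xcb_rk_map]

theorem Gam_distinct (i i' : Fin 9) (h : ∀ j, (i, j) ∈ Gam ↔ (i', j) ∈ Gam) : i = i' := by
  revert i i'
  decide

end Pool.H33.G

end S_XCB

section S_PLA

/-! # PLA: plane configuration attached to lines in `K^4`, algebra over `K`

`T : Fin 9 → ..`, `L : Fin 10 → ..` lines (2-dimensional subspaces of `K^4`). `PD` = coordinates:
`E` a basis of `K^4` with `E 0, E 1 ∈ L 0`, `E 2, E 3 ∈ L 1`, `E 1, E 3 ∈ T 8` and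
`E 0 + α i E 1, E 2 + β i E 3 ∈ T i` for `i < 8`.

* `collinear`: for `b : Fin 8` choose nonzero `w ∈ T 8 ⊓ L (b+2)`, `w = x E1 + y E3` with `x, y ≠ 0` (as
  `L (b+2)` is disjoint from `L 0`, `L 1`) and nonzero
  `w_i = a_i (E0 + α_i E1) + b_i (E2 + β_i E3) ∈ T i ⊓ L (b+2)`, `a_i, b_i ≠ 0`; `L (b+2)` is spanned by `w, w_i`;
  so `w_j = c w_i + d w`: `(α_j - α_i) : (β_j - β_i) = x b_i : y a_i`.
* `PD_unique`: `L 0 ⊓ T 8` and `L 1 ⊓ T 8` are one dimensional.
-/

open Module

namespace Pool.H33.G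

variable {K : Type} [Field K]

structure PD (T : Fin 9 → Submodule K (Fin 4 → K)) (L : Fin 10 → Submodule K (Fin 4 → K))
    (E : Fin 4 → (Fin 4 → K)) (α β : Fin 8 → K) : Prop where
  ind : LinearIndependent K E
  e0 : E 0 ∈ L 0
  e1 : E 1 ∈ L 0
  e2 : E 2 ∈ L 1
  e3 : E 3 ∈ L 1
  t1 : E 1 ∈ T 8
  t3 : E 3 ∈ T 8
  a : ∀ i : Fin 8, E 0 + α i • E 1 ∈ T i.castSucc
  b : ∀ i : Fin 8, E 2 + β i • E 3 ∈ T i.castSucc

theorem pla_coord {E : Fin 4 → (Fin 4 → K)} (h : LinearIndependent K E) (c0 c1 c2 c3 : K)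
    (h0 : c0 • E 0 + c1 • E 1 + c2 • E 2 + c3 • E 3 = 0) : c0 = 0 ∧ c1 = 0 ∧ c2 = 0 ∧ c3 = 0 := by
  rw [Fintype.linearIndependent_iff] at h
  have h1 := h ![c0, c1, c2, c3] (by
    rw [Fin.sum_univ_four]
    exact h0)
  exact ⟨h1 0, h1 1, h1 2, h1 3⟩

theorem pla_span {M : Submodule K (Fin 4 → K)} (hM : finrank K M = 2) {u v : Fin 4 → K}
    (hu : u ∈ M) (hv : v ∈ M) (hli : LinearIndependent K ![u, v]) :
    M = Submodule.span K {u, v} := by
  symm
  apply Submodule.eq_of_le_of_finrank_eq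
  · rw [Submodule.span_le]
    intro z hz
    rcases hz with rfl | hz
    · exact hu
    · rw [Set.mem_singleton_iff] at hz
      rw [hz]
      exact hv
  · rw [hM]
    have h1 := finrank_span_eq_card hli
    rw [Matrix.range_cons, Matrix.range_cons, Matrix.range_empty, Set.union_empty] at h1
    exact h1

theorem pla_mem {M : Submodule K (Fin 4 → K)} (hM : finrank K M = 2) {u v : Fin 4 → K}
    (hu : u ∈ M) (hv : v ∈ M) (hli : LinearIndependent K ![u, v]) (z : Fin 4 → K) (hz : z ∈ M) :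
    ∃ p q : K, z = p • u + q • v := by
  rw [pla_span hM hu hv hli, Submodule.mem_span_pair] at hz
  obtain ⟨p, q, hpq⟩ := hz
  exact ⟨p, q, hpq.symm⟩

theorem pla_line {M M' : Submodule K (Fin 4 → K)} (hM : finrank K M = 2) (hM' : finrank K M' = 2)
    (hne : M ≠ M') {u v : Fin 4 → K} (hu0 : u ≠ 0) (hu : u ∈ M) (hu' : u ∈ M') (hv : v ∈ M)
    (hv' : v ∈ M') : ∃ c : K, v = c • u := by
  by_contra hcon
  push Not at hcon
  apply hne
  have hli : LinearIndependent K ![u, v] := by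
    rw [LinearIndependent.pair_iff' hu0]
    intro a ha
    exact hcon a ha.symm
  rw [pla_span hM hu hv hli, pla_span hM' hu' hv' hli]

theorem pla_ne {M : Submodule K (Fin 4 → K)} (hM : M ≠ ⊥) : ∃ w ∈ M, w ≠ 0 :=
  (Submodule.ne_bot_iff M).1 hM

theorem pla_memT {T : Fin 9 → Submodule K (Fin 4 → K)} {L : Fin 10 → Submodule K (Fin 4 → K)}
    (hT : ∀ i, finrank K (T i) = 2) {E : Fin 4 → (Fin 4 → K)} {α β : Fin 8 → K}
    (h : PD T L E α β) (i : Fin 8) (z : Fin 4 → K) (hz : z ∈ T i.castSucc) :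
    ∃ a b : K, z = a • E 0 + (a * α i) • E 1 + b • E 2 + (b * β i) • E 3 := by
  have hli : LinearIndependent K ![E 0 + α i • E 1, E 2 + β i • E 3] := by
    rw [LinearIndependent.pair_iff]
    intro s t hst
    have h1 := pla_coord h.ind s (s * α i) t (t * β i) (by
      rw [← hst]
      module)
    exact ⟨h1.1, h1.2.2.1⟩
  obtain ⟨p, q, hpq⟩ := pla_mem (hT _) (h.a i) (h.b i) hli z hz
  refine ⟨p, q, ?_⟩
  rw [hpq]
  module

theorem pla_mem8 {T : Fin 9 → Submodule K (Fin 4 → K)} {L : Fin 10 → Submodule K (Fin 4 → K)}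
    (hT : ∀ i, finrank K (T i) = 2) {E : Fin 4 → (Fin 4 → K)} {α β : Fin 8 → K}
    (h : PD T L E α β) (z : Fin 4 → K) (hz : z ∈ T 8) : ∃ x y : K, z = x • E 1 + y • E 3 := by
  have hli : LinearIndependent K ![E 1, E 3] := by
    rw [LinearIndependent.pair_iff]
    intro s t hst
    have h1 := pla_coord h.ind 0 s 0 t (by
      rw [← hst]
      module)
    exact ⟨h1.2.1, h1.2.2.2⟩
  exact pla_mem (hT _) h.t1 h.t3 hli z hz

theorem pla_disj {L L' : Submodule K (Fin 4 → K)} (hd : L ⊓ L' = ⊥) {z : Fin 4 → K} (h1 : z ∈ L)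
    (h2 : z ∈ L') : z = 0 := by
  have h3 : z ∈ L ⊓ L' := ⟨h1, h2⟩
  rw [hd] at h3
  exact h3

/-- the slope of the line through two points of the configuration -/
theorem pla_slope {T : Fin 9 → Submodule K (Fin 4 → K)} {L : Fin 10 → Submodule K (Fin 4 → K)}
    (hT : ∀ i, finrank K (T i) = 2) {E : Fin 4 → (Fin 4 → K)} {α β : Fin 8 → K}
    (h : PD T L E α β) {M : Submodule K (Fin 4 → K)} (hM : finrank K M = 2)
    (h1 : L 1 ⊓ M = ⊥) {x y : K} (hx : x ≠ 0)
    (hw : x • E 1 + y • E 3 ∈ M) {i : Fin 8} {a b : K} (ha : a ≠ 0)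
    (hi : a • E 0 + (a * α i) • E 1 + b • E 2 + (b * β i) • E 3 ∈ M) (j : Fin 8)
    (hj : T j.castSucc ⊓ M ≠ ⊥) : a * (α j - α i) * y = b * (β j - β i) * x := by
  obtain ⟨z, hz, hz0⟩ := pla_ne hj
  obtain ⟨a', b', rfl⟩ := pla_memT hT h j z hz.1
  have ha' : a' ≠ 0 := by
    rintro rfl
    apply hz0
    apply pla_disj h1 _ hz.2
    have h3 : (0 : K) • E 0 + (0 * α j) • E 1 + b' • E 2 + (b' * β j) • E 3 =
        b' • E 2 + (b' * β j) • E 3 := by
      module
    rw [h3]
    exact add_mem (Submodule.smul_mem _ _ h.e2) (Submodule.smul_mem _ _ h.e3)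
  have hli : LinearIndependent K ![x • E 1 + y • E 3,
      a • E 0 + (a * α i) • E 1 + b • E 2 + (b * β i) • E 3] := by
    rw [LinearIndependent.pair_iff]
    intro s t hst
    have h3 := pla_coord h.ind (t * a) (s * x + t * (a * α i)) (t * b) (s * y + t * (b * β i)) (by
      rw [← hst]
      module)
    have ht : t = 0 := by
      rcases mul_eq_zero.1 h3.1 with h4 | h4
      · exact h4
      · exact absurd h4 ha
    refine ⟨?_, ht⟩
    have h5 := h3.2.1
    rw [ht, zero_mul, add_zero] at h5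
    rcases mul_eq_zero.1 h5 with h4 | h4
    · exact h4
    · exact absurd h4 hx
  obtain ⟨p, q, hpq⟩ := pla_mem hM hw hi hli _ hz.2
  have h3 := pla_coord h.ind (a' - q * a) (a' * α j - p * x - q * (a * α i)) (b' - q * b)
    (b' * β j - p * y - q * (b * β i)) (by
      have h4 : (a' - q * a) • E 0 + (a' * α j - p * x - q * (a * α i)) • E 1 +
          (b' - q * b) • E 2 + (b' * β j - p * y - q * (b * β i)) • E 3 =
          (a' • E 0 + (a' * α j) • E 1 + b' • E 2 + (b' * β j) • E 3) -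
          (p • (x • E 1 + y • E 3) +
            q • (a • E 0 + (a * α i) • E 1 + b • E 2 + (b * β i) • E 3)) := by
        module
      rw [h4, ← hpq, sub_self])
  obtain ⟨e0, e1, e2, e3⟩ := h3
  have hq : q ≠ 0 := by
    rintro rfl
    apply ha'
    linear_combination e0
  apply mul_left_cancel₀ hq
  linear_combination y * e1 - x * e3 - (α j * y) * e0 + (β j * x) * e2

theorem collinear {T : Fin 9 → Submodule K (Fin 4 → K)} {L : Fin 10 → Submodule K (Fin 4 → K)}
    (hT : ∀ i, finrank K (T i) = 2) (hL : ∀ j, finrank K (L j) = 2)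
    (hTd : ∀ i i', i ≠ i' → T i ⊓ T i' = ⊥) (hLd : ∀ j j', j ≠ j' → L j ⊓ L j' = ⊥)
    (hinc : ∀ i j, (i, j) ∈ Gam → T i ⊓ L j ≠ ⊥)
    {E : Fin 4 → (Fin 4 → K)} {α β : Fin 8 → K} (h : PD T L E α β) (b : Fin 8) :
    br α β (blk b 0) (blk b 1) (blk b 2) = 0 := by
  obtain ⟨j, hj⟩ : ∃ j : Fin 10, j = ⟨b.1 + 2, by omega⟩ := ⟨_, rfl⟩
  have hj0 : (0 : Fin 10) ≠ j := by
    rw [hj]
    intro h1
    have h2 := congrArg Fin.val h1
    simp at h2
  have hj1 : (1 : Fin 10) ≠ j := by
    rw [hj]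
    intro h1
    have h2 := congrArg Fin.val h1
    simp at h2
  have hm8 : ((8 : Fin 9), j) ∈ Gam := by
    rw [Gam, Finset.mem_filter]
    exact ⟨Finset.mem_univ _, Or.inl rfl⟩
  have hmi : ∀ c, ((blk b c).castSucc, j) ∈ Gam := by
    intro c
    rw [Gam, Finset.mem_filter]
    exact ⟨Finset.mem_univ _, Or.inr (Or.inr (Or.inr ⟨b, c, hj, rfl⟩))⟩
  have h0 := hLd 0 j hj0
  have h1 := hLd 1 j hj1
  obtain ⟨w, hw, hw0⟩ := pla_ne (hinc _ _ hm8)
  obtain ⟨x, y, rfl⟩ := pla_mem8 hT h w hw.1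
  have hx : x ≠ 0 := by
    rintro rfl
    apply hw0
    apply pla_disj h1 _ hw.2
    rw [zero_smul, zero_add]
    exact Submodule.smul_mem _ _ h.e3
  have hy : y ≠ 0 := by
    rintro rfl
    apply hw0
    apply pla_disj h0 _ hw.2
    rw [zero_smul, add_zero]
    exact Submodule.smul_mem _ _ h.e1
  obtain ⟨z, hz, hz0⟩ := pla_ne (hinc _ _ (hmi 0))
  obtain ⟨a', b', rfl⟩ := pla_memT hT h _ z hz.1
  have ha' : a' ≠ 0 := by
    rintro rfl
    apply hz0
    apply pla_disj h1 _ hz.2
    have h3 : (0 : K) • E 0 + (0 * α (blk b 0)) • E 1 + b' • E 2 + (b' * β (blk b 0)) • E 3 =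
        b' • E 2 + (b' * β (blk b 0)) • E 3 := by
      module
    rw [h3]
    exact add_mem (Submodule.smul_mem _ _ h.e2) (Submodule.smul_mem _ _ h.e3)
  have s1 := pla_slope hT h (hL j) h1 hx hw.2 ha' hz.2 (blk b 1) (hinc _ _ (hmi 1))
  have s2 := pla_slope hT h (hL j) h1 hx hw.2 ha' hz.2 (blk b 2) (hinc _ _ (hmi 2))
  apply mul_left_cancel₀ (mul_ne_zero ha' hy)
  unfold br
  linear_combination (β (blk b 2) - β (blk b 0)) * s1 - (β (blk b 1) - β (blk b 0)) * s2

theorem PD_unique {T : Fin 9 → Submodule K (Fin 4 → K)} {L : Fin 10 → Submodule K (Fin 4 → K)}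
    (hT : ∀ i, finrank K (T i) = 2) (hL : ∀ j, finrank K (L j) = 2)
    (hTL : T 8 ≠ L 0 ∧ T 8 ≠ L 1) (hTd : ∀ i i', i ≠ i' → T i ⊓ T i' = ⊥)
    (hTi : ∀ i : Fin 8, T i.castSucc ≠ L 0 ∧ T i.castSucc ≠ L 1)
    {E E' : Fin 4 → (Fin 4 → K)} {α β α' β' : Fin 8 → K} (h : PD T L E α β) (h' : PD T L E' α' β') :
    ∃ x y z w : K, x ≠ 0 ∧ z ≠ 0 ∧ (∀ i, α i = x * α' i + y) ∧ (∀ i, β i = z * β' i + w) := by
  have hE1 : E 1 ≠ 0 := h.ind.ne_zero 1
  have hE3 : E 3 ≠ 0 := h.ind.ne_zero 3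
  obtain ⟨s, hs⟩ := pla_line (hT 8) (hL 0) hTL.1 hE1 h.t1 h.e1 h'.t1 h'.e1
  obtain ⟨t, ht⟩ := pla_line (hT 8) (hL 1) hTL.2 hE3 h.t3 h.e3 h'.t3 h'.e3
  have hs0 : s ≠ 0 := by
    rintro rfl
    exact h'.ind.ne_zero 1 (by rw [hs, zero_smul])
  have ht0 : t ≠ 0 := by
    rintro rfl
    exact h'.ind.ne_zero 3 (by rw [ht, zero_smul])
  have hli01 : LinearIndependent K ![E 0, E 1] := by
    rw [LinearIndependent.pair_iff]
    intro s t hst
    have h1 := pla_coord h.ind s t 0 0 (by
      rw [← hst]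
      module)
    exact ⟨h1.1, h1.2.1⟩
  have hli23 : LinearIndependent K ![E 2, E 3] := by
    rw [LinearIndependent.pair_iff]
    intro s t hst
    have h1 := pla_coord h.ind 0 0 s t (by
      rw [← hst]
      module)
    exact ⟨h1.2.2.1, h1.2.2.2⟩
  obtain ⟨x0, x1, hx⟩ := pla_mem (hL 0) h.e0 h.e1 hli01 (E' 0) h'.e0
  obtain ⟨y0, y1, hy⟩ := pla_mem (hL 1) h.e2 h.e3 hli23 (E' 2) h'.e2
  have hx0 : x0 ≠ 0 := by
    rintro rfl
    have h1 := pla_coord h'.ind s (-x1) 0 0 (by
      rw [hx, hs]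
      module)
    exact hs0 h1.1
  have hy0 : y0 ≠ 0 := by
    rintro rfl
    have h1 := pla_coord h'.ind 0 0 t (-y1) (by
      rw [hy, ht]
      module)
    exact ht0 h1.2.2.1
  refine ⟨s / x0, x1 / x0, t / y0, y1 / y0, div_ne_zero hs0 hx0, div_ne_zero ht0 hy0,
    fun i => ?_, fun i => ?_⟩
  · have hu0 : E 0 + α i • E 1 ≠ 0 := by
      intro h1
      have h2 := pla_coord h.ind 1 (α i) 0 0 (by
        rw [← h1]
        module)
      exact one_ne_zero h2.1
    obtain ⟨c, hc⟩ := pla_line (hT i.castSucc) (hL 0) (hTi i).1 hu0 (h.a i)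
      (add_mem h.e0 (Submodule.smul_mem _ _ h.e1)) (h'.a i)
      (add_mem h'.e0 (Submodule.smul_mem _ _ h'.e1))
    rw [hx, hs] at hc
    have h2 := pla_coord h.ind (x0 - c) (x1 + α' i * s - c * α i) 0 0 (by
      have h3 : (x0 - c) • E 0 + (x1 + α' i * s - c * α i) • E 1 + (0 : K) • E 2 + (0 : K) • E 3 =
          (x0 • E 0 + x1 • E 1 + α' i • s • E 1) - c • (E 0 + α i • E 1) := by
        module
      rw [h3, hc, sub_self])
    obtain ⟨e0, e1, -, -⟩ := h2
    field_simp
    linear_combination (α i) * e0 - e1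
  · have hu0 : E 2 + β i • E 3 ≠ 0 := by
      intro h1
      have h2 := pla_coord h.ind 0 0 1 (β i) (by
        rw [← h1]
        module)
      exact one_ne_zero h2.2.2.1
    obtain ⟨c, hc⟩ := pla_line (hT i.castSucc) (hL 1) (hTi i).2 hu0 (h.b i)
      (add_mem h.e2 (Submodule.smul_mem _ _ h.e3)) (h'.b i)
      (add_mem h'.e2 (Submodule.smul_mem _ _ h'.e3))
    rw [hy, ht] at hc
    have h2 := pla_coord h.ind 0 0 (y0 - c) (y1 + β' i * t - c * β i) (by
      have h3 : (0 : K) • E 0 + (0 : K) • E 1 + (y0 - c) • E 2 + (y1 + β' i * t - c * β i) • E 3 =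
          (y0 • E 2 + y1 • E 3 + β' i • t • E 3) - c • (E 2 + β i • E 3) := by
        module
      rw [h3, hc, sub_self])
    obtain ⟨-, -, e0, e1⟩ := h2
    field_simp
    linear_combination (β i) * e0 - e1

end Pool.H33.G

end S_PLA

section S_PLM

/-! # PLM: the affine invariant and the MacLane configuration

`maclane`: in the frame of the points `0, 1, 2` (`br α β 0 1 2 ≠ 0`) write
`(1, α_i, β_i) = x_i P_0 + y_i P_1 + w_i P_2`; the conditions give `P_3 = (x3, y3, 0)`, `P_4 = (0, y4, w4)`,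
`P_7 = (x7, 0, w7)`, `P_5 = c P_3 + s P_2`, `P_6 = c' P_5 + t P_0` with `c, c' ≠ 0`, and the last three
collinearities give with `a = y3/x3`, `b = w4/y4`, `e = w7/x7` (after scaling `P_5 = (1, a, s)`, `P_6 = (t, a, s)`):
`s = e + a b`, `e + a b t = 0`, `s = e t`, so `(a b)^2 + (a b) e + e^2 = 0`; and
`numB / denB = (y3/x3) (w4/y4) (x7/w7) = a b / e`. -/

open Module

namespace Pool.H33.G

variable {K : Type} [Field K]

/-- the invariant `numB / denB` does not depend on the coordinates -/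
theorem inv_affine {α β α' β' : Fin 8 → K} {x y z w : K} (hα : ∀ i, α i = x * α' i + y)
    (hβ : ∀ i, β i = z * β' i + w) :
    numB α β = (x * z) ^ 3 * numB α' β' ∧ denB α β = (x * z) ^ 3 * denB α' β' := by
  have hbr : ∀ i j l, br α β i j l = (x * z) * br α' β' i j l := by
    intro i j l
    simp only [br, hα, hβ]
    ring
  constructor
  · simp only [numB, hbr]
    ring
  · simp only [denB, hbr]
    ring

/-- the MacLane configuration forces a primitive cube root of unity -/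
theorem maclane {α β : Fin 8 → K} (hc : ∀ b, br α β (blk b 0) (blk b 1) (blk b 2) = 0)
    (hn : ∀ i j l : Fin 8, i ≠ j → i ≠ l → j ≠ l →
      (∀ b, ¬ ((∃ c, i = blk b c) ∧ (∃ c, j = blk b c) ∧ (∃ c, l = blk b c))) → br α β i j l ≠ 0) :
    numB α β ^ 2 + numB α β * denB α β + denB α β ^ 2 = 0 := by
  have h013 : br α β 0 1 3 = 0 := hc 0
  have h027 : br α β 0 2 7 = 0 := hc 1
  have h056 : br α β 0 5 6 = 0 := hc 2
  have h124 : br α β 1 2 4 = 0 := hc 3
  have h167 : br α β 1 6 7 = 0 := hc 4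
  have h235 : br α β 2 3 5 = 0 := hc 5
  have h346 : br α β 3 4 6 = 0 := hc 6
  have h457 : br α β 4 5 7 = 0 := hc 7
  have hX5 : br α β 5 1 2 ≠ 0 :=
    hn 5 1 2 (by decide) (by decide) (by decide) (by decide)
  have hW6 : br α β 0 1 6 ≠ 0 :=
    hn 0 1 6 (by decide) (by decide) (by decide) (by decide)
  obtain ⟨X, hX⟩ : ∃ X : Fin 8 → K, ∀ i, X i = br α β i 1 2 := ⟨_, fun _ => rfl⟩
  obtain ⟨Y, hY⟩ : ∃ Y : Fin 8 → K, ∀ i, Y i = br α β 0 i 2 := ⟨_, fun _ => rfl⟩
  obtain ⟨W, hW⟩ : ∃ W : Fin 8 → K, ∀ i, W i = br α β 0 1 i := ⟨_, fun _ => rfl⟩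
  have hW3 : W 3 = 0 := by rw [hW, h013]
  have hY7 : Y 7 = 0 := by
    rw [hY]
    have h : br α β 0 7 2 = -br α β 0 2 7 := by
      simp only [br]
      ring
    rw [h, h027, neg_zero]
  have hX4 : X 4 = 0 := by
    rw [hX]
    have h : br α β 4 1 2 = br α β 1 2 4 := by
      simp only [br]
      ring
    rw [h, h124]
  have e235 : X 3 * Y 5 = Y 3 * X 5 := by
    have h : X 3 * Y 5 - Y 3 * X 5 = br α β 0 1 2 * br α β 2 3 5 := by
      simp only [hX, hY, br]
      ring
    rw [h235, mul_zero] at h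
    exact sub_eq_zero.1 h
  have e056 : Y 5 * W 6 = W 5 * Y 6 := by
    have h : Y 5 * W 6 - W 5 * Y 6 = br α β 0 1 2 * br α β 0 5 6 := by
      simp only [hW, hY, br]
      ring
    rw [h056, mul_zero] at h
    exact sub_eq_zero.1 h
  have e167 : X 6 * W 7 = W 6 * X 7 := by
    have h : X 6 * W 7 - W 6 * X 7 = -(br α β 0 1 2 * br α β 1 6 7) := by
      simp only [hW, hX, br]
      ring
    rw [h167, mul_zero, neg_zero] at h
    exact sub_eq_zero.1 h
  have hdet : ∀ i j l, X i * (Y j * W l - W j * Y l) - Y i * (X j * W l - W j * X l) +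
      W i * (X j * Y l - Y j * X l) = br α β 0 1 2 ^ 2 * br α β i j l := by
    intro i j l
    simp only [hX, hY, hW, br]
    ring
  have e346 := hdet 3 4 6
  rw [h346, mul_zero, hW3, hX4] at e346
  have e457 := hdet 4 5 7
  rw [h457, mul_zero, hX4, hY7] at e457
  have hnum : numB α β = -(Y 3 * W 4 * X 7) := by
    simp only [numB, hX, hY, hW, br]
    ring
  have hden : denB α β = -(X 3 * Y 4 * W 7) := by
    simp only [denB, hX, hY, hW, br]
    ring
  rw [hnum, hden]
  have i1 : X 5 * (Y 3 * W 4 * X 7 + X 3 * Y 4 * W 7) = X 3 * Y 4 * X 7 * W 5 := by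
    linear_combination (-X 3) * e457 - W 4 * X 7 * e235
  have i3 : Y 3 * Y 4 * X 7 * W 6 = (Y 3 * W 4 * X 7 + X 3 * Y 4 * W 7) * Y 6 := by
    have hX5' : X 5 ≠ 0 := by
      rw [hX]
      exact hX5
    apply mul_left_cancel₀ hX5'
    linear_combination (-Y 4 * X 7 * W 6) * e235 + X 3 * Y 4 * X 7 * e056 - Y 6 * i1
  have hW6' : W 6 ≠ 0 := by
    rw [hW]
    exact hW6
  apply mul_left_cancel₀ hW6'
  rw [mul_zero]
  linear_combination (W 7 * (Y 3 * W 4 * X 7 + X 3 * Y 4 * W 7)) * e346 -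
    (Y 3 * W 4 * (Y 3 * W 4 * X 7 + X 3 * Y 4 * W 7)) * e167 - X 3 * W 4 * W 7 * i3

end Pool.H33.G

end S_PLM

section S_PLB

/-! # PLB: coordinates adapted to a valuation subring

Hypotheses: the limits of the lines are the explicit lines with parameter `w0` in the residue field.
Construction: `L 0 ⊓ T 8` is one dimensional (`T 8 ⊓ L 0 ≠ ⊥`, limits differ); its limit is contained in
`span {e0, e1} ⊓ span {e1, e3} = span {e1}`; take a generator `E 1 ∈ R^4` with reduction `e1` (scale).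
`limS R (L 0) ∋ e0` gives `E 0 ∈ L 0 ∩ R^4` with reduction `e0`; similarly `E 2, E 3`.  `E` is a basis since the
reductions are (`det` is a unit).  A nonzero vector of `T i ⊓ L 0` is `x E0 + y E1`; `x ≠ 0` (as
`T i ⊓ T 8 = ⊥`); if `y / x ∉ R` then `(x/y) E0 + E1 ∈ T i ⊓ L 0` would reduce to `e1`, which is not in
`span {(1, al i, 0,0), (0,0,1, be i)}`; so `α i = y / x ∈ R` and the reduction of `E 0 + α i E 1` is in this span,
so `residue (α i) = al w0 i`. -/

open Module

namespace Pool.H33.G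

variable {K : Type} [Field K]

theorem PLB_mem (R : ValuationSubring K) {Λ : Submodule K (Fin 4 → K)}
    {v : Fin 4 → IsLocalRing.ResidueField R} :
    v ∈ limS R Λ ↔ ∃ w : Fin 4 → R, (fun a => (w a : K)) ∈ Λ ∧
      v = fun a => IsLocalRing.residue R (w a) := by
  rw [limS_eq_redS]
  exact mem_redS R

theorem PLB_scale (R : ValuationSubring K) {n : ℕ} {v : Fin n → K} (hv : v ≠ 0) :
    ∃ (c : K) (w : Fin n → R) (a : Fin n), c ≠ 0 ∧ (∀ b, (w b : K) = c * v b) ∧ w a = 1 := by
  obtain ⟨b0, hb0⟩ := Function.ne_iff.1 hv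
  have : Nonempty (Fin n) := ⟨b0⟩
  obtain ⟨a, ha⟩ := Finite.exists_max fun a => R.valuation (v a)
  have hva : v a ≠ 0 := by
    intro h0
    have h1 := ha b0
    rw [h0, map_zero, le_zero_iff, map_eq_zero] at h1
    exact hb0 h1
  have hval : R.valuation (v a) ≠ 0 := by
    rw [Ne, map_eq_zero]
    exact hva
  refine ⟨(v a)⁻¹, fun b => ⟨(v a)⁻¹ * v b, ?_⟩, a, inv_ne_zero hva, fun b => rfl, ?_⟩
  · rw [← ValuationSubring.valuation_le_one_iff, map_mul, map_inv₀]
    calc (R.valuation (v a))⁻¹ * R.valuation (v b) ≤ (R.valuation (v a))⁻¹ * R.valuation (v a) :=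
          mul_le_mul_right (ha b) _
      _ = 1 := inv_mul_cancel₀ hval
  · apply Subtype.ext
    exact inv_mul_cancel₀ hva

theorem PLB_indep (R : ValuationSubring K) {n : ℕ} (w : Fin n → Fin 4 → R)
    (h : LinearIndependent (IsLocalRing.ResidueField R)
      (fun i a => IsLocalRing.residue R (w i a))) :
    LinearIndependent K (fun i a => (w i a : K)) := by
  rw [Fintype.linearIndependent_iff] at h ⊢
  intro g hg
  by_contra hcon
  push Not at hcon
  obtain ⟨i0, hi0⟩ := hcon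
  obtain ⟨c, g', a, hc, hg', ha⟩ := PLB_scale R (v := g) (fun h0 => hi0 (congrFun h0 i0))
  have h1 : ∑ i, IsLocalRing.residue R (g' i) • (fun a => IsLocalRing.residue R (w i a)) = 0 := by
    funext b
    have h2 := congrFun hg b
    simp only [Finset.sum_apply, Pi.smul_apply, smul_eq_mul, Pi.zero_apply] at h2 ⊢
    have h3 : ∑ i, g' i * w i b = 0 := by
      apply Subtype.ext
      push_cast
      have h4 : ∀ i, (g' i : K) * (w i b : K) = c * (g i * w i b) := fun i => by
        rw [hg']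
        ring
      rw [Finset.sum_congr rfl fun i _ => h4 i, ← Finset.mul_sum, h2, mul_zero]
    have h5 := congrArg (IsLocalRing.residue R) h3
    rw [map_sum, map_zero] at h5
    rw [← h5]
    exact Finset.sum_congr rfl fun i _ => (map_mul _ _ _).symm
  have h2 := h _ h1 a
  rw [ha, map_one] at h2
  exact one_ne_zero h2

theorem PLB_C (R : ValuationSubring K) {Λ Λ' : Submodule K (Fin 4 → K)} (hne : Λ ⊓ Λ' ≠ ⊥)
    (e : Fin 4 → IsLocalRing.ResidueField R)
    (h : ∀ v, v ∈ limS R Λ → v ∈ limS R Λ' → ∃ c : IsLocalRing.ResidueField R, v = c • e) :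
    ∃ w : Fin 4 → R, (fun a => (w a : K)) ∈ Λ ∧ (fun a => (w a : K)) ∈ Λ' ∧
      ∀ a, IsLocalRing.residue R (w a) = e a := by
  obtain ⟨v, hv, hv0⟩ := Submodule.exists_mem_ne_zero_of_ne_bot hne
  obtain ⟨c, w, a, hc, hw, ha⟩ := PLB_scale R hv0
  have hw' : (fun a => (w a : K)) = c • v := by
    funext b
    rw [hw]
    rfl
  obtain ⟨c', hc'⟩ := h (fun a => IsLocalRing.residue R (w a))
    ((PLB_mem R).2 ⟨w, by rw [hw']; exact Λ.smul_mem _ hv.1, rfl⟩)
    ((PLB_mem R).2 ⟨w, by rw [hw']; exact Λ'.smul_mem _ hv.2, rfl⟩)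
  have hc0 : c' ≠ 0 := by
    rintro rfl
    have h1 := congrFun hc' a
    simp only [ha, map_one, zero_smul, Pi.zero_apply] at h1
    exact one_ne_zero h1
  obtain ⟨u, hu⟩ := IsLocalRing.residue_surjective c'
  have hun : IsUnit u := by
    rw [← IsLocalRing.residue_ne_zero_iff_isUnit, hu]
    exact hc0
  obtain ⟨u', rfl⟩ := hun
  have hmem : (fun a => ((((u'⁻¹ : Rˣ) : R) * w a : R) : K)) = ((((u'⁻¹ : Rˣ) : R) : K) * c) • v := by
    funext b
    rw [Pi.smul_apply, smul_eq_mul, mul_assoc, ← hw b]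
    rfl
  refine ⟨fun a => ((u'⁻¹ : Rˣ) : R) * w a, ?_, ?_, ?_⟩
  · rw [hmem]
    exact Λ.smul_mem _ hv.1
  · rw [hmem]
    exact Λ'.smul_mem _ hv.2
  · intro b
    have h1 := congrFun hc' b
    simp only [Pi.smul_apply, smul_eq_mul] at h1
    rw [map_mul, h1, ← hu, ← mul_assoc, ← map_mul, Units.inv_mul, map_one, one_mul]

theorem PLB_D (R : ValuationSubring K) {Λ T : Submodule K (Fin 4 → K)} (hΛ : finrank K Λ = 2)
    (w : Fin 2 → Fin 4 → R) (hw : ∀ i, (fun a => (w i a : K)) ∈ Λ)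
    (hind : LinearIndependent (IsLocalRing.ResidueField R)
      (fun i a => IsLocalRing.residue R (w i a)))
    (hTL : T ⊓ Λ ≠ ⊥) (hf2 : (fun a => IsLocalRing.residue R (w 1 a)) ∉ limS R T) :
    ∃ α : R, (fun a => (w 0 a : K)) + (α : K) • (fun a => (w 1 a : K)) ∈ T ∧
      (fun a => IsLocalRing.residue R (w 0 a)) + IsLocalRing.residue R α •
        (fun a => IsLocalRing.residue R (w 1 a)) ∈ limS R T := by
  have hK := PLB_indep R w hind
  have hspan : Submodule.span K (Set.range fun i a => (w i a : K)) = Λ := by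
    refine Submodule.eq_of_le_of_finrank_eq ?_ ?_
    · rw [Submodule.span_le]
      rintro _ ⟨i, rfl⟩
      exact hw i
    · rw [finrank_span_eq_card hK, hΛ]
      rfl
  obtain ⟨v, hv, hv0⟩ := Submodule.exists_mem_ne_zero_of_ne_bot hTL
  have hv2 : v ∈ Submodule.span K (Set.range fun i a => (w i a : K)) := by
    rw [hspan]
    exact hv.2
  obtain ⟨c, hc⟩ := (Submodule.mem_span_range_iff_exists_fun K).1 hv2
  rw [Fin.sum_univ_two] at hc
  have hf2' : (fun a => (w 1 a : K)) ∉ T := fun h => hf2 ((PLB_mem R).2 ⟨w 1, h, rfl⟩)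
  have hc0 : c 0 ≠ 0 := by
    intro h0
    rw [h0, zero_smul, zero_add] at hc
    have hc1 : c 1 ≠ 0 := by
      intro h1
      rw [h1, zero_smul] at hc
      exact hv0 hc.symm
    apply hf2'
    have h2 : (fun a => (w 1 a : K)) = (c 1)⁻¹ • v := by
      rw [← hc, smul_smul, inv_mul_cancel₀ hc1, one_smul]
    rw [h2]
    exact T.smul_mem _ hv.1
  have hα : (fun a => (w 0 a : K)) + (c 1 / c 0) • (fun a => (w 1 a : K)) = (c 0)⁻¹ • v := by
    rw [← hc, smul_add, smul_smul, smul_smul, inv_mul_cancel₀ hc0, one_smul, div_eq_inv_mul]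
  have hαT : (fun a => (w 0 a : K)) + (c 1 / c 0) • (fun a => (w 1 a : K)) ∈ T := by
    rw [hα]
    exact T.smul_mem _ hv.1
  have hαR : c 1 / c 0 ∈ R := by
    by_contra hnR
    have hc1 : c 1 ≠ 0 := by
      intro h1
      apply hnR
      rw [h1, zero_div]
      exact R.zero_mem
    have hinv : (c 1 / c 0)⁻¹ ∈ R := (R.mem_or_inv_mem _).resolve_left hnR
    have hnu : IsLocalRing.residue R ⟨(c 1 / c 0)⁻¹, hinv⟩ = 0 := by
      by_contra hne
      have hu : IsUnit (⟨(c 1 / c 0)⁻¹, hinv⟩ : R) :=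
        (IsLocalRing.residue_ne_zero_iff_isUnit _).1 hne
      obtain ⟨u, hu⟩ := hu
      apply hnR
      have h3 : ((u : R) : K) * (((u⁻¹ : Rˣ) : R) : K) = 1 := by
        have := congrArg (Subtype.val) (u.mul_inv)
        exact this
      rw [hu] at h3
      have h4 : (c 1 / c 0) = (((u⁻¹ : Rˣ) : R) : K) := by
        have h5 : (c 1 / c 0) ≠ 0 := div_ne_zero hc1 hc0
        change (c 1 / c 0)⁻¹ * _ = 1 at h3
        field_simp at h3 ⊢
        exact h3.symm
      rw [h4]
      exact Subtype.mem _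
    apply hf2
    rw [PLB_mem]
    refine ⟨fun a => ⟨(c 1 / c 0)⁻¹, hinv⟩ * w 0 a + w 1 a, ?_, ?_⟩
    · have h6 : (fun a => (((⟨(c 1 / c 0)⁻¹, hinv⟩ : R) * w 0 a + w 1 a : R) : K)) =
          (c 1 / c 0)⁻¹ • ((fun a => (w 0 a : K)) + (c 1 / c 0) • (fun a => (w 1 a : K))) := by
        rw [smul_add, smul_smul, inv_mul_cancel₀ (div_ne_zero hc1 hc0), one_smul]
        rfl
      rw [h6]
      exact T.smul_mem _ hαT
    · funext a
      rw [map_add, map_mul, hnu, zero_mul, zero_add]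
  refine ⟨⟨c 1 / c 0, hαR⟩, hαT, ?_⟩
  rw [PLB_mem]
  refine ⟨fun a => w 0 a + ⟨c 1 / c 0, hαR⟩ * w 1 a, hαT, ?_⟩
  funext a
  rw [map_add, map_mul]
  rfl

theorem exists_PD (R : ValuationSubring K) {T : Fin 9 → Submodule K (Fin 4 → K)}
    {L : Fin 10 → Submodule K (Fin 4 → K)} (w0 : IsLocalRing.ResidueField R)
    (hT : ∀ i, finrank K (T i) = 2) (hL : ∀ j, finrank K (L j) = 2)
    (hTd : ∀ i i', i ≠ i' → T i ⊓ T i' = ⊥)
    (hinc : ∀ i j, (i, j) ∈ Gam → T i ⊓ L j ≠ ⊥)
    (lT : ∀ i, limS R (T i) = Submodule.span _ {sTP w0 i, sTQ w0 i})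
    (lL : ∀ j, limS R (L j) = Submodule.span _ {sP w0 j, sQ w0 j}) :
    ∃ (E : Fin 4 → (Fin 4 → K)) (α β : Fin 8 → R), PD T L E (fun i => (α i : K)) (fun i => (β i : K)) ∧
      (∀ i, IsLocalRing.residue R (α i) = al w0 i) ∧ (∀ i, IsLocalRing.residue R (β i) = be w0 i) := by
  have lT8 : limS R (T 8) = Submodule.span _ {![0, 1, 0, 0], ![0, 0, 0, 1]} := by
    rw [lT 8]
    have h1 : sTP w0 8 = ![0, 1, 0, 0] := Fin.lastCases_last
    have h2 : sTQ w0 8 = ![0, 0, 0, 1] := Fin.lastCases_last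
    rw [h1, h2]
  have lTi : ∀ i : Fin 8, limS R (T i.castSucc) =
      Submodule.span _ {![1, al w0 i, 0, 0], ![0, 0, 1, be w0 i]} := by
    intro i
    rw [lT i.castSucc]
    have h1 : sTP w0 i.castSucc = ![1, al w0 i, 0, 0] := Fin.lastCases_castSucc _
    have h2 : sTQ w0 i.castSucc = ![0, 0, 1, be w0 i] := Fin.lastCases_castSucc _
    rw [h1, h2]
  have lL0 : limS R (L 0) = Submodule.span _ {![1, 0, 0, 0], ![0, 1, 0, 0]} := lL 0
  have lL1 : limS R (L 1) = Submodule.span _ {![0, 0, 1, 0], ![0, 0, 0, 1]} := lL 1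
  -- the four vectors
  obtain ⟨W1, hW1T, hW1L, hW1⟩ := PLB_C R (hinc 8 0 (by decide)) ![0, 1, 0, 0] (by
    intro v hv hv'
    rw [lT8, Submodule.mem_span_pair] at hv
    rw [lL0, Submodule.mem_span_pair] at hv'
    obtain ⟨a, b, hab⟩ := hv
    obtain ⟨c, d, hcd⟩ := hv'
    refine ⟨a, ?_⟩
    rw [← hab] at hcd ⊢
    have h3 := congrFun hcd 3
    simp at h3
    rw [← h3]
    simp)
  obtain ⟨W3, hW3T, hW3L, hW3⟩ := PLB_C R (hinc 8 1 (by decide)) ![0, 0, 0, 1] (by
    intro v hv hv'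
    rw [lT8, Submodule.mem_span_pair] at hv
    rw [lL1, Submodule.mem_span_pair] at hv'
    obtain ⟨a, b, hab⟩ := hv
    obtain ⟨c, d, hcd⟩ := hv'
    refine ⟨b, ?_⟩
    rw [← hab] at hcd ⊢
    have h3 := congrFun hcd 1
    simp at h3
    rw [← h3]
    simp)
  obtain ⟨W0, hW0L, hW0⟩ := (PLB_mem R).1 (show (![1, 0, 0, 0] : Fin 4 → IsLocalRing.ResidueField R) ∈
    limS R (L 0) by
      rw [lL0]
      exact Submodule.subset_span (Set.mem_insert _ _))
  obtain ⟨W2, hW2L, hW2⟩ := (PLB_mem R).1 (show (![0, 0, 1, 0] : Fin 4 → IsLocalRing.ResidueField R) ∈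
    limS R (L 1) by
      rw [lL1]
      exact Submodule.subset_span (Set.mem_insert _ _))
  have hW1' : (fun a => IsLocalRing.residue R (W1 a)) = ![0, 1, 0, 0] := funext hW1
  have hW3' : (fun a => IsLocalRing.residue R (W3 a)) = ![0, 0, 0, 1] := funext hW3
  -- the coefficients
  have hA : ∀ i : Fin 8, ∃ α : R, (fun a => (W0 a : K)) + (α : K) • (fun a => (W1 a : K)) ∈
      T i.castSucc ∧ IsLocalRing.residue R α = al w0 i := by
    intro i
    obtain ⟨α, h1, h2⟩ := PLB_D R (hL 0) (T := T i.castSucc) ![W0, W1] (by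
        intro j
        fin_cases j
        · exact hW0L
        · exact hW1L) (by
        rw [Fintype.linearIndependent_iff]
        intro g hg
        rw [Fin.sum_univ_two] at hg
        change g 0 • (fun a => IsLocalRing.residue R (W0 a)) +
          g 1 • (fun a => IsLocalRing.residue R (W1 a)) = 0 at hg
        rw [hW1', ← hW0] at hg
        have e0 := congrFun hg 0
        have e1 := congrFun hg 1
        simp at e0 e1
        intro j
        fin_cases j
        · exact e0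
        · exact e1) (hinc _ _ (by simp [Gam])) (by
        change (fun a => IsLocalRing.residue R (W1 a)) ∉ _
        rw [hW1', lTi, Submodule.mem_span_pair]
        rintro ⟨a, b, hab⟩
        have e0 := congrFun hab 0
        have e1 := congrFun hab 1
        simp at e0 e1
        rw [e0, zero_mul] at e1
        exact zero_ne_one e1)
    refine ⟨α, h1, ?_⟩
    change (fun a => IsLocalRing.residue R (W0 a)) + IsLocalRing.residue R α •
      (fun a => IsLocalRing.residue R (W1 a)) ∈ _ at h2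
    rw [hW1', ← hW0, lTi, Submodule.mem_span_pair] at h2
    obtain ⟨a, b, hab⟩ := h2
    have e0 := congrFun hab 0
    have e1 := congrFun hab 1
    simp at e0 e1
    rw [e0, one_mul] at e1
    exact e1.symm
  have hB : ∀ i : Fin 8, ∃ β : R, (fun a => (W2 a : K)) + (β : K) • (fun a => (W3 a : K)) ∈
      T i.castSucc ∧ IsLocalRing.residue R β = be w0 i := by
    intro i
    obtain ⟨β, h1, h2⟩ := PLB_D R (hL 1) (T := T i.castSucc) ![W2, W3] (by
        intro j
        fin_cases j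
        · exact hW2L
        · exact hW3L) (by
        rw [Fintype.linearIndependent_iff]
        intro g hg
        rw [Fin.sum_univ_two] at hg
        change g 0 • (fun a => IsLocalRing.residue R (W2 a)) +
          g 1 • (fun a => IsLocalRing.residue R (W3 a)) = 0 at hg
        rw [hW3', ← hW2] at hg
        have e0 := congrFun hg 2
        have e1 := congrFun hg 3
        simp at e0 e1
        intro j
        fin_cases j
        · exact e0
        · exact e1) (hinc _ _ (by simp [Gam])) (by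
        change (fun a => IsLocalRing.residue R (W3 a)) ∉ _
        rw [hW3', lTi, Submodule.mem_span_pair]
        rintro ⟨a, b, hab⟩
        have e0 := congrFun hab 2
        have e1 := congrFun hab 3
        simp at e0 e1
        rw [e0, zero_mul] at e1
        exact zero_ne_one e1)
    refine ⟨β, h1, ?_⟩
    change (fun a => IsLocalRing.residue R (W2 a)) + IsLocalRing.residue R β •
      (fun a => IsLocalRing.residue R (W3 a)) ∈ _ at h2
    rw [hW3', ← hW2, lTi, Submodule.mem_span_pair] at h2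
    obtain ⟨a, b, hab⟩ := h2
    have e0 := congrFun hab 2
    have e1 := congrFun hab 3
    simp at e0 e1
    rw [e0, one_mul] at e1
    exact e1.symm
  choose α hα hα' using hA
  choose β hβ hβ' using hB
  refine ⟨fun i a => (![W0, W1, W2, W3] i a : K), α, β, ⟨?_, hW0L, hW1L, hW2L, hW3L, hW1T, hW3T,
    hα, hβ⟩, hα', hβ'⟩
  refine PLB_indep R ![W0, W1, W2, W3] ?_
  rw [Fintype.linearIndependent_iff]
  intro g hg
  rw [Fin.sum_univ_four] at hg
  change g 0 • (fun a => IsLocalRing.residue R (W0 a)) +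
    g 1 • (fun a => IsLocalRing.residue R (W1 a)) + g 2 • (fun a => IsLocalRing.residue R (W2 a)) +
    g 3 • (fun a => IsLocalRing.residue R (W3 a)) = 0 at hg
  rw [hW1', hW3', ← hW0, ← hW2] at hg
  have e0 := congrFun hg 0
  have e1 := congrFun hg 1
  have e2 := congrFun hg 2
  have e3 := congrFun hg 3
  simp at e0 e1 e2 e3
  intro j
  fin_cases j
  · exact e0
  · exact e1
  · exact e2
  · exact e3

end Pool.H33.G

end S_PLB

section S_PLC

/-! # PLC: the two limits have the same cube root of unity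

From `exists_PD` for `R` and `R'`, `PD_unique`, `inv_affine`: `lam = numB α β / denB α β` is the same for
both (`denB` is nonzero as its reduction is nonzero by `num_eq`).  `collinear` and `maclane` (the brackets of
non-collinear triples are nonzero since their reductions are, `br_ne`) give `lam^2 + lam + 1 = 0`, so
`lam = algebraMap k K μ` with `μ ∈ {ω1, ω1^2}` (`X^2+X+1 = (X-ω1)(X-ω1^2)`).  Reducing along `R`:
`resHom μ = resHom ω1`, so `μ = ω1`; reducing along `R'`: `μ = ω2`. -/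

open Module

namespace Pool.H33.G

/-- ring version of `br` -/
def plcB {A : Type} [CommRing A] (a b : Fin 8 → A) (i j l : Fin 8) : A :=
  (a j - a i) * (b l - b i) - (a l - a i) * (b j - b i)

theorem plc_map {A F : Type} [CommRing A] [Field F] (f : A →+* F) (a b : Fin 8 → A)
    (i j l : Fin 8) : br (fun i => f (a i)) (fun i => f (b i)) i j l = f (plcB a b i j l) := by
  simp [br, plcB]

/-- ring version of `numB` -/
def plcN {A : Type} [CommRing A] (a b : Fin 8 → A) : A :=
  plcB a b 0 3 2 * plcB a b 1 4 0 * plcB a b 7 2 1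

/-- ring version of `denB` -/
def plcD {A : Type} [CommRing A] (a b : Fin 8 → A) : A :=
  plcB a b 3 1 2 * plcB a b 4 2 0 * plcB a b 0 7 1

theorem plc_num {A F : Type} [CommRing A] [Field F] (f : A →+* F) (a b : Fin 8 → A) :
    numB (fun i => f (a i)) (fun i => f (b i)) = f (plcN a b) := by
  simp only [numB, plcN, plc_map, map_mul]

theorem plc_den {A F : Type} [CommRing A] [Field F] (f : A →+* F) (a b : Fin 8 → A) :
    denB (fun i => f (a i)) (fun i => f (b i)) = f (plcD a b) := by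
  simp only [denB, plcD, plc_map, map_mul]

theorem plc_reduce {k K : Type} [Field k] [CharZero k] [Field K] [Algebra k K]
    (R : ValuationSubring K) (hR : ∀ c : k, algebraMap k K c ∈ R) {ω1 μ : k}
    (h1 : ω1 ^ 2 + ω1 + 1 = 0) {α β : Fin 8 → R}
    (hα : ∀ i, IsLocalRing.residue R (α i) = al (resHom R hR ω1) i)
    (hβ : ∀ i, IsLocalRing.residue R (β i) = be (resHom R hR ω1) i)
    (h : numB (fun i => (α i : K)) (fun i => (β i : K)) =
      algebraMap k K μ * denB (fun i => (α i : K)) (fun i => (β i : K))) : ω1 = μ := by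
  have hchar : CharZero (IsLocalRing.ResidueField R) :=
    charZero_of_injective_ringHom (resHom R hR).injective
  have hw : (resHom R hR ω1) ^ 2 + resHom R hR ω1 + 1 = 0 := by
    rw [← map_pow, ← map_add, ← map_one (resHom R hR), ← map_add, h1, map_zero]
  obtain ⟨hn, hd⟩ := num_eq hw
  have e1 : al (resHom R hR ω1) = fun i => IsLocalRing.residue R (α i) := by
    funext i; exact (hα i).symm
  have e2 : be (resHom R hR ω1) = fun i => IsLocalRing.residue R (β i) := by
    funext i; exact (hβ i).symm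
  rw [e1, e2, plc_num, plc_den] at hn
  rw [e1, e2, plc_den] at hd
  have hK : plcN α β = (⟨algebraMap k K μ, hR μ⟩ : R) * plcD α β := by
    apply Subtype.ext
    have h2 := plc_num (algebraMap R K) α β
    have h3 := plc_den (algebraMap R K) α β
    show algebraMap R K (plcN α β) = algebraMap k K μ * algebraMap R K (plcD α β)
    rw [← h2, ← h3]
    exact h
  rw [hK, map_mul] at hn
  have h4 : IsLocalRing.residue R ⟨algebraMap k K μ, hR μ⟩ = resHom R hR ω1 :=
    mul_right_cancel₀ hd hn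
  have h5 : resHom R hR μ = resHom R hR ω1 := h4
  exact ((resHom R hR).injective h5).symm

theorem plc_ne {F : Type} [Field F] [CharZero F] (w0 : F) :
    (∀ j : Fin 10, (j = 0 ∨ j = 1) → ∀ i : Fin 9,
      Submodule.span F {sTP w0 i, sTQ w0 i} ≠ Submodule.span F {sP w0 j, sQ w0 j}) := by
  have eP : ∀ i : Fin 9, ¬ (sTP w0 i 0 = 0 ∧ sTP w0 i 1 = 0) := by
    intro i
    refine Fin.lastCases ?_ (fun i => ?_) i
    · rintro ⟨-, h2⟩
      have : sTP w0 (Fin.last 8) 1 = 1 := rfl
      rw [this] at h2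
      exact one_ne_zero h2
    · rintro ⟨h1, -⟩
      have : sTP w0 i.castSucc = ![1, al w0 i, 0, 0] := Fin.lastCases_castSucc ..
      rw [this] at h1
      exact one_ne_zero h1
  have eQ : ∀ i : Fin 9, ¬ (sTQ w0 i 2 = 0 ∧ sTQ w0 i 3 = 0) := by
    intro i
    refine Fin.lastCases ?_ (fun i => ?_) i
    · rintro ⟨-, h2⟩
      have : sTQ w0 (Fin.last 8) 3 = 1 := rfl
      rw [this] at h2
      exact one_ne_zero h2
    · rintro ⟨h1, -⟩
      have : sTQ w0 i.castSucc = ![0, 0, 1, be w0 i] := Fin.lastCases_castSucc ..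
      rw [this] at h1
      exact one_ne_zero h1
  intro j hj i h
  rcases hj with rfl | rfl
  · -- third and fourth coordinates vanish on `L 0`
    have hP : sP w0 0 = ![1, 0, 0, 0] := rfl
    have hQ : sQ w0 0 = ![0, 1, 0, 0] := rfl
    have h1 : ∀ v ∈ Submodule.span F {sP w0 0, sQ w0 0}, v 2 = 0 ∧ v 3 = 0 := by
      intro v hv
      obtain ⟨a, b, rfl⟩ := Submodule.mem_span_pair.1 hv
      rw [hP, hQ]
      simp
    have h2 : sTQ w0 i ∈ Submodule.span F {sP w0 0, sQ w0 0} := by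
      rw [← h]; exact Submodule.subset_span (by simp)
    exact eQ i (h1 _ h2)
  · have hP : sP w0 1 = ![0, 0, 1, 0] := rfl
    have hQ : sQ w0 1 = ![0, 0, 0, 1] := rfl
    have h1 : ∀ v ∈ Submodule.span F {sP w0 1, sQ w0 1}, v 0 = 0 ∧ v 1 = 0 := by
      intro v hv
      obtain ⟨a, b, rfl⟩ := Submodule.mem_span_pair.1 hv
      rw [hP, hQ]
      simp
    have h2 : sTP w0 i ∈ Submodule.span F {sP w0 1, sQ w0 1} := by
      rw [← h]; exact Submodule.subset_span (by simp)
    exact eP i (h1 _ h2)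

theorem planar_main {k K : Type} [Field k] [CharZero k] [Field K] [Algebra k K]
    (R R' : ValuationSubring K) (hR : ∀ c : k, algebraMap k K c ∈ R)
    (hR' : ∀ c : k, algebraMap k K c ∈ R') {T : Fin 9 → Submodule K (Fin 4 → K)}
    {L : Fin 10 → Submodule K (Fin 4 → K)} {ω1 ω2 : k} (h1 : ω1 ^ 2 + ω1 + 1 = 0)
    (h2 : ω2 ^ 2 + ω2 + 1 = 0) (hT : ∀ i, finrank K (T i) = 2) (hL : ∀ j, finrank K (L j) = 2)
    (hTd : ∀ i i', i ≠ i' → T i ⊓ T i' = ⊥) (hLd : ∀ j j', j ≠ j' → L j ⊓ L j' = ⊥)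
    (hinc : ∀ i j, (i, j) ∈ Gam → T i ⊓ L j ≠ ⊥)
    (lT : ∀ i, limS R (T i) = Submodule.span _ {sTP (resHom R hR ω1) i, sTQ (resHom R hR ω1) i})
    (lL : ∀ j, limS R (L j) = Submodule.span _ {sP (resHom R hR ω1) j, sQ (resHom R hR ω1) j})
    (lT' : ∀ i, limS R' (T i) = Submodule.span _ {sTP (resHom R' hR' ω2) i, sTQ (resHom R' hR' ω2) i})
    (lL' : ∀ j, limS R' (L j) = Submodule.span _ {sP (resHom R' hR' ω2) j, sQ (resHom R' hR' ω2) j}) :
    ω1 = ω2 := by
  have hchar : CharZero (IsLocalRing.ResidueField R) :=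
    charZero_of_injective_ringHom (resHom R hR).injective
  have hw : (resHom R hR ω1) ^ 2 + resHom R hR ω1 + 1 = 0 := by
    rw [← map_pow, ← map_add, ← map_one (resHom R hR), ← map_add, h1, map_zero]
  obtain ⟨E, α, β, hPD, hα, hβ⟩ := exists_PD R (resHom R hR ω1) hT hL hTd hinc lT lL
  obtain ⟨E', α', β', hPD', hα', hβ'⟩ := exists_PD R' (resHom R' hR' ω2) hT hL hTd hinc lT' lL'
  have hne : ∀ i : Fin 9, T i ≠ L 0 ∧ T i ≠ L 1 := by
    intro i
    constructor
    · intro h
      apply plc_ne (resHom R hR ω1) 0 (Or.inl rfl) i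
      rw [← lT i, ← lL 0, h]
    · intro h
      apply plc_ne (resHom R hR ω1) 1 (Or.inr rfl) i
      rw [← lT i, ← lL 1, h]
  obtain ⟨x, y, z, w, hx, hz, hxy, hzw⟩ := PD_unique hT hL (hne 8) hTd (fun i => hne i.castSucc)
    hPD hPD'
  obtain ⟨hnum, hden⟩ := inv_affine hxy hzw
  -- the configuration over `K`
  have hc : ∀ b, br (fun i => (α i : K)) (fun i => (β i : K)) (blk b 0) (blk b 1) (blk b 2) = 0 :=
    fun b => collinear hT hL hTd hLd hinc hPD b
  have hred : ∀ i j l, br (al (resHom R hR ω1)) (be (resHom R hR ω1)) i j l ≠ 0 →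
      br (fun i => (α i : K)) (fun i => (β i : K)) i j l ≠ 0 := by
    intro i j l h h0
    apply h
    have e1 : al (resHom R hR ω1) = fun i => IsLocalRing.residue R (α i) := by
      funext i; exact (hα i).symm
    have e2 : be (resHom R hR ω1) = fun i => IsLocalRing.residue R (β i) := by
      funext i; exact (hβ i).symm
    rw [e1, e2, plc_map]
    have h2 := plc_map (algebraMap R K) α β i j l
    have h3 : algebraMap R K (plcB α β i j l) = 0 := by rw [← h2]; exact h0
    have h4 : plcB α β i j l = 0 := by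
      have : Function.Injective (algebraMap R K) := Subtype.val_injective
      exact (map_eq_zero_iff _ this).1 h3
    rw [h4, map_zero]
  have hmac := maclane hc (fun i j l hij hil hjl hb => hred i j l (br_ne hw i j l hij hil hjl hb))
  set N := numB (fun i => (α i : K)) (fun i => (β i : K)) with hN
  set D := denB (fun i => (α i : K)) (fun i => (β i : K)) with hD
  have hK1 : (algebraMap k K ω1) ^ 2 + algebraMap k K ω1 + 1 = 0 := by
    rw [← map_pow, ← map_add, ← map_one (algebraMap k K), ← map_add, h1, map_zero]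
  have hfac : (N - algebraMap k K ω1 * D) * (N - algebraMap k K (ω1 ^ 2) * D) = 0 := by
    rw [map_pow]
    linear_combination hmac + (D * (algebraMap k K ω1 - 1) * D - N * D) * hK1
  obtain ⟨μ, hμ⟩ : ∃ μ : k, N = algebraMap k K μ * D := by
    rcases mul_eq_zero.1 hfac with h | h
    · exact ⟨ω1, sub_eq_zero.1 h⟩
    · exact ⟨ω1 ^ 2, sub_eq_zero.1 h⟩
  have r1 : ω1 = μ := plc_reduce R hR h1 hα hβ hμ
  have hμ' : numB (fun i => (α' i : K)) (fun i => (β' i : K)) =
      algebraMap k K μ * denB (fun i => (α' i : K)) (fun i => (β' i : K)) := by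
    have hcne : (x * z) ^ 3 ≠ 0 := pow_ne_zero _ (mul_ne_zero hx hz)
    apply mul_left_cancel₀ hcne
    rw [← hnum, hμ, hden]
    ring
  have r2 : ω2 = μ := plc_reduce R' hR' h2 hα' hβ' hμ'
  rw [r1, r2]

end Pool.H33.G

end S_PLC
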