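import Mathlib
import Pool.Agent.H33.GG.M2
import Pool.Agent.H33.GG.M4
import Pool.Agent.H33.GG.M5
import Pool.Agent.H33.GG.Act
import Pool.Agent.H33.GG.M6

/-! Galois action on the components of Hilbert schemes of space curves, file M7 -/

section S_MCA

/-! # MCA: the generic curve `I` over `K` specialising to the good curve `C`: one component

`Sit` collects the hypotheses.  For `UP I p` (a component of the generic curve): `Lin p e c` with `e ≥ 1`,
`hf p n ≤ e n + 1` (`hf_prime_le`).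
`mc_dichotomy`: let `qp I p ≠ p`.  Let `sT, sL` be the supports of `limI R p` (the sets of `i`, `j` with
`limI R p ≤ C.tI i`, `≤ C.lI j`); they are also the supports of `limI R (qp I p)` (`pow_le_qp`, `limI_pow`,
`qp_le`).  `Lle C.ideal (limI R I)`, `limI R I ≤ limI R (qp I p)`.  `sup_lower` for `limI R p`:
`|sT| + |sL| ≤ e`; `slope_qp` and `sup_upper` for `limI R (qp I p)`: `2 e ≤ e' ≤ |sT| + 2 |sL|`.  Hence `sT = ∅`,
`|sL| = e`, `e' = 2 e`.  By `low` (with `κ = Empty`) for the disjoint lines `L j`, `j ∈ sL`: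
`hf (limI R p) n ≥ e (n+1)` for large `n`, so `e ≤ 1`.  So `e = 1`, `p = vI Λ` (`eq_vI_of_prime`),
`limI R p = vI (limS R Λ)` and `limI R p ≤ C.lI j`, so `limS R Λ = span {P j, Q j}` (`vI_le_iff`, dimension).
`p^2 ≤ qp I p` by `sq_le_qp`.  `limI R (qp I p) ≤ C.dI j`, otherwise `sup_rank` contradicts slope 2; this gives
`1 + M j ≤ c` (`hf_dblI`).  `defect_bound` for `limI R (qp I p) ≥ (limI R p)^2 = (C.lI j)^2` gives the upper
bound. -/

open MvPolynomial Module

namespace Pool.H33.G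

/-- the situation: `I` is (the homogeneous ideal of) a curve over `K` whose limit is the good curve `C` -/
structure Sit {K : Type} [Field K] (R : ValuationSubring K) (I : Ideal (A4 K)) {ι κ : Type}
    [Fintype ι] [Fintype κ] (C : Cfg (IsLocalRing.ResidueField R) ι κ) (Γ : Finset (ι × κ)) :
    Prop where
  hI : HI I
  good : C.Good Γ
  lle : Lle C.ideal (limI R I)
  lin : Lin I (Fintype.card ι + 2 * Fintype.card κ) (chi0 C.M Γ)
  big : ∀ j, 3 * Γ.card + 2 ≤ C.M j

variable {K : Type} [Field K] [IsAlgClosed K] {R : ValuationSubring K}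
  [Infinite (IsLocalRing.ResidueField R)] {I : Ideal (A4 K)} {ι κ : Type} [Fintype ι] [Fintype κ]
  [DecidableEq ι] [DecidableEq κ] {C : Cfg (IsLocalRing.ResidueField R) ι κ} {Γ : Finset (ι × κ)}

theorem mc_comp (S : Sit R I C Γ) {p : Ideal (A4 K)} (hp : UP I p) :
    ∃ (e : ℕ) (c : ℤ), Lin p e c ∧ 1 ≤ e ∧ ∀ n : ℕ, hf p n ≤ e * n + 1 := by
  obtain ⟨e, c, -, hL⟩ := exists_Lin_of_le hp.2.1 hp.2.2.1 S.lin
  have he : 1 ≤ e := by
    rcases Nat.eq_zero_or_pos e with h | h
    · exact absurd ((Lin_Bdd_iff hL).2 h) hp.2.2.2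
    · exact h
  exact ⟨e, c, hL, he, hf_prime_le hp.1 hp.2.1 hL he⟩

theorem mca_span_finrank {F : Type} [Field F] {P Q : Fin 4 → F}
    (h : LinearIndependent F ![P, Q]) : finrank F (Submodule.span F {P, Q}) = 2 := by
  have h1 := finrank_span_eq_card h
  have h2 : Set.range ![P, Q] = {P, Q} := by
    simp [Matrix.range_cons, Matrix.range_empty]
    exact Set.pair_comm _ _
  rw [h2] at h1
  simpa using h1

theorem mca_pair_of_four {F : Type} [Field F] {P Q U V : Fin 4 → F}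
    (h : LinearIndependent F ![P, Q, U, V]) : LinearIndependent F ![P, Q] := by
  have h1 := h.comp ![(0 : Fin 4), 1] (by decide)
  have h2 : ![P, Q] = ![P, Q, U, V] ∘ ![(0 : Fin 4), 1] := by
    funext i
    fin_cases i <;> rfl
  rw [h2]
  exact h1

theorem mca_disj {F : Type} [Field F] {v1 v2 v3 v4 : Fin 4 → F}
    (h : LinearIndependent F ![v1, v2, v3, v4]) :
    Submodule.span F {v1, v2} ⊓ Submodule.span F {v3, v4} = ⊥ := by
  rw [eq_bot_iff]
  rintro x ⟨hx1, hx2⟩
  obtain ⟨a, b, rfl⟩ := Submodule.mem_span_pair.1 hx1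
  obtain ⟨c, e, hce⟩ := Submodule.mem_span_pair.1 hx2
  have hli := Fintype.linearIndependent_iff.1 h ![a, b, -c, -e] (by
    simp [Fin.sum_univ_succ]
    have : a • v1 + b • v2 - (c • v3 + e • v4) = 0 := by rw [hce, sub_self]
    rw [← this]; abel)
  have ha := hli 0
  have hb := hli 1
  simp at ha hb
  rw [ha, hb]
  simp

theorem mc_dichotomy (S : Sit R I C Γ) {p : Ideal (A4 K)} (hp : UP I p) (hne : qp I p ≠ p) :
    ∃ (Λ : Submodule K (Fin 4 → K)) (j : κ), finrank K Λ = 2 ∧ p = vI Λ ∧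
      limS R Λ = Submodule.span _ {C.P j, C.Q j} ∧ limI R p = C.lI j ∧ p ^ 2 ≤ qp I p ∧
      ∃ c : ℤ, Lin (qp I p) 2 c ∧ 1 + (C.M j : ℤ) ≤ c ∧
        c ≤ 1 + C.M j + ((Finset.univ.filter fun i => (i, j) ∈ Γ).card : ℤ) := by
  classical
  have hinfK : Infinite K := inferInstance
  obtain ⟨e, c, hL, he, hle⟩ := mc_comp S hp
  have hqHI : HI (qp I p) := HI_qp S.hI hp.1 hp.2.1
  have hIq : I ≤ qp I p := le_qp hp.1
  have hqp' : qp I p ≤ p := qp_le hp.1 hp.2.2.1
  obtain ⟨e', c', -, hLq⟩ := exists_Lin_of_le hqHI hIq S.lin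
  have h2e : 2 * e ≤ e' := slope_qp S.hI S.lin hp hne hL hLq
  have hCp : Lle C.ideal (limI R p) := Lle_trans S.lle (Lle_of_le (limI_mono R hp.2.2.1))
  have hCq : Lle C.ideal (limI R (qp I p)) := Lle_trans S.lle (Lle_of_le (limI_mono R hIq))
  have hpHI : HI (limI R p) := HI_limI R hp.2.1
  have hqlHI : HI (limI R (qp I p)) := HI_limI R hqHI
  let sT : Finset ι := Finset.univ.filter fun i => limI R p ≤ C.tI i
  let sL : Finset κ := Finset.univ.filter fun j => limI R p ≤ C.lI j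
  have hsT : ∀ i, i ∈ sT ↔ limI R p ≤ C.tI i := fun i => by simp [sT]
  have hsL : ∀ j, j ∈ sL ↔ limI R p ≤ C.lI j := fun j => by simp [sL]
  -- lower bound
  have hlow : sT.card + sL.card ≤ e := by
    obtain ⟨c0, h0⟩ := sup_lower S.good sT sL (fun i hi => (hsT i).1 hi) (fun j hj => (hsL j).1 hj)
    refine Lin_ge hL (c' := -c0) ⟨0, fun n _ => ?_⟩
    have := h0 n
    rw [hf_limI R hp.2.1] at this
    push_cast
    linarith
  -- supports agree
  obtain ⟨N, hN⟩ := pow_le_qp S.hI S.lin hp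
  have hsupp : ∀ {P0 : Ideal (A4 (IsLocalRing.ResidueField R))}, P0.IsPrime →
      limI R (qp I p) ≤ P0 → limI R p ≤ P0 := by
    intro P0 hP0 h
    have h1 : limI R p ^ N ≤ P0 :=
      le_trans (limI_pow R N) (le_trans (limI_mono R hN) h)
    exact hP0.le_of_pow_le h1
  have hup : e' ≤ sT.card + 2 * sL.card := by
    obtain ⟨c0, h0⟩ := sup_upper S.good hqlHI hCq sT sL
      (fun i hi => (hsT i).2 (hsupp (lineI_isPrime _ _) hi))
      (fun j hj => (hsL j).2 (hsupp (lineI_isPrime _ _) hj))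
    refine Lin_le hLq (c' := c0) ⟨0, fun n _ => ?_⟩
    have := h0 n
    rw [hf_limI R hqHI] at this
    push_cast
    linarith
  have hT0 : sT.card = 0 := by omega
  have hLe : sL.card = e := by omega
  have he' : e' = 2 * e := by omega
  -- disjoint lines
  have hle1 : e ≤ 1 := by
    obtain ⟨n0, hn0⟩ := low (F := IsLocalRing.ResidueField R) (ι := {j // j ∈ sL}) (κ := Empty)
      (fun j => Submodule.span _ {C.P j.1, C.Q j.1}) (fun j => j.elim)
      (fun j => mca_span_finrank (mca_pair_of_four (S.good.lind j.1))) (fun j => j.elim)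
      (fun i i' hii => mca_disj (S.good.ldis i.1 i'.1 (fun h => hii (Subtype.ext h))))
      (fun j => j.elim) (fun _ j => j.elim) (fun j => j.elim) (fun j => j.elim) (fun j => j.elim)
      (fun j => j.elim) ∅ (fun _ j => j.elim)
    have h1 := hn0 n0 le_rfl
    have h2 : limI R p ≤ (⨅ i : {j // j ∈ sL}, vI (Submodule.span _ {C.P i.1, C.Q i.1})) ⊓
        (⨅ j : Empty, (j.elim : Ideal (A4 (IsLocalRing.ResidueField R)))) := by
      refine le_inf (le_iInf fun i => ?_) (le_iInf fun j => j.elim)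
      rw [← lineI_eq_vI]
      exact (hsL i.1).1 i.2
    have h3 := hf_anti h2 n0
    rw [hf_limI R hp.2.1] at h3
    have h4 := hle n0
    simp only [Finset.univ_eq_empty, Finset.sum_empty, Finset.card_empty, Fintype.card_coe] at h1
    have h5 : (sL.card : ℤ) * (n0 + 1) ≤ e * n0 + 1 := by
      have := h1.trans (h3.trans h4)
      push_cast at this
      linarith
    rw [hLe] at h5
    have : (e : ℤ) ≤ 1 := by linarith
    exact_mod_cast this
  obtain rfl : e = 1 := le_antisymm hle1 he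
  obtain rfl : e' = 2 := by omega
  obtain ⟨j, hj⟩ := Finset.card_eq_one.1 hLe
  have hjL : limI R p ≤ C.lI j := (hsL j).1 (by rw [hj]; exact Finset.mem_singleton_self j)
  obtain ⟨Λ, hΛ, hpΛ⟩ := eq_vI_of_prime hp.1 hp.2.1 hL (fun n => by have := hle n; push_cast at this; linarith)
  have hlimΛ : limI R p = vI (limS R Λ) := by rw [hpΛ, limI_vI R hΛ]
  have hli : LinearIndependent _ ![C.P j, C.Q j] := mca_pair_of_four (S.good.lind j)
  have hlj : C.lI j = vI (Submodule.span _ {C.P j, C.Q j}) := lineI_eq_vI _ _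
  have hΛeq : limS R Λ = Submodule.span _ {C.P j, C.Q j} := by
    have h1 : vI (limS R Λ) ≤ vI (Submodule.span _ {C.P j, C.Q j}) := by
      rw [← hlimΛ, ← hlj]; exact hjL
    have h2 := vI_le_iff.1 h1
    refine (Submodule.eq_of_le_of_finrank_eq h2 ?_).symm
    rw [mca_span_finrank hli, finrank_limS R, hΛ]
  have hlimeq : limI R p = C.lI j := by rw [hlimΛ, hΛeq, hlj]
  have hsq : p ^ 2 ≤ qp I p := sq_le_qp S.hI S.lin hp hne hL (by simpa using hLq)
  have hTn : ∀ i, ¬ limI R (qp I p) ≤ C.tI i := by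
    intro i hi
    have : i ∈ sT := (hsT i).2 (hsupp (lineI_isPrime _ _) hi)
    rw [Finset.card_eq_zero.1 hT0] at this
    simp at this
  have hLn : ∀ j', limI R (qp I p) ≤ C.lI j' → j' = j := by
    intro j' hj'
    have : j' ∈ sL := (hsL j').2 (hsupp (lineI_isPrime _ _) hj')
    rw [hj] at this
    simpa using this
  have hd : limI R (qp I p) ≤ C.dI j := by
    by_contra hcon
    obtain ⟨c0, h0⟩ := sup_rank S.good hqlHI hCq j hTn hLn hcon
    have : (2 : ℕ) ≤ 1 := by
      refine Lin_le hLq (c' := c0) ⟨0, fun n _ => ?_⟩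
      have := h0 n
      rw [hf_limI R hqHI] at this
      push_cast
      linarith
    omega
  refine ⟨Λ, j, hΛ, hpΛ, hΛeq, hlimeq, hsq, c', hLq, ?_, ?_⟩
  · obtain ⟨n0, hn0⟩ := hLq
    have h1 := hn0 (max n0 (C.M j)) (le_max_left _ _)
    have h2 := hf_anti hd (max n0 (C.M j))
    rw [hf_limI R hqHI] at h2
    have h3 : hf (C.dI j) (max n0 (C.M j)) = 2 * (max n0 (C.M j) : ℕ) + 1 + C.M j :=
      hf_dblI (S.good.lind j) (S.good.deg j) (S.good.pos j) (le_max_right _ _)
    rw [h3, h1] at h2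
    push_cast at h2 ⊢
    linarith
  · have hsq' : (C.lI j) ^ 2 ≤ limI R (qp I p) := by
      rw [← hlimeq]
      exact le_trans (limI_pow R 2) (limI_mono R hsq)
    obtain ⟨n1, hn1⟩ := defect_bound S.good hqlHI hCq j hsq'
    obtain ⟨n0, hn0⟩ := hLq
    have h1 := hn0 (max n0 n1) (le_max_left _ _)
    have h2 := hn1 (max n0 n1) (le_max_right _ _)
    rw [hf_limI R hqHI, h1] at h2
    push_cast at h2 ⊢
    linarith

end Pool.H33.G

end S_MCA

section S_MCB

/-! # MCB: injectivity of the specialisation on double components; the pure part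

`mc_inj`: if `p ≠ p'` both specialise to `L j`, then `q = qp I p ⊓ qp I p'` has slope 4 (`Lin_finset_inf` or
`hf_inf_add_sup`: no prime with unbounded Hilbert function contains both, by `UP_eq`), while
`limI R q ≥ limI R (p^2 * p'^2) ≥ (C.lI j)^4`, so the support of `limI R q` is contained in `{L j}` and
`sup_upper` gives slope `≤ 2`.
`mc_pure`: `J = s.inf (qp I) ≥ I`; `hf I n ≤ hf J n + c` (`decomp`); `sup_pure` for `limI R J` gives
`limI R J ≤ C.ideal`, hence `hf J n = hf (limI R J) n ≥ hf C.ideal n = hf I n ≥ hf J n` for large `n`. -/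

open MvPolynomial Module

namespace Pool.H33.G

variable {K : Type} [Field K] [IsAlgClosed K] {R : ValuationSubring K}
  [Infinite (IsLocalRing.ResidueField R)] {I : Ideal (A4 K)} {ι κ : Type} [Fintype ι] [Fintype κ]
  [DecidableEq ι] [DecidableEq κ] {C : Cfg (IsLocalRing.ResidueField R) ι κ} {Γ : Finset (ι × κ)}

omit [IsAlgClosed K] in
theorem mcb_hg {F : Type} [Field F] {g : Polynomial F} {M : ℕ} (hd : g.natDegree = M) (hM : 0 < M)
    {t : F} (ht : t ≠ 0) : MvPolynomial.eval ![0, t] (hg g M) ≠ 0 := by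
  have h1 : MvPolynomial.eval ![0, t] (hg g M) = g.coeff M * t ^ M := by
    unfold hg
    rw [map_sum, Finset.sum_range_succ]
    have : ∑ i ∈ Finset.range M, MvPolynomial.eval ![0, t]
        (C (g.coeff i) * X 0 ^ (M - i) * X 1 ^ i) = 0 := by
      refine Finset.sum_eq_zero fun i hi => ?_
      have hi' : M - i ≠ 0 := by have := Finset.mem_range.1 hi; omega
      simp [hi']
    rw [this]
    simp
  rw [h1]
  refine mul_ne_zero ?_ (pow_ne_zero _ ht)
  have hg0 : g ≠ 0 := by rintro rfl; simp at hd; omega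
  rw [← hd]
  exact Polynomial.leadingCoeff_ne_zero.2 hg0

omit [IsAlgClosed K] [Fintype ι] [Fintype κ] [DecidableEq ι] [DecidableEq κ] in
theorem mcb_ne (hC : C.Good Γ) (i : ι) (j : κ) : ¬ C.lI j ≤ C.tI i := by
  intro h
  have h1 : Submodule.span (IsLocalRing.ResidueField R) {C.TP i, C.TQ i} ≤
      Submodule.span (IsLocalRing.ResidueField R) {C.P j, C.Q j} := by
    have h2 : vI (Submodule.span _ {C.P j, C.Q j}) ≤ vI (Submodule.span _ {C.TP i, C.TQ i}) := by
      rw [← lineI_eq_vI, ← lineI_eq_vI]; exact h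
    exact vI_le_iff.1 h2
  by_cases hij : (i, j) ∈ Γ
  · obtain ⟨s, t, hst, -, hn⟩ := hC.node i j hij
    have h3 : Submodule.span (IsLocalRing.ResidueField R) {C.P j, C.Q j, C.TP i, C.TQ i} ≤
        Submodule.span _ {C.P j, C.Q j} := by
      refine Submodule.span_le.2 ?_
      rintro x (rfl | rfl | rfl | rfl)
      · exact Submodule.subset_span (by simp)
      · exact Submodule.subset_span (by simp)
      · exact h1 (Submodule.subset_span (by simp))
      · exact h1 (Submodule.subset_span (by simp))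
    obtain ⟨a, b, hab⟩ := Submodule.mem_span_pair.1 (h3 hn)
    set G0 := MvPolynomial.eval ![s, t] (hg (C.g j) (C.M j)) with hG0
    have hli := Fintype.linearIndependent_iff.1 (hC.lind j) ![a, b, -s ^ C.M j, -G0] (by
      simp [Fin.sum_univ_succ]
      rw [← sub_eq_zero] at hab
      rw [← hab]; abel)
    have hs := hli 2
    have ht := hli 3
    simp at hs ht
    have hs0 : s = 0 := hs.1
    subst hs0
    have ht0 : t ≠ 0 := by simpa using hst
    apply mcb_hg (hC.deg j) (hC.pos j) ht0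
    rw [← hG0]; exact ht
  · have hli := hC.non i j hij
    have h4 := mca_disj hli
    have h5 : C.TP i ∈ Submodule.span (IsLocalRing.ResidueField R) {C.TP i, C.TQ i} ⊓
        Submodule.span _ {C.P j, C.Q j} :=
      ⟨Submodule.subset_span (by simp), h1 (Submodule.subset_span (by simp))⟩
    rw [h4, Submodule.mem_bot] at h5
    exact (mca_pair_of_four hli).ne_zero 0 h5

omit [IsAlgClosed K] [Fintype ι] [Fintype κ] [DecidableEq ι] [DecidableEq κ] in
theorem mcb_ne' (hC : C.Good Γ) {j j' : κ} (hjj : j ≠ j') : ¬ C.lI j ≤ C.lI j' := by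
  intro h
  have h1 : Submodule.span (IsLocalRing.ResidueField R) {C.P j', C.Q j'} ≤
      Submodule.span (IsLocalRing.ResidueField R) {C.P j, C.Q j} := by
    have h2 : vI (Submodule.span _ {C.P j, C.Q j}) ≤ vI (Submodule.span _ {C.P j', C.Q j'}) := by
      rw [← lineI_eq_vI, ← lineI_eq_vI]; exact h
    exact vI_le_iff.1 h2
  have hli := hC.ldis j j' hjj
  have h4 := mca_disj hli
  have h5 : C.P j' ∈ Submodule.span (IsLocalRing.ResidueField R) {C.P j, C.Q j} ⊓
      Submodule.span _ {C.P j', C.Q j'} :=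
    ⟨h1 (Submodule.subset_span (by simp)), Submodule.subset_span (by simp)⟩
  rw [h4, Submodule.mem_bot] at h5
  exact (mca_pair_of_four (hC.lind j')).ne_zero 0 h5

theorem mc_inj (S : Sit R I C Γ) {p p' : Ideal (A4 K)} (hp : UP I p) (hp' : UP I p')
    (hne : qp I p ≠ p) (hne' : qp I p' ≠ p') (h : limI R p = limI R p') : p = p' := by
  by_contra hpp
  obtain ⟨Λ, j, hΛ, hpΛ, hlS, hlI, hsq, c, hLq, hc1, hc2⟩ := mc_dichotomy S hp hne
  obtain ⟨Λ', j', hΛ', hpΛ', hlS', hlI', hsq', c', hLq', hc1', hc2'⟩ := mc_dichotomy S hp' hne'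
  have hq : HI (qp I p) := HI_qp S.hI hp.1 hp.2.1
  have hq' : HI (qp I p') := HI_qp S.hI hp'.1 hp'.2.1
  have hsup : HI (qp I p ⊔ qp I p') := HI_sup hq hq'
  have hIq : I ≤ qp I p := le_qp hp.1
  have hIq' : I ≤ qp I p' := le_qp hp'.1
  -- the sum is bounded
  have hb : Bdd (qp I p ⊔ qp I p') := by
    by_contra hb
    obtain ⟨P0, hP0⟩ := exists_prime hsup hb
    have h1 : p ^ 2 ≤ P0 := le_trans hsq (le_trans le_sup_left hP0.2.2.1)
    have h2 : p' ^ 2 ≤ P0 := le_trans hsq' (le_trans le_sup_right hP0.2.2.1)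
    have h3 : p ≤ P0 := hP0.1.le_of_pow_le h1
    have h4 : p' ≤ P0 := hP0.1.le_of_pow_le h2
    have hUP : UP I P0 := ⟨hP0.1, hP0.2.1, le_trans hIq (le_trans le_sup_left hP0.2.2.1), hP0.2.2.2⟩
    exact hpp ((UP_eq S.lin hp hUP h3).trans (UP_eq S.lin hp' hUP h4).symm)
  obtain ⟨b, hb⟩ := hb
  have hqi : HI (qp I p ⊓ qp I p') := HI_inf hq hq'
  have hC : Lle C.ideal (limI R (qp I p ⊓ qp I p')) :=
    Lle_trans S.lle (Lle_of_le (limI_mono R (le_inf hIq hIq')))
  have hpow : (C.lI j) ^ 4 ≤ limI R (qp I p ⊓ qp I p') := by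
    have h1 : p ^ 2 * p' ^ 2 ≤ qp I p ⊓ qp I p' :=
      le_trans (Ideal.mul_mono hsq hsq') Ideal.mul_le_inf
    have h2 : limI R p ^ 2 * limI R p' ^ 2 ≤ limI R (qp I p ⊓ qp I p') :=
      le_trans (Ideal.mul_mono (limI_pow R 2) (limI_pow R 2))
        (le_trans (limI_mul R) (limI_mono R h1))
    rw [← h, hlI, ← pow_add] at h2
    exact h2
  obtain ⟨c0, h0⟩ := sup_upper S.good (HI_limI R hqi) hC ∅ {j}
    (fun i hi => by
      exfalso
      have h1 : C.lI j ≤ C.tI i := by
        have := le_trans hpow hi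
        exact (lineI_isPrime _ _ : (C.tI i).IsPrime).le_of_pow_le this
      exact mcb_ne S.good i j h1)
    (fun j2 hj2 => by
      have h1 : C.lI j ≤ C.lI j2 := by
        have := le_trans hpow hj2
        exact (lineI_isPrime _ _ : (C.lI j2).IsPrime).le_of_pow_le this
      by_contra hcon
      exact mcb_ne' S.good (fun h => hcon (by simp [h])) h1)
  obtain ⟨n1, hn1⟩ := hLq
  obtain ⟨n2, hn2⟩ := hLq'
  -- choose a large `n`
  have key : ∀ n : ℕ, n1 ≤ n → n2 ≤ n → 2 * (n : ℤ) ≤ c0 + b - c - c' := by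
    intro n ha hb'
    have e1 := hf_inf_add_sup hq hq' n
    have e2 := hn1 n ha
    have e3 := hn2 n hb'
    have e4 := hb n
    have e5 := h0 n
    rw [hf_limI R hqi] at e5
    simp only [Finset.card_empty, Finset.card_singleton] at e5
    push_cast at e1 e2 e3 e4 e5
    linarith
  have hbig := key (n1 + n2 + (c0 + b - c - c').toNat + 1) (by omega) (by omega)
  have := Int.self_le_toNat (c0 + b - c - c')
  push_cast at hbig
  have h5 : (0 : ℤ) ≤ n1 := Int.natCast_nonneg _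
  have h6 : (0 : ℤ) ≤ n2 := Int.natCast_nonneg _
  have h7 : (0 : ℤ) ≤ ((c0 + b - c - c').toNat : ℤ) := Int.natCast_nonneg _
  linarith

theorem mc_pure (S : Sit R I C Γ) {s : Finset (Ideal (A4 K))} (hs : ∀ p, p ∈ s ↔ UP I p) :
    limI R (s.inf (qp I)) ≤ C.ideal ∧
      Lin (s.inf (qp I)) (Fintype.card ι + 2 * Fintype.card κ) (chi0 C.M Γ) := by
  obtain ⟨c, hc⟩ := decomp S.hI S.lin hs
  have hJHI : HI (s.inf (qp I)) := HI_finset_inf fun p hp =>
    HI_qp S.hI ((hs p).1 hp).1 ((hs p).1 hp).2.1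
  have hIJ : I ≤ s.inf (qp I) := Finset.le_inf fun p hp => le_qp ((hs p).1 hp).1
  have hC : Lle C.ideal (limI R (s.inf (qp I))) := Lle_trans S.lle (Lle_of_le (limI_mono R hIJ))
  obtain ⟨n0, hn0⟩ := S.lin
  obtain ⟨n1, hn1⟩ := exact_hf S.good
  have h1 : limI R (s.inf (qp I)) ≤ C.ideal := by
    refine sup_pure S.good (HI_limI R hJHI) hC (c := c) ⟨max n0 n1, fun n hn => ?_⟩
    rw [hf_limI R hJHI, hn1 n (le_trans (le_max_right _ _) hn), ← hn0 n (le_trans (le_max_left _ _) hn)]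
    exact hc n
  refine ⟨h1, max n0 n1, fun n hn => ?_⟩
  have h2 := hf_anti h1 n
  rw [hf_limI R hJHI, hn1 n (le_trans (le_max_right _ _) hn)] at h2
  have h3 := hf_anti hIJ n
  rw [hn0 n (le_trans (le_max_left _ _) hn)] at h3
  exact le_antisymm h3 h2

end Pool.H33.G

end S_MCB

section S_MCC

/-! # MCC: every double line is the limit of a double component (genus counting)

Let `s` be the finite set of all components (`UP_finite`), `D` the subset with `qp I p ≠ p`, `A` the rest.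
`hf (s.inf (qp I)) n ≤ Σ_A hf p n + Σ_D hf (qp I p) n ≤ Σ_A (e_p n + 1) + Σ_D (2 n + c_p)` with
`c_p ≤ 1 + M j(p) + ν j(p)`, `j : D → κ` injective (`mc_inj`).  `sum_slopes`:
`Σ_A e_p + 2 |D| = |ι| + 2 |κ|`, so comparing constant terms (`mc_pure`)
`chi0 ≤ |A| + Σ_D c_p ≤ (|ι| + 2 |κ| - 2 |D|) + Σ_{j ∈ j(D)} (1 + M j + ν j)`.  With `κ' = κ \ j(D)`,
`|κ| - |D| = |κ'|`, `Σ ν j ≤ |Γ|`: `Σ_{j ∈ κ'} (1 + M j - 2) ≤ 3 |Γ|`, contradicting `M j ≥ 3 |Γ| + 2` unless
`κ' = ∅`. -/

open MvPolynomial Module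

namespace Pool.H33.G

variable {K : Type} [Field K] [IsAlgClosed K] {R : ValuationSubring K}
  [Infinite (IsLocalRing.ResidueField R)] {I : Ideal (A4 K)} {ι κ : Type} [Fintype ι] [Fintype κ]
  [DecidableEq ι] [DecidableEq κ] {C : Cfg (IsLocalRing.ResidueField R) ι κ} {Γ : Finset (ι × κ)}

/-- the numerical argument -/
theorem MCC_arith {ι κ P : Type} [Fintype ι] [Fintype κ] [DecidableEq ι] [DecidableEq κ] [DecidableEq P]
    {M : κ → ℕ} {Γ : Finset (ι × κ)} (big : ∀ j, 3 * Γ.card + 2 ≤ M j) (A D : Finset P)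
    (e : P → ℕ) (c : P → ℤ) (jj : P → κ) (he : ∀ p ∈ A, 1 ≤ e p) (hinj : Set.InjOn jj D)
    (hsum : ∑ p ∈ A, e p + 2 * D.card = Fintype.card ι + 2 * Fintype.card κ)
    (hc : ∀ p ∈ D, c p ≤ 1 + M (jj p) +
      ((Finset.univ.filter fun i => (i, jj p) ∈ Γ).card : ℤ))
    (hchi : chi0 M Γ ≤ (A.card : ℤ) + ∑ p ∈ D, c p) (j : κ) : ∃ p ∈ D, jj p = j := by
  classical
  by_contra hcon
  push Not at hcon
  set T : Finset κ := D.image jj with hT
  have hjT : j ∉ T := by
    rw [hT, Finset.mem_image]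
    rintro ⟨p, hp, hpj⟩
    exact hcon p hp hpj
  have hcardT : T.card = D.card := Finset.card_image_of_injOn hinj
  have hA : A.card ≤ ∑ p ∈ A, e p := by
    have := Finset.card_nsmul_le_sum A e 1 he
    simpa using this
  have h1 : ∑ p ∈ D, c p ≤ ∑ j ∈ T, (1 + (M j : ℤ) +
      ((Finset.univ.filter fun i => (i, j) ∈ Γ).card : ℤ)) := by
    rw [hT, Finset.sum_image (fun a ha b hb h => hinj ha hb h)]
    exact Finset.sum_le_sum hc
  have h2 : ∑ j ∈ T, ((Finset.univ.filter fun i => (i, j) ∈ Γ).card : ℤ) ≤ (Γ.card : ℤ) := by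
    have h3 : ∑ j : κ, (Finset.univ.filter fun i => (i, j) ∈ Γ).card = Γ.card := by
      rw [Finset.card_eq_sum_card_fiberwise (f := Prod.snd) (t := Finset.univ)
        (fun x _ => Finset.mem_coe.2 (Finset.mem_univ _))]
      refine Finset.sum_congr rfl fun b _ => ?_
      refine Finset.card_bij (fun i _ => (i, b)) ?_ ?_ ?_
      · intro i hi
        rw [Finset.mem_filter] at hi ⊢
        exact ⟨hi.2, rfl⟩
      · intro i _ i' _ h
        exact (Prod.mk.inj h).1
      · rintro ⟨i, b'⟩ hx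
        rw [Finset.mem_filter] at hx
        obtain ⟨hx1, hx2⟩ := hx
        simp only at hx2
        subst hx2
        exact ⟨i, by rw [Finset.mem_filter]; exact ⟨Finset.mem_univ _, hx1⟩, rfl⟩
    rw [← h3]
    push_cast
    exact Finset.sum_le_sum_of_subset_of_nonneg (Finset.subset_univ _) fun _ _ _ => by positivity
  rw [Finset.sum_add_distrib] at h1
  have h4 : ∑ j ∈ T, (1 + (M j : ℤ)) + ∑ j ∈ Tᶜ, (1 + (M j : ℤ)) = ∑ j, (1 + (M j : ℤ)) :=
    Finset.sum_add_sum_compl T _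
  have h5 : (2 : ℤ) * Tᶜ.card + (3 * Γ.card + 1) ≤ ∑ j ∈ Tᶜ, (1 + (M j : ℤ)) := by
    have hj : j ∈ Tᶜ := Finset.mem_compl.2 hjT
    rw [← Finset.add_sum_erase _ _ hj]
    have h6 : (Tᶜ.card : ℤ) = (Tᶜ.erase j).card + 1 := by
      rw [Finset.card_erase_of_mem hj]
      have : 0 < Tᶜ.card := Finset.card_pos.2 ⟨j, hj⟩
      omega
    have h7 : (2 : ℤ) * (Tᶜ.erase j).card ≤ ∑ j ∈ Tᶜ.erase j, (1 + (M j : ℤ)) := by
      have := Finset.card_nsmul_le_sum (Tᶜ.erase j) (fun j => 1 + (M j : ℤ)) 2 fun x _ => by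
        have := big x
        have h8 : (2 : ℤ) ≤ M x := by exact_mod_cast (by omega : 2 ≤ M x)
        linarith
      rw [nsmul_eq_mul] at this
      linarith
    have h8 : (3 : ℤ) * Γ.card + 2 ≤ M j := by exact_mod_cast big j
    linarith
  have h6 : (Tᶜ.card : ℤ) = Fintype.card κ - D.card := by
    have := Finset.card_add_card_compl T
    rw [hcardT] at this
    omega
  unfold chi0 at hchi
  have hsum' : (∑ p ∈ A, (e p : ℤ)) + 2 * D.card = Fintype.card ι + 2 * Fintype.card κ := by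
    exact_mod_cast hsum
  have hA' : (A.card : ℤ) ≤ ∑ p ∈ A, (e p : ℤ) := by exact_mod_cast hA
  linarith

theorem mc_surj (S : Sit R I C Γ) (j : κ) :
    ∃ p, UP I p ∧ qp I p ≠ p ∧ limI R p = C.lI j := by
  classical
  have hfin : {p | UP I p}.Finite := UP_finite S.hI S.lin
  set s : Finset (Ideal (A4 K)) := hfin.toFinset with hs
  have hs' : ∀ p, p ∈ s ↔ UP I p := fun p => by rw [hs, Set.Finite.mem_toFinset]; rfl
  set A := s.filter fun p => qp I p = p with hA
  set D := s.filter fun p => ¬ qp I p = p with hD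
  have h1 : ∀ p : Ideal (A4 K), ∃ (e : ℕ) (c : ℤ), UP I p →
      (Lin p e c ∧ 1 ≤ e ∧ ∀ n : ℕ, hf p n ≤ e * n + 1) := by
    intro p
    by_cases hp : UP I p
    · obtain ⟨e, c, h⟩ := mc_comp S hp
      exact ⟨e, c, fun _ => h⟩
    · exact ⟨0, 0, fun h => absurd h hp⟩
  choose e c0 hec using h1
  have h2 : ∀ p : Ideal (A4 K), ∃ (j' : κ) (c : ℤ), (UP I p ∧ qp I p ≠ p) →
      (limI R p = C.lI j' ∧ Lin (qp I p) 2 c ∧
        c ≤ 1 + C.M j' + ((Finset.univ.filter fun i => (i, j') ∈ Γ).card : ℤ)) := by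
    intro p
    by_cases hp : UP I p ∧ qp I p ≠ p
    · obtain ⟨Λ, j', -, -, -, h3, -, c, h4, -, h5⟩ := mc_dichotomy S hp.1 hp.2
      exact ⟨j', c, fun _ => ⟨h3, h4, h5⟩⟩
    · exact ⟨j, 0, fun h => absurd h hp⟩
  choose jj c hjc using h2
  have hAm : ∀ p ∈ A, UP I p ∧ qp I p = p := fun p hp => by
    rw [hA, Finset.mem_filter] at hp
    exact ⟨(hs' p).1 hp.1, hp.2⟩
  have hDm : ∀ p ∈ D, UP I p ∧ qp I p ≠ p := fun p hp => by
    rw [hD, Finset.mem_filter] at hp
    exact ⟨(hs' p).1 hp.1, hp.2⟩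
  have hinj : Set.InjOn jj D := by
    intro p hp p' hp' h
    have h3 := hDm p hp
    have h4 := hDm p' hp'
    refine mc_inj S h3.1 h4.1 h3.2 h4.2 ?_
    rw [(hjc p h3).1, (hjc p' h4).1, h]
  -- slopes
  have hsum := sum_slopes (I := I) S.hI S.lin hs' (e := fun p => if qp I p = p then e p else 2)
    (c := fun p => if qp I p = p then c0 p else c p) (by
      intro p hp
      by_cases h : qp I p = p
      · simp only [if_pos h]
        rw [h]
        exact (hec p ((hs' p).1 hp)).1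
      · simp only [if_neg h]
        exact (hjc p ⟨(hs' p).1 hp, h⟩).2.1)
  have hsum2 : ∑ p ∈ A, e p + 2 * D.card = Fintype.card ι + 2 * Fintype.card κ := by
    rw [← hsum, Finset.sum_ite]
    rw [Finset.sum_const, smul_eq_mul, mul_comm]
  -- the constant terms
  have hup : ∃ n0 : ℕ, ∀ n ≥ n0, hf (s.inf (qp I)) n ≤
      ∑ p ∈ A, ((e p : ℤ) * n + 1) + ∑ p ∈ D, (2 * (n : ℤ) + c p) := by
    have h5 : ∀ p ∈ D, ∃ n0 : ℕ, ∀ n ≥ n0, hf (qp I p) n = 2 * (n : ℤ) + c p := fun p hp => by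
      obtain ⟨n0, h⟩ := (hjc p (hDm p hp)).2.1
      exact ⟨n0, fun n hn => by rw [h n hn]; push_cast; ring⟩
    choose! N hN using h5
    refine ⟨D.sup N, fun n hn => ?_⟩
    refine le_trans (hf_finset_inf_le (fun p hp => ?_) n) ?_
    · have := (hs' p).1 hp
      exact HI_qp S.hI this.1 this.2.1
    · rw [← Finset.sum_filter_add_sum_filter_not s (fun p => qp I p = p)]
      refine add_le_add (Finset.sum_le_sum fun p hp => ?_) (Finset.sum_le_sum fun p hp => ?_)
      · have h6 := hAm p hp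
        rw [h6.2]
        exact (hec p h6.1).2.2 n
      · exact (hN p hp n (le_trans (Finset.le_sup hp) hn)).le
  obtain ⟨n1, hn1⟩ := hup
  obtain ⟨n2, hn2⟩ := (mc_pure S hs').2
  have hchi : chi0 C.M Γ ≤ (A.card : ℤ) + ∑ p ∈ D, c p := by
    have h6 := hn1 (n1 + n2) (by omega)
    rw [hn2 (n1 + n2) (by omega), Finset.sum_add_distrib, Finset.sum_add_distrib,
      ← Finset.sum_mul, Finset.sum_const, Finset.sum_const, nsmul_eq_mul, nsmul_eq_mul] at h6
    have h7 : (∑ p ∈ A, (e p : ℤ)) + 2 * D.card = Fintype.card ι + 2 * Fintype.card κ := by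
      exact_mod_cast hsum2
    have h8 : ((Fintype.card ι + 2 * Fintype.card κ : ℕ) : ℤ) = (∑ p ∈ A, (e p : ℤ)) + 2 * D.card := by
      rw [h7]; push_cast; ring
    rw [h8] at h6
    have h9 : ((∑ p ∈ A, (e p : ℤ)) + 2 * D.card) * ((n1 + n2 : ℕ) : ℤ) =
      (∑ p ∈ A, (e p : ℤ)) * ((n1 + n2 : ℕ) : ℤ) + (D.card : ℤ) * (2 * ((n1 + n2 : ℕ) : ℤ)) := by ring
    rw [h9] at h6
    linarith
  obtain ⟨p, hp, hpj⟩ := MCC_arith S.big A D e c jj (fun p hp => (hec p (hAm p hp).1).2.1) hinj hsum2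
    (fun p hp => (hjc p (hDm p hp)).2.2) hchi j
  refine ⟨p, (hDm p hp).1, (hDm p hp).2, ?_⟩
  rw [(hjc p (hDm p hp)).1, hpj]

end Pool.H33.G

end S_MCC

section S_MCD

/-! # MCD: the reduced components are lines specialising bijectively to the `T i`

Notation as in MCC.  `|D| = |κ|` (`mc_inj`, `mc_surj`), so `Σ_A e_p = |ι|` (`sum_slopes`).  Let
`a = A.inf id`.  `limI R a * limI R (D.inf (qp I)) ≤ limI R (s.inf (qp I)) ≤ C.ideal ≤ C.tI i`; `D.inf (qp I)`
contains `∏ p^2`, so `limI R (D.inf ..) ≥ ∏ (C.lI j)^2` is not contained in the prime `C.tI i`; so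
`limI R a ≤ C.tI i` for all `i`.  By `low` (κ = Empty) `hf a n = hf (limI R a) n ≥ |ι| (n + 1)` for large
`n`, while `hf a n ≤ Σ_A (e_p n + 1) = |ι| n + |A|`, so `|A| ≥ |ι| = Σ e_p ≥ |A|`: all `e_p = 1` and
`|A| = |ι|`.  `eq_vI_of_prime` shows that the `p ∈ A` are lines.  For each `i`, `∏_A limI R p ≤ limI R a ≤ C.tI i`
gives `p_i ∈ A` with `limI R p_i ≤ C.tI i`, so equality (`limI_vI`, `vI_le_iff`).  `i ↦ p_i` is injective, hence
bijective onto `A`. -/

open MvPolynomial Module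

namespace Pool.H33.G

variable {K : Type} [Field K] [IsAlgClosed K] {R : ValuationSubring K}
  [Infinite (IsLocalRing.ResidueField R)] {I : Ideal (A4 K)} {ι κ : Type} [Fintype ι] [Fintype κ]
  [DecidableEq ι] [DecidableEq κ] {C : Cfg (IsLocalRing.ResidueField R) ι κ} {Γ : Finset (ι × κ)}

omit [IsAlgClosed K] [Infinite (IsLocalRing.ResidueField R)] in
theorem mcd_limI_top : limI R (⊤ : Ideal (A4 K)) = ⊤ := by
  rw [Ideal.eq_top_iff_one, mem_limI]
  exact ⟨1, Submodule.mem_top, map_one _⟩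

theorem mcd_prod_le (s : Finset (Ideal (A4 K))) (f : Ideal (A4 K) → Ideal (A4 K)) :
    ∏ p ∈ s, limI R (f p) ≤ limI R (s.inf f) := by
  classical
  induction s using Finset.induction_on with
  | empty => rw [Finset.inf_empty, mcd_limI_top]; exact le_top
  | insert a s ha ih =>
    rw [Finset.prod_insert ha, Finset.inf_insert]
    exact (Ideal.mul_mono_right ih).trans ((limI_mul R).trans (limI_mono R Ideal.mul_le_inf))

omit [IsAlgClosed K] in
theorem mcd_not_le (S : Sit R I C Γ) (i : ι) (j : κ) : ¬ C.lI j ≤ C.tI i := by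
  intro h
  have F := sup_fam S.good
  have h1 := F.eq_of_le (a := Sum.inr j) (p := C.tI i) (F.hI (Sum.inl i)) (F.not_bdd (Sum.inl i)) h
  have h2 := F.inj (Sum.inr j) (Sum.inl i) h1
  simp at h2

/-- the number of double components -/
theorem mcd_card_D (S : Sit R I C Γ) {D : Finset (Ideal (A4 K))}
    (hD : ∀ p, p ∈ D ↔ UP I p ∧ qp I p ≠ p) : D.card = Fintype.card κ := by
  classical
  choose P hP1 hP2 hP3 using mc_surj S
  have hinj : Function.Injective P := by
    intro j j' h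
    have h1 : C.lI j = C.lI j' := by rw [← hP3 j, ← hP3 j', h]
    have h2 := (sup_fam S.good).inj (Sum.inr j) (Sum.inr j') h1
    simpa using h2
  have hDeq : D = Finset.univ.image P := by
    ext p
    rw [hD, Finset.mem_image]
    constructor
    · rintro ⟨hp, hne⟩
      obtain ⟨Λ, j, -, -, -, hl, -⟩ := mc_dichotomy S hp hne
      refine ⟨j, Finset.mem_univ j, ?_⟩
      exact mc_inj S (hP1 j) hp (hP2 j) hne (by rw [hP3 j, hl])
    · rintro ⟨j, -, rfl⟩
      exact ⟨hP1 j, hP2 j⟩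
  rw [hDeq, Finset.card_image_of_injective _ hinj, Finset.card_univ]

/-- every reduced line of `C` contains the limit of a reduced component -/
theorem mcd_exists (S : Sit R I C Γ) {s : Finset (Ideal (A4 K))} (hs : ∀ p, p ∈ s ↔ UP I p)
    (i : ι) : ∃ p, UP I p ∧ qp I p = p ∧ limI R p ≤ C.tI i := by
  have h1 : limI R (s.inf (qp I)) ≤ C.tI i :=
    (mc_pure S hs).1.trans (inf_le_left.trans (iInf_le _ i))
  have h2 := (mcd_prod_le s (qp I)).trans h1
  have hprime : (C.tI i).IsPrime := lineI_isPrime _ _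
  obtain ⟨p, hps, hp⟩ := (Ideal.IsPrime.prod_le hprime).1 h2
  have hup := (hs p).1 hps
  by_cases hne : qp I p = p
  · exact ⟨p, hup, hne, by rw [hne] at hp; exact hp⟩
  · exfalso
    obtain ⟨Λ, j, -, -, -, hl, hsq, -⟩ := mc_dichotomy S hup hne
    have h3 : limI R p ^ 2 ≤ C.tI i := (limI_pow R 2).trans ((limI_mono R hsq).trans hp)
    have h4 := hprime.le_of_pow_le h3
    rw [hl] at h4
    exact mcd_not_le S i j h4

theorem mc_red (S : Sit R I C Γ) : ∃ T' : ι → Submodule K (Fin 4 → K),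
    (∀ i, finrank K (T' i) = 2) ∧ (∀ i, limS R (T' i) = Submodule.span _ {C.TP i, C.TQ i}) ∧
    (∀ p, (UP I p ∧ qp I p = p) ↔ ∃ i, p = vI (T' i)) := by
  classical
  have hinfK : Infinite K := inferInstance
  obtain ⟨s, hs⟩ : ∃ s : Finset (Ideal (A4 K)), ∀ p, p ∈ s ↔ UP I p :=
    ⟨(UP_finite S.hI S.lin).toFinset, fun p => by simp⟩
  let A := s.filter fun p => qp I p = p
  let D := s.filter fun p => ¬ qp I p = p
  have hA : ∀ p, p ∈ A ↔ UP I p ∧ qp I p = p := fun p => by simp [A, hs]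
  have hD : ∀ p, p ∈ D ↔ UP I p ∧ qp I p ≠ p := fun p => by simp [D, hs]
  have hDc := mcd_card_D S hD
  -- slopes
  have hex : ∀ p, ∃ (e : ℕ) (c : ℤ), UP I p → Lin (qp I p) e c := by
    intro p
    by_cases hp : UP I p
    · obtain ⟨e, c, -, h⟩ := exists_Lin_of_le (HI_qp S.hI hp.1 hp.2.1) (le_qp (I := I) hp.1) S.lin
      exact ⟨e, c, fun _ => h⟩
    · exact ⟨0, 0, fun h => absurd h hp⟩
  choose e c he using hex
  have hsum := sum_slopes S.hI S.lin hs (e := e) (c := c) (fun p hp => he p ((hs p).1 hp))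
  have hsplit : ∑ p ∈ A, e p + ∑ p ∈ D, e p = ∑ p ∈ s, e p :=
    Finset.sum_filter_add_sum_filter_not s (fun p => qp I p = p) e
  have hDsum : ∑ p ∈ D, e p = 2 * Fintype.card κ := by
    have h1 : ∀ p ∈ D, e p = 2 := by
      intro p hp
      obtain ⟨hup, hne⟩ := (hD p).1 hp
      obtain ⟨Λ, j, -, -, -, -, -, c', hL, -⟩ := mc_dichotomy S hup hne
      exact (Lin_unique (he p hup) hL).1
    rw [Finset.sum_congr rfl h1, Finset.sum_const, hDc, smul_eq_mul, mul_comm]
  have hAsum : ∑ p ∈ A, e p = Fintype.card ι := by omega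
  have hAe : ∀ p ∈ A, 1 ≤ e p ∧ (∀ n : ℕ, hf p n ≤ e p * n + 1) ∧ Lin p (e p) (c p) := by
    intro p hp
    obtain ⟨hup, heq⟩ := (hA p).1 hp
    obtain ⟨e1, c1, hL, h1, h2⟩ := mc_comp S hup
    have h3 := he p hup
    rw [heq] at h3
    obtain ⟨h4, h5⟩ := Lin_unique h3 hL
    rw [h4]
    exact ⟨h1, h2, h5 ▸ hL⟩
  -- counting
  choose p hp1 hp2 hp3 using mcd_exists S hs
  have hpA : ∀ i, p i ∈ A := fun i => (hA _).2 ⟨hp1 i, hp2 i⟩
  have hHIA : ∀ q ∈ A, HI (id q) := fun q hq => ((hA q).1 hq).1.2.1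
  have hcard : Fintype.card ι ≤ A.card := by
    obtain ⟨n0, hn0⟩ := low (F := IsLocalRing.ResidueField R) (ι := ι) (κ := Empty)
      (fun i => Submodule.span _ {C.TP i, C.TQ i}) (fun j => j.elim)
      (fun i => mca_span_finrank (S.good.tind i)) (fun j => j.elim)
      (fun i i' hii => mca_disj (S.good.tdis i i' hii))
      (fun j => j.elim) (fun _ j => j.elim) (fun j => j.elim) (fun j => j.elim) (fun j => j.elim)
      (fun j => j.elim) ∅ (fun _ j => j.elim)
    have h1 := hn0 n0 le_rfl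
    have h2 : limI R (A.inf id) ≤ (⨅ i : ι, vI (Submodule.span _ {C.TP i, C.TQ i})) ⊓
        (⨅ j : Empty, (j.elim : Ideal (A4 (IsLocalRing.ResidueField R)))) := by
      refine le_inf (le_iInf fun i => ?_) (le_iInf fun j => j.elim)
      rw [← lineI_eq_vI]
      exact (limI_mono R (Finset.inf_le (f := id) (hpA i))).trans (hp3 i)
    have h3 := hf_anti h2 n0
    rw [hf_limI R (HI_finset_inf hHIA)] at h3
    have h4 := hf_finset_inf_le hHIA n0
    have h5 : ∑ a ∈ A, hf (id a) n0 ≤ ∑ a ∈ A, ((e a : ℤ) * n0 + 1) :=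
      Finset.sum_le_sum fun q hq => (hAe q hq).2.1 n0
    rw [Finset.sum_add_distrib, ← Finset.sum_mul, Finset.sum_const, nsmul_eq_mul, mul_one] at h5
    have h6 : (∑ a ∈ A, (e a : ℤ)) = Fintype.card ι := by
      rw [← hAsum]; push_cast; rfl
    rw [h6] at h5
    simp only [Finset.univ_eq_empty, Finset.sum_empty, Finset.card_empty] at h1
    have h7 := h1.trans (h3.trans (h4.trans h5))
    push_cast at h7
    have h8 : (Fintype.card ι : ℤ) ≤ A.card := by linarith
    exact_mod_cast h8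
  have hcard2 : A.card ≤ Fintype.card ι := by
    rw [← hAsum, Finset.card_eq_sum_ones]
    exact Finset.sum_le_sum fun q hq => (hAe q hq).1
  have hcardA : A.card = Fintype.card ι := le_antisymm hcard2 hcard
  have he1 : ∀ q ∈ A, e q = 1 := by
    intro q hq
    have h1 : ∑ a ∈ A, 1 = ∑ a ∈ A, e a := by
      rw [hAsum, ← hcardA, Finset.card_eq_sum_ones]
    exact ((Finset.sum_eq_sum_iff_of_le fun a ha => (hAe a ha).1).1 h1 q hq).symm
  -- the components are lines
  have hline : ∀ q ∈ A, ∃ Λ : Submodule K (Fin 4 → K), finrank K Λ = 2 ∧ q = vI Λ := by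
    intro q hq
    obtain ⟨-, h2, h3⟩ := hAe q hq
    rw [he1 q hq] at h2 h3
    exact eq_vI_of_prime ((hA q).1 hq).1.1 ((hA q).1 hq).1.2.1 h3
      (fun n => by have := h2 n; push_cast at this; linarith)
  choose T' hT1 hT2 using fun i => hline (p i) (hpA i)
  have hT3 : ∀ i, limS R (T' i) = Submodule.span _ {C.TP i, C.TQ i} := by
    intro i
    have h1 : vI (limS R (T' i)) ≤ vI (Submodule.span _ {C.TP i, C.TQ i}) := by
      rw [← limI_vI R (hT1 i), ← hT2 i, ← lineI_eq_vI]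
      exact hp3 i
    have h2 := vI_le_iff.1 h1
    refine (Submodule.eq_of_le_of_finrank_eq h2 ?_).symm
    rw [mca_span_finrank (S.good.tind i), finrank_limS R, hT1 i]
  have hinj : Function.Injective p := by
    intro i i' h
    have h1 : ∀ i, limI R (p i) = C.tI i := by
      intro i
      have h2 : limI R (p i) = limI R (vI (T' i)) := by rw [← hT2 i]
      rw [h2, limI_vI R (hT1 i), hT3 i]
      exact (lineI_eq_vI _ _).symm
    have h3 : C.tI i = C.tI i' := by rw [← h1 i, ← h1 i', h]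
    have h4 := (sup_fam S.good).inj (Sum.inl i) (Sum.inl i') h3
    simpa using h4
  have himg : Finset.univ.image p = A := by
    refine Finset.eq_of_subset_of_card_le ?_ ?_
    · intro q hq
      obtain ⟨i, -, rfl⟩ := Finset.mem_image.1 hq
      exact hpA i
    · rw [Finset.card_image_of_injective _ hinj, Finset.card_univ, hcardA]
  refine ⟨T', hT1, hT3, fun q => ?_⟩
  rw [← hA q, ← himg, Finset.mem_image]
  constructor
  · rintro ⟨i, -, rfl⟩
    exact ⟨i, hT2 i⟩
  · rintro ⟨i, rfl⟩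
    exact ⟨i, Finset.mem_univ i, hT2 i⟩

end Pool.H33.G

end S_MCD

section S_MCE

/-! # MCE: the incidences are preserved

`L' j` from `mc_surj`, `mc_dichotomy`; `T' i` from `mc_red`.  Disjointness of the `T' i` among each other and of
the `L' j`, and `T' i ⊓ L' j = ⊥` for `(i,j) ∉ Γ`: `inf_eq_bot_of_limS`.  `T' i ≠ L' j` since
`vI (T' i)` satisfies `qp = p` and `vI (L' j)` does not.  Let `Γ' = {(i,j) | T' i ⊓ L' j ≠ ⊥} ⊆ Γ`.
`(⨅ vI (T' i)) ⊓ (⨅ qp I (vI (L' j))) = s.inf (qp I)`.  `low` and `mc_pure`: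
`|ι| + Σ c_j - 2 |Γ'| ≤ chi0 = |ι| + Σ (1 + M j) - 2 |Γ|` with `c_j ≥ 1 + M j`; so `|Γ'| ≥ |Γ|`, `Γ' = Γ` and
`c_j = 1 + M j`. -/

open MvPolynomial Module

namespace Pool.H33.G

/-- the conclusion of the classification: lines `T' i`, `L' j` over `K` -/
structure Out {K : Type} [Field K] (R : ValuationSubring K) (I : Ideal (A4 K)) {ι κ : Type}
    (C : Cfg (IsLocalRing.ResidueField R) ι κ) (Γ : Finset (ι × κ))
    (T' : ι → Submodule K (Fin 4 → K)) (L' : κ → Submodule K (Fin 4 → K)) : Prop where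
  fT : ∀ i, finrank K (T' i) = 2
  fL : ∀ j, finrank K (L' j) = 2
  lT : ∀ i, limS R (T' i) = Submodule.span _ {C.TP i, C.TQ i}
  lL : ∀ j, limS R (L' j) = Submodule.span _ {C.P j, C.Q j}
  redT : ∀ p, (UP I p ∧ qp I p = p) ↔ ∃ i, p = vI (T' i)
  redL : ∀ p, (UP I p ∧ qp I p ≠ p) ↔ ∃ j, p = vI (L' j)
  chi : ∀ j, Lin (qp I (vI (L' j))) 2 (1 + C.M j)
  inc : ∀ i j, (i, j) ∈ Γ ↔ T' i ⊓ L' j ≠ ⊥

variable {K : Type} [Field K] [IsAlgClosed K] {R : ValuationSubring K}
  [Infinite (IsLocalRing.ResidueField R)] {I : Ideal (A4 K)} {ι κ : Type} [Fintype ι] [Fintype κ]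
  [DecidableEq ι] [DecidableEq κ] {C : Cfg (IsLocalRing.ResidueField R) ι κ} {Γ : Finset (ι × κ)}

/-- two lines with four independent spanning vectors are disjoint -/
theorem MCE_disj {F : Type} [Field F] {a b c d : Fin 4 → F} (h : LinearIndependent F ![a, b, c, d]) :
    Submodule.span F {a, b} ⊓ Submodule.span F {c, d} = ⊥ := by
  rw [eq_bot_iff]
  rintro x ⟨hx1, hx2⟩
  obtain ⟨s, t, hst⟩ := Submodule.mem_span_pair.1 hx1
  obtain ⟨u, v, huv⟩ := Submodule.mem_span_pair.1 hx2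
  have h0 := Fintype.linearIndependent_iff.1 h ![s, t, -u, -v] (by
    rw [Fin.sum_univ_four]
    show s • a + t • b + (-u) • c + (-v) • d = 0
    rw [neg_smul, neg_smul]
    have : s • a + t • b = u • c + v • d := by rw [hst, huv]
    rw [this]
    abel)
  have hs : s = 0 := h0 0
  have ht : t = 0 := h0 1
  rw [Submodule.mem_bot, ← hst, hs, ht, zero_smul, zero_smul, add_zero]

theorem mc_main (S : Sit R I C Γ) : ∃ T' L', Out R I C Γ T' L' := by
  classical
  have : Infinite K := IsAlgClosed.instInfinite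
  have hfin : {p | UP I p}.Finite := UP_finite S.hI S.lin
  set s : Finset (Ideal (A4 K)) := hfin.toFinset with hs
  have hs' : ∀ p, p ∈ s ↔ UP I p := fun p => by rw [hs, Set.Finite.mem_toFinset]; rfl
  obtain ⟨T', hT2, hTlim, hTred⟩ := mc_red S
  -- the double lines
  have hL : ∀ j, ∃ (Λ : Submodule K (Fin 4 → K)) (c : ℤ), finrank K Λ = 2 ∧ UP I (vI Λ) ∧
      qp I (vI Λ) ≠ vI Λ ∧ limS R Λ = Submodule.span _ {C.P j, C.Q j} ∧
      limI R (vI Λ) = C.lI j ∧ (vI Λ) ^ 2 ≤ qp I (vI Λ) ∧ Lin (qp I (vI Λ)) 2 c ∧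
      1 + (C.M j : ℤ) ≤ c := by
    intro j
    obtain ⟨p, hp, hne, hlim⟩ := mc_surj S j
    obtain ⟨Λ, j', h1, h2, h3, h4, h5, c, h6, h7, -⟩ := mc_dichotomy S hp hne
    have hjj : j' = j := by
      by_contra hj
      have h8 : C.lI j' = C.lI j := by rw [← h4, hlim]
      unfold Cfg.lI at h8
      rw [lineI_eq_vI, lineI_eq_vI] at h8
      have h9 := vI_inj h8
      have h10 := MCE_disj (S.good.ldis j' j hj)
      rw [← h9, inf_idem] at h10
      have h11 : finrank (IsLocalRing.ResidueField R) (Submodule.span (IsLocalRing.ResidueField R) {C.P j', C.Q j'}) = 2 := by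
        rw [← h3, finrank_limS, h1]
      rw [h10, finrank_bot] at h11
      omega
    subst hjj
    subst h2
    exact ⟨Λ, c, h1, hp, hne, h3, h4, h5, h6, h7⟩
  choose L' cc hL2 hLU hLne hLlim hLlimI hLsq hLlin hLc using hL
  have hredL : ∀ p, (UP I p ∧ qp I p ≠ p) ↔ ∃ j, p = vI (L' j) := by
    intro p
    constructor
    · rintro ⟨hp, hne⟩
      obtain ⟨Λ, j, h1, h2, h3, h4, h5, c, h6, h7, -⟩ := mc_dichotomy S hp hne
      exact ⟨j, mc_inj S hp (hLU j) hne (hLne j) (by rw [h4, hLlimI])⟩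
    · rintro ⟨j, rfl⟩
      exact ⟨hLU j, hLne j⟩
  set Γ' : Finset (ι × κ) := Finset.univ.filter fun x => T' x.1 ⊓ L' x.2 ≠ ⊥ with hΓ'
  have hsub : Γ' ⊆ Γ := by
    intro x hx
    rw [hΓ', Finset.mem_filter] at hx
    by_contra hxΓ
    apply hx.2
    apply inf_eq_bot_of_limS R
    rw [hTlim, hLlim]
    exact MCE_disj (S.good.non x.1 x.2 hxΓ)
  have hTU : ∀ i, UP I (vI (T' i)) ∧ qp I (vI (T' i)) = vI (T' i) := fun i =>
    (hTred _).2 ⟨i, rfl⟩
  have hlow := low T' L' hT2 hL2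
    (fun i i' hii => inf_eq_bot_of_limS R (by
      rw [hTlim, hTlim]
      exact MCE_disj (S.good.tdis i i' hii)))
    (fun j j' hjj => inf_eq_bot_of_limS R (by
      rw [hLlim, hLlim]
      exact MCE_disj (S.good.ldis j j' hjj)))
    (fun i j hij => hLne j (by rw [← hij]; exact (hTU i).2))
    (fun j => qp I (vI (L' j))) (fun j => HI_qp S.hI (hLU j).1 (hLU j).2.1) hLsq
    (fun j => qp_le (hLU j).1 (hLU j).2.2.1) Γ' (fun i j hij => by
      by_contra h
      exact hij (by rw [hΓ', Finset.mem_filter]; exact ⟨Finset.mem_univ _, h⟩))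
  obtain ⟨n1, hn1⟩ := hlow
  obtain ⟨n2, hn2⟩ := (mc_pure S hs').2
  choose N hN using hLlin
  have hle : s.inf (qp I) ≤ (⨅ i, vI (T' i)) ⊓ (⨅ j, qp I (vI (L' j))) := by
    refine le_inf (le_iInf fun i => ?_) (le_iInf fun j => ?_)
    · have h1 : s.inf (qp I) ≤ qp I (vI (T' i)) := Finset.inf_le ((hs' _).2 (hTU i).1)
      rwa [(hTU i).2] at h1
    · exact Finset.inf_le ((hs' _).2 (hLU j))
  have hkey : ∑ j, cc j - 2 * (Γ'.card : ℤ) ≤ ∑ j, (1 + (C.M j : ℤ)) - 2 * Γ.card := by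
    set n := n1 + n2 + Finset.univ.sup N with hn
    have h1 := hn1 n (by omega)
    have h2 := hn2 n (by omega)
    have h3 := hf_anti hle n
    have h4 : ∑ j, hf (qp I (vI (L' j))) n = ∑ j, (2 * (n : ℤ) + cc j) := by
      refine Finset.sum_congr rfl fun j _ => ?_
      have := hN j n (le_trans (Finset.le_sup (Finset.mem_univ j)) (by omega))
      rw [this]
      push_cast
      ring
    rw [h4, Finset.sum_add_distrib, Finset.sum_const, nsmul_eq_mul, Finset.card_univ] at h1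
    unfold chi0 at h2
    rw [h2] at h3
    have h5 := le_trans h1 h3
    push_cast at h5
    nlinarith [h5]
  have hsumc : ∑ j, (1 + (C.M j : ℤ)) ≤ ∑ j, cc j := Finset.sum_le_sum fun j _ => hLc j
  have hcard := Finset.card_le_card hsub
  have hΓeq : Γ' = Γ := Finset.eq_of_subset_of_card_le hsub (by
    have h1 : (Γ.card : ℤ) ≤ Γ'.card := by linarith
    exact_mod_cast h1)
  have hceq : ∀ j, cc j = 1 + (C.M j : ℤ) := by
    have h1 : ∑ j, (1 + (C.M j : ℤ)) = ∑ j, cc j := by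
      rw [hΓeq] at hkey
      linarith
    intro j
    exact ((Finset.sum_eq_sum_iff_of_le fun j _ => hLc j).1 h1 j (Finset.mem_univ j)).symm
  refine ⟨T', L', ?_⟩
  exact
    { fT := hT2
      fL := hL2
      lT := hTlim
      lL := hLlim
      redT := hTred
      redL := hredL
      chi := fun j => by
        rw [← hceq j]
        exact ⟨N j, hN j⟩
      inc := fun i j => by
        rw [← hΓeq, hΓ', Finset.mem_filter]
        exact ⟨fun h => h.2, fun h => ⟨Finset.mem_univ _, h⟩⟩ }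

end Pool.H33.G

end S_MCE

section S_UNI

/-! # UNI: the lines `T' i`, `L' j` do not depend on the specialisation -/

open MvPolynomial Module

namespace Pool.H33.G

theorem out_unique {K : Type} [Field K] [Infinite K] {R R' : ValuationSubring K} {I : Ideal (A4 K)}
    {ι κ : Type} {C : Cfg (IsLocalRing.ResidueField R) ι κ}
    {C' : Cfg (IsLocalRing.ResidueField R') ι κ} {Γ : Finset (ι × κ)}
    {T T' : ι → Submodule K (Fin 4 → K)} {L L' : κ → Submodule K (Fin 4 → K)}
    (h : Out R I C Γ T L) (h' : Out R' I C' Γ T' L') (hM : C.M = C'.M)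
    (hinj : Function.Injective C.M) (hΓ : ∀ i i', (∀ j, (i, j) ∈ Γ ↔ (i', j) ∈ Γ) → i = i') :
    T = T' ∧ L = L' := by
  have hL : L = L' := by
    funext j
    obtain ⟨j', hj'⟩ := (h'.redL (vI (L j))).1 ((h.redL (vI (L j))).2 ⟨j, rfl⟩)
    have h1 := h.chi j
    have h2 := h'.chi j'
    rw [← hj'] at h2
    have h3 := (Lin_unique h1 h2).2
    have h4 : C.M j = C.M j' := by
      rw [← hM] at h3
      have : (C.M j : ℤ) = C.M j' := by linarith
      exact_mod_cast this
    have h5 : j = j' := hinj h4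
    rw [vI_inj hj', h5]
  refine ⟨?_, hL⟩
  funext i
  obtain ⟨i', hi'⟩ := (h'.redT (vI (T i))).1 ((h.redT (vI (T i))).2 ⟨i, rfl⟩)
  have h1 : T i = T' i' := vI_inj hi'
  have h2 : i = i' := by
    apply hΓ
    intro j
    rw [h.inc, h'.inc, h1, hL]
  rw [h1, h2]

end Pool.H33.G

end S_UNI

section S_FIN

/-! # FIN: assembly -/

open MvPolynomial Module

namespace Pool.H33.G

theorem hf_eq_of_part_eq {F : Type} [Field F] {I J : Ideal (A4 F)} {n : ℕ}
    (h : part I n = part J n) : hf I n = hf J n := by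
  unfold hf; rw [h]

theorem Lin_curve {k : Type} [Field k] [CharZero k] {ω : k} (hω : ω ^ 2 + ω + 1 = 0) :
    Lin (curve ω).ideal 29 1484 := by
  have h := exact_hf (curve_good hω)
  have h1 : chi0 (curve ω).M Gam = 1484 := chi0_curve
  rw [h1] at h
  simpa using h

/-- the point of the Hilbert scheme given by the explicit curve, for large `r` -/
theorem exists_point {k : Type} [Field k] [CharZero k] {ω : k} (hω : ω ^ 2 + ω + 1 = 0) :
    ∃ r0 : ℕ, ∀ r ≥ r0, ∃ w : HilbPt k 29 (-1483) r, w.1 = part (curve ω).ideal r := by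
  obtain ⟨r1, h1⟩ := part_gen (Good.HI_ideal (C := curve ω))
  obtain ⟨n0, h2⟩ := Lin_curve hω
  refine ⟨max r1 n0, fun r hr => ⟨⟨part (curve ω).ideal r, inf_le_right, fun n hn => ?_⟩, rfl⟩⟩
  rw [hf_eq_of_part_eq (h1 r (le_trans (le_max_left _ _) hr) n hn),
    h2 n (le_trans (le_trans (le_max_right _ _) hr) hn)]
  push_cast
  ring

/-- limits: the generic curve specialises to the explicit curve -/
theorem sit_of_point {k : Type} [Field k] [CharZero k] {r : ℕ} {ω : k}
    (hω : ω ^ 2 + ω + 1 = 0) {w : HilbPt k 29 (-1483) r} {K : Type} [Field K]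
    {I : Ideal (A4 K)} (hI : HI I) (hIf : ∀ n ≥ r, hf I n = (29 : ℕ) * n + 1 - (-1483))
    (R : ValuationSubring K) (φ : k →+* IsLocalRing.ResidueField R)
    {W : Submodule k (A4 k)} (hW : W = part (curve ω).ideal r)
    (hw : ∀ n ≥ r, hf (Ideal.span (W : Set (A4 k))) n = (29 : ℕ) * n + 1 - (-1483))
    (hlim : ∀ f ∈ W, MvPolynomial.map φ f ∈ limI R I) :
    Sit R I ((curve ω).mapC φ) Gam := by
  have hgood : ((curve ω).mapC φ).Good Gam := mapC_good φ (curve_good hω)
  have hchar : CharZero (IsLocalRing.ResidueField R) := charZero_of_injective_ringHom φ.injective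
  have hinf : Infinite (IsLocalRing.ResidueField R) := inferInstance
  have hex := exact_hf hgood
  have hchi : chi0 ((curve ω).mapC φ).M Gam = 1484 := chi0_curve
  rw [hchi] at hex
  refine ⟨hI, hgood, ?_, ?_, ?_⟩
  · -- Lle
    let W' : Submodule (IsLocalRing.ResidueField R) (A4 (IsLocalRing.ResidueField R)) :=
      Submodule.span _ (MvPolynomial.map φ '' (W : Set (A4 k)))
    have hWF : W ≤ Fm k r := by rw [hW]; exact inf_le_right
    have h1 : Ideal.span (W' : Set (A4 _)) ≤ limI R I := by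
      rw [Ideal.span_le]
      intro f hf'
      have hsub : W' ≤ (limI R I).restrictScalars _ := by
        refine Submodule.span_le.2 ?_
        rintro _ ⟨f, hf', rfl⟩
        exact hlim f hf'
      exact hsub hf'
    have h2 : Ideal.span (W' : Set (A4 _)) ≤ ((curve ω).mapC φ).ideal := by
      rw [Ideal.span_le]
      intro f hf'
      have hsub : W' ≤ (((curve ω).mapC φ).ideal).restrictScalars _ := by
        refine Submodule.span_le.2 ?_
        rintro _ ⟨f, hf', rfl⟩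
        have : f ∈ (curve ω).ideal := by
          rw [hW] at hf'
          exact hf'.1
        exact mapC_ideal φ (curve ω) (Ideal.mem_map_of_mem _ this)
      exact hsub hf'
    have h3 : ∀ n ≥ r, hf (Ideal.span (W' : Set (A4 (IsLocalRing.ResidueField R)))) n =
        (29 : ℕ) * n + 1 - (-1483) := by
      intro n hn
      rw [← hw n hn]
      exact hf_span_map φ W hWF
    obtain ⟨n0, hn0⟩ := hex
    refine ⟨max r n0, fun n hn => ?_⟩
    have hn1 : n ≥ r := le_trans (le_max_left _ _) hn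
    have hn2 : n ≥ n0 := le_trans (le_max_right _ _) hn
    have e1 : part (Ideal.span (W' : Set (A4 _))) n = part ((curve ω).mapC φ).ideal n := by
      refine part_eq_of_hf_eq (part_mono h2 n) ?_
      rw [h3 n hn1, hn0 n hn2]
      simp
      ring
    rw [← e1]
    exact part_mono h1 n
  · rw [hchi]
    refine ⟨r, fun n hn => ?_⟩
    rw [hIf n hn]
    simp
    ring
  · intro j
    rw [card_Gam]
    show 3 * 50 + 2 ≤ sM j
    unfold sM
    omega

theorem not_fixed {k : Type} [Field k] [CharZero k] [IsAlgClosed k] {r : ℕ} {ω : k}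
    (hω : ω ^ 2 + ω + 1 = 0) (w : HilbPt k 29 (-1483) r) (hw : w.1 = part (curve ω).ideal r)
    {H : Set (HilbPt k 29 (-1483) r)} (hH : IsIrreducible H) (hwH : w ∈ H) (σ : k ≃+* k)
    (hσ : σ ω ≠ ω) : galAct σ w ∉ H := by
  intro hσw
  obtain ⟨K, _, _, _, _, I, hI, hIf, hpl⟩ := generic_point H hH
  obtain ⟨R, hR, hlim⟩ := hpl w hwH
  obtain ⟨R', hR', hlim'⟩ := hpl (galAct σ w) hσw
  have hIf' : ∀ n ≥ r, hf I n = (29 : ℕ) * n + 1 - (-1483) := fun n hn => hIf n hn
  have S : Sit R I ((curve ω).mapC (resHom R hR)) Gam :=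
    sit_of_point hω (w := w) hI hIf' R (resHom R hR) hw (fun n hn => w.2.2 n hn) hlim
  have S' : Sit R' I ((curve ω).mapC ((resHom R' hR').comp (σ : k →+* k))) Gam := by
    refine sit_of_point hω (w := w) hI hIf' R' _ hw (fun n hn => w.2.2 n hn) ?_
    intro f hf'
    have h1 : MvPolynomial.map (σ : k →+* k) f ∈ (galAct σ w).1 := Submodule.subset_span ⟨f, hf', rfl⟩
    have h2 := hlim' _ h1
    rwa [MvPolynomial.map_map] at h2
  have hchar : CharZero (IsLocalRing.ResidueField R) :=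
    charZero_of_injective_ringHom (resHom R hR).injective
  have hchar' : CharZero (IsLocalRing.ResidueField R') :=
    charZero_of_injective_ringHom (resHom R' hR').injective
  obtain ⟨T, L, O⟩ := mc_main S
  obtain ⟨T', L', O'⟩ := mc_main S'
  have hMinj : Function.Injective ((curve ω).mapC (resHom R hR)).M := by
    intro a b hab
    have : sM a = sM b := hab
    unfold sM at this
    apply Fin.ext; omega
  obtain ⟨rfl, rfl⟩ := out_unique O O' rfl hMinj Gam_distinct
  obtain ⟨m1, m2, m3, m4⟩ := curve_map (ω := ω) (resHom R hR)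
  obtain ⟨m1', m2', m3', m4'⟩ := curve_map (ω := ω) ((resHom R' hR').comp (σ : k →+* k))
  have lT := O.lT
  have lL := O.lL
  have lT' := O'.lT
  have lL' := O'.lL
  rw [m1, m2] at lT
  rw [m3, m4] at lL
  rw [m1', m2'] at lT'
  rw [m3', m4'] at lL'
  have hω' : (σ ω) ^ 2 + σ ω + 1 = 0 := by
    rw [← map_pow, ← map_add, ← map_one σ, ← map_add, hω, map_zero]
  -- disjointness over `K`
  have hg := S.good
  have key : ∀ {v1 v2 v3 v4 : Fin 4 → IsLocalRing.ResidueField R},
      LinearIndependent (IsLocalRing.ResidueField R) ![v1, v2, v3, v4] →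
      Submodule.span (IsLocalRing.ResidueField R) {v1, v2} ⊓
        Submodule.span (IsLocalRing.ResidueField R) {v3, v4} = ⊥ := by
    intro v1 v2 v3 v4 h
    rw [eq_bot_iff]
    rintro x ⟨hx1, hx2⟩
    obtain ⟨a, b, rfl⟩ := Submodule.mem_span_pair.1 hx1
    obtain ⟨c, e, hce⟩ := Submodule.mem_span_pair.1 hx2
    have hli := Fintype.linearIndependent_iff.1 h ![a, b, -c, -e] (by
      simp [Fin.sum_univ_succ]
      have : a • v1 + b • v2 - (c • v3 + e • v4) = 0 := by rw [hce, sub_self]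
      rw [← this]; abel)
    have ha := hli 0
    have hb := hli 1
    simp at ha hb
    rw [ha, hb]
    simp
  have hTd : ∀ i i', i ≠ i' → T i ⊓ T i' = ⊥ := by
    intro i i' hii
    apply inf_eq_bot_of_limS R
    rw [O.lT, O.lT]
    exact key (hg.tdis i i' hii)
  have hLd : ∀ j j', j ≠ j' → L j ⊓ L j' = ⊥ := by
    intro i i' hii
    apply inf_eq_bot_of_limS R
    rw [O.lL, O.lL]
    exact key (hg.ldis i i' hii)
  exact hσ (planar_main R R' hR hR' hω hω' O.fT O.fL hTd hLd (fun i j h => (O.inc i j).1 h)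
    lT lL lT' lL').symm

/-- there is a primitive cube root of unity and an automorphism moving it -/
theorem exists_omega : ∃ ω : AlgebraicClosure ℚ, ω ^ 2 + ω + 1 = 0 ∧
    ∃ σ : AlgebraicClosure ℚ ≃ₐ[ℚ] AlgebraicClosure ℚ, σ ω ≠ ω := by
  obtain ⟨ω, hω⟩ : ∃ ω : AlgebraicClosure ℚ, ω ^ 2 + ω + 1 = 0 := by
    obtain ⟨ω, h⟩ := IsAlgClosed.exists_root
      (Polynomial.X ^ 2 + Polynomial.X + 1 : Polynomial (AlgebraicClosure ℚ)) (by
        have : (Polynomial.X ^ 2 + Polynomial.X + 1 : Polynomial (AlgebraicClosure ℚ)).degree = 2 := by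
          compute_degree!
        rw [this]; norm_num)
    exact ⟨ω, by simpa [Polynomial.IsRoot] using h⟩
  refine ⟨ω, hω, ?_⟩
  haveI hal : Algebra.IsAlgebraic ℚ (AlgebraicClosure ℚ) := AlgebraicClosure.isAlgebraic ℚ
  haveI : IsAlgClosure ℚ (AlgebraicClosure ℚ) := ⟨inferInstance, hal⟩
  haveI : Normal ℚ (AlgebraicClosure ℚ) := IsAlgClosure.normal ℚ (AlgebraicClosure ℚ)
  haveI : IsGalois ℚ (AlgebraicClosure ℚ) := ⟨⟩
  by_contra hcon
  have hcon' : ∀ σ : AlgebraicClosure ℚ ≃ₐ[ℚ] AlgebraicClosure ℚ, σ ω = ω := by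
    intro σ
    by_contra h
    exact hcon ⟨σ, h⟩
  have hmem : ω ∈ (⊥ : IntermediateField ℚ (AlgebraicClosure ℚ)) :=
    (InfiniteGalois.mem_bot_iff_fixed ω).2 hcon'
  rw [IntermediateField.mem_bot] at hmem
  obtain ⟨q, rfl⟩ := hmem
  have h1 : algebraMap ℚ (AlgebraicClosure ℚ) (q ^ 2 + q + 1) = 0 := by simpa using hω
  have h2 : q ^ 2 + q + 1 = 0 := by
    exact (map_eq_zero_iff _ (algebraMap ℚ (AlgebraicClosure ℚ)).injective).1 h1
  nlinarith [sq_nonneg (2 * q + 1)]

/-- The final statement -/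
theorem final : ∃ ω : AlgebraicClosure ℚ, ω ^ 2 + ω + 1 = 0 ∧ ∃ r₀ : ℕ, ∀ r ≥ r₀,
    ∃ w : HilbPt (AlgebraicClosure ℚ) 29 (-1483) r, w.1 = part (curve ω).ideal r ∧
      (∃ H ∈ irreducibleComponents (HilbPt (AlgebraicClosure ℚ) 29 (-1483) r), w ∈ H) ∧
      (∃ σ : AlgebraicClosure ℚ ≃ₐ[ℚ] AlgebraicClosure ℚ, σ ω ≠ ω) ∧
      ∀ H ∈ irreducibleComponents (HilbPt (AlgebraicClosure ℚ) 29 (-1483) r), w ∈ H →
        ∀ σ : AlgebraicClosure ℚ ≃ₐ[ℚ] AlgebraicClosure ℚ, σ ω ≠ ω →
          galAct σ.toRingEquiv '' H ∈ irreducibleComponents (HilbPt (AlgebraicClosure ℚ) 29 (-1483) r) ∧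
          galAct σ.toRingEquiv '' H ≠ H := by
  obtain ⟨ω, hω, hσ⟩ := exists_omega
  obtain ⟨r0, hr0⟩ := exists_point hω
  refine ⟨ω, hω, r0, fun r hr => ?_⟩
  obtain ⟨w, hw⟩ := hr0 r hr
  refine ⟨w, hw, ⟨irreducibleComponent w, irreducibleComponent_mem_irreducibleComponents w,
    mem_irreducibleComponent⟩, hσ, fun H hH hwH σ hσω => ⟨galAct_component _ hH, fun heq => ?_⟩⟩
  have hirr : IsIrreducible H := hH.1
  exact not_fixed hω w hw hirr hwH σ.toRingEquiv hσω (heq ▸ Set.mem_image_of_mem _ hwH)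

end Pool.H33.G

end S_FIN
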